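import Mathlib

open scoped InnerProductSpace

namespace Pool.Agent.PL2

theorem a1_rpow {F : Type*} [NormedAddCommGroup F] {p : ℝ} (x : F) :
    ‖x‖ ^ p = (‖x‖ ^ 2) ^ (p / 2) := by
  rw [← Real.rpow_natCast ‖x‖ 2, ← Real.rpow_mul (norm_nonneg x)]
  congr 1
  push_cast
  ring

theorem a1_clarkson {F : Type*} [NormedAddCommGroup F] [InnerProductSpace ℝ F] {p : ℝ}
    (h2 : 2 ≤ p) (x y : F) : 2 * (‖x‖ ^ p + ‖y‖ ^ p) ≤ ‖x + y‖ ^ p + ‖x - y‖ ^ p := by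
  have hr : 1 ≤ p / 2 := by linarith
  rw [a1_rpow x, a1_rpow y, a1_rpow (x + y), a1_rpow (x - y)]
  have h1 := parallelogram_law_with_norm ℝ x y
  have h3 : (1 / 2 * ‖x + y‖ ^ 2 + 1 / 2 * ‖x - y‖ ^ 2) ^ (p / 2) ≤
      1 / 2 * (‖x + y‖ ^ 2) ^ (p / 2) + 1 / 2 * (‖x - y‖ ^ 2) ^ (p / 2) :=
    (convexOn_rpow hr).2 (sq_nonneg ‖x + y‖) (sq_nonneg ‖x - y‖)
      (by norm_num : (0 : ℝ) ≤ 1 / 2) (by norm_num : (0 : ℝ) ≤ 1 / 2) (by norm_num)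
  have h4 : (‖x‖ ^ 2) ^ (p / 2) + (‖y‖ ^ 2) ^ (p / 2) ≤ (‖x‖ ^ 2 + ‖y‖ ^ 2) ^ (p / 2) := by
    have h := NNReal.add_rpow_le_rpow_add (⟨‖x‖ ^ 2, sq_nonneg _⟩ : NNReal)
      (⟨‖y‖ ^ 2, sq_nonneg _⟩ : NNReal) hr
    exact_mod_cast h
  have h5 : 1 / 2 * ‖x + y‖ ^ 2 + 1 / 2 * ‖x - y‖ ^ 2 = ‖x‖ ^ 2 + ‖y‖ ^ 2 := by
    nlinarith [h1]
  rw [h5] at h3
  linarith

theorem a1_young {p s t : ℝ} (h2 : 2 ≤ p) (hs : 0 ≤ s) (ht : 0 ≤ t) :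
    p * (s ^ (p - 1) * t) ≤ (p - 1) * s ^ p + t ^ p := by
  have hp : 1 < p := by linarith
  have hpq := Real.HolderConjugate.conjExponent hp
  have h := Real.young_inequality_of_nonneg ht (Real.rpow_nonneg hs (p - 1)) hpq
  have h3 : (s ^ (p - 1)) ^ (p.conjExponent) = s ^ p := by
    rw [← Real.rpow_mul hs]
    congr 1
    unfold Real.conjExponent
    field_simp [show p - 1 ≠ 0 by linarith]
  rw [h3] at h
  have h4 : s ^ p / p.conjExponent = (p - 1) * s ^ p / p := by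
    unfold Real.conjExponent
    have : p - 1 ≠ 0 := by linarith
    have : p ≠ 0 := by linarith
    field_simp
  rw [h4] at h
  have h5 : p * (t * s ^ (p - 1)) ≤ p * (t ^ p / p + (p - 1) * s ^ p / p) :=
    mul_le_mul_of_nonneg_left h (by linarith)
  have h6 : p * (t ^ p / p + (p - 1) * s ^ p / p) = t ^ p + (p - 1) * s ^ p := by
    have : p ≠ 0 := by linarith
    field_simp
  rw [h6] at h5
  linarith

theorem a1_zero {F : Type*} [NormedAddCommGroup F] [InnerProductSpace ℝ F] {p : ℝ}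
    (h2 : 2 ≤ p) (a b : F) :
    ‖a‖ ^ p + p * ‖a‖ ^ (p - 2) * ⟪a, b⟫_ℝ ≤ ‖a + b‖ ^ p := by
  rcases eq_or_ne a 0 with rfl | ha
  · rw [inner_zero_left, mul_zero, norm_zero, Real.zero_rpow (by linarith), zero_add, zero_add]
    exact Real.rpow_nonneg (norm_nonneg _) _
  · have hpos : 0 < ‖a‖ := norm_pos_iff.2 ha
    have h1 : ⟪a, b⟫_ℝ = ⟪a, a + b⟫_ℝ - ‖a‖ ^ 2 := by
      rw [inner_add_right, real_inner_self_eq_norm_sq]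
      ring
    have h3 : ‖a‖ ^ (p - 2) * ‖a‖ ^ 2 = ‖a‖ ^ p := by
      rw [← Real.rpow_natCast ‖a‖ 2, ← Real.rpow_add hpos]
      congr 1
      push_cast
      ring
    have h4 : ‖a‖ ^ (p - 2) * ‖a‖ = ‖a‖ ^ (p - 1) := by
      nth_rewrite 2 [← Real.rpow_one ‖a‖]
      rw [← Real.rpow_add hpos]
      congr 1
      ring
    have h5 : ⟪a, a + b⟫_ℝ ≤ ‖a‖ * ‖a + b‖ := real_inner_le_norm _ _
    have h6 : 0 ≤ ‖a‖ ^ (p - 2) := Real.rpow_nonneg (norm_nonneg _) _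
    have h7 : p * ‖a‖ ^ (p - 2) * ⟪a, a + b⟫_ℝ ≤ p * ‖a‖ ^ (p - 2) * (‖a‖ * ‖a + b‖) :=
      mul_le_mul_of_nonneg_left h5 (mul_nonneg (by linarith) h6)
    have h8 : p * ‖a‖ ^ (p - 2) * (‖a‖ * ‖a + b‖) = p * (‖a‖ ^ (p - 1) * ‖a + b‖) := by
      rw [← h4]
      ring
    have h9 := a1_young h2 (norm_nonneg a) (norm_nonneg (a + b))
    rw [h1, mul_sub]
    have h10 : p * ‖a‖ ^ (p - 2) * ‖a‖ ^ 2 = p * ‖a‖ ^ p := by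
      rw [mul_assoc, h3]
    rw [h10]
    nlinarith

theorem a1_step {F : Type*} [NormedAddCommGroup F] [InnerProductSpace ℝ F] {p c : ℝ}
    (h2 : 2 ≤ p)
    (H : ∀ a b : F, ‖a‖ ^ p + p * ‖a‖ ^ (p - 2) * ⟪a, b⟫_ℝ + c * ‖b‖ ^ p ≤ ‖a + b‖ ^ p)
    (a b : F) :
    ‖a‖ ^ p + p * ‖a‖ ^ (p - 2) * ⟪a, b⟫_ℝ + (2 * c + 2) / 2 ^ p * ‖b‖ ^ p ≤ ‖a + b‖ ^ p := by
  have h1 := H a ((1 / 2 : ℝ) • b)
  have h3 := a1_clarkson h2 (a + (1 / 2 : ℝ) • b) ((1 / 2 : ℝ) • b)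
  have h4 : a + (1 / 2 : ℝ) • b + (1 / 2 : ℝ) • b = a + b := by
    rw [add_assoc, ← add_smul]
    norm_num
  have h5 : a + (1 / 2 : ℝ) • b - (1 / 2 : ℝ) • b = a := by abel
  rw [h4, h5] at h3
  have h6 : ‖(1 / 2 : ℝ) • b‖ ^ p = ‖b‖ ^ p / 2 ^ p := by
    rw [norm_smul, Real.norm_eq_abs, abs_of_pos (by norm_num), Real.mul_rpow (by norm_num)
      (norm_nonneg _), Real.div_rpow (by norm_num) (by norm_num), Real.one_rpow]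
    ring
  rw [h6] at h1 h3
  rw [inner_smul_right] at h1
  have h7 : (2 * c + 2) / 2 ^ p * ‖b‖ ^ p = 2 * (c * (‖b‖ ^ p / 2 ^ p)) + 2 * (‖b‖ ^ p / 2 ^ p) := by
    ring
  rw [h7]
  nlinarith

theorem a1_mono {F : Type*} [NormedAddCommGroup F] [InnerProductSpace ℝ F] {p c c' : ℝ}
    (hc : c' ≤ c)
    (H : ∀ a b : F, ‖a‖ ^ p + p * ‖a‖ ^ (p - 2) * ⟪a, b⟫_ℝ + c * ‖b‖ ^ p ≤ ‖a + b‖ ^ p)
    (a b : F) :
    ‖a‖ ^ p + p * ‖a‖ ^ (p - 2) * ⟪a, b⟫_ℝ + c' * ‖b‖ ^ p ≤ ‖a + b‖ ^ p := by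
  have h1 := H a b
  have h2 : c' * ‖b‖ ^ p ≤ c * ‖b‖ ^ p :=
    mul_le_mul_of_nonneg_right hc (Real.rpow_nonneg (norm_nonneg _) _)
  linarith

theorem a1_two {p : ℝ} (hp : p ≤ 2.02) : (2 : ℝ) ^ p ≤ 4.06 := by
  have h1 : (2 : ℝ) ^ p ≤ 2 ^ (2.02 : ℝ) := Real.rpow_le_rpow_of_exponent_le (by norm_num) hp
  refine h1.trans ?_
  have h2 : ((2 : ℝ) ^ (2.02 : ℝ)) ^ 50 ≤ (4.06 : ℝ) ^ 50 := by
    rw [← Real.rpow_natCast, ← Real.rpow_mul (by norm_num)]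
    have h3 : (2.02 : ℝ) * ((50 : ℕ) : ℝ) = ((101 : ℕ) : ℝ) := by norm_num
    rw [h3, Real.rpow_natCast]
    norm_num
  exact le_of_pow_le_pow_left₀ (by norm_num) (by norm_num) h2

/-- Lindqvist's inequality with an explicit constant, for `p` slightly above `2`.

Proof. Clarkson: for `p ≥ 2`, `2(‖x‖^p + ‖y‖^p) ≤ ‖x+y‖^p + ‖x-y‖^p`
(convexity of `s ↦ s^(p/2)`, parallelogram law, superadditivity of `s ↦ s^(p/2)`).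
Step 0 (`c = 0`): `‖a‖^p + p‖a‖^(p-2)⟪a,b⟫ ≤ ‖a+b‖^p`, from Young
`p‖a‖^(p-1)‖a+b‖ ≤ (p-1)‖a‖^p + ‖a+b‖^p` and Cauchy-Schwarz
`‖a‖^(p-2)⟪a,a+b⟫ ≤ ‖a‖^(p-1)‖a+b‖`.
Step: if `‖a‖^p + p‖a‖^(p-2)⟪a,b⟫ + c‖b‖^p ≤ ‖a+b‖^p` for all `a b`, then the same with
`c' = (2c+2)/2^p`: apply the hypothesis to `a, b/2` and Clarkson with `x = a + b/2`, `y = b/2`
(so `x - y = a`, `x + y = a + b`): `‖a+b‖^p ≥ 2‖a+b/2‖^p + 2‖b/2‖^p - ‖a‖^p ≥ ...`.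
Four steps starting from `c = 0` give `c ≥ 0.9` when `2^p ≤ 4·2^0.02 ≤ 4.0559`. -/
theorem lindq {F : Type*} [NormedAddCommGroup F] [InnerProductSpace ℝ F] {p : ℝ} (h2 : 2 ≤ p)
    (hp : p ≤ 2.02) (a b : F) :
    ‖a‖ ^ p + p * ‖a‖ ^ (p - 2) * ⟪a, b⟫_ℝ + 0.9 * ‖b‖ ^ p ≤ ‖a + b‖ ^ p := by
  have hpos : (0 : ℝ) < 2 ^ p := Real.rpow_pos_of_pos (by norm_num) p
  have h4 := a1_two hp
  have hc : ∀ {c c' : ℝ}, 0 ≤ 2 * c + 2 → c' ≤ (2 * c + 2) / 4.06 → c' ≤ (2 * c + 2) / 2 ^ p := by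
    intro c c' h5 h6
    exact h6.trans (div_le_div_of_nonneg_left h5 hpos h4)
  have H0 : ∀ a b : F, ‖a‖ ^ p + p * ‖a‖ ^ (p - 2) * ⟪a, b⟫_ℝ + 0 * ‖b‖ ^ p ≤ ‖a + b‖ ^ p := by
    intro a b
    rw [zero_mul, add_zero]
    exact a1_zero h2 a b
  have H1 := a1_mono (hc (c := 0) (c' := 0.49) (by norm_num) (by norm_num)) (a1_step h2 H0)
  have H2 := a1_mono (hc (c := 0.49) (c' := 0.73) (by norm_num) (by norm_num)) (a1_step h2 H1)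
  have H3 := a1_mono (hc (c := 0.73) (c' := 0.85) (by norm_num) (by norm_num)) (a1_step h2 H2)
  have H4 := a1_mono (hc (c := 0.85) (c' := 0.9) (by norm_num) (by norm_num)) (a1_step h2 H3)
  exact H4 a b

end Pool.Agent.PL2
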