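import Mathlib

open scoped InnerProductSpace

namespace Pool.Agent.PL2

theorem a2_scal {e x y : ℝ} (h0 : 0 ≤ e) (h1 : e ≤ 1) (hy : 0 ≤ y) (hxy : y ≤ x) :
    (x ^ e - y ^ e) * y ≤ e * x ^ e * (x - y) := by
  rcases hy.eq_or_lt with rfl | hy
  · rw [mul_zero]
    have : 0 ≤ x ^ e := Real.rpow_nonneg hxy _
    have : 0 ≤ e * x ^ e := mul_nonneg h0 this
    nlinarith
  · have hx : 0 < x := lt_of_lt_of_le hy hxy
    have h2 : (1 + (x / y - 1)) ^ e ≤ 1 + e * (x / y - 1) :=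
      rpow_one_add_le_one_add_mul_self (by have := div_pos hx hy; linarith) h0 h1
    have h3 : (1 + (x / y - 1)) = x / y := by ring
    rw [h3, Real.div_rpow hx.le hy.le] at h2
    have hye : 0 < y ^ e := Real.rpow_pos_of_pos hy e
    rw [div_le_iff₀ hye] at h2
    have h4 : x ^ e * y ≤ (1 + e * (x / y - 1)) * y ^ e * y := mul_le_mul_of_nonneg_right h2 hy.le
    have h5 : (1 + e * (x / y - 1)) * y ^ e * y = y ^ e * y + e * y ^ e * (x - y) := by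
      field_simp
    have h6 : y ^ e ≤ x ^ e := Real.rpow_le_rpow hy.le hxy h0
    have h7 : e * y ^ e * (x - y) ≤ e * x ^ e * (x - y) :=
      mul_le_mul_of_nonneg_right (mul_le_mul_of_nonneg_left h6 h0) (by linarith)
    rw [h5] at h4
    linarith

theorem a2_vec' {F : Type*} [NormedAddCommGroup F] [InnerProductSpace ℝ F] {e R : ℝ}
    (h0 : 0 ≤ e) (h1 : e ≤ 1) {x y : F} (hyx : ‖y‖ ≤ ‖x‖) (hx : ‖x‖ ≤ R) :
    ‖‖x‖ ^ e • x - ‖y‖ ^ e • y‖ ≤ (1 + e) * R ^ e * ‖x - y‖ := by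
  have h2 : ‖x‖ ^ e • x - ‖y‖ ^ e • y = ‖x‖ ^ e • (x - y) + (‖x‖ ^ e - ‖y‖ ^ e) • y := by
    rw [smul_sub, sub_smul]
    abel
  have h3 : ‖y‖ ^ e ≤ ‖x‖ ^ e := Real.rpow_le_rpow (norm_nonneg _) hyx h0
  have h4 : 0 ≤ ‖x‖ ^ e := Real.rpow_nonneg (norm_nonneg _) _
  have h5 : ‖x‖ ^ e ≤ R ^ e := Real.rpow_le_rpow (norm_nonneg _) hx h0
  have h6 := a2_scal h0 h1 (norm_nonneg y) hyx
  have h7 : ‖x‖ - ‖y‖ ≤ ‖x - y‖ := norm_sub_norm_le x y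
  rw [h2]
  calc ‖‖x‖ ^ e • (x - y) + (‖x‖ ^ e - ‖y‖ ^ e) • y‖
      ≤ ‖‖x‖ ^ e • (x - y)‖ + ‖(‖x‖ ^ e - ‖y‖ ^ e) • y‖ := norm_add_le _ _
    _ = ‖x‖ ^ e * ‖x - y‖ + (‖x‖ ^ e - ‖y‖ ^ e) * ‖y‖ := by
        rw [norm_smul, norm_smul, Real.norm_eq_abs, Real.norm_eq_abs, abs_of_nonneg h4,
          abs_of_nonneg (sub_nonneg.2 h3)]
    _ ≤ ‖x‖ ^ e * ‖x - y‖ + e * ‖x‖ ^ e * ‖x - y‖ := by
        have := mul_le_mul_of_nonneg_left h7 (mul_nonneg h0 h4)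
        linarith
    _ = (1 + e) * ‖x‖ ^ e * ‖x - y‖ := by ring
    _ ≤ (1 + e) * R ^ e * ‖x - y‖ :=
        mul_le_mul_of_nonneg_right (mul_le_mul_of_nonneg_left h5 (by linarith)) (norm_nonneg _)

theorem a2_vec {F : Type*} [NormedAddCommGroup F] [InnerProductSpace ℝ F] {e R : ℝ}
    (h0 : 0 ≤ e) (h1 : e ≤ 1) {x y : F} (hx : ‖x‖ ≤ R) (hy : ‖y‖ ≤ R) :
    ‖‖x‖ ^ e • x - ‖y‖ ^ e • y‖ ≤ (1 + e) * R ^ e * ‖x - y‖ := by
  rcases le_total ‖y‖ ‖x‖ with h | h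
  · exact a2_vec' h0 h1 h hx
  · rw [norm_sub_rev, norm_sub_rev x y]
    exact a2_vec' h0 h1 h hy

/-- Upper second order expansion of `‖a+b‖^p`.

Proof. Put `e = p - 2 ∈ [0,1]`. First: if `‖x‖, ‖y‖ ≤ R` then
`‖‖x‖^e • x - ‖y‖^e • y‖ ≤ (1+e) R^e ‖x-y‖`: w.l.o.g. `‖y‖ ≤ ‖x‖`; the difference is
`‖x‖^e•(x-y) + (‖x‖^e-‖y‖^e)•y` and `(‖x‖^e - ‖y‖^e)‖y‖ ≤ e‖x‖^e(‖x‖-‖y‖)`, which with
`s = ‖y‖/‖x‖` is `(1-s^e)s ≤ e(1-s)` (`1 - s^e ≤ e log(1/s)` and `s log(1/s) ≤ 1-s`).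
Then for `g(s) = ‖a+s•b‖^p` (`hasFDerivAt_norm_rpow`, `1 < p`):
`g'(s) = p‖a+sb‖^(p-2)⟪a+sb,b⟫ ≤ g'(0) + p(1+e)(‖a‖+‖b‖)^e s‖b‖²` on `[0,1]`; integrate
(e.g. monotonicity of `g(s) - s g'(0) - p(p-1)(‖a‖+‖b‖)^e‖b‖² s²/2`). -/
theorem upq {F : Type*} [NormedAddCommGroup F] [InnerProductSpace ℝ F] {p : ℝ} (h2 : 2 ≤ p)
    (hp : p ≤ 3) (a b : F) :
    ‖a + b‖ ^ p ≤ ‖a‖ ^ p + p * ‖a‖ ^ (p - 2) * ⟪a, b⟫_ℝ +
      p * (p - 1) / 2 * (‖a‖ + ‖b‖) ^ (p - 2) * ‖b‖ ^ 2 := by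
  have h1p : 1 < p := by linarith
  set R := ‖a‖ + ‖b‖ with hR
  set D := p * ‖a‖ ^ (p - 2) * ⟪a, b⟫_ℝ with hD
  set C := p * (p - 1) / 2 * R ^ (p - 2) * ‖b‖ ^ 2 with hC
  have hg : ∀ s : ℝ, HasDerivAt (fun s : ℝ => ‖a + s • b‖ ^ p - s * D - C * s ^ 2)
      (p * ‖a + s • b‖ ^ (p - 2) * ⟪a + s • b, b⟫_ℝ - D - C * (2 * s)) s := by
    intro s
    have h3 : HasDerivAt (fun s : ℝ => a + s • b) b s := by
      have := ((hasDerivAt_id s).smul_const b).const_add a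
      simpa using this
    have h4 := (hasFDerivAt_norm_rpow (a + s • b) h1p).comp_hasDerivAt s h3
    have h5 : ((p * ‖a + s • b‖ ^ (p - 2)) • innerSL ℝ (a + s • b)) b =
        p * ‖a + s • b‖ ^ (p - 2) * ⟪a + s • b, b⟫_ℝ := rfl
    rw [h5] at h4
    have h6 : HasDerivAt (fun s : ℝ => s * D) D s := by
      simpa using (hasDerivAt_id s).mul_const D
    have h7 : HasDerivAt (fun s : ℝ => C * s ^ 2) (C * (2 * s)) s := by
      simpa using (hasDerivAt_pow 2 s).const_mul C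
    exact (h4.sub h6).sub h7
  have hanti : AntitoneOn (fun s : ℝ => ‖a + s • b‖ ^ p - s * D - C * s ^ 2) (Set.Icc 0 1) := by
    apply antitoneOn_of_deriv_nonpos (convex_Icc 0 1)
    · exact fun s _ => (hg s).continuousAt.continuousWithinAt
    · exact fun s _ => (hg s).differentiableAt.differentiableWithinAt
    · intro s hs
      rw [interior_Icc] at hs
      rw [(hg s).deriv]
      have hs0 : 0 ≤ s := hs.1.le
      have h8 : ‖s • b‖ = s * ‖b‖ := by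
        rw [norm_smul, Real.norm_eq_abs, abs_of_nonneg hs0]
      have h9 : ‖a + s • b‖ ≤ R := by
        refine (norm_add_le _ _).trans ?_
        rw [h8]
        have := mul_le_of_le_one_left (norm_nonneg b) hs.2.le
        linarith
      have h10 : ‖a‖ ≤ R := by
        have := norm_nonneg b
        linarith
      have h11 := a2_vec (e := p - 2) (by linarith) (by linarith) h9 h10
      have h12 : a + s • b - a = s • b := by abel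
      rw [h12, h8] at h11
      have h13 : p * ‖a + s • b‖ ^ (p - 2) * ⟪a + s • b, b⟫_ℝ - D =
          p * ⟪‖a + s • b‖ ^ (p - 2) • (a + s • b) - ‖a‖ ^ (p - 2) • a, b⟫_ℝ := by
        rw [inner_sub_left, real_inner_smul_left, real_inner_smul_left, hD]
        ring
      have h14 : ⟪‖a + s • b‖ ^ (p - 2) • (a + s • b) - ‖a‖ ^ (p - 2) • a, b⟫_ℝ ≤
          (1 + (p - 2)) * R ^ (p - 2) * (s * ‖b‖) * ‖b‖ :=
        (real_inner_le_norm _ _).trans (mul_le_mul_of_nonneg_right h11 (norm_nonneg _))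
      rw [h13]
      have h15 := mul_le_mul_of_nonneg_left h14 (by linarith : (0 : ℝ) ≤ p)
      have h16 : p * ((1 + (p - 2)) * R ^ (p - 2) * (s * ‖b‖) * ‖b‖) = C * (2 * s) := by
        rw [hC]
        ring
      linarith
  have h17 := hanti (Set.left_mem_Icc.2 zero_le_one) (Set.right_mem_Icc.2 zero_le_one) zero_le_one
  simp only [zero_smul, add_zero, zero_mul, one_smul, one_mul, one_pow, mul_one, ne_eq,
    OfNat.ofNat_ne_zero, not_false_eq_true, zero_pow, mul_zero, sub_zero] at h17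
  linarith

end Pool.Agent.PL2
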