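import Pool.Agent.PL2.BMl

open MeasureTheory Set Metric Filter Topology
open scoped ENNReal ContDiff InnerProductSpace

namespace Pool.Agent.PL2

open Pool.Agent.PLap94

theorem k1_bound {s K p : ℝ} (hs : 0 ≤ s) (hsK : s ≤ K) (hK : 1 ≤ K) (hp : 1 ≤ p)
    (hp3 : p ≤ 3) : |s ^ p * Real.log s| ≤ K ^ 4 := by
  rcases hs.eq_or_lt with h0 | h0
  · rw [← h0, Real.log_zero, mul_zero, abs_zero]
    positivity
  rcases le_total s 1 with h1 | h1
  · -- s^p |log s| ≤ s |log s| ≤ 1
    have hl : Real.log s ≤ 0 := Real.log_nonpos hs h1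
    have h2 : s ^ p ≤ s := by
      calc s ^ p ≤ s ^ (1 : ℝ) := Real.rpow_le_rpow_of_exponent_ge h0 h1 hp
        _ = s := Real.rpow_one s
    have h3 : 1 - s⁻¹ ≤ Real.log s := Real.one_sub_inv_le_log_of_pos h0
    rw [abs_mul, abs_of_nonneg (Real.rpow_nonneg hs p), abs_of_nonpos hl]
    calc s ^ p * -Real.log s ≤ s * -Real.log s := by
          apply mul_le_mul_of_nonneg_right h2 (by linarith)
      _ ≤ s * (s⁻¹ - 1) := mul_le_mul_of_nonneg_left (by linarith) hs
      _ = 1 - s := by rw [mul_sub, mul_inv_cancel₀ h0.ne', mul_one]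
      _ ≤ 1 := by linarith
      _ ≤ K ^ 4 := one_le_pow₀ hK
  · have hl : 0 ≤ Real.log s := Real.log_nonneg h1
    have h2 : Real.log s ≤ s := by
      have := Real.log_le_sub_one_of_pos h0
      linarith
    have h3 : s ^ p ≤ s ^ 3 := by
      calc s ^ p ≤ s ^ (3 : ℝ) := Real.rpow_le_rpow_of_exponent_le h1 hp3
        _ = s ^ 3 := by
            rw [← Real.rpow_natCast]
            norm_num
    rw [abs_mul, abs_of_nonneg (Real.rpow_nonneg hs p), abs_of_nonneg hl]
    calc s ^ p * Real.log s ≤ s ^ 3 * s :=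
          mul_le_mul h3 h2 hl (by positivity)
      _ = s ^ 4 := by ring
      _ ≤ K ^ 4 := pow_le_pow_left₀ hs hsK 4

/-- Differentiation of `p ↦ ∫‖f‖^p` at `p = 2`
(`hasDerivAt_integral_of_dominated_loc_of_deriv_le` on the ball of radius `1` about `2`; the
derivative `s^p log s` is bounded for `0 ≤ s ≤ K`, `1 ≤ p ≤ 3`; at `s = 0` everything is `0`). -/
theorem hasDerivAt_integral_norm_rpow {X F : Type*} [MeasurableSpace X] {μ : Measure X}
    [IsFiniteMeasure μ] [NormedAddCommGroup F] [InnerProductSpace ℝ F] {f : X → F}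
    (hf : BM μ f) :
    HasDerivAt (fun p : ℝ => ∫ x, ‖f x‖ ^ p ∂μ) (∫ x, ‖f x‖ ^ 2 * Real.log ‖f x‖ ∂μ) 2 := by
  obtain ⟨hf1, K, hK⟩ := hf
  have hf' : BM μ f := ⟨hf1, K, hK⟩
  set K' := max K 1 with hK'
  have hK1 : 1 ≤ K' := le_max_right _ _
  have hKx : ∀ x, ‖f x‖ ≤ K' := fun x => (hK x).trans (le_max_left _ _)
  have hmeas : ∀ p : ℝ, AEStronglyMeasurable (fun x => ‖f x‖ ^ p) μ := fun p =>
    (hf1.norm.aemeasurable.pow_const p).aestronglyMeasurable
  have h := hasDerivAt_integral_of_dominated_loc_of_deriv_le (μ := μ)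
    (F := fun (p : ℝ) x => ‖f x‖ ^ p) (F' := fun (p : ℝ) x => ‖f x‖ ^ p * Real.log ‖f x‖)
    (x₀ := (2 : ℝ)) (s := Metric.ball 2 1) (bound := fun _ => K' ^ 4)
    (Metric.ball_mem_nhds _ one_pos) (Eventually.of_forall hmeas)
    ((hf'.norm_rpow (p := 2) (by norm_num)).integrable)
    ((hmeas 2).mul (Real.measurable_log.comp_aemeasurable
      hf1.norm.aemeasurable).aestronglyMeasurable)
    (by
      refine Eventually.of_forall fun x p hp => ?_
      rw [Metric.mem_ball, Real.dist_eq, abs_lt] at hp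
      rw [Real.norm_eq_abs]
      exact k1_bound (norm_nonneg _) (hKx x) hK1 (by linarith) (by linarith))
    (integrable_const _)
    (by
      refine Eventually.of_forall fun x p hp => ?_
      rw [Metric.mem_ball, Real.dist_eq, abs_lt] at hp
      rcases (norm_nonneg (f x)).eq_or_lt with h0 | h0
      · rw [← h0]
        rw [Real.log_zero, mul_zero]
        have h1 : (fun p : ℝ => (0 : ℝ) ^ p) =ᶠ[𝓝 p] fun _ => 0 := by
          filter_upwards [lt_mem_nhds (show (0 : ℝ) < p by linarith)] with q hq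
          exact Real.zero_rpow hq.ne'
        exact (hasDerivAt_const p (0 : ℝ)).congr_of_eventuallyEq h1
      · exact Real.hasStrictDerivAt_const_rpow h0 p |>.hasDerivAt)
  refine h.2.congr_deriv ?_
  apply integral_congr_ae
  filter_upwards with x
  rw [Real.rpow_two]

theorem tendsto_integral_norm_rpow {X F : Type*} [MeasurableSpace X] {μ : Measure X}
    [IsFiniteMeasure μ] [NormedAddCommGroup F] [InnerProductSpace ℝ F] {f : X → F}
    (hf : BM μ f) :
    Tendsto (fun p : ℝ => ∫ x, ‖f x‖ ^ p ∂μ) (𝓝 2) (𝓝 (∫ x, ‖f x‖ ^ 2 ∂μ)) := by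
  have h := (hasDerivAt_integral_norm_rpow hf).continuousAt.tendsto
  simpa using h

end Pool.Agent.PL2
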