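import Mathlib

namespace Pool.Agent.PL2

theorem scal_self {e : ℝ} (h0 : 0 < e) (h1 : e ≤ 1 / 400) : 0.9 ≤ e ^ e := by
  have hs : 0 < √e := Real.sqrt_pos.2 h0
  have hs2 : √e * √e = e := Real.mul_self_sqrt h0.le
  have hs3 : √e ≤ 1 / 20 := by
    apply Real.sqrt_le_iff.2
    constructor
    · norm_num
    · norm_num
      linarith
  have h2 : Real.log (1 / √e) ≤ 1 / √e - 1 := Real.log_le_sub_one_of_pos (by positivity)
  have h3 : Real.log (1 / √e) = -(Real.log e) / 2 := by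
    rw [one_div, Real.log_inv, Real.log_sqrt h0.le]
    ring
  rw [h3] at h2
  have h4 : e * (-(Real.log e) / 2) ≤ e * (1 / √e - 1) := mul_le_mul_of_nonneg_left h2 h0.le
  have h5 : e * (1 / √e) = √e := by
    nth_rewrite 1 [← hs2]
    field_simp
  have h6 : -(2 * √e) ≤ e * Real.log e := by
    have : e * (1 / √e - 1) = √e - e := by rw [mul_sub, h5]; ring
    rw [this] at h4
    nlinarith
  rw [Real.rpow_def_of_pos h0]
  have h7 := Real.add_one_le_exp (Real.log e * e)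
  nlinarith

theorem scal_aux {K K' z e a T Y : ℝ} (hK : 0 ≤ K) (hK' : 0 ≤ K') (h0 : 0 < e)
    (h1 : e ≤ 1 / 400) (h2 : e * (K + K') ≤ 0.26) (h3 : e * K' ≤ 0.01)
    (h4 : e * K ^ 2 ≤ 0.675 * z) (h5 : e * (K + 1) ≤ z) (ha : 0 ≤ a) (ha1 : a ≤ 1)
    (hz : 0 < z) (hT : a = 1 ∨ T = z) (hT0 : 0 ≤ T) (hY : T ≤ Y) :
    e * K * a + (0.63125 + e * K') * a ^ 2 ≤ e * Y + 0.9 * a ^ (2 + e) := by
  have hYY : e * T ≤ e * Y := mul_le_mul_of_nonneg_left hY h0.le
  rcases hT with rfl | rfl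
  · rw [Real.one_rpow]
    have := mul_nonneg h0.le hT0
    nlinarith
  · rcases ha.eq_or_lt with rfl | ha0
    · rw [Real.zero_rpow (by linarith)]
      have := mul_nonneg h0.le hT0
      nlinarith
    have h6 : a ^ (2 + e) = a ^ 2 * a ^ e := by
      rw [Real.rpow_add ha0]
      norm_num
    rw [h6]
    have hae : 0 ≤ a ^ e := Real.rpow_nonneg ha _
    rcases le_total a e with h | h
    · have h7 : 0 ≤ 0.9 * (a ^ 2 * a ^ e) := by positivity
      have h8 : e * K * a ≤ e * K * e := mul_le_mul_of_nonneg_left h (by positivity)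
      have h9 : a ^ 2 ≤ e * e := by nlinarith
      have h10 : (0.63125 + e * K') * a ^ 2 ≤ (0.63125 + 0.01) * (e * e) := by
        apply mul_le_mul (by linarith) h9 (by positivity) (by norm_num)
      have h11 : e * (e * (K + 1)) ≤ e * T := mul_le_mul_of_nonneg_left h5 h0.le
      nlinarith
    · have h7 : e ^ e ≤ a ^ e := Real.rpow_le_rpow h0.le h h0.le
      have h8 := scal_self h0 h1
      have h9 : 0.9 * a ^ 2 ≤ a ^ 2 * a ^ e := by
        have : a ^ 2 * 0.9 ≤ a ^ 2 * a ^ e := mul_le_mul_of_nonneg_left (by linarith) (by positivity)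
        linarith
      have h10 : e * K' * a ^ 2 ≤ 0.01 * a ^ 2 := mul_le_mul_of_nonneg_right h3 (by positivity)
      -- e K a ≤ e T + 0.16875 a²
      have h11 : e * K * a ≤ e * T + 0.16875 * a ^ 2 := by
        have h12 : 0 ≤ (e * K - 2 * 0.16875 * a) ^ 2 := sq_nonneg _
        have h13 : e * (e * K ^ 2) ≤ e * (0.675 * T) := mul_le_mul_of_nonneg_left h4 h0.le
        nlinarith
      nlinarith

/-- The scalar core of the abstract lemma. Here `e = p-2`, `NX, NY` stand for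
`∫‖X₀‖^p, ∫‖Y₀‖^p`, `r = NX/NY`.
Case `a = 1`: the right side minus the left side is at least `0.9 - 1.01·5/8 - O(e)`.
Case `τ = 1` (`τ = |t|`): `η e y₀/2 - O(e) a + 0.9 a^(2+e) - 1.01·(5/8) a² - O(e) a²`; if `a ≤ e`
the negative terms are `O(e²)`; if `a ≥ e` then `a^e ≥ e^e ≥ 0.9` for small `e`, so the quadratic
form `η e y₀/2 - K e a + 0.1 a²` is nonnegative for small `e`. -/
theorem scalar_core {lam M C η y₀ : ℝ} (hlam : 0 < lam) (hM : 0 ≤ M) (hC : 0 ≤ C) (hη : 0 < η)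
    (hy : 0 < y₀) :
    ∃ δ > 0, ∀ e, 0 < e → e < δ → ∀ NX NY a b τ Q : ℝ, y₀ / 2 ≤ NY → 0 ≤ NX →
      NX / NY ≤ 1.01 * lam → 0 ≤ a → 0 ≤ b → 0 ≤ τ → max τ a = 1 →
      8 / 5 * lam * b ^ 2 ≤ a ^ 2 → 0 ≤ Q → Q ≤ C * (a ^ 2) ^ 2 →
      (NX / NY - η * e) * (τ ^ (2 + e) * NY + 3 * e * (1 + M ^ 2) * b +
          (1 + 2 * e) * (b ^ 2 * (1 + e * M) + e * ((b ^ 2 + Q) / 2))) ≤
        τ ^ (2 + e) * NX - 3 * e * (1 + M ^ 2) * a + 0.9 * a ^ (2 + e) := by
  set κ := √(5 / (8 * lam)) with hκ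
  have hκ0 : 0 ≤ κ := Real.sqrt_nonneg _
  have hκ2 : κ ^ 2 = 5 / (8 * lam) := Real.sq_sqrt (by positivity)
  set K := 1.01 * lam * (3 * (1 + M ^ 2) * κ) + 3 * (1 + M ^ 2) with hKd
  set K' := 0.63125 * (2 + 3 * M) + 3 * (1.01 * lam * ((5 / (8 * lam) + C) / 2)) with hKd'
  have hK : 0 ≤ K := by positivity
  have hK' : 0 ≤ K' := by positivity
  set z := η * (y₀ / 2) with hz
  have hz0 : 0 < z := by positivity
  refine ⟨min (1 / 400) (min (0.26 / (K + K' + 1)) (min (0.01 / (K' + 1))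
    (min (0.675 * z / (K ^ 2 + 1)) (z / (K + 1))))), ?_, ?_⟩
  · apply lt_min (by norm_num)
    apply lt_min (by positivity)
    apply lt_min (by positivity)
    apply lt_min (by positivity) (by positivity)
  intro e he0 he NX NY a b τ Q hNY hNX hr ha hb hτ hmax hab hQ hQC
  obtain ⟨e1, he'⟩ := lt_min_iff.1 he
  obtain ⟨e2, he'⟩ := lt_min_iff.1 he'
  obtain ⟨e3, he'⟩ := lt_min_iff.1 he'
  obtain ⟨e4, e5⟩ := lt_min_iff.1 he'
  have f2 : e * (K + K') ≤ 0.26 := by
    rw [lt_div_iff₀ (by positivity)] at e2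
    have : e * (K + K' + 1) = e * (K + K') + e := by ring
    linarith
  have f3 : e * K' ≤ 0.01 := by
    rw [lt_div_iff₀ (by positivity)] at e3
    have : e * (K' + 1) = e * K' + e := by ring
    linarith
  have f4 : e * K ^ 2 ≤ 0.675 * z := by
    rw [lt_div_iff₀ (by positivity)] at e4
    have : e * (K ^ 2 + 1) = e * K ^ 2 + e := by ring
    linarith
  have f5 : e * (K + 1) ≤ z := by
    rw [lt_div_iff₀ (by positivity)] at e5
    linarith
  have ha1 : a ≤ 1 := hmax ▸ le_max_right τ a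
  have hNY0 : 0 < NY := by linarith
  set T := τ ^ (2 + e) with hT
  have hT0 : 0 ≤ T := Real.rpow_nonneg hτ _
  set r := NX / NY with hrd
  have hr0 : 0 ≤ r := div_nonneg hNX hNY0.le
  have hrN : r * NY = NX := div_mul_cancel₀ _ hNY0.ne'
  set S := 3 * e * (1 + M ^ 2) * b + (1 + 2 * e) * (b ^ 2 * (1 + e * M) + e * ((b ^ 2 + Q) / 2))
    with hS
  have hS0 : 0 ≤ S := by positivity
  -- bounds of b
  have hb2 : b ^ 2 ≤ 5 / (8 * lam) * a ^ 2 := by
    have h1 : b ^ 2 = (8 / 5 * lam * b ^ 2) * (5 / (8 * lam)) := by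
      field_simp
    rw [h1]
    have : (8 / 5 * lam * b ^ 2) * (5 / (8 * lam)) ≤ a ^ 2 * (5 / (8 * lam)) :=
      mul_le_mul_of_nonneg_right hab (by positivity)
    linarith
  have hb1 : b ≤ κ * a := by
    apply le_of_sq_le_sq _ (by positivity)
    rw [mul_pow, hκ2]
    exact hb2
  have ha4 : (a ^ 2) ^ 2 ≤ a ^ 2 :=
    pow_le_of_le_one (sq_nonneg a) (pow_le_one₀ ha ha1) two_ne_zero
  have hQ2 : Q ≤ C * a ^ 2 := hQC.trans (mul_le_mul_of_nonneg_left ha4 hC)
  have hSr : r * S ≤ 1.01 * lam * (3 * e * (1 + M ^ 2) * (κ * a) +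
      (1 + 2 * e) * ((5 / (8 * lam) * a ^ 2) * (1 + e * M) +
        e * ((5 / (8 * lam) * a ^ 2 + C * a ^ 2) / 2))) := by
    apply mul_le_mul hr _ hS0 (by positivity)
    rw [hS]
    gcongr
  have hl : 1.01 * lam * (5 / (8 * lam)) = 0.63125 := by
    field_simp
    norm_num
  have h21 : (1 + 2 * e) * (1 + e * M) ≤ 1 + e * (2 + 3 * M) := by
    have h : e * (e * M) ≤ 1 * (e * M) := mul_le_mul_of_nonneg_right (by linarith) (by positivity)
    have h' : (1 + 2 * e) * (1 + e * M) = 1 + 2 * e + e * M + 2 * (e * (e * M)) := by ring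
    have h'' : 1 + e * (2 + 3 * M) = 1 + 2 * e + e * M + 2 * (1 * (e * M)) := by ring
    linarith
  have h22 : (1 + 2 * e) ≤ 3 := by linarith
  have h23 : 1.01 * lam * (3 * e * (1 + M ^ 2) * (κ * a) +
      (1 + 2 * e) * ((5 / (8 * lam) * a ^ 2) * (1 + e * M) +
        e * ((5 / (8 * lam) * a ^ 2 + C * a ^ 2) / 2))) =
      e * (1.01 * lam * (3 * (1 + M ^ 2) * κ)) * a +
      (1.01 * lam * (5 / (8 * lam))) * ((1 + 2 * e) * (1 + e * M)) * a ^ 2 +
      (1 + 2 * e) * (e * (1.01 * lam * ((5 / (8 * lam) + C) / 2)) * a ^ 2) := by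
    ring
  have h24 : 0.63125 * ((1 + 2 * e) * (1 + e * M)) * a ^ 2 ≤
      0.63125 * (1 + e * (2 + 3 * M)) * a ^ 2 :=
    mul_le_mul_of_nonneg_right (mul_le_mul_of_nonneg_left h21 (by norm_num)) (by positivity)
  have h25 : (1 + 2 * e) * (e * (1.01 * lam * ((5 / (8 * lam) + C) / 2)) * a ^ 2) ≤
      3 * (e * (1.01 * lam * ((5 / (8 * lam) + C) / 2)) * a ^ 2) :=
    mul_le_mul_of_nonneg_right h22 (by positivity)
  rw [h23, hl] at hSr
  have hY : z * T ≤ η * (T * NY) := by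
    have : η * T * (y₀ / 2) ≤ η * T * NY := mul_le_mul_of_nonneg_left hNY (by positivity)
    have h' : z * T = η * T * (y₀ / 2) := by rw [hz]; ring
    have h'' : η * (T * NY) = η * T * NY := by ring
    linarith
  have hmain := scal_aux (K := K) (K' := K') (z := z) (e := e) (a := a) (T := z * T)
    (Y := η * (T * NY)) hK hK' he0 e1.le f2 f3 f4 f5 ha ha1 hz0
    (by
      rcases max_choice τ a with h | h
      · right
        rw [hmax] at h
        rw [hT, ← h, Real.one_rpow, mul_one]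
      · left
        rw [hmax] at h
        exact h.symm) (by positivity) hY
  have hfin : (r - η * e) * (T * NY + 3 * e * (1 + M ^ 2) * b +
      (1 + 2 * e) * (b ^ 2 * (1 + e * M) + e * ((b ^ 2 + Q) / 2))) =
      T * NX - e * (η * (T * NY)) + r * S - η * e * S := by
    rw [hS, ← hrN]
    ring
  rw [hfin]
  have hS1 : 0 ≤ η * e * S := by positivity
  have h30 : e * K * a + (0.63125 + e * K') * a ^ 2 =
      e * (1.01 * lam * (3 * (1 + M ^ 2) * κ)) * a + 3 * e * (1 + M ^ 2) * a +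
      0.63125 * (1 + e * (2 + 3 * M)) * a ^ 2 +
      3 * (e * (1.01 * lam * ((5 / (8 * lam) + C) / 2)) * a ^ 2) := by
    rw [hKd, hKd']
    ring
  linarith

end Pool.Agent.PL2
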