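import Pool.Agent.PL2.LowInt
import Pool.Agent.PL2.K1
import Pool.Agent.PL2.Scal

open MeasureTheory Set Metric Filter Topology
open scoped ENNReal ContDiff InnerProductSpace

namespace Pool.Agent.PL2

open Pool.Agent.PLap94

theorem abs_aux_sq {X E : Type*} [MeasurableSpace X] {μ : Measure X} [NormedAddCommGroup E]
    [InnerProductSpace ℝ E] {s : ℝ} (hs : 0 < s) (f : X → E) (n : ℕ) :
    ∫ x, ‖s⁻¹ • f x‖ ^ n ∂μ = (s⁻¹) ^ n * ∫ x, ‖f x‖ ^ n ∂μ := by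
  have hsi : 0 < s⁻¹ := inv_pos.2 hs
  rw [← integral_const_mul]
  congr 1
  funext x
  rw [norm_smul, Real.norm_of_nonneg hsi.le, mul_pow]

theorem abs_aux_in {X E : Type*} [MeasurableSpace X] {μ : Measure X} [NormedAddCommGroup E]
    [InnerProductSpace ℝ E] {s : ℝ} (f g : X → E) (h : ∫ x, ⟪f x, g x⟫_ℝ ∂μ = 0) :
    ∫ x, ⟪f x, s⁻¹ • g x⟫_ℝ ∂μ = 0 := by
  have : ∀ x, ⟪f x, s⁻¹ • g x⟫_ℝ = s⁻¹ * ⟪f x, g x⟫_ℝ := fun x => by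
    rw [real_inner_smul_right]
  simp_rw [this]
  rw [integral_const_mul, h, mul_zero]

theorem abs_aux_fin {X E : Type*} [MeasurableSpace X] {μ : Measure X} [NormedAddCommGroup E]
    [InnerProductSpace ℝ E] {s t p : ℝ} (hs : 0 < s) (f g : X → E) :
    ∫ x, ‖(s⁻¹ * t) • f x + s⁻¹ • g x‖ ^ p ∂μ = (s⁻¹) ^ p * ∫ x, ‖t • f x + g x‖ ^ p ∂μ := by
  have hsi : 0 < s⁻¹ := inv_pos.2 hs
  rw [← integral_const_mul]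
  congr 1
  funext x
  rw [mul_smul, ← smul_add, norm_smul, Real.norm_of_nonneg hsi.le,
    Real.mul_rpow hsi.le (norm_nonneg _)]

/-- The normalised case. -/
theorem abs_aux1 {X F G : Type*} [MeasurableSpace X] {μ : Measure X}
    [IsProbabilityMeasure μ] [NormedAddCommGroup F] [InnerProductSpace ℝ F]
    [NormedAddCommGroup G] [InnerProductSpace ℝ G] {X₀ : X → F} {Y₀ : X → G} (hX₀ : BM μ X₀)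
    (hY₀ : BM μ Y₀) {lam C η : ℝ} (hlam : 0 < lam) (hC : 0 ≤ C) (hη : 0 < η)
    (hy : 0 < ∫ x, ‖Y₀ x‖ ^ 2 ∂μ)
    (hxy : ∫ x, ‖X₀ x‖ ^ 2 ∂μ = lam * ∫ x, ‖Y₀ x‖ ^ 2 ∂μ) :
    ∃ δ > 0, ∀ p, 2 < p → p < 2 + δ → ∀ (X₁ : X → F) (Y₁ : X → G) (t : ℝ), BM μ X₁ → BM μ Y₁ →
      ∫ x, ⟪X₀ x, X₁ x⟫_ℝ ∂μ = 0 → ∫ x, ⟪Y₀ x, Y₁ x⟫_ℝ ∂μ = 0 →
      8 / 5 * lam * ∫ x, ‖Y₁ x‖ ^ 2 ∂μ ≤ ∫ x, ‖X₁ x‖ ^ 2 ∂μ →
      ∫ x, ‖Y₁ x‖ ^ 4 ∂μ ≤ C * (∫ x, ‖X₁ x‖ ^ 2 ∂μ) ^ 2 →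
      max |t| (Real.sqrt (∫ x, ‖X₁ x‖ ^ 2 ∂μ)) = 1 →
      ((∫ x, ‖X₀ x‖ ^ p ∂μ) / (∫ x, ‖Y₀ x‖ ^ p ∂μ) - η * (p - 2)) *
          ∫ x, ‖t • Y₀ x + Y₁ x‖ ^ p ∂μ ≤ ∫ x, ‖t • X₀ x + X₁ x‖ ^ p ∂μ := by
  obtain ⟨K1, hK1⟩ := hX₀.2
  obtain ⟨K2, hK2⟩ := hY₀.2
  set M : ℝ := max 0 (max K1 K2) with hM
  have hM0 : 0 ≤ M := le_max_left _ _
  have hMX : ∀ x, ‖X₀ x‖ ≤ M := fun x =>
    le_trans (hK1 x) (le_trans (le_max_left _ _) (le_max_right _ _))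
  have hMY : ∀ x, ‖Y₀ x‖ ≤ M := fun x =>
    le_trans (hK2 x) (le_trans (le_max_right _ _) (le_max_right _ _))
  obtain ⟨δ1, hδ1, hcore⟩ := scalar_core hlam hM0 hC hη hy
  have hNX := tendsto_integral_norm_rpow (μ := μ) hX₀
  have hNY := tendsto_integral_norm_rpow (μ := μ) hY₀
  have hdiv : Tendsto (fun p : ℝ => (∫ x, ‖X₀ x‖ ^ p ∂μ) / (∫ x, ‖Y₀ x‖ ^ p ∂μ)) (𝓝 2) (𝓝 lam) := by
    have h1 := hNX.div hNY hy.ne'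
    have h2 : (∫ x, ‖X₀ x‖ ^ 2 ∂μ) / (∫ x, ‖Y₀ x‖ ^ 2 ∂μ) = lam := by
      rw [hxy, mul_div_assoc, div_self hy.ne', mul_one]
    rw [h2] at h1
    exact h1
  have e1 : ∀ᶠ p : ℝ in 𝓝 2, (∫ x, ‖X₀ x‖ ^ p ∂μ) / (∫ x, ‖Y₀ x‖ ^ p ∂μ) < 1.01 * lam :=
    hdiv.eventually_lt_const (by linarith)
  have e2 : ∀ᶠ p : ℝ in 𝓝 2, (∫ x, ‖Y₀ x‖ ^ 2 ∂μ) / 2 < ∫ x, ‖Y₀ x‖ ^ p ∂μ :=
    hNY.eventually_const_lt (by linarith)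
  obtain ⟨δ2, hδ2, hnear⟩ := Metric.eventually_nhds_iff.1 (e1.and e2)
  refine ⟨min δ1 (min δ2 0.02), lt_min hδ1 (lt_min hδ2 (by norm_num)), ?_⟩
  intro p hp2 hpδ X₁ Y₁ t hX₁ hY₁ hoX hoY hgap hL4 hmax
  have hp1 : p - 2 < δ1 := by have := min_le_left δ1 (min δ2 0.02); linarith
  have hpd2 : p - 2 < δ2 := by
    have := min_le_right δ1 (min δ2 0.02)
    have := min_le_left δ2 (0.02 : ℝ)
    linarith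
  have hp3 : p - 2 < 0.02 := by
    have := min_le_right δ1 (min δ2 0.02)
    have := min_le_right δ2 (0.02 : ℝ)
    linarith
  have hdist : dist p 2 < δ2 := by
    rw [Real.dist_eq, abs_of_pos (by linarith)]; exact hpd2
  obtain ⟨hr, hNYlow⟩ := hnear hdist
  have hA0 : 0 ≤ ∫ x, ‖X₁ x‖ ^ 2 ∂μ := integral_nonneg fun x => by positivity
  have hB0 : 0 ≤ ∫ x, ‖Y₁ x‖ ^ 2 ∂μ := integral_nonneg fun x => by positivity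
  have hQ0 : 0 ≤ ∫ x, ‖Y₁ x‖ ^ 4 ∂μ := integral_nonneg fun x => by positivity
  set a : ℝ := Real.sqrt (∫ x, ‖X₁ x‖ ^ 2 ∂μ) with ha
  set b : ℝ := Real.sqrt (∫ x, ‖Y₁ x‖ ^ 2 ∂μ) with hb
  have haa : ∫ x, ‖X₁ x‖ ^ 2 ∂μ = a ^ 2 := (Real.sq_sqrt hA0).symm
  have hbb : ∫ x, ‖Y₁ x‖ ^ 2 ∂μ = b ^ 2 := (Real.sq_sqrt hB0).symm
  have ha0 : 0 ≤ a := Real.sqrt_nonneg _
  have hb0 : 0 ≤ b := Real.sqrt_nonneg _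
  have ht1 : |t| ≤ 1 := by rw [← hmax]; exact le_max_left _ _
  have hR0 : 0 ≤ ∫ x, ‖t • X₀ x + X₁ x‖ ^ p ∂μ := integral_nonneg fun x => by positivity
  have hL0 : 0 ≤ ∫ x, ‖t • Y₀ x + Y₁ x‖ ^ p ∂μ := integral_nonneg fun x => by positivity
  have hNX0 : 0 ≤ ∫ x, ‖X₀ x‖ ^ p ∂μ := integral_nonneg fun x => by positivity
  rcases le_or_gt ((∫ x, ‖X₀ x‖ ^ p ∂μ) / (∫ x, ‖Y₀ x‖ ^ p ∂μ) - η * (p - 2)) 0 with hneg | hpos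
  · exact le_trans (mul_nonpos_of_nonpos_of_nonneg hneg hL0) hR0
  have hup := up_int hY₀ hY₁ hMY hoY hb0 hbb hp2.le (by linarith) ht1
  have hlow := low_int hX₀ hX₁ hMX hoX ha0 haa hp2.le (by norm_num at hp3 ⊢; linarith) ht1
  have hc := hcore (p - 2) (by linarith) hp1 (∫ x, ‖X₀ x‖ ^ p ∂μ) (∫ x, ‖Y₀ x‖ ^ p ∂μ) a b |t|
    (∫ x, ‖Y₁ x‖ ^ 4 ∂μ) hNYlow.le hNX0 hr.le ha0 hb0 (abs_nonneg t) hmax
    (by rw [← haa, ← hbb]; exact hgap) hQ0 (by rw [← haa]; exact hL4)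
  rw [show (2 : ℝ) + (p - 2) = p by ring] at hc
  calc _ ≤ _ := mul_le_mul_of_nonneg_left hup hpos.le
    _ ≤ _ := hc
    _ ≤ _ := hlow

/-- **Abstract perturbation lemma.** Scale so that `max |t| a = 1` (`a² = ∫‖X₁‖²`; if both are
zero, `Y₁ = 0` a.e. and both sides vanish), then `low_int`, `up_int`, `scalar_core`, and
`∫‖X₀‖^p / ∫‖Y₀‖^p → lam` as `p → 2` (`K1`). If `NX/NY - η(p-2) < 0` the claim is trivial. -/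
theorem abstract_lower {X F G : Type*} [MeasurableSpace X] {μ : Measure X}
    [IsProbabilityMeasure μ] [NormedAddCommGroup F] [InnerProductSpace ℝ F]
    [NormedAddCommGroup G] [InnerProductSpace ℝ G] {X₀ : X → F} {Y₀ : X → G} (hX₀ : BM μ X₀)
    (hY₀ : BM μ Y₀) {lam C η : ℝ} (hlam : 0 < lam) (hC : 0 ≤ C) (hη : 0 < η)
    (hy : 0 < ∫ x, ‖Y₀ x‖ ^ 2 ∂μ)
    (hxy : ∫ x, ‖X₀ x‖ ^ 2 ∂μ = lam * ∫ x, ‖Y₀ x‖ ^ 2 ∂μ) :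
    ∃ δ > 0, ∀ p, 2 < p → p < 2 + δ → ∀ (X₁ : X → F) (Y₁ : X → G) (t : ℝ), BM μ X₁ → BM μ Y₁ →
      ∫ x, ⟪X₀ x, X₁ x⟫_ℝ ∂μ = 0 → ∫ x, ⟪Y₀ x, Y₁ x⟫_ℝ ∂μ = 0 →
      8 / 5 * lam * ∫ x, ‖Y₁ x‖ ^ 2 ∂μ ≤ ∫ x, ‖X₁ x‖ ^ 2 ∂μ →
      ∫ x, ‖Y₁ x‖ ^ 4 ∂μ ≤ C * (∫ x, ‖X₁ x‖ ^ 2 ∂μ) ^ 2 →
      ((∫ x, ‖X₀ x‖ ^ p ∂μ) / (∫ x, ‖Y₀ x‖ ^ p ∂μ) - η * (p - 2)) *
          ∫ x, ‖t • Y₀ x + Y₁ x‖ ^ p ∂μ ≤ ∫ x, ‖t • X₀ x + X₁ x‖ ^ p ∂μ := by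
  obtain ⟨δ, hδ, hmain⟩ := abs_aux1 hX₀ hY₀ hlam hC hη hy hxy
  refine ⟨δ, hδ, ?_⟩
  intro p hp2 hpδ X₁ Y₁ t hX₁ hY₁ hoX hoY hgap hL4
  have hA0 : 0 ≤ ∫ x, ‖X₁ x‖ ^ 2 ∂μ := integral_nonneg fun x => by positivity
  have hB0 : 0 ≤ ∫ x, ‖Y₁ x‖ ^ 2 ∂μ := integral_nonneg fun x => by positivity
  have hR0 : 0 ≤ ∫ x, ‖t • X₀ x + X₁ x‖ ^ p ∂μ := integral_nonneg fun x => by positivity
  have hp0 : p ≠ 0 := by linarith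
  set s : ℝ := max |t| (Real.sqrt (∫ x, ‖X₁ x‖ ^ 2 ∂μ)) with hs
  have hs0 : 0 ≤ s := le_trans (abs_nonneg t) (le_max_left _ _)
  rcases hs0.eq_or_lt with hz | hspos
  · have ht0 : t = 0 := by
      have h1 : |t| ≤ 0 := by rw [hz]; exact le_max_left _ _
      exact abs_eq_zero.1 (le_antisymm h1 (abs_nonneg t))
    have hA : ∫ x, ‖X₁ x‖ ^ 2 ∂μ = 0 := by
      have h1 : Real.sqrt (∫ x, ‖X₁ x‖ ^ 2 ∂μ) ≤ 0 := by rw [hz]; exact le_max_right _ _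
      have h2 := le_antisymm h1 (Real.sqrt_nonneg _)
      exact (Real.sqrt_eq_zero hA0).1 h2
    have hB : ∫ x, ‖Y₁ x‖ ^ 2 ∂μ = 0 := by
      rw [hA] at hgap
      have h1 : 0 < 8 / 5 * lam := by positivity
      nlinarith
    have hY1 : Y₁ =ᵐ[μ] 0 := by
      have h1 := (integral_eq_zero_iff_of_nonneg_ae (Filter.Eventually.of_forall
        (fun x => by positivity : ∀ x, 0 ≤ ‖Y₁ x‖ ^ 2)) (BM.integrable (hY₁.norm_pow 2))).1 hB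
      filter_upwards [h1] with x hx
      have h2 : ‖Y₁ x‖ ^ 2 = 0 := hx
      simpa using h2
    have hL : ∫ x, ‖t • Y₀ x + Y₁ x‖ ^ p ∂μ = 0 := by
      rw [← integral_zero X ℝ (μ := μ)]
      apply integral_congr_ae
      filter_upwards [hY1] with x hx
      rw [hx, ht0]
      simp [hp0]
    rw [hL, mul_zero]
    exact hR0
  · -- scaling
    have hsi : 0 < s⁻¹ := inv_pos.2 hspos
    have hX' : BM μ (fun x => s⁻¹ • X₁ x) := hX₁.smul _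
    have hY' : BM μ (fun x => s⁻¹ • Y₁ x) := hY₁.smul _
    have hmax' : max |s⁻¹ * t| (Real.sqrt (∫ x, ‖s⁻¹ • X₁ x‖ ^ 2 ∂μ)) = 1 := by
      rw [abs_aux_sq hspos X₁ 2, abs_mul, abs_of_pos hsi, Real.sqrt_mul (by positivity),
        Real.sqrt_sq hsi.le, ← mul_max_of_nonneg _ _ hsi.le, ← hs, inv_mul_cancel₀ hspos.ne']
    have h := hmain p hp2 hpδ (fun x => s⁻¹ • X₁ x) (fun x => s⁻¹ • Y₁ x) (s⁻¹ * t) hX' hY'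
      (abs_aux_in _ _ hoX) (abs_aux_in _ _ hoY)
      (by
        rw [abs_aux_sq hspos X₁ 2, abs_aux_sq hspos Y₁ 2]
        have := mul_le_mul_of_nonneg_left hgap (by positivity : (0:ℝ) ≤ (s⁻¹) ^ 2)
        linarith)
      (by
        rw [abs_aux_sq hspos X₁ 2, abs_aux_sq hspos Y₁ 4]
        have := mul_le_mul_of_nonneg_left hL4 (by positivity : (0:ℝ) ≤ (s⁻¹) ^ 4)
        calc (s⁻¹) ^ 4 * ∫ x, ‖Y₁ x‖ ^ 4 ∂μ ≤ _ := this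
          _ = _ := by ring)
      hmax'
    rw [abs_aux_fin hspos Y₀ Y₁, abs_aux_fin hspos X₀ X₁] at h
    have hsp : 0 < (s⁻¹) ^ p := Real.rpow_pos_of_pos hsi p
    have h2 : (s⁻¹) ^ p * (((∫ x, ‖X₀ x‖ ^ p ∂μ) / (∫ x, ‖Y₀ x‖ ^ p ∂μ) - η * (p - 2)) *
          ∫ x, ‖t • Y₀ x + Y₁ x‖ ^ p ∂μ) ≤ (s⁻¹) ^ p * ∫ x, ‖t • X₀ x + X₁ x‖ ^ p ∂μ := by
      calc _ = _ := by ring
        _ ≤ _ := h
    exact le_of_mul_le_mul_left h2 hsp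

end Pool.Agent.PL2
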