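import Pool.Agent.PL2.Defs

open MeasureTheory Set Metric Filter Topology
open scoped ENNReal ContDiff InnerProductSpace

namespace Pool.Agent.PL2

open Pool.Agent.PLap94

variable {X F G : Type*} [MeasurableSpace X] {μ : Measure X} [NormedAddCommGroup F]
  [InnerProductSpace ℝ F] [NormedAddCommGroup G] [InnerProductSpace ℝ G]

/-! Elementary facts on bounded measurable functions (all direct). -/

theorem BM.add {f g : X → F} (hf : BM μ f) (hg : BM μ g) : BM μ (fun x => f x + g x) := by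
  obtain ⟨hf1, K, hK⟩ := hf
  obtain ⟨hg1, L, hL⟩ := hg
  exact ⟨hf1.add hg1, K + L, fun x => (norm_add_le _ _).trans (add_le_add (hK x) (hL x))⟩

theorem BM.smul {f : X → F} (hf : BM μ f) (t : ℝ) : BM μ (fun x => t • f x) := by
  obtain ⟨hf1, K, hK⟩ := hf
  refine ⟨hf1.const_smul t, |t| * K, fun x => ?_⟩
  rw [norm_smul, Real.norm_eq_abs]
  exact mul_le_mul_of_nonneg_left (hK x) (abs_nonneg _)

theorem BM.inner {f g : X → F} (hf : BM μ f) (hg : BM μ g) :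
    BM μ (fun x => ⟪f x, g x⟫_ℝ) := by
  obtain ⟨hf1, K, hK⟩ := hf
  obtain ⟨hg1, L, hL⟩ := hg
  refine ⟨hf1.inner hg1, K * L, fun x => ?_⟩
  refine (norm_inner_le_norm _ _).trans ?_
  exact mul_le_mul (hK x) (hL x) (norm_nonneg _) ((norm_nonneg _).trans (hK x))

theorem BM.norm_rpow {f : X → F} (hf : BM μ f) {p : ℝ} (hp : 0 ≤ p) :
    BM μ (fun x => ‖f x‖ ^ p) := by
  obtain ⟨hf1, K, hK⟩ := hf
  refine ⟨?_, K ^ p, fun x => ?_⟩
  · exact (hf1.norm.aemeasurable.pow_const p).aestronglyMeasurable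
  · rw [Real.norm_of_nonneg (Real.rpow_nonneg (norm_nonneg _) _)]
    exact Real.rpow_le_rpow (norm_nonneg _) (hK x) hp

theorem BM.norm_pow {f : X → F} (hf : BM μ f) (n : ℕ) : BM μ (fun x => ‖f x‖ ^ n) := by
  obtain ⟨hf1, K, hK⟩ := hf
  refine ⟨hf1.norm.pow n, K ^ n, fun x => ?_⟩
  rw [Real.norm_of_nonneg (pow_nonneg (norm_nonneg _) _)]
  exact pow_le_pow_left₀ (norm_nonneg _) (hK x) n

theorem BM.mul {f g : X → ℝ} (hf : BM μ f) (hg : BM μ g) : BM μ (fun x => f x * g x) := by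
  obtain ⟨hf1, K, hK⟩ := hf
  obtain ⟨hg1, L, hL⟩ := hg
  refine ⟨hf1.mul hg1, K * L, fun x => ?_⟩
  rw [norm_mul]
  exact mul_le_mul (hK x) (hL x) (norm_nonneg _) ((norm_nonneg _).trans (hK x))

theorem BM.integrable [IsFiniteMeasure μ] {f : X → F} (hf : BM μ f) : Integrable f μ := by
  obtain ⟨hf1, K, hK⟩ := hf
  exact Integrable.of_bound hf1 K (Eventually.of_forall hK)

theorem BM.memLp [IsFiniteMeasure μ] {f : X → F} (hf : BM μ f) (p : ℝ≥0∞) : MemLp f p μ := by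
  obtain ⟨hf1, K, hK⟩ := hf
  exact MemLp.of_bound hf1 K (Eventually.of_forall hK)

/-- `‖s^e - 1‖ s ≤ e (1 + M²)` for `0 ≤ s ≤ M`, `0 ≤ e ≤ 1`.
(`s ≤ 1`: `(1-s^e)s ≤ e(1-s)`; `s ≥ 1`: `s^e - 1 ≤ e(s-1)`.) -/
theorem abs_rpow_sub_one_mul_le {s e M : ℝ} (hs : 0 ≤ s) (hsM : s ≤ M) (he : 0 ≤ e)
    (he1 : e ≤ 1) : |s ^ e - 1| * s ≤ e * (1 + M ^ 2) := by
  rcases hs.eq_or_lt with h0 | h0
  · rw [← h0, mul_zero]
    positivity
  rcases le_total s 1 with h1 | h1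
  · have h2 : s ^ e ≤ 1 := Real.rpow_le_one hs h1 he
    rw [abs_of_nonpos (by linarith)]
    have h3 : 1 + e * Real.log s ≤ s ^ e := by
      rw [Real.rpow_def_of_pos h0]
      have := Real.add_one_le_exp (Real.log s * e)
      linarith
    have h4 : 1 - s⁻¹ ≤ Real.log s := Real.one_sub_inv_le_log_of_pos h0
    have h5 : -Real.log s * s ≤ 1 - s := by
      have : (1 - s⁻¹) * s ≤ Real.log s * s := mul_le_mul_of_nonneg_right h4 hs
      rw [sub_mul, inv_mul_cancel₀ h0.ne'] at this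
      linarith
    have h6 : -(s ^ e - 1) * s ≤ e * (-Real.log s * s) := by
      have : -(s ^ e - 1) ≤ e * (-Real.log s) := by linarith
      calc -(s ^ e - 1) * s ≤ e * (-Real.log s) * s := mul_le_mul_of_nonneg_right this hs
        _ = _ := by ring
    calc -(s ^ e - 1) * s ≤ e * (-Real.log s * s) := h6
      _ ≤ e * (1 - s) := mul_le_mul_of_nonneg_left h5 he
      _ ≤ e * (1 + M ^ 2) := mul_le_mul_of_nonneg_left (by nlinarith [sq_nonneg M]) he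
  · have h2 : 1 ≤ s ^ e := Real.one_le_rpow h1 he
    rw [abs_of_nonneg (by linarith)]
    have h3 : s ^ e ≤ 1 + e * (s - 1) := by
      have := rpow_one_add_le_one_add_mul_self (s := s - 1) (by linarith) he he1
      rwa [add_sub_cancel] at this
    calc (s ^ e - 1) * s ≤ (e * (s - 1)) * s := mul_le_mul_of_nonneg_right (by linarith) hs
      _ = e * (s ^ 2 - s) := by ring
      _ ≤ e * (1 + M ^ 2) := by
          apply mul_le_mul_of_nonneg_left _ he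
          nlinarith

/-- Jensen: `(∫‖X₁‖²)^(p/2) ≤ ∫‖X₁‖^p`. -/
theorem jensen_pow [IsProbabilityMeasure μ] {X₁ : X → F} (h1 : BM μ X₁) {a : ℝ} (ha : 0 ≤ a)
    (haa : ∫ x, ‖X₁ x‖ ^ 2 ∂μ = a ^ 2) {p : ℝ} (h2 : 2 ≤ p) :
    a ^ p ≤ ∫ x, ‖X₁ x‖ ^ p ∂μ := by
  have hconv : ConvexOn ℝ (Ici 0) (fun t : ℝ => t ^ (p / 2)) := convexOn_rpow (by linarith)
  have hcont : ContinuousOn (fun t : ℝ => t ^ (p / 2)) (Ici 0) :=
    (Real.continuous_rpow_const (by linarith)).continuousOn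
  have hi1 : Integrable (fun x => ‖X₁ x‖ ^ 2) μ := (h1.norm_pow 2).integrable
  have hp : ∀ x, (‖X₁ x‖ ^ 2) ^ (p / 2) = ‖X₁ x‖ ^ p := by
    intro x
    rw [← Real.rpow_natCast, ← Real.rpow_mul (norm_nonneg _)]
    congr 1
    push_cast
    ring
  have hi2 : Integrable ((fun t : ℝ => t ^ (p / 2)) ∘ (fun x => ‖X₁ x‖ ^ 2)) μ := by
    have := (h1.norm_rpow (p := p) (by linarith)).integrable
    refine this.congr (Eventually.of_forall fun x => ?_)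
    simp only [Function.comp, hp]
  have h := hconv.map_integral_le hcont isClosed_Ici
    (Eventually.of_forall fun x => mem_Ici.2 (sq_nonneg _)) hi1 hi2
  rw [haa] at h
  simp only [hp] at h
  have h3 : (a ^ 2) ^ (p / 2) = a ^ p := by
    rw [← Real.rpow_natCast, ← Real.rpow_mul ha]
    congr 1
    push_cast
    ring
  rwa [h3] at h

theorem bml_int_norm_le [IsProbabilityMeasure μ] {X₁ : X → F} (h1 : BM μ X₁) {a : ℝ}
    (ha : 0 ≤ a) (haa : ∫ x, ‖X₁ x‖ ^ 2 ∂μ = a ^ 2) : ∫ x, ‖X₁ x‖ ∂μ ≤ a := by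
  have hn : Integrable (fun x => ‖X₁ x‖) μ := by
    have := (h1.norm_pow 1).integrable
    simpa using this
  have hs : Integrable (fun x => ‖X₁ x‖ ^ 2) μ := (h1.norm_pow 2).integrable
  set m := ∫ x, ‖X₁ x‖ ∂μ with hm
  have hm0 : 0 ≤ m := integral_nonneg fun x => norm_nonneg _
  have h3 : 0 ≤ ∫ x, (‖X₁ x‖ - m) ^ 2 ∂μ := integral_nonneg fun x => sq_nonneg _
  have h4 : ∫ x, (‖X₁ x‖ - m) ^ 2 ∂μ = a ^ 2 - m ^ 2 := by
    have e1 : ∀ x, (‖X₁ x‖ - m) ^ 2 = ‖X₁ x‖ ^ 2 - 2 * m * ‖X₁ x‖ + m ^ 2 := fun x => by ring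
    simp_rw [e1]
    have i1 : Integrable (fun x => 2 * m * ‖X₁ x‖) μ := hn.const_mul _
    have i2 : Integrable (fun x => ‖X₁ x‖ ^ 2 - 2 * m * ‖X₁ x‖) μ := hs.sub i1
    rw [integral_add i2 (integrable_const _), integral_sub hs i1, integral_const_mul, haa, ← hm]
    simp
    ring
  have h5 : m ^ 2 ≤ a ^ 2 := by linarith
  exact abs_le_of_sq_le_sq' h5 ha |>.2

/-- Cross term: by orthogonality `∫‖X₀‖^(p-2)⟪X₀,X₁⟫ = ∫(‖X₀‖^(p-2)-1)⟪X₀,X₁⟫`, then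
Cauchy-Schwarz in `F`, the previous lemma and `∫‖X₁‖ ≤ a` (Jensen / Cauchy-Schwarz on a
probability space). -/
theorem cross_term [IsProbabilityMeasure μ] {X₀ X₁ : X → F} (h0 : BM μ X₀) (h1 : BM μ X₁)
    {M : ℝ} (hM : ∀ x, ‖X₀ x‖ ≤ M) (ho : ∫ x, ⟪X₀ x, X₁ x⟫_ℝ ∂μ = 0) {a : ℝ} (ha : 0 ≤ a)
    (haa : ∫ x, ‖X₁ x‖ ^ 2 ∂μ = a ^ 2) {p : ℝ} (h2 : 2 ≤ p) (hp : p ≤ 3) :
    |∫ x, ‖X₀ x‖ ^ (p - 2) * ⟪X₀ x, X₁ x⟫_ℝ ∂μ| ≤ (p - 2) * (1 + M ^ 2) * a := by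
  have hi : BM μ (fun x => ⟪X₀ x, X₁ x⟫_ℝ) := h0.inner h1
  have hr : BM μ (fun x => ‖X₀ x‖ ^ (p - 2)) := h0.norm_rpow (by linarith)
  have e1 : ∫ x, ‖X₀ x‖ ^ (p - 2) * ⟪X₀ x, X₁ x⟫_ℝ ∂μ =
      ∫ x, (‖X₀ x‖ ^ (p - 2) - 1) * ⟪X₀ x, X₁ x⟫_ℝ ∂μ := by
    have : ∀ x, (‖X₀ x‖ ^ (p - 2) - 1) * ⟪X₀ x, X₁ x⟫_ℝ =
      ‖X₀ x‖ ^ (p - 2) * ⟪X₀ x, X₁ x⟫_ℝ - ⟪X₀ x, X₁ x⟫_ℝ := fun x => by ring
    simp_rw [this]
    rw [integral_sub (hr.mul hi).integrable hi.integrable, ho, sub_zero]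
  rw [e1]
  have hn : Integrable (fun x => ‖X₁ x‖) μ := by
    have := (h1.norm_pow 1).integrable
    simpa using this
  calc |∫ x, (‖X₀ x‖ ^ (p - 2) - 1) * ⟪X₀ x, X₁ x⟫_ℝ ∂μ|
      ≤ ∫ x, |(‖X₀ x‖ ^ (p - 2) - 1) * ⟪X₀ x, X₁ x⟫_ℝ| ∂μ := abs_integral_le_integral_abs
    _ ≤ ∫ x, (p - 2) * (1 + M ^ 2) * ‖X₁ x‖ ∂μ := by
        apply integral_mono_of_nonneg (Eventually.of_forall fun x => abs_nonneg _)
          (hn.const_mul _)
        refine Eventually.of_forall fun x => ?_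
        simp only
        rw [abs_mul]
        calc |‖X₀ x‖ ^ (p - 2) - 1| * |⟪X₀ x, X₁ x⟫_ℝ|
            ≤ |‖X₀ x‖ ^ (p - 2) - 1| * (‖X₀ x‖ * ‖X₁ x‖) :=
              mul_le_mul_of_nonneg_left (abs_real_inner_le_norm _ _) (abs_nonneg _)
          _ = (|‖X₀ x‖ ^ (p - 2) - 1| * ‖X₀ x‖) * ‖X₁ x‖ := by ring
          _ ≤ (p - 2) * (1 + M ^ 2) * ‖X₁ x‖ :=
              mul_le_mul_of_nonneg_right (abs_rpow_sub_one_mul_le (norm_nonneg _) (hM x)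
                (by linarith) (by linarith)) (norm_nonneg _)
    _ = (p - 2) * (1 + M ^ 2) * ∫ x, ‖X₁ x‖ ∂μ := integral_const_mul _ _
    _ ≤ (p - 2) * (1 + M ^ 2) * a := by
        apply mul_le_mul_of_nonneg_left (bml_int_norm_le h1 ha haa)
        have : 0 ≤ p - 2 := by linarith
        positivity

end Pool.Agent.PL2
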