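import Pool.Agent.PL2.CalcA

open MeasureTheory Set Metric Filter Topology
open scoped ENNReal ContDiff InnerProductSpace Interval

namespace Pool.Agent.PL2

open Pool.Agent.PLap94

theorem calc_inner_gU (N : ℕ) (c d : ℕ → ℕ → ℝ) (x : E2) :
    ⟪gU N c x, gU N d x⟫_ℝ =
      dsum cs sn N (fun i j => kk i * c i j) x * dsum cs sn N (fun i j => kk i * d i j) x +
      dsum sn cs N (fun i j => kk j * c i j) x * dsum sn cs N (fun i j => kk j * d i j) x := by
  rw [PiLp.inner_apply, Fin.sum_univ_two]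
  have e0 : ∀ c, (gU N c x) 0 = dsum cs sn N (fun i j => kk i * c i j) x := fun c => by simp [gU]
  have e1 : ∀ c, (gU N c x) 1 = dsum sn cs N (fun i j => kk j * c i j) x := fun c => by simp [gU]
  have e2 : ∀ a b : ℝ, ⟪a, b⟫_ℝ = a * b := fun a b => by simp [mul_comm]
  rw [e0, e0, e1, e1, e2, e2]

theorem calc_integral_inner (N : ℕ) (c d : ℕ → ℕ → ℝ) :
    ∫ x, ⟪gU N c x, gU N d x⟫_ℝ ∂μS =
      (∑ i ∈ Finset.range N, ∑ j ∈ Finset.range N, (kk i ^ 2 + kk j ^ 2) * (c i j * d i j)) / 4 := by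
  simp_rw [calc_inner_gU]
  have c1 : ∀ c : ℕ → ℕ → ℝ, Continuous (dsum cs sn N c) := fun c =>
    continuous_dsum orth_cs.cont orth_sn.cont _ _
  have c2 : ∀ c : ℕ → ℕ → ℝ, Continuous (dsum sn cs N c) := fun c =>
    continuous_dsum orth_sn.cont orth_cs.cont _ _
  have h1 : Integrable (fun x => dsum cs sn N (fun i j => kk i * c i j) x *
      dsum cs sn N (fun i j => kk i * d i j) x) μS := integrable_muS ((c1 _).mul (c1 _))
  have h2 : Integrable (fun x => dsum sn cs N (fun i j => kk j * c i j) x *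
      dsum sn cs N (fun i j => kk j * d i j) x) μS := integrable_muS ((c2 _).mul (c2 _))
  rw [integral_add h1 h2, integral_dsum_mul orth_cs orth_sn, integral_dsum_mul orth_sn orth_cs,
    ← add_div, ← Finset.sum_add_distrib]
  congr 1
  refine Finset.sum_congr rfl fun i _ => ?_
  rw [← Finset.sum_add_distrib]
  refine Finset.sum_congr rfl fun j _ => ?_
  ring

theorem calc_sum_cm {N : ℕ} (hN : 2 ≤ N) (α β : ℝ) (w : ℕ → ℕ → ℝ) :
    ∑ i ∈ Finset.range N, ∑ j ∈ Finset.range N, w i j * cm α β i j =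
      w 1 0 * α + w 0 1 * β := by
  have h : ∀ i j, w i j * cm α β i j =
      (if i = 1 ∧ j = 0 then w i j * α else 0) + (if i = 0 ∧ j = 1 then w i j * β else 0) := by
    intro i j
    unfold cm
    by_cases h1 : i = 1 ∧ j = 0
    · have h2 : ¬ (i = 0 ∧ j = 1) := by omega
      rw [if_pos h1, if_pos h1, if_neg h2]; ring
    · rw [if_neg h1, if_neg h1]
      by_cases h2 : i = 0 ∧ j = 1
      · rw [if_pos h2, if_pos h2]; ring
      · rw [if_neg h2, if_neg h2]; ring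
  simp_rw [h, Finset.sum_add_distrib]
  rw [calcA_single N 1 0 (by omega) (by omega) (fun i j => w i j * α),
    calcA_single N 0 1 (by omega) (by omega) (fun i j => w i j * β)]

theorem calc_cm10 (α β : ℝ) : cm α β 1 0 = α := by simp [cm]
theorem calc_cm01 (α β : ℝ) : cm α β 0 1 = β := by simp [cm]
theorem calc_high10 (c : ℕ → ℕ → ℝ) : high c 1 0 = 0 := by simp [high]
theorem calc_high01 (c : ℕ → ℕ → ℝ) : high c 0 1 = 0 := by simp [high]

theorem integral_mode_mul_high {N : ℕ} (hN : 2 ≤ N) (α β : ℝ) (c : ℕ → ℕ → ℝ) :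
    ∫ x, mode α β x * U N (high c) x ∂μS = 0 := by
  have h : ∀ x, mode α β x * U N (high c) x = dsum sn sn N (cm α β) x * dsum sn sn N (high c) x := by
    intro x
    rw [← U_cm hN]
    rfl
  simp_rw [h]
  rw [integral_dsum_mul orth_sn orth_sn]
  have h2 : ∑ i ∈ Finset.range N, ∑ j ∈ Finset.range N, cm α β i j * high c i j =
      ∑ i ∈ Finset.range N, ∑ j ∈ Finset.range N, high c i j * cm α β i j :=
    Finset.sum_congr rfl fun i _ => Finset.sum_congr rfl fun j _ => mul_comm _ _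
  rw [h2, calc_sum_cm hN, calc_high10, calc_high01]
  ring

theorem integral_inner_gmode_high {N : ℕ} (hN : 2 ≤ N) (α β : ℝ) (c : ℕ → ℕ → ℝ) :
    ∫ x, ⟪gmode α β x, gU N (high c) x⟫_ℝ ∂μS = 0 := by
  have h : ∀ x, ⟪gmode α β x, gU N (high c) x⟫_ℝ = ⟪gU N (cm α β) x, gU N (high c) x⟫_ℝ := by
    intro x
    rw [gU_cm hN]
  simp_rw [h]
  rw [calc_integral_inner]
  have h2 : ∑ i ∈ Finset.range N, ∑ j ∈ Finset.range N,
        (kk i ^ 2 + kk j ^ 2) * (cm α β i j * high c i j) =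
      ∑ i ∈ Finset.range N, ∑ j ∈ Finset.range N,
        ((kk i ^ 2 + kk j ^ 2) * high c i j) * cm α β i j :=
    Finset.sum_congr rfl fun i _ => Finset.sum_congr rfl fun j _ => by ring
  rw [h2, calc_sum_cm hN (w := fun i j => (kk i ^ 2 + kk j ^ 2) * high c i j), calc_high10,
    calc_high01]
  ring

theorem integral_mode_sq {α β : ℝ} (h : α ^ 2 + β ^ 2 = 1) :
    ∫ x, ‖mode α β x‖ ^ 2 ∂μS = 1 / 4 := by
  have h1 : ∀ x, ‖mode α β x‖ ^ 2 = dsum sn sn 2 (cm α β) x * dsum sn sn 2 (cm α β) x := by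
    intro x
    rw [← U_cm le_rfl, Real.norm_eq_abs, sq_abs, sq]
    rfl
  simp_rw [h1]
  rw [integral_dsum_mul orth_sn orth_sn, calc_sum_cm le_rfl, calc_cm10, calc_cm01]
  congr 1
  linear_combination h

theorem integral_gmode_sq {α β : ℝ} (h : α ^ 2 + β ^ 2 = 1) :
    ∫ x, ‖gmode α β x‖ ^ 2 ∂μS = L₂ / 4 := by
  have h1 : ∀ x, ‖gmode α β x‖ ^ 2 = ⟪gU 2 (cm α β) x, gU 2 (cm α β) x⟫_ℝ := by
    intro x
    rw [gU_cm le_rfl, real_inner_self_eq_norm_sq]
  simp_rw [h1]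
  rw [calc_integral_inner]
  have h2 : ∑ i ∈ Finset.range 2, ∑ j ∈ Finset.range 2,
        (kk i ^ 2 + kk j ^ 2) * (cm α β i j * cm α β i j) =
      ∑ i ∈ Finset.range 2, ∑ j ∈ Finset.range 2,
        ((kk i ^ 2 + kk j ^ 2) * cm α β i j) * cm α β i j :=
    Finset.sum_congr rfl fun i _ => Finset.sum_congr rfl fun j _ => by ring
  rw [h2, calc_sum_cm le_rfl (w := fun i j => (kk i ^ 2 + kk j ^ 2) * cm α β i j), calc_cm10,
    calc_cm01]
  congr 1
  unfold kk L₂
  push_cast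
  linear_combination (5 * Real.pi ^ 2) * h

theorem integral_U_mul_e₁ {N : ℕ} (hN : 2 ≤ N) (c : ℕ → ℕ → ℝ) :
    ∫ x, U N c x * e₁ x ∂μS = c 0 0 / 4 := by
  have h : ∀ x, U N c x * e₁ x = dsum sn sn N c x *
      dsum sn sn N (fun i j => if i = 0 ∧ j = 0 then 1 else 0) x := by
    intro x
    congr 1
    unfold e₁ dsum
    have h1 : ∀ i j : ℕ, (if i = 0 ∧ j = 0 then (1 : ℝ) else 0) * (sn i (x 0) * sn j (x 1)) =
        if i = 0 ∧ j = 0 then sn i (x 0) * sn j (x 1) else 0 := by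
      intro i j
      split_ifs <;> simp
    simp_rw [h1]
    rw [calcA_single N 0 0 (by omega) (by omega) (fun i j => sn i (x 0) * sn j (x 1))]
  simp_rw [h]
  rw [integral_dsum_mul orth_sn orth_sn]
  congr 1
  have h1 : ∀ i j : ℕ, c i j * (if i = 0 ∧ j = 0 then (1 : ℝ) else 0) =
        if i = 0 ∧ j = 0 then c i j else 0 := by
    intro i j
    split_ifs <;> simp
  simp_rw [h1]
  rw [calcA_single N 0 0 (by omega) (by omega) c]

theorem integral_U_mul_mode {N : ℕ} (hN : 2 ≤ N) (α β : ℝ) (c : ℕ → ℕ → ℝ) :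
    ∫ x, U N c x * mode α β x ∂μS = (α * c 1 0 + β * c 0 1) / 4 := by
  have h : ∀ x, U N c x * mode α β x = dsum sn sn N c x * dsum sn sn N (cm α β) x := by
    intro x
    rw [← U_cm hN]
    rfl
  simp_rw [h]
  rw [integral_dsum_mul orth_sn orth_sn, calc_sum_cm hN]
  congr 1
  ring

end Pool.Agent.PL2
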