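import Pool.Agent.PL2.Orth

open MeasureTheory Set Metric Filter Topology
open scoped ENNReal ContDiff InnerProductSpace Interval

namespace Pool.Agent.PL2

open Pool.Agent.PLap94

theorem calcA_cont2 {f g : E2 → ℝ} (hf : Continuous f) (hg : Continuous g) :
    Continuous fun x => (!₂[f x, g x] : E2) := by
  refine (PiLp.continuous_toLp 2 (fun _ : Fin 2 => ℝ)).comp (continuous_pi fun i => ?_)
  fin_cases i
  · exact hf
  · exact hg

theorem calcA_norm2 (a b : ℝ) : ‖(!₂[a, b] : E2)‖ ≤ |a| + |b| := by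
  rw [EuclideanSpace.norm_eq]
  refine Real.sqrt_le_iff.2 ⟨by positivity, ?_⟩
  rw [Fin.sum_univ_two]
  have h0 : ‖(!₂[a, b] : E2) 0‖ = |a| := by simp
  have h1 : ‖(!₂[a, b] : E2) 1‖ = |b| := by simp
  rw [h0, h1]
  nlinarith [abs_nonneg a, abs_nonneg b]

/-- partial derivatives of the double sums -/
theorem hasDerivAt_sn (i : ℕ) (x : ℝ) : HasDerivAt (sn i) (kk i * cs i x) x := by
  have h1 : HasDerivAt (fun x : ℝ => kk i * x) (kk i) x := by
    simpa using (hasDerivAt_id x).const_mul (kk i)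
  have h2 := h1.sin
  have h3 : Real.cos (kk i * x) * kk i = kk i * cs i x := by unfold cs; ring
  rw [h3] at h2
  exact h2

theorem hasDerivAt_cs (i : ℕ) (x : ℝ) : HasDerivAt (cs i) (-(kk i * sn i x)) x := by
  have h1 : HasDerivAt (fun x : ℝ => kk i * x) (kk i) x := by
    simpa using (hasDerivAt_id x).const_mul (kk i)
  have h2 := h1.cos
  have h3 : -Real.sin (kk i * x) * kk i = -(kk i * sn i x) := by unfold sn; ring
  rw [h3] at h2
  exact h2

theorem contDiff_U (N : ℕ) (c : ℕ → ℕ → ℝ) : ContDiff ℝ ∞ (U N c) := by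
  have hc : ∀ i : Fin 2, ContDiff ℝ ∞ fun x : E2 => x i := fun i =>
    (EuclideanSpace.proj i : E2 →L[ℝ] ℝ).contDiff
  have hs : ∀ i, ContDiff ℝ ∞ (sn i) := by
    intro i
    exact Real.contDiff_sin.comp (contDiff_const.mul contDiff_id)
  unfold U dsum
  refine ContDiff.sum fun i _ => ContDiff.sum fun j _ => ?_
  exact contDiff_const.mul (((hs i).comp (hc 0)).mul ((hs j).comp (hc 1)))

theorem calcA_hasFDerivAt (N : ℕ) (c : ℕ → ℕ → ℝ) (x : E2) :
    HasFDerivAt (U N c) (∑ i ∈ Finset.range N, ∑ j ∈ Finset.range N, c i j •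
      (sn i (x 0) • ((kk j * cs j (x 1)) • (EuclideanSpace.proj 1 : E2 →L[ℝ] ℝ)) +
        sn j (x 1) • ((kk i * cs i (x 0)) • (EuclideanSpace.proj 0 : E2 →L[ℝ] ℝ)))) x := by
  have h0 : ∀ i, HasFDerivAt (fun y : E2 => sn i (y 0))
      ((kk i * cs i (x 0)) • (EuclideanSpace.proj 0 : E2 →L[ℝ] ℝ)) x := by
    intro i
    have h := HasDerivAt.comp_hasFDerivAt (h₂ := sn i) (f := fun y : E2 => y 0) x
      (hasDerivAt_sn i (x 0)) (EuclideanSpace.proj 0 : E2 →L[ℝ] ℝ).hasFDerivAt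
    exact h
  have h1 : ∀ j, HasFDerivAt (fun y : E2 => sn j (y 1))
      ((kk j * cs j (x 1)) • (EuclideanSpace.proj 1 : E2 →L[ℝ] ℝ)) x := by
    intro j
    have h := HasDerivAt.comp_hasFDerivAt (h₂ := sn j) (f := fun y : E2 => y 1) x
      (hasDerivAt_sn j (x 1)) (EuclideanSpace.proj 1 : E2 →L[ℝ] ℝ).hasFDerivAt
    exact h
  have h2 : ∀ i j, HasFDerivAt (fun y : E2 => c i j * (sn i (y 0) * sn j (y 1)))
      (c i j • (sn i (x 0) • ((kk j * cs j (x 1)) • (EuclideanSpace.proj 1 : E2 →L[ℝ] ℝ)) +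
        sn j (x 1) • ((kk i * cs i (x 0)) • (EuclideanSpace.proj 0 : E2 →L[ℝ] ℝ)))) x := fun i j =>
    ((h0 i).mul (h1 j)).const_mul (c i j)
  have h3 := HasFDerivAt.fun_sum (u := Finset.range N) fun i _ =>
    HasFDerivAt.fun_sum (u := Finset.range N) fun j _ => h2 i j
  exact h3

theorem calcA_sum_apply (N : ℕ) (F : ℕ → ℕ → (E2 →L[ℝ] ℝ)) (v : E2) :
    (∑ i ∈ Finset.range N, ∑ j ∈ Finset.range N, F i j) v =
      ∑ i ∈ Finset.range N, ∑ j ∈ Finset.range N, F i j v := by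
  rw [sum_apply]
  refine Finset.sum_congr rfl fun i _ => ?_
  rw [sum_apply]

theorem gradient_U (N : ℕ) (c : ℕ → ℕ → ℝ) (x : E2) : gradient (U N c) x = gU N c x := by
  have h := calcA_hasFDerivAt N c x
  have h' : HasGradientAt (U N c) (gU N c x) x := by
    rw [hasGradientAt_iff_hasFDerivAt]
    refine h.congr_fderiv ?_
    ext v
    rw [calcA_sum_apply, InnerProductSpace.toDual_apply_apply, PiLp.inner_apply, Fin.sum_univ_two]
    have e0 : (gU N c x) 0 = dsum cs sn N (fun i j => kk i * c i j) x := by simp [gU]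
    have e1 : (gU N c x) 1 = dsum sn cs N (fun i j => kk j * c i j) x := by simp [gU]
    rw [e0, e1]
    have e2 : ∀ a b : ℝ, ⟪a, b⟫_ℝ = a * b := fun a b => by simp [mul_comm]
    rw [e2, e2]
    unfold dsum
    rw [Finset.sum_mul, Finset.sum_mul, ← Finset.sum_add_distrib]
    refine Finset.sum_congr rfl fun i _ => ?_
    rw [Finset.sum_mul, Finset.sum_mul, ← Finset.sum_add_distrib]
    refine Finset.sum_congr rfl fun j _ => ?_
    have p0 : (EuclideanSpace.proj 0 : E2 →L[ℝ] ℝ) v = v 0 := rfl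
    have p1 : (EuclideanSpace.proj 1 : E2 →L[ℝ] ℝ) v = v 1 := rfl
    simp only [smul_apply, add_apply, smul_eq_mul, p0, p1]
    ring
  exact h'.gradient

theorem continuous_gU (N : ℕ) (c : ℕ → ℕ → ℝ) : Continuous (gU N c) :=
  calcA_cont2 (continuous_dsum orth_cs.cont orth_sn.cont _ _)
    (continuous_dsum orth_sn.cont orth_cs.cont _ _)

theorem calcA_dsum_bound {f g : ℕ → ℝ → ℝ} (hf : ∀ i x, |f i x| ≤ 1) (hg : ∀ i x, |g i x| ≤ 1)
    (N : ℕ) (c : ℕ → ℕ → ℝ) (x : E2) :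
    |dsum f g N c x| ≤ ∑ i ∈ Finset.range N, ∑ j ∈ Finset.range N, |c i j| := by
  unfold dsum
  refine (Finset.abs_sum_le_sum_abs _ _).trans (Finset.sum_le_sum fun i _ => ?_)
  refine (Finset.abs_sum_le_sum_abs _ _).trans (Finset.sum_le_sum fun j _ => ?_)
  rw [abs_mul, abs_mul]
  have h1 : |f i (x 0)| * |g j (x 1)| ≤ 1 * 1 :=
    mul_le_mul (hf _ _) (hg _ _) (abs_nonneg _) zero_le_one
  calc |c i j| * (|f i (x 0)| * |g j (x 1)|) ≤ |c i j| * (1 * 1) :=
        mul_le_mul_of_nonneg_left h1 (abs_nonneg _)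
    _ = |c i j| := by ring

theorem calcA_sn_le (i : ℕ) (x : ℝ) : |sn i x| ≤ 1 := Real.abs_sin_le_one _

theorem calcA_cs_le (i : ℕ) (x : ℝ) : |cs i x| ≤ 1 := Real.abs_cos_le_one _

theorem bm_U (N : ℕ) (c : ℕ → ℕ → ℝ) : BM μS (U N c) := by
  refine ⟨(continuous_dsum orth_sn.cont orth_sn.cont N c).aestronglyMeasurable,
    ∑ i ∈ Finset.range N, ∑ j ∈ Finset.range N, |c i j|, fun x => ?_⟩
  exact calcA_dsum_bound calcA_sn_le calcA_sn_le N c x

theorem bm_gU (N : ℕ) (c : ℕ → ℕ → ℝ) : BM μS (gU N c) := by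
  refine ⟨(continuous_gU N c).aestronglyMeasurable,
    (∑ i ∈ Finset.range N, ∑ j ∈ Finset.range N, |kk i * c i j|) +
      ∑ i ∈ Finset.range N, ∑ j ∈ Finset.range N, |kk j * c i j|, fun x => ?_⟩
  refine (calcA_norm2 _ _).trans (add_le_add ?_ ?_)
  · exact calcA_dsum_bound calcA_cs_le calcA_sn_le N (fun i j => kk i * c i j) x
  · exact calcA_dsum_bound calcA_sn_le calcA_cs_le N (fun i j => kk j * c i j) x

theorem hasDerivAt_dsum_fst {f g f' : ℕ → ℝ → ℝ} {r : ℕ → ℝ}
    (hf : ∀ i x, HasDerivAt (f i) (r i * f' i x) x) (N : ℕ) (c : ℕ → ℕ → ℝ) (a b : ℝ) :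
    HasDerivAt (fun t => dsum f g N c (pt t b)) (dsum f' g N (fun i j => r i * c i j) (pt a b))
      a := by
  unfold dsum
  simp only [pt_zero, pt_one]
  have h : ∀ i j, HasDerivAt (fun t => c i j * (f i t * g j b))
      (r i * c i j * (f' i a * g j b)) a := by
    intro i j
    have h1 := ((hf i a).mul_const (g j b)).const_mul (c i j)
    have h2 : c i j * (r i * f' i a * g j b) = r i * c i j * (f' i a * g j b) := by ring
    rw [h2] at h1
    exact h1
  exact HasDerivAt.fun_sum (u := Finset.range N) fun i _ =>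
    HasDerivAt.fun_sum (u := Finset.range N) fun j _ => h i j

theorem hasDerivAt_dsum_snd {f g g' : ℕ → ℝ → ℝ} {r : ℕ → ℝ}
    (hg : ∀ i x, HasDerivAt (g i) (r i * g' i x) x) (N : ℕ) (c : ℕ → ℕ → ℝ) (a b : ℝ) :
    HasDerivAt (fun t => dsum f g N c (pt a t)) (dsum f g' N (fun i j => r j * c i j) (pt a b))
      b := by
  unfold dsum
  simp only [pt_zero, pt_one]
  have h : ∀ i j, HasDerivAt (fun t => c i j * (f i a * g j t))
      (r j * c i j * (f i a * g' j b)) b := by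
    intro i j
    have h1 := ((hg j b).const_mul (f i a)).const_mul (c i j)
    have h2 : c i j * (f i a * (r j * g' j b)) = r j * c i j * (f i a * g' j b) := by ring
    rw [h2] at h1
    exact h1
  exact HasDerivAt.fun_sum (u := Finset.range N) fun i _ =>
    HasDerivAt.fun_sum (u := Finset.range N) fun j _ => h i j

/-! Linearity. -/

theorem calcA_dsum_add_smul (f g : ℕ → ℝ → ℝ) (N : ℕ) (t : ℝ) (w c d : ℕ → ℕ → ℝ) (x : E2) :
    dsum f g N (fun i j => w i j * (t * c i j + d i j)) x =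
      t * dsum f g N (fun i j => w i j * c i j) x + dsum f g N (fun i j => w i j * d i j) x := by
  unfold dsum
  rw [Finset.mul_sum, ← Finset.sum_add_distrib]
  refine Finset.sum_congr rfl fun i _ => ?_
  rw [Finset.mul_sum, ← Finset.sum_add_distrib]
  refine Finset.sum_congr rfl fun j _ => ?_
  ring

theorem U_add_smul (N : ℕ) (t : ℝ) (c d : ℕ → ℕ → ℝ) (x : E2) :
    U N (fun i j => t * c i j + d i j) x = t * U N c x + U N d x := by
  have h := calcA_dsum_add_smul sn sn N t (fun _ _ => 1) c d x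
  simp only [one_mul] at h
  exact h

theorem gU_add_smul (N : ℕ) (t : ℝ) (c d : ℕ → ℕ → ℝ) (x : E2) :
    gU N (fun i j => t * c i j + d i j) x = t • gU N c x + gU N d x := by
  have h0 := calcA_dsum_add_smul cs sn N t (fun i _ => kk i) c d x
  have h1 := calcA_dsum_add_smul sn cs N t (fun _ j => kk j) c d x
  unfold gU
  rw [h0, h1]
  ext i
  fin_cases i
  · simp
  · simp

/-- coefficient array of `mode α β` -/
noncomputable def cm (α β : ℝ) : ℕ → ℕ → ℝ :=
  fun i j => if i = 1 ∧ j = 0 then α else if i = 0 ∧ j = 1 then β else 0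

theorem calcA_single (N a b : ℕ) (ha : a < N) (hb : b < N) (F : ℕ → ℕ → ℝ) :
    ∑ i ∈ Finset.range N, ∑ j ∈ Finset.range N, (if i = a ∧ j = b then F i j else 0) = F a b := by
  rw [Finset.sum_eq_single a, Finset.sum_eq_single b]
  · simp
  · intro j _ hj
    rw [if_neg]
    rintro ⟨_, h⟩
    exact hj h
  · intro h
    exact absurd (Finset.mem_range.2 hb) h
  · intro i _ hi
    refine Finset.sum_eq_zero fun j _ => ?_
    rw [if_neg]
    rintro ⟨h, _⟩
    exact hi h
  · intro h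
    exact absurd (Finset.mem_range.2 ha) h

theorem calcA_dsum_cm (f g : ℕ → ℝ → ℝ) {N : ℕ} (hN : 2 ≤ N) (α β : ℝ) (w : ℕ → ℕ → ℝ) (x : E2) :
    dsum f g N (fun i j => w i j * cm α β i j) x =
      w 1 0 * α * (f 1 (x 0) * g 0 (x 1)) + w 0 1 * β * (f 0 (x 0) * g 1 (x 1)) := by
  unfold dsum
  have h : ∀ i j, w i j * cm α β i j * (f i (x 0) * g j (x 1)) =
      (if i = 1 ∧ j = 0 then w i j * α * (f i (x 0) * g j (x 1)) else 0) +
      (if i = 0 ∧ j = 1 then w i j * β * (f i (x 0) * g j (x 1)) else 0) := by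
    intro i j
    unfold cm
    by_cases h1 : i = 1 ∧ j = 0
    · have h2 : ¬ (i = 0 ∧ j = 1) := by omega
      rw [if_pos h1, if_pos h1, if_neg h2]; ring
    · rw [if_neg h1, if_neg h1]
      by_cases h2 : i = 0 ∧ j = 1
      · rw [if_pos h2, if_pos h2]; ring
      · rw [if_neg h2, if_neg h2]; ring
  simp_rw [h, Finset.sum_add_distrib]
  rw [calcA_single N 1 0 (by omega) (by omega) (fun i j => w i j * α * (f i (x 0) * g j (x 1))),
    calcA_single N 0 1 (by omega) (by omega) (fun i j => w i j * β * (f i (x 0) * g j (x 1)))]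

theorem U_cm {N : ℕ} (hN : 2 ≤ N) (α β : ℝ) (x : E2) : U N (cm α β) x = mode α β x := by
  have h := calcA_dsum_cm sn sn hN α β (fun _ _ => 1) x
  simp only [one_mul] at h
  exact h

theorem gU_cm {N : ℕ} (hN : 2 ≤ N) (α β : ℝ) (x : E2) : gU N (cm α β) x = gmode α β x := by
  have h0 := calcA_dsum_cm cs sn hN α β (fun i _ => kk i) x
  have h1 := calcA_dsum_cm sn cs hN α β (fun _ j => kk j) x
  unfold gU gmode
  rw [h0, h1]
  congr 2
  · ring
  · congr 1
    ring

/-- `lapInv (cm α β) = (1/L₂) cm α β` -/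
theorem lapInv_cm (α β : ℝ) (i j : ℕ) : lapInv (cm α β) i j = L₂⁻¹ * cm α β i j := by
  have hpi : Real.pi ≠ 0 := Real.pi_ne_zero
  unfold lapInv cm
  by_cases h1 : i = 1 ∧ j = 0
  · rw [if_pos h1, h1.1, h1.2]
    unfold kk L₂
    push_cast
    field_simp
    norm_num
  · rw [if_neg h1]
    by_cases h2 : i = 0 ∧ j = 1
    · rw [if_pos h2, h2.1, h2.2]
      unfold kk L₂
      push_cast
      field_simp
      norm_num
    · rw [if_neg h2]
      simp

/-- the array `c` without its three lowest modes -/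
noncomputable def high (c : ℕ → ℕ → ℝ) : ℕ → ℕ → ℝ :=
  fun i j => if (i = 0 ∧ j = 0) ∨ (i = 1 ∧ j = 0) ∨ (i = 0 ∧ j = 1) then 0 else c i j

/-- Under the constraints, `c = t cm + high c` with `t = α c₁₀ + β c₀₁`. -/
theorem constr_decomp {α β : ℝ} (h : α ^ 2 + β ^ 2 = 1) {c : ℕ → ℕ → ℝ} (hc : Constr α β c)
    (i j : ℕ) : c i j = (α * c 1 0 + β * c 0 1) * cm α β i j + high c i j := by
  obtain ⟨h00, h01⟩ := hc
  unfold cm high
  by_cases h1 : i = 1 ∧ j = 0
  · rw [if_pos h1, if_pos (Or.inr (Or.inl h1)), h1.1, h1.2]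
    linear_combination (-c 1 0) * h - β * h01
  · rw [if_neg h1]
    by_cases h2 : i = 0 ∧ j = 1
    · rw [if_pos h2, if_pos (Or.inr (Or.inr h2)), h2.1, h2.2]
      linear_combination (-c 0 1) * h + α * h01
    · rw [if_neg h2]
      by_cases h3 : i = 0 ∧ j = 0
      · rw [if_pos (Or.inl h3), h3.1, h3.2, h00]
        ring
      · rw [if_neg]
        · ring
        · tauto

theorem calcA_mode_eq (α β : ℝ) : mode α β = U 2 (cm α β) := by
  funext x
  exact (U_cm le_rfl α β x).symm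

theorem calcA_gmode_eq (α β : ℝ) : gmode α β = gU 2 (cm α β) := by
  funext x
  exact (gU_cm le_rfl α β x).symm

theorem continuous_mode (α β : ℝ) : Continuous (mode α β) := by
  rw [calcA_mode_eq]
  exact continuous_dsum orth_sn.cont orth_sn.cont _ _

theorem bm_mode (α β : ℝ) : BM μS (mode α β) := by
  rw [calcA_mode_eq]
  exact bm_U _ _

theorem bm_gmode (α β : ℝ) : BM μS (gmode α β) := by
  rw [calcA_gmode_eq]
  exact bm_gU _ _

end Pool.Agent.PL2
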