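import Pool.Agent.PLap94.LpPart

open MeasureTheory Set Metric Filter Topology
open scoped ENNReal ContDiff InnerProductSpace

namespace Pool.Agent.PL2

open Pool.Agent.PLap94

/-- the frequency `(i+1)π` -/
noncomputable def kk (i : ℕ) : ℝ := ((i : ℝ) + 1) * Real.pi

/-- `sin((i+1)πx)` -/
noncomputable def sn (i : ℕ) (x : ℝ) : ℝ := Real.sin (kk i * x)

/-- `cos((i+1)πx)` -/
noncomputable def cs (i : ℕ) (x : ℝ) : ℝ := Real.cos (kk i * x)

/-- double sums `∑_{i,j<N} c_{ij} f_i(x₀) g_j(x₁)` -/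
noncomputable def dsum (f g : ℕ → ℝ → ℝ) (N : ℕ) (c : ℕ → ℕ → ℝ) (x : E2) : ℝ :=
  ∑ i ∈ Finset.range N, ∑ j ∈ Finset.range N, c i j * (f i (x 0) * g j (x 1))

/-- the sine polynomial with coefficients `c` -/
noncomputable def U (N : ℕ) (c : ℕ → ℕ → ℝ) : E2 → ℝ := dsum sn sn N c

/-- the gradient of the sine polynomial -/
noncomputable def gU (N : ℕ) (c : ℕ → ℕ → ℝ) (x : E2) : E2 :=
  !₂[dsum cs sn N (fun i j => kk i * c i j) x, dsum sn cs N (fun i j => kk j * c i j) x]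

/-- coefficients of the solution `φ` of `-Δφ = U N c` -/
noncomputable def lapInv (c : ℕ → ℕ → ℝ) (i j : ℕ) : ℝ := c i j / (kk i ^ 2 + kk j ^ 2)

/-- the first mode `sin πx sin πy` -/
noncomputable def e₁ (x : E2) : ℝ := sn 0 (x 0) * sn 0 (x 1)

/-- the second mode `α sin 2πx sin πy + β sin πx sin 2πy` -/
noncomputable def mode (α β : ℝ) (x : E2) : ℝ :=
  α * (sn 1 (x 0) * sn 0 (x 1)) + β * (sn 0 (x 0) * sn 1 (x 1))

/-- the gradient of the second mode -/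
noncomputable def gmode (α β : ℝ) (x : E2) : E2 :=
  !₂[α * (kk 1 * (cs 1 (x 0) * sn 0 (x 1))) + β * (kk 0 * (cs 0 (x 0) * sn 1 (x 1))),
    α * (kk 0 * (sn 1 (x 0) * cs 0 (x 1))) + β * (kk 1 * (sn 0 (x 0) * cs 1 (x 1)))]

/-- `∫_Ω |f|^p` -/
noncomputable def Nn {F : Type*} [NormedAddCommGroup F] (p : ℝ) (f : E2 → F) : ℝ :=
  ∫ x, ‖f x‖ ^ p ∂μS

/-- the `p`-Rayleigh quotient of the second mode -/
noncomputable def Ray (α β p : ℝ) : ℝ := Nn p (gmode α β) / Nn p (mode α β)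

/-- the second Dirichlet eigenvalue of the Laplacian -/
noncomputable def L₂ : ℝ := 5 * Real.pi ^ 2

/-- the derivative of `Ray α β p` in `p` at `p = 2` -/
noncomputable def Jv (α β : ℝ) : ℝ :=
  4 * (∫ x, ‖gmode α β x‖ ^ 2 * Real.log ‖gmode α β x‖ ∂μS -
    L₂ * ∫ x, ‖mode α β x‖ ^ 2 * Real.log ‖mode α β x‖ ∂μS)

/-- A coefficient array `c` satisfies the two constraints (for the direction `(α, β)`). -/
def Constr (α β : ℝ) (c : ℕ → ℕ → ℝ) : Prop := c 0 0 = 0 ∧ α * c 0 1 = β * c 1 0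

/-- bounded and a.e. strongly measurable -/
def BM {X F : Type*} [MeasurableSpace X] [NormedAddCommGroup F] (μ : Measure X) (f : X → F) :
    Prop := AEStronglyMeasurable f μ ∧ ∃ K, ∀ x, ‖f x‖ ≤ K

end Pool.Agent.PL2
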