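import Mathlib

open Set Filter Topology

namespace Pool.Agent.PL2

/-- `cos (iπx) cos (jπy)` on the square -/
noncomputable def swv (i j : ℤ) : C(Icc (0 : ℝ) 1 × Icc (0 : ℝ) 1, ℝ) :=
  ⟨fun p => Real.cos (i * Real.pi * p.1) * Real.cos (j * Real.pi * p.2), by fun_prop⟩

theorem swv_apply (i j : ℤ) (p : Icc (0 : ℝ) 1 × Icc (0 : ℝ) 1) :
    swv i j p = Real.cos (i * Real.pi * p.1) * Real.cos (j * Real.pi * p.2) := rfl

/-- the span of the cosine products -/
noncomputable def swS : Submodule ℝ C(Icc (0 : ℝ) 1 × Icc (0 : ℝ) 1, ℝ) :=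
  Submodule.span ℝ (range fun p : ℕ × ℕ => swv p.1 p.2)

theorem swv_natAbs (i j : ℤ) : swv i j = swv (i.natAbs : ℕ) (j.natAbs : ℕ) := by
  ext p
  rw [swv_apply, swv_apply]
  have h : ∀ (k : ℤ) (x : ℝ), Real.cos (k * Real.pi * x) =
      Real.cos (((k.natAbs : ℕ) : ℤ) * Real.pi * x) := by
    intro k x
    rcases Int.natAbs_eq k with hk | hk
    · rw [← hk]
    · conv_lhs => rw [hk]
      rw [← Real.cos_neg]
      congr 1
      push_cast
      ring
  rw [← h, ← h]

theorem swv_mem (i j : ℤ) : swv i j ∈ swS := by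
  rw [swv_natAbs]
  exact Submodule.subset_span ⟨(i.natAbs, j.natAbs), rfl⟩

theorem swv_mul (i j k l : ℤ) : swv i j * swv k l =
    (1 / 4 : ℝ) • (swv (i + k) (j + l) + swv (i + k) (j - l) + swv (i - k) (j + l) +
      swv (i - k) (j - l)) := by
  ext p
  simp only [ContinuousMap.mul_apply, ContinuousMap.smul_apply, ContinuousMap.add_apply, swv_apply,
    smul_eq_mul]
  have e1 : ((i + k : ℤ) : ℝ) * Real.pi * (p.1 : ℝ) = i * Real.pi * p.1 + k * Real.pi * p.1 := by
    push_cast; ring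
  have e2 : ((i - k : ℤ) : ℝ) * Real.pi * (p.1 : ℝ) = i * Real.pi * p.1 - k * Real.pi * p.1 := by
    push_cast; ring
  have e3 : ((j + l : ℤ) : ℝ) * Real.pi * (p.2 : ℝ) = j * Real.pi * p.2 + l * Real.pi * p.2 := by
    push_cast; ring
  have e4 : ((j - l : ℤ) : ℝ) * Real.pi * (p.2 : ℝ) = j * Real.pi * p.2 - l * Real.pi * p.2 := by
    push_cast; ring
  rw [e1, e2, e3, e4, Real.cos_add, Real.cos_sub, Real.cos_add, Real.cos_sub]
  ring

theorem swS_mul {x y : C(Icc (0 : ℝ) 1 × Icc (0 : ℝ) 1, ℝ)} (hx : x ∈ swS) (hy : y ∈ swS) :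
    x * y ∈ swS := by
  induction hx using Submodule.span_induction with
  | mem x h =>
    obtain ⟨p, rfl⟩ := h
    induction hy using Submodule.span_induction with
    | mem y h =>
      obtain ⟨q, rfl⟩ := h
      simp only
      rw [swv_mul]
      exact Submodule.smul_mem _ _ (Submodule.add_mem _ (Submodule.add_mem _ (Submodule.add_mem _
        (swv_mem _ _) (swv_mem _ _)) (swv_mem _ _)) (swv_mem _ _))
    | zero => rw [mul_zero]; exact Submodule.zero_mem _
    | add y z _ _ h1 h2 => rw [mul_add]; exact Submodule.add_mem _ h1 h2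
    | smul a y _ h => rw [mul_smul_comm]; exact Submodule.smul_mem _ _ h
  | zero => rw [zero_mul]; exact Submodule.zero_mem _
  | add x z _ _ h1 h2 => rw [add_mul]; exact Submodule.add_mem _ h1 h2
  | smul a x _ h => rw [smul_mul_assoc]; exact Submodule.smul_mem _ _ h

theorem swS_one : (1 : C(Icc (0 : ℝ) 1 × Icc (0 : ℝ) 1, ℝ)) ∈ swS := by
  have : (1 : C(Icc (0 : ℝ) 1 × Icc (0 : ℝ) 1, ℝ)) = swv 0 0 := by
    ext p
    rw [swv_apply]
    simp
  rw [this]
  exact swv_mem 0 0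

/-- the subalgebra of cosine polynomials -/
noncomputable def swA : Subalgebra ℝ C(Icc (0 : ℝ) 1 × Icc (0 : ℝ) 1, ℝ) :=
  swS.toSubalgebra swS_one fun _ _ => swS_mul

theorem swA_sep : swA.SeparatesPoints := by
  rintro ⟨x, y⟩ ⟨x', y'⟩ hne
  have hinj : ∀ u v : Icc (0 : ℝ) 1, Real.cos (Real.pi * u) = Real.cos (Real.pi * v) → u = v := by
    intro u v h
    have hu := u.2
    have hv := v.2
    have h1 : Real.pi * (u : ℝ) ∈ Icc 0 Real.pi :=
      ⟨by have := hu.1; positivity, by nlinarith [hu.2, Real.pi_pos]⟩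
    have h2 : Real.pi * (v : ℝ) ∈ Icc 0 Real.pi :=
      ⟨by have := hv.1; positivity, by nlinarith [hv.2, Real.pi_pos]⟩
    have h3 := Real.injOn_cos h1 h2 h
    exact Subtype.ext (mul_left_cancel₀ Real.pi_pos.ne' h3)
  by_cases hx : x = x'
  · have hy : y ≠ y' := by
      rintro rfl
      exact hne (by rw [hx])
    refine ⟨swv 0 1, ⟨swv 0 1, swv_mem 0 1, rfl⟩, ?_⟩
    intro h
    apply hy
    apply hinj
    have h' : swv 0 1 (x, y) = swv 0 1 (x', y') := h
    rw [swv_apply, swv_apply] at h'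
    simpa using h'
  · refine ⟨swv 1 0, ⟨swv 1 0, swv_mem 1 0, rfl⟩, ?_⟩
    intro h
    apply hx
    apply hinj
    have h' : swv 1 0 (x, y) = swv 1 0 (x', y') := h
    rw [swv_apply, swv_apply] at h'
    simpa using h'

/-- Stone-Weierstrass for cosine polynomials. The functions `cos πx`, `cos πy` separate the points
of `[0,1]²`, so `Algebra.adjoin ℝ {cos πx, cos πy}` is dense in `C([0,1]²)`
(`ContinuousMap.subalgebra_topologicalClosure_eq_top_of_separatesPoints`). The set of functions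
of the form `∑ a_{ij} cos(iπx) cos(jπy)` is a vector space stable under multiplication by `cos πx`
and `cos πy` (`cos πx cos iπx = ½(cos (i+1)πx + cos (i-1)πx)`), hence contains the adjoin. -/
theorem sw {f : ℝ → ℝ → ℝ} (hf : Continuous (Function.uncurry f)) {δ : ℝ} (hδ : 0 < δ) :
    ∃ (N : ℕ) (a : ℕ → ℕ → ℝ), ∀ x ∈ Icc (0 : ℝ) 1, ∀ y ∈ Icc (0 : ℝ) 1,
      |f x y - ∑ i ∈ Finset.range N, ∑ j ∈ Finset.range N,
        a i j * (Real.cos (i * Real.pi * x) * Real.cos (j * Real.pi * y))| ≤ δ := by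
  have hc : Continuous fun p : Icc (0 : ℝ) 1 × Icc (0 : ℝ) 1 => f p.1 p.2 :=
    hf.comp (by fun_prop : Continuous fun p : Icc (0 : ℝ) 1 × Icc (0 : ℝ) 1 => ((p.1 : ℝ), (p.2 : ℝ)))
  obtain ⟨⟨g, hg⟩, hgf⟩ := ContinuousMap.exists_mem_subalgebra_near_continuous_of_separatesPoints
    swA swA_sep _ hc δ hδ
  have hg' : g ∈ swS := hg
  rw [swS, Finsupp.mem_span_range_iff_exists_finsupp] at hg'
  obtain ⟨c, hcg⟩ := hg'
  obtain ⟨N, hN⟩ : ∃ N : ℕ, c.support ⊆ Finset.range N ×ˢ Finset.range N := by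
    refine ⟨(c.support.sup fun p => p.1 + p.2) + 1, ?_⟩
    intro p hp
    have := Finset.le_sup (f := fun p : ℕ × ℕ => p.1 + p.2) hp
    rw [Finset.mem_product, Finset.mem_range, Finset.mem_range]
    omega
  refine ⟨N, fun i j => c (i, j), ?_⟩
  intro x hx y hy
  have h1 := hgf (⟨x, hx⟩, ⟨y, hy⟩)
  have h2 : g (⟨x, hx⟩, ⟨y, hy⟩) = ∑ i ∈ Finset.range N, ∑ j ∈ Finset.range N,
        c (i, j) * (Real.cos (i * Real.pi * x) * Real.cos (j * Real.pi * y)) := by
    rw [← hcg, ← Finset.sum_product', Finsupp.sum_of_support_subset _ hN _ (fun p _ => by simp)]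
    rw [ContinuousMap.coe_sum, Finset.sum_apply]
    apply Finset.sum_congr rfl
    intro p _
    rw [ContinuousMap.smul_apply, swv_apply, smul_eq_mul]
    simp
  change ‖g (⟨x, hx⟩, ⟨y, hy⟩) - f x y‖ < δ at h1
  rw [h2, Real.norm_eq_abs, abs_sub_comm] at h1
  exact h1.le

end Pool.Agent.PL2
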