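import Pool.Agent.PL2.Calc
import Pool.Agent.PL2.SW

open MeasureTheory Set Metric Filter Topology
open scoped ENNReal ContDiff InnerProductSpace Interval

namespace Pool.Agent.PL2

open Pool.Agent.PLap94

theorem dens0_rearr (N N' : ℕ) (a w : ℕ → ℕ → ℝ) (u v : ℕ → ℝ) :
    ∑ i ∈ Finset.range N, ∑ j ∈ Finset.range N,
      a i j * ((∑ k ∈ Finset.range N', w i k * u k) * ∑ l ∈ Finset.range N', w j l * v l) =
    ∑ k ∈ Finset.range N', ∑ l ∈ Finset.range N',
      (∑ i ∈ Finset.range N, ∑ j ∈ Finset.range N, a i j * w i k * w j l) * (u k * v l) := by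
  have h1 : ∑ i ∈ Finset.range N, ∑ j ∈ Finset.range N,
      a i j * ((∑ k ∈ Finset.range N', w i k * u k) * ∑ l ∈ Finset.range N', w j l * v l) =
      ∑ p ∈ Finset.range N ×ˢ Finset.range N, ∑ q ∈ Finset.range N' ×ˢ Finset.range N',
        a p.1 p.2 * w p.1 q.1 * w p.2 q.2 * (u q.1 * v q.2) := by
    rw [Finset.sum_product]
    apply Finset.sum_congr rfl
    intro i _
    apply Finset.sum_congr rfl
    intro j _
    rw [Finset.sum_mul_sum, Finset.sum_product, Finset.mul_sum]
    apply Finset.sum_congr rfl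
    intro k _
    rw [Finset.mul_sum]
    apply Finset.sum_congr rfl
    intro l _
    ring
  have h2 : ∑ k ∈ Finset.range N', ∑ l ∈ Finset.range N',
      (∑ i ∈ Finset.range N, ∑ j ∈ Finset.range N, a i j * w i k * w j l) * (u k * v l) =
      ∑ q ∈ Finset.range N' ×ˢ Finset.range N', ∑ p ∈ Finset.range N ×ˢ Finset.range N,
        a p.1 p.2 * w p.1 q.1 * w p.2 q.2 * (u q.1 * v q.2) := by
    rw [Finset.sum_product]
    apply Finset.sum_congr rfl
    intro k _
    apply Finset.sum_congr rfl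
    intro l _
    rw [Finset.sum_product, Finset.sum_mul]
    apply Finset.sum_congr rfl
    intro i _
    rw [Finset.sum_mul]
  rw [h1, h2, Finset.sum_comm]

/-- coefficients of `sin πx cos iπx` in the `sn k` -/
noncomputable def dens0w (i k : ℕ) : ℝ :=
  (if k = i then 1 / 2 else 0) - (if k + 2 = i then 1 / 2 else 0) +
    (if i = 0 ∧ k = 0 then 1 / 2 else 0)

theorem dens0_trig {N' i : ℕ} (hi : i < N') (x : ℝ) :
    Real.sin (Real.pi * x) * Real.cos (i * Real.pi * x) =
      ∑ k ∈ Finset.range N', dens0w i k * sn k x := by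
  have hprod : Real.sin (Real.pi * x) * Real.cos (i * Real.pi * x) =
      1 / 2 * (Real.sin ((i + 1) * Real.pi * x) - Real.sin ((i - 1) * Real.pi * x)) := by
    have e1 : ((i : ℝ) + 1) * Real.pi * x = i * Real.pi * x + Real.pi * x := by ring
    have e2 : ((i : ℝ) - 1) * Real.pi * x = i * Real.pi * x - Real.pi * x := by ring
    rw [e1, e2, Real.sin_add, Real.sin_sub]
    ring
  rw [hprod]
  change 1 / 2 * (sn i x - _) = _
  obtain ⟨B, hB⟩ : ∃ B, B = Real.sin (((i : ℝ) - 1) * Real.pi * x) := ⟨_, rfl⟩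
  rw [← hB]
  unfold dens0w
  simp only [add_mul, sub_mul, ite_mul, zero_mul, Finset.sum_add_distrib, Finset.sum_sub_distrib]
  have s1 : ∑ k ∈ Finset.range N', (if k = i then 1 / 2 * sn k x else 0) = 1 / 2 * sn i x := by
    rw [Finset.sum_ite_eq' , if_pos (Finset.mem_range.2 hi)]
  rw [s1]
  rcases i with _ | _ | i
  · have s2 : ∑ k ∈ Finset.range N', (if k + 2 = 0 then 1 / 2 * sn k x else 0) = 0 := by
      apply Finset.sum_eq_zero
      intro k _
      rw [if_neg (by omega)]
    have s3 : ∑ k ∈ Finset.range N', (if 0 = 0 ∧ k = 0 then 1 / 2 * sn k x else 0) =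
        1 / 2 * sn 0 x := by
      simp only [true_and]
      rw [Finset.sum_ite_eq' , if_pos (Finset.mem_range.2 hi)]
    rw [s2, s3, hB]
    unfold sn kk
    have : (((0 : ℕ) : ℝ) - 1) * Real.pi * x = -(Real.pi * x) := by simp
    rw [this, Real.sin_neg]
    simp
    ring
  · have s2 : ∑ k ∈ Finset.range N', (if k + 2 = 0 + 1 then 1 / 2 * sn k x else 0) = 0 := by
      apply Finset.sum_eq_zero
      intro k _
      rw [if_neg (by omega)]
    have s3 : ∑ k ∈ Finset.range N', (if 0 + 1 = 0 ∧ k = 0 then 1 / 2 * sn k x else 0) = 0 := by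
      apply Finset.sum_eq_zero
      intro k _
      rw [if_neg (by omega)]
    rw [s2, s3, hB]
    simp
  · have s2 : ∑ k ∈ Finset.range N', (if k + 2 = i + 1 + 1 then 1 / 2 * sn k x else 0) =
        1 / 2 * sn i x := by
      rw [Finset.sum_eq_single i]
      · rw [if_pos (by ring)]
      · intro k _ hk
        rw [if_neg (by omega)]
      · intro h
        exact absurd (Finset.mem_range.2 (by omega)) h
    have s3 : ∑ k ∈ Finset.range N', (if i + 1 + 1 = 0 ∧ k = 0 then 1 / 2 * sn k x else 0) = 0 := by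
      apply Finset.sum_eq_zero
      intro k _
      rw [if_neg (by omega)]
    have e : (((i + 1 + 1 : ℕ) : ℝ) - 1) = (i : ℝ) + 1 := by push_cast; ring
    rw [s2, s3, hB, e]
    change 1 / 2 * (_ - sn i x) = _
    ring

/-- Uniform density. `f(x,y) = g(pt x y)/(sin πx sin πy)` (zero where the denominator vanishes or
outside the square) is continuous because `g` has support inside the open square; approximate it by
`sw` and multiply: `sin πx cos(iπx) = ½(sin((i+1)πx) - sin((i-1)πx))`, a combination of the `sn`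
(for `i = 0` it is `sn 0`; `sin(-πx)`, `sin 0` are harmless). -/
theorem dens0 {g : E2 → ℝ} (hg : Continuous g) (hgc : HasCompactSupport g)
    (hgs : tsupport g ⊆ square) {δ : ℝ} (hδ : 0 < δ) :
    ∃ (N : ℕ) (c : ℕ → ℕ → ℝ), 2 ≤ N ∧ ∀ x ∈ square, |g x - U N c x| ≤ δ := by
  have hpt : Continuous fun z : ℝ × ℝ => pt z.1 z.2 := by
    unfold pt
    apply (PiLp.continuous_toLp 2 (fun _ : Fin 2 => ℝ)).comp
    refine continuous_pi ?_
    intro i
    fin_cases i
    · exact continuous_fst
    · exact continuous_snd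
  have hsin : ∀ x : ℝ, 0 < x → x < 1 → 0 < Real.sin (Real.pi * x) := by
    intro x h0 h1
    apply Real.sin_pos_of_pos_of_lt_pi
    · have := Real.pi_pos; positivity
    · nlinarith [Real.pi_pos]
  let f : ℝ → ℝ → ℝ := fun x y => g (pt x y) / (Real.sin (Real.pi * x) * Real.sin (Real.pi * y))
  have hf : Continuous (Function.uncurry f) := by
    rw [continuous_iff_continuousAt]
    rintro ⟨x, y⟩
    by_cases hz : pt x y ∈ tsupport g
    · have hsq := hgs hz
      have hx := hsq 0
      have hy := hsq 1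
      rw [pt_zero] at hx
      rw [pt_one] at hy
      have hne : Real.sin (Real.pi * x) * Real.sin (Real.pi * y) ≠ 0 :=
        (mul_pos (hsin x hx.1 hx.2) (hsin y hy.1 hy.2)).ne'
      have h1 : ContinuousAt (fun z : ℝ × ℝ => g (pt z.1 z.2)) (x, y) :=
        (hg.comp hpt).continuousAt
      have h2 : ContinuousAt (fun z : ℝ × ℝ => Real.sin (Real.pi * z.1) * Real.sin (Real.pi * z.2))
          (x, y) := by fun_prop
      exact h1.div h2 hne
    · have hop : IsOpen ((fun z : ℝ × ℝ => pt z.1 z.2) ⁻¹' (tsupport g)ᶜ) :=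
        (isClosed_tsupport g).isOpen_compl.preimage hpt
      have hev : ∀ᶠ z : ℝ × ℝ in 𝓝 (x, y), Function.uncurry f z = 0 := by
        filter_upwards [hop.mem_nhds (show (x, y) ∈ _ from hz)] with z hz'
        change g (pt z.1 z.2) / (Real.sin (Real.pi * z.1) * Real.sin (Real.pi * z.2)) = 0
        rw [image_eq_zero_of_notMem_tsupport hz', zero_div]
      have : ContinuousAt (fun _ : ℝ × ℝ => (0 : ℝ)) (x, y) := continuousAt_const
      exact this.congr (hev.mono fun z hz' => hz'.symm)
  obtain ⟨N, a, hNa⟩ := sw hf hδ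
  refine ⟨N + 2, fun k l => ∑ i ∈ Finset.range N, ∑ j ∈ Finset.range N,
    a i j * dens0w i k * dens0w j l, by omega, ?_⟩
  intro x hx
  have hx0 := hx 0
  have hx1 := hx 1
  have h := hNa (x 0) ⟨hx0.1.le, hx0.2.le⟩ (x 1) ⟨hx1.1.le, hx1.2.le⟩
  have hs0 := hsin _ hx0.1 hx0.2
  have hs1 := hsin _ hx1.1 hx1.2
  have heta : pt (x 0) (x 1) = x := by
    ext i
    fin_cases i <;> simp
  have hU : U (N + 2) (fun k l => ∑ i ∈ Finset.range N, ∑ j ∈ Finset.range N,
      a i j * dens0w i k * dens0w j l) x =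
      Real.sin (Real.pi * x 0) * Real.sin (Real.pi * x 1) *
        ∑ i ∈ Finset.range N, ∑ j ∈ Finset.range N,
          a i j * (Real.cos (i * Real.pi * x 0) * Real.cos (j * Real.pi * x 1)) := by
    unfold U dsum
    rw [← dens0_rearr, Finset.mul_sum]
    apply Finset.sum_congr rfl
    intro i hi
    rw [Finset.mul_sum]
    apply Finset.sum_congr rfl
    intro j hj
    rw [Finset.mem_range] at hi hj
    rw [← dens0_trig (show i < N + 2 by omega), ← dens0_trig (show j < N + 2 by omega)]
    ring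
  have hgf : g x = Real.sin (Real.pi * x 0) * Real.sin (Real.pi * x 1) * f (x 0) (x 1) := by
    change g x = Real.sin (Real.pi * x 0) * Real.sin (Real.pi * x 1) *
      (g (pt (x 0) (x 1)) / (Real.sin (Real.pi * x 0) * Real.sin (Real.pi * x 1)))
    rw [heta]
    field_simp
  rw [hU, hgf, ← mul_sub, abs_mul, abs_of_pos (mul_pos hs0 hs1)]
  have hle : Real.sin (Real.pi * x 0) * Real.sin (Real.pi * x 1) ≤ 1 := by
    nlinarith [Real.sin_le_one (Real.pi * x 0), Real.sin_le_one (Real.pi * x 1)]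
  calc _ ≤ 1 * |f (x 0) (x 1) - ∑ i ∈ Finset.range N, ∑ j ∈ Finset.range N,
          a i j * (Real.cos (i * Real.pi * x 0) * Real.cos (j * Real.pi * x 1))| :=
        mul_le_mul_of_nonneg_right hle (abs_nonneg _)
    _ ≤ δ := by rw [one_mul]; exact h

end Pool.Agent.PL2
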