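import Pool.Agent.PL2.Calc
import Pool.Agent.PL2.SW

open MeasureTheory Set Metric Filter Topology
open scoped ENNReal ContDiff InnerProductSpace Interval

namespace Pool.Agent.PL2

open Pool.Agent.PLap94

theorem dens1_mv {f f' : ℝ → ℝ} {C : ℝ} (hf : ∀ t, HasDerivAt f (f' t) t)
    (hb : ∀ t ∈ Icc (0:ℝ) 1, |f' t| ≤ C) (h0 : f 0 = 0) {x : ℝ} (hx : x ∈ Icc (0:ℝ) 1) :
    |f x| ≤ C := by
  have h := (convex_Icc (0:ℝ) 1).norm_image_sub_le_of_norm_hasDerivWithin_le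
    (f := f) (f' := f') (C := C) (fun t _ => (hf t).hasDerivWithinAt)
    (fun t ht => by rw [Real.norm_eq_abs]; exact hb t ht) (left_mem_Icc.2 zero_le_one) hx
  rw [h0, sub_zero, sub_zero, Real.norm_eq_abs, Real.norm_eq_abs, abs_of_nonneg hx.1] at h
  have hC : 0 ≤ C := (abs_nonneg _).trans (hb 0 (left_mem_Icc.2 zero_le_one))
  refine h.trans ?_
  nlinarith [hx.2]

theorem dens1_pt_fst (a b : ℝ) : HasDerivAt (fun t => pt t b) (pt 1 0) a := by
  have h : (fun t : ℝ => pt t b) = fun t => t • pt 1 0 + pt 0 b := by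
    funext t
    ext i
    fin_cases i <;> simp [pt]
  rw [h]
  have := ((hasDerivAt_id a).smul_const (pt 1 0)).add_const (pt 0 b)
  simpa using! this

theorem dens1_pt_snd (a b : ℝ) : HasDerivAt (fun t => pt a t) (pt 0 1) b := by
  have h : (fun t : ℝ => pt a t) = fun t => t • pt 0 1 + pt a 0 := by
    funext t
    ext i
    fin_cases i <;> simp [pt]
  rw [h]
  have := ((hasDerivAt_id b).smul_const (pt 0 1)).add_const (pt a 0)
  simpa using! this

theorem dens1_pt_cont : Continuous (fun p : ℝ × ℝ => pt p.1 p.2) := by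
  have h : (fun p : ℝ × ℝ => pt p.1 p.2) = fun p => p.1 • pt 1 0 + p.2 • pt 0 1 := by
    funext p
    ext i
    fin_cases i <;> simp [pt]
  rw [h]
  fun_prop

theorem dens1_der_fst {g : E2 → ℝ} (hg : ContDiff ℝ ∞ g) (a b : ℝ) :
    HasDerivAt (fun t => g (pt t b)) (fderiv ℝ g (pt a b) (pt 1 0)) a := by
  have h1 : HasFDerivAt g (fderiv ℝ g (pt a b)) (pt a b) :=
    ((hg.differentiable (by simp)) (pt a b)).hasFDerivAt
  exact h1.comp_hasDerivAt a (dens1_pt_fst a b)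

theorem dens1_der_snd {g : E2 → ℝ} (hg : ContDiff ℝ ∞ g) (a b : ℝ) :
    HasDerivAt (fun t => g (pt a t)) (fderiv ℝ g (pt a b) (pt 0 1)) b := by
  have h1 : HasFDerivAt g (fderiv ℝ g (pt a b)) (pt a b) :=
    ((hg.differentiable (by simp)) (pt a b)).hasFDerivAt
  exact h1.comp_hasDerivAt b (dens1_pt_snd a b)

theorem dens1_smooth {g : E2 → ℝ} (hg : ContDiff ℝ ∞ g) (v : E2) :
    ContDiff ℝ ∞ (fun z => fderiv ℝ g z v) :=
  (hg.fderiv_right (m := ∞) (by simp)).clm_apply contDiff_const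

theorem dens1_symm {g : E2 → ℝ} (hg : ContDiff ℝ ∞ g) (z v w : E2) :
    fderiv ℝ (fun z => fderiv ℝ g z v) z w = fderiv ℝ (fun z => fderiv ℝ g z w) z v := by
  have hd : DifferentiableAt ℝ (fderiv ℝ g) z :=
    ((hg.fderiv_right (m := ∞) (by simp)).differentiable (by simp)) z
  have hs : IsSymmSndFDerivAt ℝ g z := by
    refine ContDiffAt.isSymmSndFDerivAt (n := ∞) hg.contDiffAt ?_
    rw [minSmoothness_of_isRCLikeNormedField]
    exact WithTop.coe_le_coe.2 (le_top : (2 : ℕ∞) ≤ ⊤)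
  have e1 : ∀ u : E2, fderiv ℝ (fun z => fderiv ℝ g z u) z = (fderiv ℝ (fderiv ℝ g) z).flip u := by
    intro u
    rw [fderiv_clm_apply hd (differentiableAt_const u)]
    simp
  rw [e1 v, e1 w]
  simp only [ContinuousLinearMap.flip_apply]
  exact hs w v

theorem dens1_split (n : ℕ) (a : ℕ → ℕ → ℝ) (x y : ℝ) :
    ∑ i ∈ Finset.range (n + 1), ∑ j ∈ Finset.range (n + 1),
      a i j * (Real.cos (i * Real.pi * x) * Real.cos (j * Real.pi * y)) =
    dsum cs cs n (fun i j => a (i + 1) (j + 1)) (pt x y) +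
      ∑ i ∈ Finset.range n, a (i + 1) 0 * cs i x +
      ∑ j ∈ Finset.range n, a 0 (j + 1) * cs j y + a 0 0 := by
  rw [Finset.sum_range_succ']
  have h : ∀ i : ℕ, ∑ j ∈ Finset.range (n + 1),
      a i j * (Real.cos (i * Real.pi * x) * Real.cos (j * Real.pi * y)) =
      ∑ j ∈ Finset.range n, a i (j + 1) * (Real.cos (i * Real.pi * x) * cs j y) +
        a i 0 * Real.cos (i * Real.pi * x) := by
    intro i
    rw [Finset.sum_range_succ']
    congr 1
    · refine Finset.sum_congr rfl fun j _ => ?_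
      unfold cs kk
      push_cast
      rfl
    · simp
  simp only [h]
  rw [Finset.sum_add_distrib]
  unfold dsum
  simp only [pt_zero, pt_one]
  have e1 : ∑ i ∈ Finset.range n, ∑ j ∈ Finset.range n,
      a (i + 1) (j + 1) * (Real.cos (((i + 1 : ℕ) : ℝ) * Real.pi * x) * cs j y) =
      ∑ i ∈ Finset.range n, ∑ j ∈ Finset.range n, a (i + 1) (j + 1) * (cs i x * cs j y) := by
    refine Finset.sum_congr rfl fun i _ => Finset.sum_congr rfl fun j _ => ?_
    unfold cs kk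
    push_cast
    rfl
  have e2 : ∑ i ∈ Finset.range n, a (i + 1) 0 * Real.cos (((i + 1 : ℕ) : ℝ) * Real.pi * x) =
      ∑ i ∈ Finset.range n, a (i + 1) 0 * cs i x := by
    refine Finset.sum_congr rfl fun i _ => ?_
    unfold cs kk
    push_cast
    rfl
  have e3 : ∑ j ∈ Finset.range n, a 0 (j + 1) * (Real.cos (((0 : ℕ) : ℝ) * Real.pi * x) * cs j y) =
      ∑ j ∈ Finset.range n, a 0 (j + 1) * cs j y := by
    refine Finset.sum_congr rfl fun j _ => ?_
    simp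
  rw [e1, e2, e3]
  simp
  ring

theorem dens1_kk_pos (i : ℕ) : 0 < kk i := by
  unfold kk
  positivity

theorem dens1_sn_zero (i : ℕ) : sn i 0 = 0 := by simp [sn]

theorem dens1_sn_one (i : ℕ) : sn i 1 = 0 := by
  unfold sn kk
  have : ((i:ℝ) + 1) * Real.pi * 1 = ((i + 1 : ℕ) : ℝ) * Real.pi := by push_cast; ring
  rw [this, Real.sin_nat_mul_pi]

/-- derivative of a primitive of a one-variable cosine sum -/
theorem dens1_prim (n : ℕ) (a : ℕ → ℝ) (r : ℝ) (t : ℝ) :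
    HasDerivAt (fun t => ∑ i ∈ Finset.range n, a i / kk i * sn i t + r * t)
      (∑ i ∈ Finset.range n, a i * cs i t + r) t := by
  refine HasDerivAt.add ?_ (by simpa using (hasDerivAt_id t).const_mul r)
  have h : ∀ i ∈ Finset.range n, HasDerivAt (fun t => a i / kk i * sn i t) (a i * cs i t) t := by
    intro i _
    have := (hasDerivAt_sn i t).const_mul (a i / kk i)
    have e : a i / kk i * (kk i * cs i t) = a i * cs i t := by
      have := (dens1_kk_pos i).ne'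
      field_simp
    rwa [e] at this
  have := HasDerivAt.fun_sum h
  exact this

theorem dens1_prim_zero (n : ℕ) (a : ℕ → ℝ) (r : ℝ) :
    ∑ i ∈ Finset.range n, a i / kk i * sn i 0 + r * 0 = 0 := by
  simp [dens1_sn_zero]

theorem dens1_prim_one (n : ℕ) (a : ℕ → ℝ) (r : ℝ) :
    ∑ i ∈ Finset.range n, a i / kk i * sn i 1 + r * 1 = r := by
  simp [dens1_sn_one]

/-- averages of the cosine polynomial -/
theorem dens1_avg_fst {n : ℕ} {a : ℕ → ℕ → ℝ} {δ : ℝ} {g ψ : ℝ → ℝ} (x : ℝ)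
    (hg : ∀ t, HasDerivAt g (ψ t) t) (g0 : g 0 = 0) (g1 : g 1 = 0)
    (hψ : ∀ t ∈ Icc (0:ℝ) 1, |ψ t - (dsum cs cs n (fun i j => a (i + 1) (j + 1)) (pt x t) +
      ∑ i ∈ Finset.range n, a (i + 1) 0 * cs i x +
      ∑ j ∈ Finset.range n, a 0 (j + 1) * cs j t + a 0 0)| ≤ δ) :
    |∑ i ∈ Finset.range n, a (i + 1) 0 * cs i x + a 0 0| ≤ δ := by
  set R : ℝ := ∑ i ∈ Finset.range n, a (i + 1) 0 * cs i x + a 0 0 with hR
  have h1 : ∀ t, HasDerivAt (fun t => g t -
      (∑ j ∈ Finset.range n, ((∑ i ∈ Finset.range n, a (i + 1) (j + 1) * cs i x) + a 0 (j + 1)) / kk j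
        * sn j t + R * t))
      (ψ t - (∑ j ∈ Finset.range n, ((∑ i ∈ Finset.range n, a (i + 1) (j + 1) * cs i x) +
        a 0 (j + 1)) * cs j t + R)) t := fun t =>
    (hg t).sub (dens1_prim n (fun j => (∑ i ∈ Finset.range n, a (i + 1) (j + 1) * cs i x) +
      a 0 (j + 1)) R t)
  have h2 := dens1_mv h1 (C := δ) (x := 1) (by
    intro t ht
    have e : (∑ j ∈ Finset.range n, ((∑ i ∈ Finset.range n, a (i + 1) (j + 1) * cs i x) +
        a 0 (j + 1)) * cs j t + R) = (dsum cs cs n (fun i j => a (i + 1) (j + 1)) (pt x t) +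
      ∑ i ∈ Finset.range n, a (i + 1) 0 * cs i x +
      ∑ j ∈ Finset.range n, a 0 (j + 1) * cs j t + a 0 0) := by
      unfold dsum
      simp only [pt_zero, pt_one]
      rw [Finset.sum_comm, hR]
      have : ∑ j ∈ Finset.range n, ((∑ i ∈ Finset.range n, a (i + 1) (j + 1) * cs i x) +
        a 0 (j + 1)) * cs j t = ∑ j ∈ Finset.range n, ∑ i ∈ Finset.range n,
          a (i + 1) (j + 1) * (cs i x * cs j t) + ∑ j ∈ Finset.range n, a 0 (j + 1) * cs j t := by
        rw [← Finset.sum_add_distrib]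
        refine Finset.sum_congr rfl fun j _ => ?_
        rw [add_mul, Finset.sum_mul]
        congr 1
        refine Finset.sum_congr rfl fun i _ => ?_
        ring
      rw [this]
      ring
    rw [e]
    exact hψ t ht) (by
      rw [g0, dens1_prim_zero n (fun j => (∑ i ∈ Finset.range n, a (i + 1) (j + 1) * cs i x) +
      a 0 (j + 1)) R, sub_zero]) (right_mem_Icc.2 zero_le_one)
  rw [g1, dens1_prim_one n (fun j => (∑ i ∈ Finset.range n, a (i + 1) (j + 1) * cs i x) +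
      a 0 (j + 1)) R, zero_sub, abs_neg] at h2
  exact h2

theorem dens1_avg_snd {n : ℕ} {a : ℕ → ℕ → ℝ} {δ : ℝ} {g ψ : ℝ → ℝ} (y : ℝ)
    (hg : ∀ t, HasDerivAt g (ψ t) t) (g0 : g 0 = 0) (g1 : g 1 = 0)
    (hψ : ∀ t ∈ Icc (0:ℝ) 1, |ψ t - (dsum cs cs n (fun i j => a (i + 1) (j + 1)) (pt t y) +
      ∑ i ∈ Finset.range n, a (i + 1) 0 * cs i t +
      ∑ j ∈ Finset.range n, a 0 (j + 1) * cs j y + a 0 0)| ≤ δ) :
    |∑ j ∈ Finset.range n, a 0 (j + 1) * cs j y + a 0 0| ≤ δ := by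
  set R : ℝ := ∑ j ∈ Finset.range n, a 0 (j + 1) * cs j y + a 0 0 with hR
  have h1 : ∀ t, HasDerivAt (fun t => g t -
      (∑ i ∈ Finset.range n, ((∑ j ∈ Finset.range n, a (i + 1) (j + 1) * cs j y) + a (i + 1) 0) / kk i
        * sn i t + R * t))
      (ψ t - (∑ i ∈ Finset.range n, ((∑ j ∈ Finset.range n, a (i + 1) (j + 1) * cs j y) +
        a (i + 1) 0) * cs i t + R)) t := fun t =>
    (hg t).sub (dens1_prim n (fun i => (∑ j ∈ Finset.range n, a (i + 1) (j + 1) * cs j y) +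
      a (i + 1) 0) R t)
  have h2 := dens1_mv h1 (C := δ) (x := 1) (by
    intro t ht
    have e : (∑ i ∈ Finset.range n, ((∑ j ∈ Finset.range n, a (i + 1) (j + 1) * cs j y) +
        a (i + 1) 0) * cs i t + R) = (dsum cs cs n (fun i j => a (i + 1) (j + 1)) (pt t y) +
      ∑ i ∈ Finset.range n, a (i + 1) 0 * cs i t +
      ∑ j ∈ Finset.range n, a 0 (j + 1) * cs j y + a 0 0) := by
      unfold dsum
      simp only [pt_zero, pt_one]
      rw [hR]
      have : ∑ i ∈ Finset.range n, ((∑ j ∈ Finset.range n, a (i + 1) (j + 1) * cs j y) +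
        a (i + 1) 0) * cs i t = ∑ i ∈ Finset.range n, ∑ j ∈ Finset.range n,
          a (i + 1) (j + 1) * (cs i t * cs j y) + ∑ i ∈ Finset.range n, a (i + 1) 0 * cs i t := by
        rw [← Finset.sum_add_distrib]
        refine Finset.sum_congr rfl fun i _ => ?_
        rw [add_mul, Finset.sum_mul]
        congr 1
        refine Finset.sum_congr rfl fun j _ => ?_
        ring
      rw [this]
      ring
    rw [e]
    exact hψ t ht) (by
      rw [g0, dens1_prim_zero n (fun i => (∑ j ∈ Finset.range n, a (i + 1) (j + 1) * cs j y) +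
      a (i + 1) 0) R, sub_zero]) (right_mem_Icc.2 zero_le_one)
  rw [g1, dens1_prim_one n (fun i => (∑ j ∈ Finset.range n, a (i + 1) (j + 1) * cs j y) +
      a (i + 1) 0) R, zero_sub, abs_neg] at h2
  exact h2

theorem dens1_zero {φ : E2 → ℝ} (hφ : IsTest φ) {z : E2} (hz : z ∉ square) :
    φ z = 0 ∧ fderiv ℝ φ z = 0 := by
  have h1 : z ∉ tsupport φ := fun h => hz (hφ.2.2 h)
  refine ⟨image_eq_zero_of_notMem_tsupport h1, ?_⟩
  by_contra h
  exact h1 (support_fderiv_subset ℝ h)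

theorem dens1_nsq {x y : ℝ} (h : x ≤ 0 ∨ 1 ≤ x ∨ y ≤ 0 ∨ 1 ≤ y) : pt x y ∉ square := by
  intro hs
  have h0 := hs 0
  have h1 := hs 1
  rw [pt_zero] at h0
  rw [pt_one] at h1
  rcases h with h | h | h | h <;> linarith [h0.1, h0.2, h1.1, h1.2]

/-- `C¹` density. Let `ψ = φ_{xy}` (continuous, support in the square); `∫₀¹ ψ(s,y) ds = 0`,
`∫₀¹ ψ(x,t) dt = 0`, `φ(x,y) = ∫₀ˣ∫₀ʸ ψ`, `φ_x = ∫₀ʸ ψ(x,t) dt`, `φ_y = ∫₀ˣ ψ(s,y) ds`.
By `sw`, `|ψ - Q| ≤ δ'` with `Q = ∑ a_{ij} cos(iπx) cos(jπy)`; removing the terms with `i = 0` or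
`j = 0` (averages of `Q`, all within `δ'` of `0`) gives `Q'` with `|ψ - Q'| ≤ 4δ'`; then
`U = ∑_{i,j≥1} a_{ij}/(ijπ²) sin(iπx) sin(jπy) = ∫₀ˣ∫₀ʸ Q'`, `U_x = ∫₀ʸ Q'(x,t) dt`, etc. -/
theorem dens1 {φ : E2 → ℝ} (hφ : IsTest φ) {δ : ℝ} (hδ : 0 < δ) :
    ∃ (N : ℕ) (c : ℕ → ℕ → ℝ), 2 ≤ N ∧ ∀ x ∈ square, |φ x - U N c x| ≤ δ ∧
      ‖gradient φ x - gU N c x‖ ≤ δ := by
  set gx : E2 → ℝ := fun z => fderiv ℝ φ z (pt 1 0) with hgx
  set gy : E2 → ℝ := fun z => fderiv ℝ φ z (pt 0 1) with hgy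
  set ψ : E2 → ℝ := fun z => fderiv ℝ gx z (pt 0 1) with hψ
  have hsφ : ContDiff ℝ ∞ φ := hφ.1
  have hsx : ContDiff ℝ ∞ gx := dens1_smooth hsφ _
  have hsy : ContDiff ℝ ∞ gy := dens1_smooth hsφ _
  have hsψ : ContDiff ℝ ∞ ψ := dens1_smooth hsx _
  have hψ' : ∀ z, fderiv ℝ gy z (pt 1 0) = ψ z := fun z => dens1_symm hsφ z _ _
  -- derivatives
  have dφx : ∀ x y, HasDerivAt (fun t => φ (pt t y)) (gx (pt x y)) x := fun x y =>
    dens1_der_fst hsφ x y
  have dxy : ∀ x y, HasDerivAt (fun t => gx (pt x t)) (ψ (pt x y)) y := fun x y =>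
    dens1_der_snd hsx x y
  have dyx : ∀ x y, HasDerivAt (fun t => gy (pt t y)) (ψ (pt x y)) x := fun x y => by
    have := dens1_der_fst hsy x y
    rwa [hψ'] at this
  -- boundary values
  have bφ : ∀ y, φ (pt 0 y) = 0 := fun y => (dens1_zero hφ (dens1_nsq (Or.inl le_rfl))).1
  have bx0 : ∀ x, gx (pt x 0) = 0 := fun x => by
    rw [hgx]; simp only
    rw [(dens1_zero hφ (dens1_nsq (Or.inr (Or.inr (Or.inl le_rfl))))).2]; rfl
  have bx1 : ∀ x, gx (pt x 1) = 0 := fun x => by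
    rw [hgx]; simp only
    rw [(dens1_zero hφ (dens1_nsq (Or.inr (Or.inr (Or.inr le_rfl))))).2]; rfl
  have by0 : ∀ y, gy (pt 0 y) = 0 := fun y => by
    rw [hgy]; simp only
    rw [(dens1_zero hφ (dens1_nsq (Or.inl le_rfl))).2]; rfl
  have by1 : ∀ y, gy (pt 1 y) = 0 := fun y => by
    rw [hgy]; simp only
    rw [(dens1_zero hφ (dens1_nsq (Or.inr (Or.inl le_rfl)))).2]; rfl
  -- approximation
  obtain ⟨N, a₀, ha₀⟩ := sw (f := fun x y => ψ (pt x y)) (by
    have : Function.uncurry (fun x y => ψ (pt x y)) = ψ ∘ (fun p : ℝ × ℝ => pt p.1 p.2) := by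
      funext p; rfl
    rw [this]
    exact hsψ.continuous.comp dens1_pt_cont) (δ := δ / 8) (by positivity)
  set a : ℕ → ℕ → ℝ := fun i j => if i < N ∧ j < N then a₀ i j else 0 with ha
  set n : ℕ := N + 2 with hn
  have hsub : Finset.range N ⊆ Finset.range (n + 1) := by
    intro i hi
    rw [Finset.mem_range] at hi ⊢
    omega
  have hQ : ∀ x y : ℝ, ∑ i ∈ Finset.range N, ∑ j ∈ Finset.range N,
        a₀ i j * (Real.cos (i * Real.pi * x) * Real.cos (j * Real.pi * y)) =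
      ∑ i ∈ Finset.range (n + 1), ∑ j ∈ Finset.range (n + 1),
        a i j * (Real.cos (i * Real.pi * x) * Real.cos (j * Real.pi * y)) := by
    intro x y
    rw [← Finset.sum_subset hsub]
    · refine Finset.sum_congr rfl fun i hi => ?_
      rw [← Finset.sum_subset hsub]
      · refine Finset.sum_congr rfl fun j hj => ?_
        rw [Finset.mem_range] at hi hj
        simp only [ha, hi, hj, and_self, if_true]
      · intro j _ hj
        rw [Finset.mem_range] at hj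
        simp [ha, hj]
    · intro i _ hi
      rw [Finset.mem_range] at hi
      refine Finset.sum_eq_zero fun j _ => ?_
      simp [ha, hi]
  have hap : ∀ x ∈ Icc (0:ℝ) 1, ∀ y ∈ Icc (0:ℝ) 1,
      |ψ (pt x y) - (dsum cs cs n (fun i j => a (i + 1) (j + 1)) (pt x y) +
      ∑ i ∈ Finset.range n, a (i + 1) 0 * cs i x +
      ∑ j ∈ Finset.range n, a 0 (j + 1) * cs j y + a 0 0)| ≤ δ / 8 := by
    intro x hx y hy
    rw [← dens1_split, ← hQ]
    exact ha₀ x hx y hy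
  have hR : ∀ x ∈ Icc (0:ℝ) 1, |∑ i ∈ Finset.range n, a (i + 1) 0 * cs i x + a 0 0| ≤ δ / 8 :=
    fun x hx => dens1_avg_fst (g := fun t => gx (pt x t)) (ψ := fun t => ψ (pt x t)) x
      (fun t => dxy x t) (bx0 x) (bx1 x) (fun t ht => hap x hx t ht)
  have hS : ∀ y ∈ Icc (0:ℝ) 1, |∑ j ∈ Finset.range n, a 0 (j + 1) * cs j y + a 0 0| ≤ δ / 8 :=
    fun y hy => dens1_avg_snd (g := fun t => gy (pt t y)) (ψ := fun t => ψ (pt t y)) y
      (fun t => dyx t y) (by0 y) (by1 y) (fun t ht => hap t ht y hy)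
  have hA : |a 0 0| ≤ δ / 8 := by
    have h := dens1_mv (fun t => dens1_prim n (fun i => a (i + 1) 0) (a 0 0) t) hR
      (dens1_prim_zero n (fun i => a (i + 1) 0) (a 0 0)) (right_mem_Icc.2 zero_le_one)
    rw [dens1_prim_one n (fun i => a (i + 1) 0) (a 0 0)] at h
    exact h
  set b : ℕ → ℕ → ℝ := fun i j => a (i + 1) (j + 1) with hb
  have hq : ∀ x ∈ Icc (0:ℝ) 1, ∀ y ∈ Icc (0:ℝ) 1,
      |ψ (pt x y) - dsum cs cs n b (pt x y)| ≤ δ / 2 := by
    intro x hx y hy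
    have h1 := abs_le.1 (hap x hx y hy)
    have h2 := abs_le.1 (hR x hx)
    have h3 := abs_le.1 (hS y hy)
    have h4 := abs_le.1 hA
    rw [abs_le]
    constructor <;> linarith [h1.1, h1.2, h2.1, h2.2, h3.1, h3.2, h4.1, h4.2]
  set c : ℕ → ℕ → ℝ := fun i j => b i j / (kk i * kk j) with hc
  have ec1 : (fun i j => kk j * (kk i * c i j)) = b := by
    funext i j
    have h1 := (dens1_kk_pos i).ne'
    have h2 := (dens1_kk_pos j).ne'
    simp only [hc]
    field_simp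
  have ec2 : (fun i j => kk i * (kk j * c i j)) = b := by
    funext i j
    have h1 := (dens1_kk_pos i).ne'
    have h2 := (dens1_kk_pos j).ne'
    simp only [hc]
    field_simp
  have z1 : ∀ (f : ℕ → ℝ → ℝ) (d : ℕ → ℕ → ℝ) (x : ℝ), dsum f sn n d (pt x 0) = 0 := by
    intro f d x
    unfold dsum
    refine Finset.sum_eq_zero fun i _ => Finset.sum_eq_zero fun j _ => ?_
    rw [pt_one, dens1_sn_zero, mul_zero, mul_zero]
  have z2 : ∀ (g : ℕ → ℝ → ℝ) (d : ℕ → ℕ → ℝ) (y : ℝ), dsum sn g n d (pt 0 y) = 0 := by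
    intro g d y
    unfold dsum
    refine Finset.sum_eq_zero fun i _ => Finset.sum_eq_zero fun j _ => ?_
    rw [pt_zero, dens1_sn_zero, zero_mul, mul_zero]
  have hX : ∀ x ∈ Icc (0:ℝ) 1, ∀ y ∈ Icc (0:ℝ) 1,
      |gx (pt x y) - dsum cs sn n (fun i j => kk i * c i j) (pt x y)| ≤ δ / 2 := by
    intro x hx y hy
    refine dens1_mv (f := fun t => gx (pt x t) - dsum cs sn n (fun i j => kk i * c i j) (pt x t))
      (f' := fun t => ψ (pt x t) - dsum cs cs n b (pt x t)) ?_ (fun t ht => hq x hx t ht) ?_ hy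
    · intro t
      have := (dxy x t).sub (hasDerivAt_dsum_snd (f := cs) (g := sn) (g' := cs) (r := kk)
        hasDerivAt_sn n (fun i j => kk i * c i j) x t)
      rw [ec1] at this
      exact this
    · rw [bx0, z1, sub_zero]
  have hY : ∀ x ∈ Icc (0:ℝ) 1, ∀ y ∈ Icc (0:ℝ) 1,
      |gy (pt x y) - dsum sn cs n (fun i j => kk j * c i j) (pt x y)| ≤ δ / 2 := by
    intro x hx y hy
    refine dens1_mv (f := fun t => gy (pt t y) - dsum sn cs n (fun i j => kk j * c i j) (pt t y))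
      (f' := fun t => ψ (pt t y) - dsum cs cs n b (pt t y)) ?_ (fun t ht => hq t ht y hy) ?_ hx
    · intro t
      have := (dyx t y).sub (hasDerivAt_dsum_fst (f := sn) (g := cs) (f' := cs) (r := kk)
        hasDerivAt_sn n (fun i j => kk j * c i j) t y)
      rw [ec2] at this
      exact this
    · rw [by0, z2, sub_zero]
  have hZ : ∀ x ∈ Icc (0:ℝ) 1, ∀ y ∈ Icc (0:ℝ) 1,
      |φ (pt x y) - dsum sn sn n c (pt x y)| ≤ δ / 2 := by
    intro x hx y hy
    refine dens1_mv (f := fun t => φ (pt t y) - dsum sn sn n c (pt t y))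
      (f' := fun t => gx (pt t y) - dsum cs sn n (fun i j => kk i * c i j) (pt t y)) ?_
      (fun t ht => hX t ht y hy) ?_ hx
    · intro t
      exact (dφx t y).sub (hasDerivAt_dsum_fst (f := sn) (g := sn) (f' := cs) (r := kk)
        hasDerivAt_sn n c t y)
    · rw [bφ, z2, sub_zero]
  refine ⟨n, c, by omega, fun x hx => ?_⟩
  have hx0 : x 0 ∈ Icc (0:ℝ) 1 := ⟨(hx 0).1.le, (hx 0).2.le⟩
  have hx1 : x 1 ∈ Icc (0:ℝ) 1 := ⟨(hx 1).1.le, (hx 1).2.le⟩
  have hxe : pt (x 0) (x 1) = x := by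
    ext i
    fin_cases i <;> simp [pt]
  have h1 := hX _ hx0 _ hx1
  have h2 := hY _ hx0 _ hx1
  have h3 := hZ _ hx0 _ hx1
  rw [hxe] at h1 h2 h3
  refine ⟨by unfold U; linarith, ?_⟩
  have k0 : ∀ v : E2, ⟪v, pt 1 0⟫_ℝ = v 0 := by
    intro v
    rw [PiLp.inner_apply, Fin.sum_univ_two]
    simp [pt]
  have k1 : ∀ v : E2, ⟪v, pt 0 1⟫_ℝ = v 1 := by
    intro v
    rw [PiLp.inner_apply, Fin.sum_univ_two]
    simp [pt]
  have g0 : (gradient φ x) 0 = gx x := by
    have := inner_gradient_left (f := φ) (x := x) (y := pt 1 0) (𝕜 := ℝ)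
    rw [← k0, this]
  have g1 : (gradient φ x) 1 = gy x := by
    have := inner_gradient_left (f := φ) (x := x) (y := pt 0 1) (𝕜 := ℝ)
    rw [← k1, this]
  have hn2 : ‖gradient φ x - gU n c x‖ ^ 2 ≤ δ ^ 2 := by
    rw [EuclideanSpace.norm_sq_eq, Fin.sum_univ_two]
    have e0 : (gradient φ x - gU n c x) 0 = gx x - dsum cs sn n (fun i j => kk i * c i j) x := by
      rw [PiLp.sub_apply, g0]; simp [gU]
    have e1 : (gradient φ x - gU n c x) 1 = gy x - dsum sn cs n (fun i j => kk j * c i j) x := by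
      rw [PiLp.sub_apply, g1]; simp [gU]
    rw [e0, e1, Real.norm_eq_abs, Real.norm_eq_abs]
    have q1 := pow_le_pow_left₀ (abs_nonneg _) h1 2
    have q2 := pow_le_pow_left₀ (abs_nonneg _) h2 2
    nlinarith
  exact (pow_le_pow_iff_left₀ (norm_nonneg _) hδ.le two_ne_zero).1 hn2

end Pool.Agent.PL2
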