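import Pool.Agent.PL2.CalcA

open MeasureTheory Set Metric Filter Topology
open scoped ENNReal ContDiff InnerProductSpace Interval

namespace Pool.Agent.PL2

open Pool.Agent.PLap94

theorem ibp_diff {f g : ℕ → ℝ → ℝ} (hf : ∀ i, Differentiable ℝ (f i))
    (hg : ∀ i, Differentiable ℝ (g i)) (N : ℕ) (c : ℕ → ℕ → ℝ) :
    Differentiable ℝ (dsum f g N c) := by
  unfold dsum
  apply Differentiable.fun_sum
  intro i _
  apply Differentiable.fun_sum
  intro j _
  apply Differentiable.const_mul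
  apply Differentiable.mul
  · exact (hf i).comp (by fun_prop : Differentiable ℝ (fun x : E2 => x 0))
  · exact (hg j).comp (by fun_prop : Differentiable ℝ (fun x : E2 => x 1))

theorem ibp_sn_diff (i : ℕ) : Differentiable ℝ (sn i) := fun x =>
  (hasDerivAt_sn i x).differentiableAt

theorem ibp_cs_diff (i : ℕ) : Differentiable ℝ (cs i) := fun x =>
  (hasDerivAt_cs i x).differentiableAt

theorem ibp_pt_fst (a b : ℝ) :
    HasDerivAt (fun t => pt t b) (EuclideanSpace.single (0 : Fin 2) (1 : ℝ)) a := by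
  have h : (fun t => pt t b) = fun t : ℝ =>
      t • EuclideanSpace.single (0 : Fin 2) (1 : ℝ) + b • EuclideanSpace.single (1 : Fin 2) (1 : ℝ) := by
    funext t
    ext i
    fin_cases i <;> simp [pt]
  rw [h]
  have h1 := ((hasDerivAt_id a).smul_const (EuclideanSpace.single (0 : Fin 2) (1 : ℝ))).add_const
    (b • EuclideanSpace.single (1 : Fin 2) (1 : ℝ))
  rw [one_smul] at h1
  exact h1

theorem ibp_pt_snd (a b : ℝ) :
    HasDerivAt (fun t => pt a t) (EuclideanSpace.single (1 : Fin 2) (1 : ℝ)) b := by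
  have h : (fun t => pt a t) = fun t : ℝ =>
      t • EuclideanSpace.single (1 : Fin 2) (1 : ℝ) + a • EuclideanSpace.single (0 : Fin 2) (1 : ℝ) := by
    funext t
    ext i
    fin_cases i <;> simp [pt]
  rw [h]
  have h1 := ((hasDerivAt_id b).smul_const (EuclideanSpace.single (1 : Fin 2) (1 : ℝ))).add_const
    (a • EuclideanSpace.single (0 : Fin 2) (1 : ℝ))
  rw [one_smul] at h1
  exact h1

theorem ibp_pt_eta (x : E2) : pt (x 0) (x 1) = x := by
  ext i
  fin_cases i <;> simp [pt]

theorem ibp_D0 (N : ℕ) (a : ℕ → ℕ → ℝ) (x : E2) :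
    fderiv ℝ (dsum cs sn N a) x (EuclideanSpace.single (0 : Fin 2) (1 : ℝ)) =
      dsum sn sn N (fun i j => -kk i * a i j) x := by
  have hF : DifferentiableAt ℝ (dsum cs sn N a) (pt (x 0) (x 1)) :=
    ibp_diff ibp_cs_diff ibp_sn_diff N a _
  have h1 := hF.hasFDerivAt.comp_hasDerivAt (x 0) (ibp_pt_fst (x 0) (x 1))
  have h2 := hasDerivAt_dsum_fst (f := cs) (g := sn) (f' := sn) (r := fun i => -kk i)
    (fun i y => by
      have := hasDerivAt_cs i y
      rw [← neg_mul] at this
      exact this) N a (x 0) (x 1)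
  have h3 := h1.unique h2
  rw [ibp_pt_eta] at h3
  exact h3

theorem ibp_D1 (N : ℕ) (a : ℕ → ℕ → ℝ) (x : E2) :
    fderiv ℝ (dsum sn cs N a) x (EuclideanSpace.single (1 : Fin 2) (1 : ℝ)) =
      dsum sn sn N (fun i j => -kk j * a i j) x := by
  have hF : DifferentiableAt ℝ (dsum sn cs N a) (pt (x 0) (x 1)) :=
    ibp_diff ibp_sn_diff ibp_cs_diff N a _
  have h1 := hF.hasFDerivAt.comp_hasDerivAt (x 1) (ibp_pt_snd (x 0) (x 1))
  have h2 := hasDerivAt_dsum_snd (f := sn) (g := cs) (g' := sn) (r := fun i => -kk i)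
    (fun i y => by
      have := hasDerivAt_cs i y
      rw [← neg_mul] at this
      exact this) N a (x 0) (x 1)
  have h3 := h1.unique h2
  rw [ibp_pt_eta] at h3
  exact h3

theorem ibp_lap (N : ℕ) (c : ℕ → ℕ → ℝ) (x : E2) :
    dsum sn sn N (fun i j => -kk i * (kk i * lapInv c i j)) x +
      dsum sn sn N (fun i j => -kk j * (kk j * lapInv c i j)) x = -U N c x := by
  unfold U dsum
  rw [← Finset.sum_add_distrib, ← Finset.sum_neg_distrib]
  apply Finset.sum_congr rfl
  intro i _
  rw [← Finset.sum_add_distrib, ← Finset.sum_neg_distrib]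
  apply Finset.sum_congr rfl
  intro j _
  unfold lapInv
  have h1 : kk i ^ 2 + kk j ^ 2 ≠ 0 := by
    have : 0 < kk i := by unfold kk; positivity
    positivity
  field_simp
  ring

/-- Integration by parts for one partial derivative over the plane. -/
theorem ibp_one {ψ : E2 → ℝ} (hψ : IsTest ψ) {G G' : E2 → ℝ} (hG : Differentiable ℝ G)
    (v : E2) (hG' : ∀ x, fderiv ℝ G x v = G' x) (hc : Continuous G') :
    ∫ x, ψ x * G' x = -∫ x, fderiv ℝ ψ x v * G x := by
  have hψc : Continuous ψ := hψ.1.continuous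
  have hdc : Continuous (fun x => fderiv ℝ ψ x v) :=
    (hψ.1.continuous_fderiv (by simp)).clm_apply continuous_const
  have hds : HasCompactSupport (fun x => fderiv ℝ ψ x v) := by
    have h := hψ.2.1.fderiv (𝕜 := ℝ)
    exact h.comp_left (g := fun L : E2 →L[ℝ] ℝ => L v) (by simp)
  have h1 := integral_mul_fderiv_eq_neg_fderiv_mul_of_integrable (μ := (volume : Measure E2))
    (f := ψ) (g := G) (v := v) ?_ ?_ ?_ (fun x _ => hψ.1.differentiable (by simp) x)
    (fun x _ => hG x)
  · simp only [hG'] at h1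
    exact h1
  · exact (hdc.mul hG.continuous).integrable_of_hasCompactSupport hds.mul_right
  · simp only [hG']
    exact (hψc.mul hc).integrable_of_hasCompactSupport hψ.2.1.mul_right
  · exact (hψc.mul hG.continuous).integrable_of_hasCompactSupport hψ.2.1.mul_right

theorem ibp_int_eq {F : E2 → ℝ} (h : ∀ x, x ∉ square → F x = 0) : ∫ x, F x ∂μS = ∫ x, F x := by
  unfold μS
  exact setIntegral_eq_integral_of_forall_compl_eq_zero h

/-- Integration by parts: `∫ ψ U = ∫ ∇ψ·∇φ` for `φ = U N (lapInv c)`, `-Δφ = U N c`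
(`ψ` has compact support in the square, so both sides are integrals over the whole plane; use
`integral_mul_fderiv_eq_neg_fderiv_mul_of_integrable` or one-dimensional integration by parts with
`integral_muS`). -/
theorem ibp {ψ : E2 → ℝ} (hψ : IsTest ψ) (N : ℕ) (c : ℕ → ℕ → ℝ) :
    ∫ x, ψ x * U N c x ∂μS = ∫ x, ⟪gradient ψ x, gU N (lapInv c) x⟫_ℝ ∂μS := by
  obtain ⟨e0, he0⟩ : ∃ e : E2, e = EuclideanSpace.single (0 : Fin 2) (1 : ℝ) := ⟨_, rfl⟩
  obtain ⟨e1, he1⟩ : ∃ e : E2, e = EuclideanSpace.single (1 : Fin 2) (1 : ℝ) := ⟨_, rfl⟩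
  obtain ⟨G0, hG0⟩ : ∃ G, G = dsum cs sn N (fun i j => kk i * lapInv c i j) := ⟨_, rfl⟩
  obtain ⟨G1, hG1⟩ : ∃ G, G = dsum sn cs N (fun i j => kk j * lapInv c i j) := ⟨_, rfl⟩
  obtain ⟨H0, hH0⟩ : ∃ H, H = dsum sn sn N (fun i j => -kk i * (kk i * lapInv c i j)) := ⟨_, rfl⟩
  obtain ⟨H1, hH1⟩ : ∃ H, H = dsum sn sn N (fun i j => -kk j * (kk j * lapInv c i j)) := ⟨_, rfl⟩
  have d0 : Differentiable ℝ G0 := by
    rw [hG0]
    exact ibp_diff ibp_cs_diff ibp_sn_diff N _
  have d1 : Differentiable ℝ G1 := by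
    rw [hG1]
    exact ibp_diff ibp_sn_diff ibp_cs_diff N _
  have c0 : Continuous H0 := by
    rw [hH0]
    exact (ibp_diff ibp_sn_diff ibp_sn_diff N _).continuous
  have c1 : Continuous H1 := by
    rw [hH1]
    exact (ibp_diff ibp_sn_diff ibp_sn_diff N _).continuous
  have i0 := ibp_one hψ d0 e0 (fun x => by rw [hG0, he0, hH0]; exact ibp_D0 N _ x) c0
  have i1 := ibp_one hψ d1 e1 (fun x => by rw [hG1, he1, hH1]; exact ibp_D1 N _ x) c1
  have hψc : Continuous ψ := hψ.1.continuous
  have hdc : ∀ v : E2, Continuous (fun x => fderiv ℝ ψ x v) := fun v =>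
    (hψ.1.continuous_fderiv (by simp)).clm_apply continuous_const
  have hds : ∀ v : E2, HasCompactSupport (fun x => fderiv ℝ ψ x v) := by
    intro v
    have h := hψ.2.1.fderiv (𝕜 := ℝ)
    exact h.comp_left (g := fun L : E2 →L[ℝ] ℝ => L v) (by simp)
  have h0 : ∀ x, x ∉ square → fderiv ℝ ψ x = 0 := by
    intro x hx
    by_contra hne
    exact hx (hψ.2.2 (support_fderiv_subset ℝ (Function.mem_support.2 hne)))
  have hinner : ∀ x, ⟪gradient ψ x, gU N (lapInv c) x⟫_ℝ =
      fderiv ℝ ψ x e0 * G0 x + fderiv ℝ ψ x e1 * G1 x := by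
    intro x
    unfold gradient
    rw [InnerProductSpace.toDual_symm_apply]
    have h1 : gU N (lapInv c) x = G0 x • e0 + G1 x • e1 := by
      rw [hG0, hG1, he0, he1]
      unfold gU
      ext i
      fin_cases i <;> simp
    rw [h1, map_add, map_smul, map_smul, smul_eq_mul, smul_eq_mul]
    ring
  have hU : ∀ x, ψ x * U N c x = -(ψ x * H0 x) - ψ x * H1 x := by
    intro x
    have h1 := ibp_lap N c x
    rw [← hH0, ← hH1] at h1
    have h2 : U N c x = -(H0 x + H1 x) := by rw [h1, neg_neg]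
    rw [h2]
    ring
  rw [ibp_int_eq (fun x hx => by rw [hψ.eq_zero hx, zero_mul]),
    ibp_int_eq (fun x hx => by rw [hinner, h0 x hx]; simp)]
  simp only [hinner, hU]
  rw [integral_sub, integral_neg, i0, i1, integral_add]
  · ring
  · exact ((hdc e0).mul d0.continuous).integrable_of_hasCompactSupport (hds e0).mul_right
  · exact ((hdc e1).mul d1.continuous).integrable_of_hasCompactSupport (hds e1).mul_right
  · exact ((hψc.mul c0).integrable_of_hasCompactSupport hψ.2.1.mul_right).neg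
  · exact (hψc.mul c1).integrable_of_hasCompactSupport hψ.2.1.mul_right

end Pool.Agent.PL2
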