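import Pool.Agent.PL2.Proj
import Pool.Agent.PL2.Dens1

open MeasureTheory Set Metric Filter Topology
open scoped ENNReal ContDiff InnerProductSpace Interval

namespace Pool.Agent.PL2

open Pool.Agent.PLap94

variable {p : ℝ} [hp : Fact (1 < p)]

/-- a bounded measurable pair as an element of `PairSpace p` -/
theorem exists_pair {f : E2 → ℝ} {g : E2 → E2} (hf : BM μS f) (hg : BM μS g) :
    ∃ w : PairSpace p, w.1 =ᵐ[μS] f ∧ w.2 =ᵐ[μS] g :=
  ⟨((hf.memLp _).toLp f, (hg.memLp _).toLp g), MemLp.coeFn_toLp (hf.memLp _),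
    MemLp.coeFn_toLp (hg.memLp _)⟩

theorem norm_rpow_eq_Nn {F : Type*} [NormedAddCommGroup F] {f : E2 → F}
    (w : Lp F (ENNReal.ofReal p) μS) (h : w =ᵐ[μS] f) : ‖w‖ ^ p = Nn p f := by
  have hp0 : 0 < p := p_pos
  rw [norm_of_ae_eq w f h]
  have h0 : 0 ≤ ∫ x, ‖f x‖ ^ p ∂μS := integral_nonneg fun x => by positivity
  rw [← Real.rpow_mul h0, one_div, inv_mul_cancel₀ hp0.ne', Real.rpow_one]
  rfl

theorem primw_L1 (u : Lp ℝ (ENNReal.ofReal p) μS) : ∫ x, |u x| ∂μS ≤ ‖u‖ := by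
  have hpq := Real.HolderConjugate.conjExponent hp.out
  have h1 := integral_mul_norm_le_Lp_mul_Lq (μ := μS) (f := u) (g := fun _ : E2 => (1 : ℝ)) hpq
    (Lp.memLp u) (memLp_const 1)
  rw [norm_of_ae_eq u u (Filter.EventuallyEq.refl _ _)]
  simpa using h1

theorem primw_integrable (u : Lp ℝ (ENNReal.ofReal p) μS) : Integrable (u : E2 → ℝ) μS := by
  apply (Lp.memLp u).integrable
  rw [ENNReal.one_le_ofReal]
  exact hp.out.le

theorem primw_coef {w1 v1 : Lp ℝ (ENNReal.ofReal p) μS} {φ V e : E2 → ℝ} {ε K : ℝ}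
    (hv : v1 =ᵐ[μS] φ) (hV : Continuous V) (hVφ : ∀ x ∈ square, |φ x - V x| ≤ ε)
    (he : Continuous e) (hK : ∀ x, |e x| ≤ K) (h0 : ∫ x, w1 x * e x ∂μS = 0)
    (hε : ‖w1 - v1‖ ≤ ε) : |∫ x, V x * e x ∂μS| ≤ 2 * ε * K := by
  have hae : ∀ᵐ x ∂μS, x ∈ square := ae_restrict_mem measurableSet_square
  have hK0 : 0 ≤ K := (abs_nonneg _).trans (hK 0)
  have hw : Integrable (fun x => w1 x * e x) μS :=
    (primw_integrable w1).mul_bdd (c := K) he.aestronglyMeasurable
      (Filter.Eventually.of_forall fun x => by rw [Real.norm_eq_abs]; exact hK x)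
  have h1 : ∫ x, V x * e x ∂μS = ∫ x, (V x * e x - w1 x * e x) ∂μS := by
    have := integral_sub (integrable_muS (hV.mul he)) hw
    simp only [Pi.mul_apply] at this
    rw [this, h0, sub_zero]
  rw [h1, ← Real.norm_eq_abs]
  have hd : Integrable (fun x => |(w1 - v1 : Lp ℝ (ENNReal.ofReal p) μS) x|) μS :=
    (primw_integrable (w1 - v1)).abs
  have hbd : ∀ᵐ x ∂μS, ‖V x * e x - w1 x * e x‖ ≤
      K * (ε + |(w1 - v1 : Lp ℝ (ENNReal.ofReal p) μS) x|) := by
    filter_upwards [hae, hv, Lp.coeFn_sub w1 v1] with x hx hvx hsx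
    have h2 : V x * e x - w1 x * e x = (V x - w1 x) * e x := by ring
    rw [h2, norm_mul, mul_comm]
    rw [Real.norm_eq_abs, Real.norm_eq_abs]
    have h3 : |V x - w1 x| ≤ ε + |(w1 - v1 : Lp ℝ (ENNReal.ofReal p) μS) x| := by
      have h4 := hVφ x hx
      have h5 : V x - w1 x = -((φ x - V x) + (w1 x - φ x)) := by ring
      rw [h5, abs_neg, hsx, Pi.sub_apply, hvx]
      exact (abs_add_le _ _).trans (by linarith)
    exact mul_le_mul (hK x) h3 (abs_nonneg _) hK0
  have hb : Integrable (fun x => K * (ε + |(w1 - v1 : Lp ℝ (ENNReal.ofReal p) μS) x|)) μS :=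
    ((integrable_const ε).add hd).const_mul K
  refine (norm_integral_le_of_norm_le hb hbd).trans ?_
  rw [integral_const_mul, integral_add (integrable_const ε) hd]
  have h6 := primw_L1 (w1 - v1)
  simp only [integral_const, probReal_univ, smul_eq_mul, one_mul]
  nlinarith

/-- Every constrained `w ∈ W0 p` is a limit of constrained sine polynomials: approximate `w` by a
test function `φ`, `φ` by `U N c` in `C¹` (`dens1`), then replace `c` by `proj α β c`; the
corrections `c₀₀ = 4∫ U N c e₁ = 4∫ (U N c - w.1) e₁` and `4∫ (U N c - w.1) mode (-β) α` are small.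
Conclude by continuity of the norms. -/
theorem primal_W0 {α β : ℝ} (h : α ^ 2 + β ^ 2 = 1) {Λ : ℝ}
    (hΛ : ∀ (N : ℕ) (c : ℕ → ℕ → ℝ), 2 ≤ N → Constr α β c → Λ * Nn p (U N c) ≤ Nn p (gU N c))
    {w : PairSpace p} (hw : w ∈ W0 p) (h1 : ∫ x, w.1 x * e₁ x ∂μS = 0)
    (h2 : ∫ x, w.1 x * mode (-β) α x ∂μS = 0) : Λ * ‖w.1‖ ^ p ≤ ‖w.2‖ ^ p := by
  have hae : ∀ᵐ x ∂μS, x ∈ square := ae_restrict_mem measurableSet_square
  have hclosed : IsClosed {v : PairSpace p | Λ * ‖v.1‖ ^ p ≤ ‖v.2‖ ^ p} :=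
    isClosed_le (continuous_const.mul (continuous_norm_rpow continuous_fst))
      (continuous_norm_rpow continuous_snd)
  suffices hmem : w ∈ closure {v : PairSpace p | Λ * ‖v.1‖ ^ p ≤ ‖v.2‖ ^ p} by
    rwa [hclosed.closure_eq] at hmem
  rw [Metric.mem_closure_iff]
  intro η hη
  set ε : ℝ := η / 1000 with hεdef
  have hε : 0 < ε := by positivity
  obtain ⟨v, ⟨φ, hφ, hv1, hv2⟩, hdist⟩ := Metric.mem_closure_iff.1 hw ε hε
  obtain ⟨N, c, hN, hc⟩ := dens1 hφ hε
  have hd1 : ‖w.1 - v.1‖ ≤ ε := by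
    rw [← dist_eq_norm]
    exact (le_max_left _ _).trans hdist.le
  have hd2 : ‖w.2 - v.2‖ ≤ ε := by
    rw [← dist_eq_norm]
    exact (le_max_right _ _).trans hdist.le
  have hUc : Continuous (U N c) := (contDiff_U N c).continuous
  have c1 : |c 0 0| ≤ 8 * ε := by
    have := primw_coef hv1 hUc (fun x hx => (hc x hx).1) proj_continuous_e₁ proj_e₁_le h1 hd1
    rw [integral_U_mul_e₁ hN c, abs_div, abs_of_pos (by norm_num : (0 : ℝ) < 4)] at this
    linarith
  have c2 : |-β * c 1 0 + α * c 0 1| ≤ 16 * ε := by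
    have := primw_coef hv1 hUc (fun x hx => (hc x hx).1) (continuous_mode (-β) α)
      (proj_mode_le h) h2 hd1
    rw [integral_U_mul_mode hN (-β) α c, abs_div, abs_of_pos (by norm_num : (0 : ℝ) < 4)] at this
    linarith
  -- the constrained polynomial
  obtain ⟨u, hu1, hu2⟩ := exists_pair (p := p) (bm_U N (proj α β c)) (bm_gU N (proj α β c))
  have hin : u ∈ {v : PairSpace p | Λ * ‖v.1‖ ^ p ≤ ‖v.2‖ ^ p} := by
    show Λ * ‖u.1‖ ^ p ≤ ‖u.2‖ ^ p
    rw [norm_rpow_eq_Nn u.1 hu1, norm_rpow_eq_Nn u.2 hu2]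
    exact hΛ N _ hN (constr_proj α β c)
  refine ⟨u, hin, ?_⟩
  have hu1' : ‖v.1 - u.1‖ ≤ 41 * ε := by
    apply norm_le_of_bound _ (by positivity)
    filter_upwards [hae, hv1, hu1, Lp.coeFn_sub v.1 u.1] with x hx e1 e2 e3
    rw [e3, Pi.sub_apply, e1, e2, U_proj h hN c x, Real.norm_eq_abs]
    have f1 := (hc x hx).1
    have f2 : |c 0 0 * e₁ x| ≤ 8 * ε * 1 := by
      rw [abs_mul]
      exact mul_le_mul c1 (proj_e₁_le x) (abs_nonneg _) (by positivity)
    have f3 : |(-β * c 1 0 + α * c 0 1) * mode (-β) α x| ≤ 16 * ε * 2 := by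
      rw [abs_mul]
      exact mul_le_mul c2 (proj_mode_le h x) (abs_nonneg _) (by positivity)
    have e : φ x - (U N c x - c 0 0 * e₁ x - (-β * c 1 0 + α * c 0 1) * mode (-β) α x) =
        (φ x - U N c x) + c 0 0 * e₁ x + (-β * c 1 0 + α * c 0 1) * mode (-β) α x := by ring
    rw [e]
    have g1 := abs_add_le ((φ x - U N c x) + c 0 0 * e₁ x)
      ((-β * c 1 0 + α * c 0 1) * mode (-β) α x)
    have g2 := abs_add_le (φ x - U N c x) (c 0 0 * e₁ x)
    linarith
  have hu2' : ‖v.2 - u.2‖ ≤ 721 * ε := by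
    apply norm_le_of_bound _ (by positivity)
    filter_upwards [hae, hv2, hu2, Lp.coeFn_sub v.2 u.2] with x hx e1 e2 e3
    rw [e3, Pi.sub_apply, e1, e2]
    have f1 := (hc x hx).2
    have f2 := norm_gU_sub_proj_le h hN c x
    have e : gradient φ x - gU N (proj α β c) x = (gradient φ x - gU N c x) +
        (gU N c x - gU N (proj α β c) x) := by abel
    rw [e]
    refine (norm_add_le _ _).trans ?_
    linarith
  have hfin : dist w u ≤ 722 * ε := by
    rw [Prod.dist_eq]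
    apply max_le
    · rw [dist_eq_norm]
      have e : w.1 - u.1 = (w.1 - v.1) + (v.1 - u.1) := by abel
      rw [e]
      refine (norm_add_le _ _).trans ?_
      linarith
    · rw [dist_eq_norm]
      have e : w.2 - u.2 = (w.2 - v.2) + (v.2 - u.2) := by abel
      rw [e]
      refine (norm_add_le _ _).trans ?_
      linarith
  have : 722 * ε < η := by rw [hεdef]; linarith
  linarith

end Pool.Agent.PL2
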