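import Pool.Agent.PL2.Proj
import Pool.Agent.PL2.Ibp
import Pool.Agent.PL2.PrimW

open MeasureTheory Set Metric Filter Topology
open scoped ENNReal ContDiff InnerProductSpace Interval

namespace Pool.Agent.PL2

open Pool.Agent.PLap94

theorem dual_bm_continuous {F : Type*} [NormedAddCommGroup F] {f : E2 → F}
    (hf : Continuous f) [SecondCountableTopologyEither E2 F] {K : ℝ} (hK : ∀ x, ‖f x‖ ≤ K) :
    BM μS f := ⟨hf.aestronglyMeasurable, K, hK⟩

theorem dual_bm_gradient {ψ : E2 → ℝ} (hψ : IsTest ψ) : BM μS (gradient ψ) := by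
  have h1 : ContDiff ℝ 1 ψ := hψ.1.of_le (by exact_mod_cast le_top)
  obtain ⟨K, -, hK⟩ := exists_bound h1 hψ.2.1
  have hc : Continuous (gradient ψ) := by
    unfold gradient
    exact (InnerProductSpace.toDual ℝ E2).symm.continuous.comp (h1.continuous_fderiv one_ne_zero)
  refine ⟨hc.aestronglyMeasurable, K, fun x => ?_⟩
  rw [norm_gradient]
  exact hK x

theorem dual_continuous_prF {α β : ℝ} {g : E2 → ℝ} (hg : Continuous g) :
    Continuous (prF α β g) := by
  unfold prF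
  exact (hg.sub (continuous_const.mul proj_continuous_e₁)).sub
    (continuous_const.mul (continuous_mode _ _))

/-- inequality for a constrained sine polynomial -/
theorem dual_poly {α β : ℝ} {p q Λ : ℝ} (hpq : p.HolderConjugate q)
    (hΛ0 : 0 < Λ)
    (hΛ : ∀ (N : ℕ) (c : ℕ → ℕ → ℝ), 2 ≤ N → Constr α β c →
      Λ * Nn q (gU N (lapInv c)) ≤ Nn q (U N c))
    {ψ : E2 → ℝ} (hψ : IsTest ψ) {N : ℕ} {c : ℕ → ℕ → ℝ} (hN : 2 ≤ N) (hc : Constr α β c) :
    ∫ x, ψ x * U N c x ∂μS ≤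
      (Nn p (gradient ψ)) ^ (1 / p) * (Nn q (U N c) / Λ) ^ (1 / q) := by
  rw [ibp hψ N c]
  have hb1 := dual_bm_gradient hψ
  have hb2 := bm_gU N (lapInv c)
  have hn1 : Integrable (fun x => ‖gradient ψ x‖ * ‖gU N (lapInv c) x‖) μS := by
    have h1 : BM μS (fun x => ‖gradient ψ x‖) := by
      obtain ⟨h, K, hK⟩ := hb1
      exact ⟨h.norm, K, fun x => by rw [norm_norm]; exact hK x⟩
    have h2 : BM μS (fun x => ‖gU N (lapInv c) x‖) := by
      obtain ⟨h, K, hK⟩ := hb2
      exact ⟨h.norm, K, fun x => by rw [norm_norm]; exact hK x⟩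
    exact (h1.mul h2).integrable
  have h1 : ∫ x, ⟪gradient ψ x, gU N (lapInv c) x⟫_ℝ ∂μS ≤
      ∫ x, ‖gradient ψ x‖ * ‖gU N (lapInv c) x‖ ∂μS := by
    apply integral_mono (hb1.inner hb2).integrable hn1
    intro x
    exact real_inner_le_norm _ _
  refine h1.trans ?_
  refine (integral_mul_norm_le_Lp_mul_Lq hpq (hb1.memLp _) (hb2.memLp _)).trans ?_
  have hq0 : 0 < q := hpq.symm.pos
  have h2 : Nn q (gU N (lapInv c)) ≤ Nn q (U N c) / Λ := by
    rw [le_div_iff₀ hΛ0, mul_comm]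
    exact hΛ N c hN hc
  have h3 : 0 ≤ Nn q (gU N (lapInv c)) := integral_nonneg fun x => by positivity
  have h4 : (Nn q (gU N (lapInv c))) ^ (1 / q) ≤ (Nn q (U N c) / Λ) ^ (1 / q) :=
    Real.rpow_le_rpow h3 h2 (by positivity)
  have h5 : 0 ≤ (Nn p (gradient ψ)) ^ (1 / p) :=
    Real.rpow_nonneg (integral_nonneg fun x => by positivity) _
  exact mul_le_mul_of_nonneg_left h4 h5

/-- `ibp`, Cauchy-Schwarz, Hölder, hypothesis `hΛ`, for sine polynomials; then `dens0_proj`. -/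
theorem dual_test {α β : ℝ} (h : α ^ 2 + β ^ 2 = 1) {p q Λ : ℝ} (hpq : p.HolderConjugate q)
    (hΛ0 : 0 < Λ)
    (hΛ : ∀ (N : ℕ) (c : ℕ → ℕ → ℝ), 2 ≤ N → Constr α β c →
      Λ * Nn q (gU N (lapInv c)) ≤ Nn q (U N c))
    {ψ g : E2 → ℝ} (hψ : IsTest ψ) (hg : Continuous g) (hgc : HasCompactSupport g)
    (hgs : tsupport g ⊆ square) :
    ∫ x, ψ x * prF α β g x ∂μS ≤
      (Nn p (gradient ψ)) ^ (1 / p) * (Nn q (prF α β g) / Λ) ^ (1 / q) := by
  have hq0 : 0 < q := hpq.symm.pos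
  have hae : ∀ᵐ x ∂μS, x ∈ square := ae_restrict_mem measurableSet_square
  have hcont : Continuous (prF α β g) := dual_continuous_prF hg
  -- bound of `prF`
  obtain ⟨K0, hK0⟩ := hgc.exists_bound_of_continuous hg
  obtain ⟨K, hK⟩ : ∃ K : ℝ, ∀ x, ‖prF α β g x‖ ≤ K := by
    refine ⟨K0 + |4 * ∫ y, g y * e₁ y ∂μS| + |4 * ∫ y, g y * mode (-β) α y ∂μS| * 2, fun x => ?_⟩
    unfold prF
    rw [Real.norm_eq_abs]
    have h1 := abs_sub (g x - 4 * (∫ y, g y * e₁ y ∂μS) * e₁ x)
      (4 * (∫ y, g y * mode (-β) α y ∂μS) * mode (-β) α x)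
    have h2 := abs_sub (g x) (4 * (∫ y, g y * e₁ y ∂μS) * e₁ x)
    have h3 : |4 * (∫ y, g y * e₁ y ∂μS) * e₁ x| ≤ |4 * ∫ y, g y * e₁ y ∂μS| * 1 := by
      rw [abs_mul]
      exact mul_le_mul_of_nonneg_left (proj_e₁_le x) (abs_nonneg _)
    have h4 : |4 * (∫ y, g y * mode (-β) α y ∂μS) * mode (-β) α x| ≤
        |4 * ∫ y, g y * mode (-β) α y ∂μS| * 2 := by
      rw [abs_mul]
      exact mul_le_mul_of_nonneg_left (proj_mode_le h x) (abs_nonneg _)
    have h5 := hK0 x
    rw [Real.norm_eq_abs] at h5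
    linarith
  have hKnn : 0 ≤ K := (norm_nonneg _).trans (hK 0)
  obtain ⟨K1, hK1⟩ := hψ.2.1.exists_bound_of_continuous hψ.1.continuous
  have hψc : Continuous ψ := hψ.1.continuous
  choose N c hN hcc hdist using fun n : ℕ =>
    dens0_proj h hg hgc hgs (show (0 : ℝ) < 1 / ((n : ℝ) + 1) by positivity)
  -- pointwise convergence on the square
  have hlim : ∀ᵐ x ∂μS, Tendsto (fun n => U (N n) (c n) x) atTop (𝓝 (prF α β g x)) := by
    filter_upwards [hae] with x hx
    rw [tendsto_iff_dist_tendsto_zero]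
    refine squeeze_zero (fun n => dist_nonneg) (fun n => ?_) tendsto_one_div_add_atTop_nhds_zero_nat
    rw [Real.dist_eq, abs_sub_comm]
    exact hdist n x hx
  have hbd : ∀ n, ∀ᵐ x ∂μS, ‖U (N n) (c n) x‖ ≤ K + 1 := by
    intro n
    filter_upwards [hae] with x hx
    have h1 := hdist n x hx
    have h2 : (1 : ℝ) / ((n : ℝ) + 1) ≤ 1 := by
      rw [div_le_one (by positivity)]
      have : (0 : ℝ) ≤ n := Nat.cast_nonneg n
      linarith
    have h3 := hK x
    rw [Real.norm_eq_abs] at h3 ⊢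
    have h4 : |U (N n) (c n) x| ≤ |prF α β g x| + |prF α β g x - U (N n) (c n) x| := by
      have := abs_sub (prF α β g x) (prF α β g x - U (N n) (c n) x)
      simpa using this
    linarith
  have hUc : ∀ n, Continuous (U (N n) (c n)) := fun n => (contDiff_U _ _).continuous
  have lim1 : Tendsto (fun n => ∫ x, ψ x * U (N n) (c n) x ∂μS) atTop
      (𝓝 (∫ x, ψ x * prF α β g x ∂μS)) := by
    apply tendsto_integral_of_dominated_convergence (fun _ => K1 * (K + 1))
    · intro n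
      exact (hψc.mul (hUc n)).aestronglyMeasurable
    · exact integrable_const _
    · intro n
      filter_upwards [hbd n] with x hx
      rw [norm_mul]
      exact mul_le_mul (hK1 x) hx (norm_nonneg _) ((norm_nonneg _).trans (hK1 x))
    · filter_upwards [hlim] with x hx
      exact hx.const_mul (ψ x)
  have lim2 : Tendsto (fun n => Nn q (U (N n) (c n))) atTop (𝓝 (Nn q (prF α β g))) := by
    unfold Nn
    apply tendsto_integral_of_dominated_convergence (fun _ => (K + 1) ^ q)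
    · intro n
      exact ((hUc n).norm.rpow_const fun _ => Or.inr hq0.le).aestronglyMeasurable
    · exact integrable_const _
    · intro n
      filter_upwards [hbd n] with x hx
      rw [Real.norm_of_nonneg (by positivity)]
      exact Real.rpow_le_rpow (norm_nonneg _) hx hq0.le
    · filter_upwards [hlim] with x hx
      exact (hx.norm).rpow_const (Or.inr hq0.le)
  have lim3 : Tendsto (fun n => (Nn p (gradient ψ)) ^ (1 / p) *
      (Nn q (U (N n) (c n)) / Λ) ^ (1 / q)) atTop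
      (𝓝 ((Nn p (gradient ψ)) ^ (1 / p) * (Nn q (prF α β g) / Λ) ^ (1 / q))) := by
    apply Tendsto.const_mul
    exact (lim2.div_const Λ).rpow_const (Or.inr (by positivity))
  exact le_of_tendsto_of_tendsto' lim1 lim3 fun n =>
    dual_poly hpq hΛ0 hΛ hψ (hN n) (hcc n)

end Pool.Agent.PL2
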