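import Pool.Agent.PL2.BMl

open MeasureTheory Set Metric Filter Topology
open scoped ENNReal ContDiff InnerProductSpace Interval

namespace Pool.Agent.PL2

open Pool.Agent.PLap94

variable {p : ℝ} [hp : Fact (1 < p)]

theorem fnl_lint_le {q : ℝ} (hq : 0 < q) (hqp : q ≤ p) (u : Lp ℝ (ENNReal.ofReal p) μS) :
    ∫⁻ x, ‖u x‖ₑ ^ q ∂μS ≤ ENNReal.ofReal (‖u‖ ^ q) := by
  have h1 := eLpNorm_eq_lintegral_rpow_enorm_toReal (f := u) (μ := μS)
    (p := ENNReal.ofReal q) (by simpa using hq) ENNReal.ofReal_ne_top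
  rw [ENNReal.toReal_ofReal hq.le] at h1
  have h2 : eLpNorm u (ENNReal.ofReal q) μS ≤ eLpNorm u (ENNReal.ofReal p) μS :=
    eLpNorm_le_eLpNorm_of_exponent_le (ENNReal.ofReal_le_ofReal hqp) (Lp.aestronglyMeasurable u)
  have h3 : ENNReal.ofReal ‖u‖ = eLpNorm u (ENNReal.ofReal p) μS := by
    rw [Lp.norm_def, ENNReal.ofReal_toReal (Lp.eLpNorm_ne_top u)]
  rw [h1, ← h3] at h2
  have h4 := ENNReal.rpow_le_rpow h2 hq.le
  rw [← ENNReal.rpow_mul, one_div, inv_mul_cancel₀ hq.ne', ENNReal.rpow_one,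
    ENNReal.ofReal_rpow_of_nonneg (norm_nonneg _) hq.le] at h4
  exact h4

theorem fnl_integral_le {q : ℝ} (hq : 0 < q) (hqp : q ≤ p) (u : Lp ℝ (ENNReal.ofReal p) μS) :
    Integrable (fun x => ‖u x‖ ^ q) μS ∧ ∫ x, ‖u x‖ ^ q ∂μS ≤ ‖u‖ ^ q := by
  have hm : AEStronglyMeasurable (fun x => ‖u x‖ ^ q) μS :=
    ((Lp.aestronglyMeasurable u).norm.aemeasurable.pow_const q).aestronglyMeasurable
  have h0 : ∀ x, ENNReal.ofReal (‖u x‖ ^ q) = ‖u x‖ₑ ^ q := by
    intro x
    rw [← ofReal_norm_eq_enorm, ENNReal.ofReal_rpow_of_nonneg (norm_nonneg _) hq.le]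
  have h1 := fnl_lint_le hq hqp u
  have hi : Integrable (fun x => ‖u x‖ ^ q) μS := by
    refine ⟨hm, ?_⟩
    rw [hasFiniteIntegral_iff_ofReal (Filter.Eventually.of_forall (fun x => by positivity))]
    simp only [h0]
    exact h1.trans_lt ENNReal.ofReal_lt_top
  refine ⟨hi, ?_⟩
  rw [integral_eq_lintegral_of_nonneg_ae (Filter.Eventually.of_forall (fun x => by positivity)) hm]
  simp only [h0]
  exact ENNReal.toReal_le_of_le_ofReal (by positivity) h1

theorem fnl_coe_sub (w v : PairSpace p) :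
    (w - v).1 =ᵐ[μS] fun x => w.1 x - v.1 x := Lp.coeFn_sub w.1 v.1

/-- `w ↦ ∫ w.1 e` is continuous (Hölder / `L^p ⊆ L^1` on a probability space, `e` bounded) -/
theorem continuous_lin {e : E2 → ℝ} (he : BM μS e) :
    Continuous (fun w : PairSpace p => ∫ x, w.1 x * e x ∂μS) := by
  obtain ⟨hem, K, hK⟩ := he
  have hK0 : 0 ≤ K := (norm_nonneg _).trans (hK 0)
  have hi : ∀ w : PairSpace p, Integrable (fun x => w.1 x * e x) μS := by
    intro w
    have h1 := (fnl_integral_le one_pos hp.out.le w.1).1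
    simp only [Real.rpow_one] at h1
    refine Integrable.mono' (h1.mul_const K) ((Lp.aestronglyMeasurable w.1).mul hem)
      (Filter.Eventually.of_forall (fun x => ?_))
    rw [norm_mul]
    exact mul_le_mul_of_nonneg_left (hK x) (norm_nonneg _)
  have hb : ∀ w v : PairSpace p, dist (∫ x, w.1 x * e x ∂μS) (∫ x, v.1 x * e x ∂μS) ≤
      K * dist w v := by
    intro w v
    rw [Real.dist_eq, ← integral_sub (hi w) (hi v)]
    have h1 := fnl_integral_le one_pos hp.out.le (w - v).1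
    simp only [Real.rpow_one] at h1
    have h2 : ∫ x, (w.1 x * e x - v.1 x * e x) ∂μS = ∫ x, (w - v).1 x * e x ∂μS := by
      apply integral_congr_ae
      filter_upwards [fnl_coe_sub w v] with x hx
      rw [hx]
      ring
    rw [h2]
    have h3 : ‖∫ x, (w - v).1 x * e x ∂μS‖ ≤ ∫ x, ‖(w - v).1 x‖ * K ∂μS := by
      refine norm_integral_le_of_norm_le (h1.1.mul_const K)
        (Filter.Eventually.of_forall (fun x => ?_))
      rw [norm_mul]
      exact mul_le_mul_of_nonneg_left (hK x) (norm_nonneg _)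
    rw [Real.norm_eq_abs, integral_mul_const] at h3
    have h4 : ‖(w - v).1‖ ≤ dist w v := by
      rw [dist_eq_norm]
      exact norm_fst_le _
    calc |∫ x, (w - v).1 x * e x ∂μS| ≤ (∫ x, ‖(w - v).1 x‖ ∂μS) * K := h3
      _ ≤ dist w v * K := mul_le_mul_of_nonneg_right (h1.2.trans h4) hK0
      _ = K * dist w v := mul_comm _ _
  exact (LipschitzWith.of_dist_le_mul (K := ⟨K, hK0⟩) hb).continuous

theorem lin_neg (e : E2 → ℝ) (w : PairSpace p) :
    ∫ x, (-w).1 x * e x ∂μS = -∫ x, w.1 x * e x ∂μS := by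
  rw [← integral_neg]
  apply integral_congr_ae
  filter_upwards [Lp.coeFn_neg w.1] with x hx
  rw [Prod.fst_neg, hx, Pi.neg_apply]
  ring

theorem fnl_abs (a : ℝ) (h0 : p - 1 ≠ 0) : |a| ^ (p - 2) * a = SignType.sign a * |a| ^ (p - 1) := by
  rcases eq_or_ne a 0 with h | h
  · subst h
    simp
  · have h1 : |a| ^ (p - 1) = |a| ^ (p - 2) * |a| := by
      rw [← Real.rpow_add_one (abs_pos.2 h).ne']
      congr 1
      ring
    rw [h1]
    have h2 : (SignType.sign a : ℝ) * |a| = a := by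
      exact sign_mul_abs a
    rw [mul_comm (|a| ^ (p - 2)) |a|, ← mul_assoc, h2]
    ring

theorem fnl_sub_rpow {s : ℝ} (hs : 0 ≤ s) (hs1 : s ≤ 1) {a b : ℝ} (hb : 0 ≤ b) (hab : b ≤ a) :
    a ^ s - b ^ s ≤ (a - b) ^ s := by
  have h := NNReal.rpow_add_le_add_rpow (⟨a - b, by linarith⟩ : NNReal) (⟨b, hb⟩ : NNReal) hs hs1
  have h2 : ((⟨a - b, by linarith⟩ + ⟨b, hb⟩ : NNReal) : ℝ) ^ s ≤ (a - b) ^ s + b ^ s := by
    exact_mod_cast h
  have h3 : ((⟨a - b, by linarith⟩ + ⟨b, hb⟩ : NNReal) : ℝ) = a := by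
    push_cast
    show a - b + b = a
    ring
  rw [h3] at h2
  linarith

theorem fnl_scalar (hp2 : p ≤ 2) (a b : ℝ) :
    |(|a| ^ (p - 2) * a - |b| ^ (p - 2) * b)| ≤ 2 * |a - b| ^ (p - 1) := by
  have hp1 : 0 < p - 1 := by linarith [hp.out]
  have hs1 : p - 1 ≤ 1 := by linarith
  have key : ∀ a b : ℝ, b ≤ a →
      |(|a| ^ (p - 2) * a - |b| ^ (p - 2) * b)| ≤ 2 * |a - b| ^ (p - 1) := by
    intro a b hab
    rw [fnl_abs a hp1.ne', fnl_abs b hp1.ne', abs_of_nonneg (sub_nonneg.2 hab)]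
    have h0 : 0 ≤ (a - b) ^ (p - 1) := Real.rpow_nonneg (by linarith) _
    rcases lt_or_ge b 0 with hb | hb
    · rcases lt_or_ge 0 a with ha | ha
      · rw [sign_pos ha, sign_neg hb, abs_of_pos ha, abs_of_neg hb]
        have h1 : a ^ (p - 1) ≤ (a - b) ^ (p - 1) :=
          Real.rpow_le_rpow ha.le (by linarith) hp1.le
        have h2 : (-b) ^ (p - 1) ≤ (a - b) ^ (p - 1) :=
          Real.rpow_le_rpow (by linarith) (by linarith) hp1.le
        have h3 : 0 ≤ a ^ (p - 1) := Real.rpow_nonneg ha.le _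
        have h4 : 0 ≤ (-b) ^ (p - 1) := Real.rpow_nonneg (by linarith) _
        simp only [SignType.coe_one, SignType.coe_neg_one]
        rw [abs_of_nonneg (by linarith)]
        linarith
      · rcases ha.eq_or_lt with ha | ha
        · rw [sign_neg hb, abs_of_neg hb, ha]
          simp only [sign_zero, SignType.coe_zero, zero_mul, SignType.coe_neg_one, zero_sub]
          have h4 : 0 ≤ (-b) ^ (p - 1) := Real.rpow_nonneg (by linarith) _
          rw [abs_of_nonneg (by linarith)]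
          linarith
        · rw [sign_neg ha, sign_neg hb, abs_of_neg ha, abs_of_neg hb]
          simp only [SignType.coe_neg_one]
          have h1 := fnl_sub_rpow hp1.le hs1 (a := -b) (b := -a) (by linarith) (by linarith)
          have h2 : (-a) ^ (p - 1) ≤ (-b) ^ (p - 1) :=
            Real.rpow_le_rpow (by linarith) (by linarith) hp1.le
          have h3 : -b - -a = a - b := by ring
          rw [h3] at h1
          rw [abs_of_nonneg (by linarith)]
          linarith
    · have ha : 0 ≤ a := by linarith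
      have h1 := fnl_sub_rpow hp1.le hs1 hb hab
      have h2 : b ^ (p - 1) ≤ a ^ (p - 1) := Real.rpow_le_rpow hb hab hp1.le
      have h3 : ∀ c : ℝ, 0 ≤ c → (SignType.sign c : ℝ) * |c| ^ (p - 1) = c ^ (p - 1) := by
        intro c hc
        rcases hc.eq_or_lt with hc | hc
        · rw [← hc]
          simp [Real.zero_rpow hp1.ne']
        · rw [sign_pos hc, abs_of_pos hc]
          simp
      rw [h3 a ha, h3 b hb, abs_of_nonneg (by linarith)]
      linarith
  rcases le_total b a with h | h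
  · exact key a b h
  · rw [abs_sub_comm, abs_sub_comm a b]
    exact key b a h

theorem fnl_meas (w : PairSpace p) :
    AEStronglyMeasurable (fun x => |w.1 x| ^ (p - 2) * w.1 x) μS := by
  have h1 : AEMeasurable (fun x => w.1 x) μS := (Lp.aestronglyMeasurable w.1).aemeasurable
  have h2 : AEMeasurable (fun x => |w.1 x| ^ (p - 2)) μS := by
    have := (Lp.aestronglyMeasurable w.1).norm.aemeasurable
    exact this.pow_const _
  exact (h2.mul h1).aestronglyMeasurable

theorem fnl_integrable (hp2 : p ≤ 2) {e : E2 → ℝ} (he : BM μS e) (w : PairSpace p) :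
    Integrable (fun x => |w.1 x| ^ (p - 2) * w.1 x * e x) μS := by
  obtain ⟨hem, K, hK⟩ := he
  have hp1 : 0 < p - 1 := by linarith [hp.out]
  have h1 := (fnl_integral_le hp1 (by linarith) w.1).1
  refine Integrable.mono' ((h1.const_mul 2).mul_const K) ((fnl_meas w).mul hem)
    (Filter.Eventually.of_forall (fun x => ?_))
  rw [norm_mul]
  have h2 := fnl_scalar hp2 (w.1 x) 0
  simp only [mul_zero, sub_zero] at h2
  exact mul_le_mul h2 (hK x) (norm_nonneg _) (by positivity)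

/-- `w ↦ ∫ |w.1|^(p-2) w.1 e` is continuous for `1 < p ≤ 2`:
`||a|^(p-2)a - |b|^(p-2)b| ≤ 2|a-b|^(p-1)` and `∫|u|^(p-1) ≤ ‖u‖^(p-1)`. -/
theorem continuous_nonlin (hp2 : p ≤ 2) {e : E2 → ℝ} (he : BM μS e) :
    Continuous (fun w : PairSpace p => ∫ x, |w.1 x| ^ (p - 2) * w.1 x * e x ∂μS) := by
  have he' := he
  obtain ⟨hem, K, hK⟩ := he
  have hK0 : 0 ≤ K := (norm_nonneg _).trans (hK 0)
  have hp1 : 0 < p - 1 := by linarith [hp.out]
  rw [continuous_iff_continuousAt]
  intro v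
  rw [ContinuousAt, tendsto_iff_dist_tendsto_zero]
  have hb : ∀ w : PairSpace p, dist (∫ x, |w.1 x| ^ (p - 2) * w.1 x * e x ∂μS)
      (∫ x, |v.1 x| ^ (p - 2) * v.1 x * e x ∂μS) ≤ 2 * ‖w - v‖ ^ (p - 1) * K := by
    intro w
    rw [Real.dist_eq, ← integral_sub (fnl_integrable hp2 he' w) (fnl_integrable hp2 he' v)]
    have h1 := fnl_integral_le hp1 (by linarith) (w - v).1
    have h3 : ‖∫ x, (|w.1 x| ^ (p - 2) * w.1 x * e x - |v.1 x| ^ (p - 2) * v.1 x * e x) ∂μS‖ ≤
        ∫ x, 2 * ‖(w - v).1 x‖ ^ (p - 1) * K ∂μS := by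
      refine norm_integral_le_of_norm_le ((h1.1.const_mul 2).mul_const K) ?_
      filter_upwards [fnl_coe_sub w v] with x hx
      rw [hx, ← sub_mul, norm_mul]
      exact mul_le_mul (fnl_scalar hp2 _ _) (hK x) (norm_nonneg _) (by positivity)
    rw [Real.norm_eq_abs, integral_mul_const, integral_const_mul] at h3
    have h4 : ‖(w - v).1‖ ≤ ‖w - v‖ := norm_fst_le _
    have h5 : ‖(w - v).1‖ ^ (p - 1) ≤ ‖w - v‖ ^ (p - 1) :=
      Real.rpow_le_rpow (norm_nonneg _) h4 hp1.le
    refine h3.trans ?_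
    apply mul_le_mul_of_nonneg_right _ hK0
    linarith [h1.2]
  have hc : Tendsto (fun w : PairSpace p => 2 * ‖w - v‖ ^ (p - 1) * K) (𝓝 v) (𝓝 0) := by
    have h1 : Continuous (fun w : PairSpace p => 2 * ‖w - v‖ ^ (p - 1) * K) := by
      have : Continuous (fun w : PairSpace p => ‖w - v‖ ^ (p - 1)) :=
        (continuous_id.sub continuous_const).norm.rpow_const (fun _ => Or.inr hp1.le)
      exact (continuous_const.mul this).mul continuous_const
    have h2 := h1.tendsto v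
    simp only [sub_self, norm_zero, Real.zero_rpow hp1.ne', mul_zero, zero_mul] at h2
    exact h2
  exact squeeze_zero (fun w => dist_nonneg) hb hc

theorem nonlin_neg (e : E2 → ℝ) (w : PairSpace p) :
    ∫ x, |(-w).1 x| ^ (p - 2) * (-w).1 x * e x ∂μS =
      -∫ x, |w.1 x| ^ (p - 2) * w.1 x * e x ∂μS := by
  rw [← integral_neg]
  apply integral_congr_ae
  filter_upwards [Lp.coeFn_neg w.1] with x hx
  rw [Prod.fst_neg, hx, Pi.neg_apply, abs_neg]
  ring

end Pool.Agent.PL2
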