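import Pool.Agent.PL2.Dual
import Pool.Agent.PL2.Fnl

open MeasureTheory Set Metric Filter Topology
open scoped ENNReal ContDiff InnerProductSpace Interval

namespace Pool.Agent.PL2

open Pool.Agent.PLap94

variable {p : ℝ} [hp : Fact (1 < p)]

/-- `t ↦ |t|^(p-2) t` is continuous -/
theorem dualw_continuous (hp2 : p ≤ 2) : Continuous (fun t : ℝ => |t| ^ (p - 2) * t) := by
  have hp1 : 0 < p - 1 := by linarith [hp.out]
  rw [continuous_iff_continuousAt]
  intro a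
  rw [ContinuousAt, tendsto_iff_dist_tendsto_zero]
  have h1 : Tendsto (fun t : ℝ => 2 * |t - a| ^ (p - 1)) (𝓝 a) (𝓝 0) := by
    have hc : Continuous (fun t : ℝ => 2 * |t - a| ^ (p - 1)) :=
      continuous_const.mul ((continuous_abs.comp (continuous_id.sub continuous_const)).rpow_const
        fun _ => Or.inr hp1.le)
    have := hc.tendsto a
    simpa [Real.zero_rpow hp1.ne'] using this
  refine squeeze_zero (fun _ => dist_nonneg) (fun t => ?_) h1
  rw [Real.dist_eq]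
  exact fnl_scalar hp2 t a

/-- Minkowski with a bounded perturbation. -/
theorem dualw_minkowski {q : ℝ} (hq : 1 < q) {f h : E2 → ℝ} (hf : BM μS f) (hh : BM μS h) {δ : ℝ}
    (hδ : 0 ≤ δ) (hhδ : ∀ x, ‖h x‖ ≤ δ) :
    (Nn q (fun x => f x + h x)) ^ (1 / q) ≤ (Nn q f) ^ (1 / q) + δ := by
  haveI : Fact (1 < q) := ⟨hq⟩
  set F := (hf.memLp (ENNReal.ofReal q)).toLp f with hF
  set H := (hh.memLp (ENNReal.ofReal q)).toLp h with hH
  have hFe : F =ᵐ[μS] f := MemLp.coeFn_toLp _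
  have hHe : H =ᵐ[μS] h := MemLp.coeFn_toLp _
  have hsum : (F + H : Lp ℝ (ENNReal.ofReal q) μS) =ᵐ[μS] fun x => f x + h x := by
    filter_upwards [Lp.coeFn_add F H, hFe, hHe] with x h1 h2 h3
    rw [h1, Pi.add_apply, h2, h3]
  have n1 := norm_of_ae_eq (F + H) _ hsum
  have n2 := norm_of_ae_eq F _ hFe
  have n3 : ‖H‖ ≤ δ := by
    apply norm_le_of_bound H hδ
    filter_upwards [hHe] with x hx
    rw [hx]
    exact hhδ x
  unfold Nn
  rw [← n1, ← n2]
  exact (norm_add_le _ _).trans (by linarith)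

lemma dualw_e₁_bm : BM μS e₁ := by
  have hc : Continuous e₁ := by
    unfold e₁ sn
    fun_prop
  refine ⟨hc.aestronglyMeasurable, 1, fun x => ?_⟩
  unfold e₁ sn
  rw [norm_mul, Real.norm_eq_abs, Real.norm_eq_abs]
  exact mul_le_one₀ (Real.abs_sin_le_one _) (abs_nonneg _) (Real.abs_sin_le_one _)

lemma dualw_e₁_le (x : E2) : |e₁ x| ≤ 1 := by
  unfold e₁ sn
  rw [abs_mul]
  exact mul_le_one₀ (Real.abs_sin_le_one _) (abs_nonneg _) (Real.abs_sin_le_one _)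

lemma dualw_mode_le {α β : ℝ} (h : α ^ 2 + β ^ 2 = 1) (x : E2) : |mode (-β) α x| ≤ 2 := by
  have ha : |α| ≤ 1 := abs_le_one_iff_mul_self_le_one.2 (by nlinarith [sq_nonneg β])
  have hb : |β| ≤ 1 := abs_le_one_iff_mul_self_le_one.2 (by nlinarith [sq_nonneg α])
  have hs : ∀ i j : ℕ, |sn i (x 0) * sn j (x 1)| ≤ 1 := by
    intro i j
    unfold sn
    rw [abs_mul]
    exact mul_le_one₀ (Real.abs_sin_le_one _) (abs_nonneg _) (Real.abs_sin_le_one _)
  unfold mode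
  calc |-β * (sn 1 (x 0) * sn 0 (x 1)) + α * (sn 0 (x 0) * sn 1 (x 1))|
      ≤ |-β * (sn 1 (x 0) * sn 0 (x 1))| + |α * (sn 0 (x 0) * sn 1 (x 1))| := abs_add_le _ _
    _ ≤ 1 * 1 + 1 * 1 := by
        have u1 : |-β * (sn 1 (x 0) * sn 0 (x 1))| ≤ 1 * 1 := by
          rw [abs_mul, abs_neg]
          exact mul_le_mul hb (hs 1 0) (abs_nonneg _) zero_le_one
        have u2 : |α * (sn 0 (x 0) * sn 1 (x 1))| ≤ 1 * 1 := by
          rw [abs_mul]
          exact mul_le_mul ha (hs 0 1) (abs_nonneg _) zero_le_one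
        exact add_le_add u1 u2
    _ = 2 := by norm_num

/-- the inequality for pairs coming from test functions -/
theorem dualw_key {α β : ℝ} (h : α ^ 2 + β ^ 2 = 1) {q Λ : ℝ} (hpq : p.HolderConjugate q)
    (hp2 : p ≤ 2) (hΛ0 : 0 < Λ)
    (hΛ : ∀ (N : ℕ) (c : ℕ → ℕ → ℝ), 2 ≤ N → Constr α β c →
      Λ * Nn q (gU N (lapInv c)) ≤ Nn q (U N c))
    {v : PairSpace p} {ψ : E2 → ℝ} (hψ : IsTest ψ) (h1 : v.1 =ᵐ[μS] ψ)
    (h2 : v.2 =ᵐ[μS] gradient ψ) :
    ‖v.1‖ ^ p - 4 * (∫ x, |v.1 x| ^ (p - 2) * v.1 x * e₁ x ∂μS) * (∫ x, v.1 x * e₁ x ∂μS) -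
      4 * (∫ x, |v.1 x| ^ (p - 2) * v.1 x * mode (-β) α x ∂μS) *
        (∫ x, v.1 x * mode (-β) α x ∂μS) ≤
    ‖v.2‖ * (Λ⁻¹ ^ (1 / q) * ((‖v.1‖ ^ p) ^ (1 / q) +
      (4 * |∫ x, |v.1 x| ^ (p - 2) * v.1 x * e₁ x ∂μS| +
      8 * |∫ x, |v.1 x| ^ (p - 2) * v.1 x * mode (-β) α x ∂μS|))) := by
  have hp0 : 0 < p := p_pos
  have hp1 : 0 < p - 1 := by linarith [hp.out]
  have hq1 : 1 < q := hpq.symm.lt
  have hq0 : 0 < q := by linarith
  set g : E2 → ℝ := fun x => |ψ x| ^ (p - 2) * ψ x with hg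
  have hψc : Continuous ψ := hψ.1.continuous
  have hgc : Continuous g := (dualw_continuous hp2).comp hψc
  have hg0 : ∀ x, ψ x = 0 → g x = 0 := fun x hx => by simp [hg, hx]
  have hsupp : Function.support g ⊆ Function.support ψ := fun x hx hx0 => hx (hg0 x hx0)
  have hgcs : HasCompactSupport g := hψ.2.1.mono hsupp
  have hgts : tsupport g ⊆ square := (closure_mono hsupp).trans hψ.2.2
  have hd := dual_test h hpq hΛ0 hΛ hψ hgc hgcs hgts
  have hmc : Continuous (mode (-β) α) := continuous_mode _ _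
  have hec : Continuous e₁ := by
    unfold e₁ sn
    fun_prop
  -- rewrite the functionals
  have a1 : ∫ x, |v.1 x| ^ (p - 2) * v.1 x * e₁ x ∂μS = ∫ x, g x * e₁ x ∂μS := by
    apply integral_congr_ae
    filter_upwards [h1] with x hx
    rw [hx]
  have a2 : ∫ x, |v.1 x| ^ (p - 2) * v.1 x * mode (-β) α x ∂μS =
      ∫ x, g x * mode (-β) α x ∂μS := by
    apply integral_congr_ae
    filter_upwards [h1] with x hx
    rw [hx]
  have a3 : ∫ x, v.1 x * e₁ x ∂μS = ∫ x, ψ x * e₁ x ∂μS := by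
    apply integral_congr_ae
    filter_upwards [h1] with x hx
    rw [hx]
  have a4 : ∫ x, v.1 x * mode (-β) α x ∂μS = ∫ x, ψ x * mode (-β) α x ∂μS := by
    apply integral_congr_ae
    filter_upwards [h1] with x hx
    rw [hx]
  rw [a1, a2, a3, a4]
  set A := ∫ x, g x * e₁ x ∂μS with hA
  set B := ∫ x, g x * mode (-β) α x ∂μS with hB
  -- left side
  have hpw : ∀ x, ψ x * g x = ‖ψ x‖ ^ p := by
    intro x
    simp only [hg]
    rcases eq_or_ne (ψ x) 0 with h0 | h0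
    · rw [h0, zero_mul, norm_zero, Real.zero_rpow hp0.ne']
    · have hpos : 0 < |ψ x| := abs_pos.2 h0
      rw [Real.norm_eq_abs]
      calc ψ x * (|ψ x| ^ (p - 2) * ψ x) = |ψ x| ^ (p - 2) * (ψ x * ψ x) := by ring
        _ = |ψ x| ^ (p - 2) * |ψ x| ^ (2 : ℝ) := by
            rw [Real.rpow_two, sq_abs]
            ring
        _ = |ψ x| ^ p := by
            rw [← Real.rpow_add hpos]
            congr 1
            ring
  have hvp : ‖v.1‖ ^ p = Nn p ψ := norm_rpow_eq_Nn v.1 h1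
  have hleft : ∫ x, ψ x * prF α β g x ∂μS = Nn p ψ - 4 * A * (∫ x, ψ x * e₁ x ∂μS) -
      4 * B * (∫ x, ψ x * mode (-β) α x ∂μS) := by
    have e : ∀ x, ψ x * prF α β g x = ψ x * g x - 4 * A * (ψ x * e₁ x) -
        4 * B * (ψ x * mode (-β) α x) := by
      intro x
      unfold prF
      rw [← hA, ← hB]
      ring
    simp_rw [e]
    have i1 : Integrable (fun x => ψ x * g x) μS := integrable_muS (hψc.mul hgc)
    have i2 : Integrable (fun x => 4 * A * (ψ x * e₁ x)) μS :=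
      (integrable_muS (hψc.mul hec)).const_mul _
    have i3 : Integrable (fun x => 4 * B * (ψ x * mode (-β) α x)) μS :=
      (integrable_muS (hψc.mul hmc)).const_mul _
    have i12 : Integrable (fun x => ψ x * g x - 4 * A * (ψ x * e₁ x)) μS := i1.sub i2
    rw [integral_sub i12 i3, integral_sub i1 i2, integral_const_mul, integral_const_mul]
    simp_rw [hpw]
    rfl
  rw [hleft, ← hvp] at hd
  refine hd.trans ?_
  -- right side
  have n2 : ‖v.2‖ = (Nn p (gradient ψ)) ^ (1 / p) := norm_of_ae_eq v.2 _ h2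
  rw [n2]
  apply mul_le_mul_of_nonneg_left _ (Real.rpow_nonneg
    (integral_nonneg fun x => Real.rpow_nonneg (norm_nonneg _) _) _)
  have hNn : 0 ≤ Nn q (prF α β g) := integral_nonneg fun x => Real.rpow_nonneg (norm_nonneg _) _
  rw [div_eq_inv_mul, Real.mul_rpow (by positivity) hNn]
  apply mul_le_mul_of_nonneg_left _ (Real.rpow_nonneg (by positivity) _)
  -- Minkowski
  have hgb : BM μS g := by
    obtain ⟨K, hK⟩ := hgcs.exists_bound_of_continuous hgc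
    exact ⟨hgc.aestronglyMeasurable, K, hK⟩
  have hhb : ∀ x, ‖-(4 * A * e₁ x) - 4 * B * mode (-β) α x‖ ≤ 4 * |A| + 8 * |B| := by
    intro x
    rw [Real.norm_eq_abs]
    calc |-(4 * A * e₁ x) - 4 * B * mode (-β) α x|
        ≤ |-(4 * A * e₁ x)| + |4 * B * mode (-β) α x| := abs_sub _ _
      _ = 4 * |A| * |e₁ x| + 4 * |B| * |mode (-β) α x| := by
          rw [abs_neg, abs_mul, abs_mul, abs_mul, abs_mul]
          norm_num
      _ ≤ 4 * |A| * 1 + 4 * |B| * 2 := by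
          gcongr
          · exact dualw_e₁_le x
          · exact dualw_mode_le h x
      _ = 4 * |A| + 8 * |B| := by ring
  have hh : BM μS (fun x => -(4 * A * e₁ x) - 4 * B * mode (-β) α x) := by
    refine ⟨Continuous.aestronglyMeasurable (by fun_prop), _, hhb⟩
  have hmk := dualw_minkowski hq1 hgb hh (by positivity) hhb
  have e3 : (fun x => g x + (-(4 * A * e₁ x) - 4 * B * mode (-β) α x)) = prF α β g := by
    funext x
    unfold prF
    rw [← hA, ← hB]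
    ring
  rw [e3] at hmk
  refine hmk.trans (add_le_add_left (le_of_eq ?_) _ |>.trans_eq rfl)
  -- Nn q g = Nn p ψ
  congr 1
  rw [hvp]
  unfold Nn
  apply integral_congr_ae
  filter_upwards with x
  simp only [hg]
  rcases eq_or_ne (ψ x) 0 with h0 | h0
  · rw [h0, mul_zero, norm_zero, Real.zero_rpow hp0.ne', Real.zero_rpow hq0.ne']
  · have hpos : 0 < |ψ x| := abs_pos.2 h0
    rw [Real.norm_eq_abs, abs_mul, abs_of_nonneg (Real.rpow_nonneg (abs_nonneg _) _),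
      Real.norm_eq_abs]
    have e4 : |ψ x| ^ (p - 2) * |ψ x| = |ψ x| ^ (p - 1) := by
      rw [← Real.rpow_add_one hpos.ne']
      congr 1
      ring
    rw [e4, ← Real.rpow_mul hpos.le]
    congr 1
    have := hpq.sub_one_mul_conj
    linarith

/-- For a test function `ψ` put `g = |ψ|^(p-2)ψ`, `A = ∫ g e₁`, `B = ∫ g mode(-β)α`. From
`dual_test`: `∫|ψ|^p - 4A∫ψe₁ - 4B∫ψ mode(-β)α ≤ ‖∇ψ‖_p Λ^(-1/q) (‖g‖_q + 8|A| + 8|B|)` and
`‖g‖_q^q = ∫|ψ|^p`. Let `(ψ,∇ψ) → w` in `PairSpace p`; `A, B → 0` by `continuous_nonlin`; so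
`‖w.1‖^p ≤ ‖w.2‖ Λ^(-1/q) ‖w.1‖^(p-1)`. Raise to the power `p` (`p/q = p-1`). -/
theorem dual_W0 {α β : ℝ} (h : α ^ 2 + β ^ 2 = 1) {q Λ : ℝ} (hpq : p.HolderConjugate q)
    (hp2 : p ≤ 2) (hΛ0 : 0 < Λ)
    (hΛ : ∀ (N : ℕ) (c : ℕ → ℕ → ℝ), 2 ≤ N → Constr α β c →
      Λ * Nn q (gU N (lapInv c)) ≤ Nn q (U N c))
    {w : PairSpace p} (hw : w ∈ W0 p)
    (h1 : ∫ x, |w.1 x| ^ (p - 2) * w.1 x * e₁ x ∂μS = 0)
    (h2 : ∫ x, |w.1 x| ^ (p - 2) * w.1 x * mode (-β) α x ∂μS = 0) :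
    Λ ^ (p - 1) * ‖w.1‖ ^ p ≤ ‖w.2‖ ^ p := by
  have hp0 : 0 < p := p_pos
  have hp1 : 0 < p - 1 := by linarith [hp.out]
  have hq1 : 1 < q := hpq.symm.lt
  have hq0 : 0 < q := by linarith
  have cA := continuous_nonlin (p := p) hp2 dualw_e₁_bm
  have cB := continuous_nonlin (p := p) hp2 (bm_mode (-β) α)
  have cC := continuous_lin (p := p) dualw_e₁_bm
  have cD := continuous_lin (p := p) (bm_mode (-β) α)
  have cN : Continuous (fun v : PairSpace p => ‖v.1‖ ^ p) :=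
    continuous_norm_rpow continuous_fst
  have hclosed : IsClosed {v : PairSpace p | ‖v.1‖ ^ p -
      4 * (∫ x, |v.1 x| ^ (p - 2) * v.1 x * e₁ x ∂μS) * (∫ x, v.1 x * e₁ x ∂μS) -
      4 * (∫ x, |v.1 x| ^ (p - 2) * v.1 x * mode (-β) α x ∂μS) *
        (∫ x, v.1 x * mode (-β) α x ∂μS) ≤
      ‖v.2‖ * (Λ⁻¹ ^ (1 / q) * ((‖v.1‖ ^ p) ^ (1 / q) +
        (4 * |∫ x, |v.1 x| ^ (p - 2) * v.1 x * e₁ x ∂μS| +
        8 * |∫ x, |v.1 x| ^ (p - 2) * v.1 x * mode (-β) α x ∂μS|)))} := by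
    refine isClosed_le ?_ ?_
    · exact (cN.sub ((continuous_const.mul cA).mul cC)).sub ((continuous_const.mul cB).mul cD)
    · refine continuous_snd.norm.mul (continuous_const.mul ?_)
      refine (cN.rpow_const fun _ => Or.inr (by positivity)).add ?_
      exact (continuous_const.mul cA.abs).add (continuous_const.mul cB.abs)
  have hmem := closure_minimal (fun v hv => by
    obtain ⟨ψ, hψ, hv1, hv2⟩ := hv
    exact dualw_key h hpq hp2 hΛ0 hΛ hψ hv1 hv2) hclosed hw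
  simp only [mem_ofPred_eq] at hmem
  rw [h1, h2] at hmem
  simp only [mul_zero, zero_mul, sub_zero, abs_zero, add_zero] at hmem
  -- conclude
  set s := ‖w.1‖ with hs
  have hs0 : 0 ≤ s := norm_nonneg _
  set t := ‖w.2‖ with ht
  have ht0 : 0 ≤ t := norm_nonneg _
  rcases hs0.eq_or_lt with h0 | h0
  · rw [← h0, Real.zero_rpow hp0.ne', mul_zero]
    exact Real.rpow_nonneg ht0 _
  have e1 : (s ^ p) ^ (1 / q) = s ^ (p - 1) := by
    rw [← Real.rpow_mul hs0]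
    congr 1
    have := hpq.sub_one_mul_conj
    field_simp
    linarith
  rw [e1] at hmem
  have e2 : s ^ p = s * s ^ (p - 1) := by
    rw [← Real.rpow_one_add' hs0 (by linarith)]
    congr 1
    ring
  rw [e2] at hmem
  have hsp : 0 < s ^ (p - 1) := Real.rpow_pos_of_pos h0 _
  have h3 : s ≤ t * Λ⁻¹ ^ (1 / q) := by
    have : s * s ^ (p - 1) ≤ (t * Λ⁻¹ ^ (1 / q)) * s ^ (p - 1) := by
      calc s * s ^ (p - 1) ≤ t * (Λ⁻¹ ^ (1 / q) * s ^ (p - 1)) := hmem
        _ = _ := by ring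
    exact le_of_mul_le_mul_right this hsp
  have h4 : s ^ p ≤ (t * Λ⁻¹ ^ (1 / q)) ^ p := Real.rpow_le_rpow hs0 h3 hp0.le
  rw [Real.mul_rpow ht0 (Real.rpow_nonneg (by positivity) _), ← Real.rpow_mul (by positivity)]
    at h4
  have e5 : 1 / q * p = p - 1 := by
    have := hpq.sub_one_mul_conj
    field_simp
    linarith
  rw [e5, Real.inv_rpow hΛ0.le] at h4
  have hΛp : 0 < Λ ^ (p - 1) := Real.rpow_pos_of_pos hΛ0 _
  calc Λ ^ (p - 1) * s ^ p ≤ Λ ^ (p - 1) * (t ^ p * (Λ ^ (p - 1))⁻¹) :=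
        mul_le_mul_of_nonneg_left h4 hΛp.le
    _ = t ^ p := by field_simp

end Pool.Agent.PL2
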