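import Pool.Agent.PL2.Calc
import Pool.Agent.PL2.PrimW

open MeasureTheory Set Metric Filter Topology
open scoped ENNReal ContDiff InnerProductSpace Interval

namespace Pool.Agent.PL2

open Pool.Agent.PLap94

variable {p : ℝ} [hp : Fact (1 < p)]

theorem eig2_test_comb {φ ψ : E2 → ℝ} (hφ : IsTest φ) (hψ : IsTest ψ) (s t : ℝ) :
    IsTest (fun x => s * φ x + t * ψ x) := by
  have h1 : HasCompactSupport (fun x => s * φ x) := hφ.2.1.mul_left
  have h2 : HasCompactSupport (fun x => t * ψ x) := hψ.2.1.mul_left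
  refine ⟨(contDiff_const.mul hφ.1).add (contDiff_const.mul hψ.1), h1.add h2, ?_⟩
  have h3 : tsupport (fun x => s * φ x) ⊆ tsupport φ := tsupport_mul_subset_right
  have h4 : tsupport (fun x => t * ψ x) ⊆ tsupport ψ := tsupport_mul_subset_right
  have h5 : tsupport (fun x => s * φ x + t * ψ x) ⊆
      tsupport (fun x => s * φ x) ∪ tsupport (fun x => t * ψ x) := tsupport_add _ _
  intro x hx
  rcases h5 hx with h | h
  · exact hφ.2.2 (h3 h)
  · exact hψ.2.2 (h4 h)

theorem eig2_grad_comb {φ ψ : E2 → ℝ} (hφ : IsTest φ) (hψ : IsTest ψ) (s t : ℝ) (x : E2) :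
    gradient (fun x => s * φ x + t * ψ x) x = s • gradient φ x + t • gradient ψ x := by
  have d1 : DifferentiableAt ℝ φ x := (hφ.1.differentiable (by simp)).differentiableAt
  have d2 : DifferentiableAt ℝ ψ x := (hψ.1.differentiable (by simp)).differentiableAt
  unfold gradient
  rw [fderiv_fun_add (d1.const_mul s) (d2.const_mul t), fderiv_const_mul d1, fderiv_const_mul d2,
    map_add]
  congr 1
  · exact (InnerProductSpace.toDual ℝ E2).symm.map_smulₛₗ s _
  · exact (InnerProductSpace.toDual ℝ E2).symm.map_smulₛₗ t _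

theorem eig2_comb_mem {wa wb : PairSpace p} (ha : wa ∈ W0 p) (hb : wb ∈ W0 p) (s t : ℝ) :
    s • wa + t • wb ∈ W0 p := by
  unfold W0 at ha hb ⊢
  have hc : Continuous (Function.uncurry fun (a b : PairSpace p) => s • a + t • b) := by
    unfold Function.uncurry
    fun_prop
  refine map_mem_closure₂ (f := fun (a b : PairSpace p) => s • a + t • b) hc ha hb ?_
  rintro a ⟨φ, hφ, h1, h2⟩ b ⟨ψ, hψ, h3, h4⟩
  refine ⟨fun x => s * φ x + t * ψ x, eig2_test_comb hφ hψ s t, ?_, ?_⟩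
  · rw [Prod.fst_add, Prod.smul_fst, Prod.smul_fst]
    filter_upwards [Lp.coeFn_add (s • a.1) (t • b.1), Lp.coeFn_smul s a.1, Lp.coeFn_smul t b.1,
      h1, h3] with x a1 a2 a3 a4 a5
    rw [a1, Pi.add_apply, a2, a3, Pi.smul_apply, Pi.smul_apply, a4, a5, smul_eq_mul, smul_eq_mul]
  · rw [Prod.snd_add, Prod.smul_snd, Prod.smul_snd]
    filter_upwards [Lp.coeFn_add (s • a.2) (t • b.2), Lp.coeFn_smul s a.2, Lp.coeFn_smul t b.2,
      h2, h4] with x a1 a2 a3 a4 a5
    rw [a1, Pi.add_apply, a2, a3, Pi.smul_apply, Pi.smul_apply, a4, a5, eig2_grad_comb hφ hψ]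

theorem eig2_rpow_norm {F : Type*} [NormedAddCommGroup F] (w : Lp F (ENNReal.ofReal p) μS)
    (φ : E2 → F) (h : w =ᵐ[μS] φ) : ‖w‖ ^ p = ∫ x, ‖φ x‖ ^ p ∂μS := by
  have hp0 : 0 < p := p_pos
  rw [norm_of_ae_eq w φ h, ← Real.rpow_mul, one_div, inv_mul_cancel₀ hp0.ne', Real.rpow_one]
  exact integral_nonneg fun x => Real.rpow_nonneg (norm_nonneg _) _

theorem eig2_norm_comb {F : Type*} [NormedAddCommGroup F] [NormedSpace ℝ F]
    (f g : Lp F (ENNReal.ofReal p) μS) (hd : ∀ᵐ x ∂μS, f x = 0 ∨ g x = 0) (s t : ℝ) :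
    ‖s • f + t • g‖ ^ p = |s| ^ p * ‖f‖ ^ p + |t| ^ p * ‖g‖ ^ p := by
  have hp0 : 0 < p := p_pos
  have h1 : (s • f + t • g : Lp F (ENNReal.ofReal p) μS) =ᵐ[μS] fun x => s • f x + t • g x := by
    filter_upwards [Lp.coeFn_add (s • f) (t • g), Lp.coeFn_smul s f, Lp.coeFn_smul t g]
      with x a1 a2 a3
    rw [a1, Pi.add_apply, a2, a3, Pi.smul_apply, Pi.smul_apply]
  have hint : ∀ h : Lp F (ENNReal.ofReal p) μS, Integrable (fun x => ‖h x‖ ^ p) μS := by
    intro h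
    have := (Lp.memLp h).integrable_norm_rpow (by simpa using hp0) ENNReal.ofReal_ne_top
    rwa [ENNReal.toReal_ofReal hp0.le] at this
  rw [eig2_rpow_norm _ _ h1, eig2_rpow_norm f f (ae_eq_refl _), eig2_rpow_norm g g (ae_eq_refl _),
    ← integral_const_mul, ← integral_const_mul,
    ← integral_add ((hint f).const_mul _) ((hint g).const_mul _)]
  apply integral_congr_ae
  filter_upwards [hd] with x hx
  rcases hx with hx | hx
  · rw [hx, smul_zero, zero_add, norm_smul, Real.norm_eq_abs, norm_zero, Real.zero_rpow hp0.ne',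
      mul_zero, zero_add, Real.mul_rpow (abs_nonneg _) (norm_nonneg _)]
  · rw [hx, smul_zero, add_zero, norm_smul, Real.norm_eq_abs, norm_zero, Real.zero_rpow hp0.ne',
      mul_zero, add_zero, Real.mul_rpow (abs_nonneg _) (norm_nonneg _)]

/-- unnormalised loop -/
noncomputable def eig2_loop (wa wb : PairSpace p) (θ : ℝ) : PairSpace p :=
  Real.cos θ • wa + Real.sin θ • wb

/-- the normalised loop in the sphere -/
noncomputable def eig2_nloop (wa wb : PairSpace p) (θ : ℝ) : PairSpace p :=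
  (‖(eig2_loop wa wb θ).1‖)⁻¹ • eig2_loop wa wb θ

omit hp in
theorem eig2_cs_pos (θ : ℝ) : 0 < |Real.cos θ| ^ p + |Real.sin θ| ^ p := by
  have h1 : 0 ≤ |Real.cos θ| ^ p := Real.rpow_nonneg (abs_nonneg _) _
  have h2 : 0 ≤ |Real.sin θ| ^ p := Real.rpow_nonneg (abs_nonneg _) _
  by_cases hc : Real.cos θ = 0
  · have hs : Real.sin θ ≠ 0 := by
      intro hs
      have := Real.sin_sq_add_cos_sq θ
      rw [hs, hc] at this
      norm_num at this
    have : 0 < |Real.sin θ| ^ p := Real.rpow_pos_of_pos (abs_pos.2 hs) _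
    linarith
  · have : 0 < |Real.cos θ| ^ p := Real.rpow_pos_of_pos (abs_pos.2 hc) _
    linarith

theorem eig2_loop_fst {wa wb : PairSpace p} (hd : ∀ᵐ x ∂μS, wa.1 x = 0 ∨ wb.1 x = 0) {M : ℝ}
    (hma : ‖wa.1‖ ^ p = M) (hmb : ‖wb.1‖ ^ p = M) (θ : ℝ) :
    ‖(eig2_loop wa wb θ).1‖ ^ p = (|Real.cos θ| ^ p + |Real.sin θ| ^ p) * M := by
  unfold eig2_loop
  rw [Prod.fst_add, Prod.smul_fst, Prod.smul_fst, eig2_norm_comb _ _ hd, hma, hmb]
  ring

theorem eig2_loop_pos {wa wb : PairSpace p} (hd : ∀ᵐ x ∂μS, wa.1 x = 0 ∨ wb.1 x = 0) {M : ℝ}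
    (hM : 0 < M) (hma : ‖wa.1‖ ^ p = M) (hmb : ‖wb.1‖ ^ p = M) (θ : ℝ) :
    0 < ‖(eig2_loop wa wb θ).1‖ := by
  have hp0 : 0 < p := p_pos
  rcases (norm_nonneg (eig2_loop wa wb θ).1).eq_or_lt with h | h
  · exfalso
    have h1 := eig2_loop_fst hd hma hmb θ
    rw [← h, Real.zero_rpow hp0.ne'] at h1
    have := mul_pos (eig2_cs_pos (p := p) θ) hM
    linarith
  · exact h

theorem eig2_continuous_loop (wa wb : PairSpace p) : Continuous (eig2_loop wa wb) := by
  unfold eig2_loop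
  fun_prop

theorem eig2_nloop_add_pi (wa wb : PairSpace p) (θ : ℝ) :
    eig2_nloop wa wb (θ + Real.pi) = -eig2_nloop wa wb θ := by
  have h : eig2_loop wa wb (θ + Real.pi) = -eig2_loop wa wb θ := by
    unfold eig2_loop
    rw [Real.cos_add_pi, Real.sin_add_pi, neg_smul, neg_smul]
    abel
  unfold eig2_nloop
  rw [h, Prod.fst_neg, norm_neg, smul_neg]

theorem eig2_nloop_periodic (wa wb : PairSpace p) :
    Function.Periodic (eig2_nloop wa wb) (2 * Real.pi) := by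
  intro θ
  rw [show θ + 2 * Real.pi = θ + Real.pi + Real.pi by ring, eig2_nloop_add_pi, eig2_nloop_add_pi,
    neg_neg]

theorem eig2_two_le_genus {wa wb : PairSpace p} (hc : Continuous (eig2_nloop wa wb)) :
    (2 : ℕ∞) ≤ genus (range (eig2_nloop wa wb)) := by
  unfold genus
  refine le_iInf₂ fun m hm => ?_
  by_contra hlt
  have hm1 : m = 1 := by
    have h1 := hm.1
    have h2 : (m : ℕ∞) < 2 := not_le.1 hlt
    have h3 : m < 2 := by exact_mod_cast h2
    omega
  subst hm1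
  obtain ⟨f, hf, hodd, hne⟩ := hm.2
  set g : ℝ → ℝ := fun θ => f (eig2_nloop wa wb θ) 0 with hg
  have hgc : Continuous g := by
    have h1 : Continuous fun θ : ℝ => f (eig2_nloop wa wb θ) := by
      rw [← continuousOn_univ]
      exact hf.comp hc.continuousOn (fun θ _ => mem_range_self θ)
    exact (PiLp.continuous_apply 2 _ 0).comp h1
  have hgpi : g Real.pi = -g 0 := by
    have h1 : eig2_nloop wa wb Real.pi = -eig2_nloop wa wb 0 := by
      have := eig2_nloop_add_pi wa wb 0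
      rwa [zero_add] at this
    simp only [hg]
    rw [h1, hodd _ (mem_range_self 0)]
    simp
  have hgne : ∀ θ, g θ ≠ 0 := by
    intro θ h0
    apply hne (eig2_nloop wa wb θ) (mem_range_self θ)
    ext i
    rw [Subsingleton.elim i 0]
    exact h0
  have hconn : IsPreconnected (univ : Set ℝ) := isPreconnected_univ
  rcases lt_or_gt_of_ne (hgne 0) with h | h
  · have h2 : 0 < g Real.pi := by rw [hgpi]; linarith
    obtain ⟨θ, _, hθ⟩ := hconn.intermediate_value (mem_univ 0) (mem_univ Real.pi)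
      hgc.continuousOn ⟨h.le, h2.le⟩
    exact hgne θ hθ
  · have h2 : g Real.pi < 0 := by rw [hgpi]; linarith
    obtain ⟨θ, _, hθ⟩ := hconn.intermediate_value (mem_univ Real.pi) (mem_univ 0)
      hgc.continuousOn ⟨h2.le, h.le⟩
    exact hgne θ hθ

/-- The loop `cos θ • wa + sin θ • wb`, normalised, is admissible for `λ₂`. Compare
`PLap94/Two.lean`: `‖(cos θ wa + sin θ wb).1‖^p = (|cos θ|^p + |sin θ|^p) M` and the energy is
`≤ (|cos θ|^p + |sin θ|^p) E` because the two pairs have disjoint supports. -/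
theorem eig2_of_pair {wa wb : PairSpace p} (ha : wa ∈ W0 p) (hb : wb ∈ W0 p)
    (hd : ∀ᵐ x ∂μS, (wa.1 x = 0 ∧ wa.2 x = 0) ∨ (wb.1 x = 0 ∧ wb.2 x = 0)) {M E : ℝ}
    (hM : 0 < M) (hma : ‖wa.1‖ ^ p = M) (hmb : ‖wb.1‖ ^ p = M) (hea : ‖wa.2‖ ^ p ≤ E)
    (heb : ‖wb.2‖ ^ p ≤ E) : eigenvalue 2 p ≤ ENNReal.ofReal (E / M) := by
  have hp0 : 0 < p := p_pos
  have hd1 : ∀ᵐ x ∂μS, wa.1 x = 0 ∨ wb.1 x = 0 := by
    filter_upwards [hd] with x hx
    exact hx.imp (fun h => h.1) (fun h => h.1)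
  have hd2 : ∀ᵐ x ∂μS, wa.2 x = 0 ∨ wb.2 x = 0 := by
    filter_upwards [hd] with x hx
    exact hx.imp (fun h => h.2) (fun h => h.2)
  have hpos := fun θ => eig2_loop_pos hd1 hM hma hmb θ
  have hcont : Continuous (eig2_nloop wa wb) := by
    unfold eig2_nloop
    exact ((continuous_fst.comp (eig2_continuous_loop wa wb)).norm.inv₀
      fun θ => (hpos θ).ne').smul (eig2_continuous_loop wa wb)
  have hnorm : ∀ θ, ‖(eig2_nloop wa wb θ).1‖ = 1 := by
    intro θ
    unfold eig2_nloop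
    rw [Prod.smul_fst, norm_smul, norm_inv, norm_norm, inv_mul_cancel₀ (hpos θ).ne']
  have hmem : ∀ θ, eig2_nloop wa wb θ ∈ sphereS p := by
    intro θ
    refine ⟨?_, ?_⟩
    · have h1 : eig2_nloop wa wb θ = ((‖(eig2_loop wa wb θ).1‖)⁻¹ * Real.cos θ) • wa +
          ((‖(eig2_loop wa wb θ).1‖)⁻¹ * Real.sin θ) • wb := by
        unfold eig2_nloop
        rw [mul_smul, mul_smul, ← smul_add]
        rfl
      rw [h1]
      exact eig2_comb_mem ha hb _ _
    · rw [lint_eq, hnorm θ, Real.one_rpow, ENNReal.ofReal_one]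
  have hadm : Admissible p 2 (range (eig2_nloop wa wb)) := by
    refine ⟨?_, ?_, ?_, ?_, ?_⟩
    · rintro _ ⟨θ, rfl⟩
      exact hmem θ
    · rw [← (eig2_nloop_periodic wa wb).image_Icc (by positivity) 0]
      exact isCompact_Icc.image hcont
    · exact range_nonempty _
    · have key : ∀ w : PairSpace p, w ∈ range (eig2_nloop wa wb) →
          -w ∈ range (eig2_nloop wa wb) := by
        rintro _ ⟨θ, rfl⟩
        exact ⟨θ + Real.pi, eig2_nloop_add_pi wa wb θ⟩
      intro w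
      refine ⟨key w, fun h => ?_⟩
      have := key _ h
      rwa [neg_neg] at this
    · exact eig2_two_le_genus hcont
  unfold eigenvalue
  refine iInf₂_le_of_le _ hadm ?_
  refine iSup₂_le fun w hw => ?_
  obtain ⟨θ, rfl⟩ := hw
  unfold energy
  rw [lint_eq]
  apply ENNReal.ofReal_le_ofReal
  have hcs := eig2_cs_pos (p := p) θ
  have h2 : ‖(eig2_nloop wa wb θ).2‖ ^ p =
      ‖(eig2_loop wa wb θ).2‖ ^ p / ‖(eig2_loop wa wb θ).1‖ ^ p := by
    unfold eig2_nloop
    rw [Prod.smul_snd, norm_smul, norm_inv, norm_norm, Real.mul_rpow (by positivity)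
      (norm_nonneg _), Real.inv_rpow (norm_nonneg _)]
    ring
  have h3 : ‖(eig2_loop wa wb θ).2‖ ^ p ≤ (|Real.cos θ| ^ p + |Real.sin θ| ^ p) * E := by
    have h4 : ‖(eig2_loop wa wb θ).2‖ ^ p = |Real.cos θ| ^ p * ‖wa.2‖ ^ p +
        |Real.sin θ| ^ p * ‖wb.2‖ ^ p := by
      unfold eig2_loop
      rw [Prod.snd_add, Prod.smul_snd, Prod.smul_snd, eig2_norm_comb _ _ hd2]
    rw [h4]
    have h5 : 0 ≤ |Real.cos θ| ^ p := Real.rpow_nonneg (abs_nonneg _) _
    have h6 : 0 ≤ |Real.sin θ| ^ p := Real.rpow_nonneg (abs_nonneg _) _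
    have h7 := mul_le_mul_of_nonneg_left hea h5
    have h8 := mul_le_mul_of_nonneg_left heb h6
    linarith
  rw [h2, eig2_loop_fst hd1 hma hmb θ]
  calc ‖(eig2_loop wa wb θ).2‖ ^ p / ((|Real.cos θ| ^ p + |Real.sin θ| ^ p) * M)
      ≤ ((|Real.cos θ| ^ p + |Real.sin θ| ^ p) * E) / ((|Real.cos θ| ^ p + |Real.sin θ| ^ p) * M) :=
        div_le_div_of_nonneg_right h3 (by positivity)
    _ = E / M := mul_div_mul_left _ _ hcs.ne'

end Pool.Agent.PL2
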