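import Pool.Agent.PL2.Calc
import Pool.Agent.PL2.PrimW

open MeasureTheory Set Metric Filter Topology
open scoped ENNReal ContDiff InnerProductSpace Interval

namespace Pool.Agent.PL2

open Pool.Agent.PLap94

variable {p : ℝ} [hp : Fact (1 < p)]

/-- smooth approximations of the positive part -/
noncomputable def trunc_rho (k : ℕ) (t : ℝ) : ℝ :=
  t * Real.smoothTransition (((k : ℝ) + 1) * t - 1)

/-- their derivative -/
noncomputable def trunc_drho (k : ℕ) (t : ℝ) : ℝ :=
  Real.smoothTransition (((k : ℝ) + 1) * t - 1) +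
    t * (deriv Real.smoothTransition (((k : ℝ) + 1) * t - 1) * ((k : ℝ) + 1))

theorem trunc_st_deriv (s : ℝ) :
    HasDerivAt Real.smoothTransition (deriv Real.smoothTransition s) s :=
  ((Real.smoothTransition.contDiff (n := 1)).differentiable (by simp) s).hasDerivAt

theorem trunc_st_deriv_of_neg {s : ℝ} (hs : s < 0) : deriv Real.smoothTransition s = 0 := by
  have h : Real.smoothTransition =ᶠ[𝓝 s] fun _ => (0 : ℝ) := by
    filter_upwards [Iio_mem_nhds hs] with t ht
    exact Real.smoothTransition.zero_of_nonpos (le_of_lt ht)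
  rw [h.deriv_eq]
  simp

theorem trunc_st_deriv_of_one_lt {s : ℝ} (hs : 1 < s) : deriv Real.smoothTransition s = 0 := by
  have h : Real.smoothTransition =ᶠ[𝓝 s] fun _ => (1 : ℝ) := by
    filter_upwards [Ioi_mem_nhds hs] with t ht
    exact Real.smoothTransition.one_of_one_le (le_of_lt ht)
  rw [h.deriv_eq]
  simp

theorem trunc_st_bound : ∃ C, 0 ≤ C ∧ ∀ s, |deriv Real.smoothTransition s| ≤ C := by
  have hc : Continuous (deriv Real.smoothTransition) :=
    (Real.smoothTransition.contDiff (n := 1)).continuous_deriv (by simp)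
  obtain ⟨C, hC⟩ := (isCompact_Icc (a := (0 : ℝ)) (b := 1)).exists_bound_of_continuousOn
    hc.continuousOn
  have hC0 : 0 ≤ C := (norm_nonneg _).trans (hC 0 (by simp))
  refine ⟨C, hC0, fun s => ?_⟩
  rcases lt_or_ge s 0 with h | h
  · rw [trunc_st_deriv_of_neg h]
    simpa using hC0
  rcases lt_or_ge 1 s with h1 | h1
  · rw [trunc_st_deriv_of_one_lt h1]
    simpa using hC0
  exact hC s ⟨h, h1⟩

theorem trunc_rho_hasDeriv (k : ℕ) (t : ℝ) : HasDerivAt (trunc_rho k) (trunc_drho k t) t := by
  have h1 : HasDerivAt (fun t : ℝ => ((k : ℝ) + 1) * t - 1) ((k : ℝ) + 1) t := by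
    simpa using ((hasDerivAt_id t).const_mul ((k : ℝ) + 1)).sub_const 1
  have h2 := (trunc_st_deriv (((k : ℝ) + 1) * t - 1)).comp t h1
  have h3 : HasDerivAt (fun t : ℝ => t * Real.smoothTransition (((k : ℝ) + 1) * t - 1))
      (1 * Real.smoothTransition (((k : ℝ) + 1) * t - 1) +
        t * (deriv Real.smoothTransition (((k : ℝ) + 1) * t - 1) * ((k : ℝ) + 1))) t :=
    (hasDerivAt_id t).mul h2
  rw [one_mul] at h3
  exact h3

theorem trunc_rho_contDiff (k : ℕ) : ContDiff ℝ ∞ (trunc_rho k) := by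
  unfold trunc_rho
  exact contDiff_id.mul (Real.smoothTransition.contDiff.comp
    ((contDiff_const.mul contDiff_id).sub contDiff_const))

theorem trunc_rho_zero {k : ℕ} {t : ℝ} (h : ((k : ℝ) + 1) * t ≤ 1) : trunc_rho k t = 0 := by
  unfold trunc_rho
  rw [Real.smoothTransition.zero_of_nonpos (by linarith), mul_zero]

theorem trunc_rho_abs (k : ℕ) (t : ℝ) : |trunc_rho k t| ≤ |t| := by
  unfold trunc_rho
  rw [abs_mul, abs_of_nonneg (Real.smoothTransition.nonneg _)]
  exact mul_le_of_le_one_right (abs_nonneg _) (Real.smoothTransition.le_one _)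

theorem trunc_drho_bound : ∃ C, 0 ≤ C ∧ ∀ (k : ℕ) (t : ℝ), |trunc_drho k t| ≤ C := by
  obtain ⟨C, hC0, hC⟩ := trunc_st_bound
  refine ⟨1 + 2 * C, by positivity, fun k t => ?_⟩
  unfold trunc_drho
  have h1 : |Real.smoothTransition (((k : ℝ) + 1) * t - 1)| ≤ 1 := by
    rw [abs_of_nonneg (Real.smoothTransition.nonneg _)]
    exact Real.smoothTransition.le_one _
  have h2 : |t * (deriv Real.smoothTransition (((k : ℝ) + 1) * t - 1) * ((k : ℝ) + 1))| ≤
      2 * C := by
    rcases lt_or_ge (((k : ℝ) + 1) * t - 1) 0 with h | h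
    · rw [trunc_st_deriv_of_neg h]
      simpa using hC0
    rcases lt_or_ge 1 (((k : ℝ) + 1) * t - 1) with h1 | h1
    · rw [trunc_st_deriv_of_one_lt h1]
      simpa using hC0
    have h3 : t * (deriv Real.smoothTransition (((k : ℝ) + 1) * t - 1) * ((k : ℝ) + 1)) =
        (((k : ℝ) + 1) * t) * deriv Real.smoothTransition (((k : ℝ) + 1) * t - 1) := by ring
    rw [h3, abs_mul]
    have h4 : |((k : ℝ) + 1) * t| ≤ 2 := by
      rw [abs_of_nonneg (by linarith)]
      linarith
    exact mul_le_mul h4 (hC _) (abs_nonneg _) (by norm_num)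
  exact (abs_add_le _ _).trans (add_le_add h1 h2)

theorem trunc_rho_tendsto (t : ℝ) : Tendsto (fun k : ℕ => trunc_rho k t) atTop (𝓝 (max t 0)) := by
  rcases le_or_gt t 0 with h | h
  · rw [max_eq_right h]
    have h1 : ∀ k : ℕ, trunc_rho k t = 0 := fun k => trunc_rho_zero (by
      have : ((k : ℝ) + 1) * t ≤ 0 := mul_nonpos_of_nonneg_of_nonpos (by positivity) h
      linarith)
    simp only [h1]
    exact tendsto_const_nhds
  · rw [max_eq_left h.le]
    apply tendsto_const_nhds.congr'
    obtain ⟨n, hn⟩ := exists_nat_gt (2 / t)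
    filter_upwards [eventually_ge_atTop n] with k hk
    have h1 : 2 / t < (k : ℝ) + 1 := by
      have : (n : ℝ) ≤ k := by exact_mod_cast hk
      linarith
    rw [div_lt_iff₀ h] at h1
    unfold trunc_rho
    rw [Real.smoothTransition.one_of_one_le (by linarith), mul_one]

theorem trunc_drho_tendsto (t : ℝ) :
    Tendsto (fun k : ℕ => trunc_drho k t) atTop (𝓝 (if 0 < t then 1 else 0)) := by
  split_ifs with h
  · apply tendsto_const_nhds.congr'
    obtain ⟨n, hn⟩ := exists_nat_gt (2 / t)
    filter_upwards [eventually_ge_atTop n] with k hk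
    have h1 : 2 / t < (k : ℝ) + 1 := by
      have : (n : ℝ) ≤ k := by exact_mod_cast hk
      linarith
    rw [div_lt_iff₀ h] at h1
    unfold trunc_drho
    rw [Real.smoothTransition.one_of_one_le (by linarith),
      trunc_st_deriv_of_one_lt (by linarith)]
    ring
  · have h1 : ∀ k : ℕ, trunc_drho k t = 0 := fun k => by
      have : ((k : ℝ) + 1) * t ≤ 0 :=
        mul_nonpos_of_nonneg_of_nonpos (by positivity) (not_lt.1 h)
      unfold trunc_drho
      rw [Real.smoothTransition.zero_of_nonpos (by linarith),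
        trunc_st_deriv_of_neg (by linarith)]
      ring
    simp only [h1]
    exact tendsto_const_nhds

theorem trunc_isOpen_square : IsOpen square := by
  have : square = ⋂ i : Fin 2, {x : E2 | 0 < x i ∧ x i < 1} := by
    ext x
    simp [square]
  rw [this]
  apply isOpen_iInter_of_finite
  intro i
  apply IsOpen.and
  · exact isOpen_lt continuous_const (by fun_prop)
  · exact isOpen_lt (by fun_prop) continuous_const

theorem trunc_bounded_square : Bornology.IsBounded square := by
  refine (Metric.isBounded_closedBall (x := (0 : E2)) (r := 2)).subset ?_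
  intro x hx
  rw [mem_closedBall, dist_zero_right, EuclideanSpace.norm_eq]
  rw [Real.sqrt_le_iff]
  refine ⟨by norm_num, ?_⟩
  rw [Fin.sum_univ_two]
  have h0 := hx 0
  have h1 := hx 1
  simp only [Real.norm_eq_abs, sq_abs]
  nlinarith [h0.1, h0.2, h1.1, h1.2]

/-- the truncated function, extended by zero -/
noncomputable def trunc_phi (f : E2 → ℝ) (k : ℕ) : E2 → ℝ :=
  square.indicator (fun x => trunc_rho k (f x))

/-- a compact set containing its support -/
def trunc_C (f : E2 → ℝ) (k : ℕ) : Set E2 := closure square ∩ {x | 1 ≤ ((k : ℝ) + 1) * f x}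

theorem trunc_C_closed {f : E2 → ℝ} (hf : Continuous f) (k : ℕ) : IsClosed (trunc_C f k) :=
  isClosed_closure.inter (isClosed_le continuous_const (continuous_const.mul hf))

theorem trunc_C_compact {f : E2 → ℝ} (hf : Continuous f) (k : ℕ) : IsCompact (trunc_C f k) :=
  Metric.isCompact_of_isClosed_isBounded (trunc_C_closed hf k)
    (trunc_bounded_square.closure.subset inter_subset_left)

theorem trunc_C_sub {f : E2 → ℝ} (h0 : ∀ x ∈ frontier square, f x = 0) (k : ℕ) :
    trunc_C f k ⊆ square := by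
  rintro x ⟨hx1, hx2⟩
  by_contra hx
  have h1 : x ∈ frontier square := by
    rw [frontier, trunc_isOpen_square.interior_eq]
    exact ⟨hx1, hx⟩
  have h2 : (1 : ℝ) ≤ ((k : ℝ) + 1) * f x := hx2
  rw [h0 x h1, mul_zero] at h2
  linarith

theorem trunc_phi_zero {f : E2 → ℝ} {k : ℕ} {x : E2} (hx : x ∉ trunc_C f k) :
    trunc_phi f k x = 0 := by
  unfold trunc_phi
  by_cases h : x ∈ square
  · rw [indicator_of_mem h]
    apply trunc_rho_zero
    by_contra h1
    exact hx ⟨subset_closure h, by
      push Not at h1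
      exact h1.le⟩
  · rw [indicator_of_notMem h]

theorem trunc_phi_test {f : E2 → ℝ} (hf : ContDiff ℝ ∞ f) (h0 : ∀ x ∈ frontier square, f x = 0)
    (k : ℕ) : IsTest (trunc_phi f k) := by
  have hsupp : Function.support (trunc_phi f k) ⊆ trunc_C f k := by
    intro x hx
    by_contra h
    exact hx (trunc_phi_zero h)
  have hts : tsupport (trunc_phi f k) ⊆ trunc_C f k :=
    closure_minimal hsupp (trunc_C_closed hf.continuous k)
  refine ⟨?_, ?_, hts.trans (trunc_C_sub h0 k)⟩
  · rw [contDiff_iff_contDiffAt]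
    intro x
    by_cases h : x ∈ square
    · have h1 : trunc_phi f k =ᶠ[𝓝 x] fun y => trunc_rho k (f y) := by
        filter_upwards [trunc_isOpen_square.mem_nhds h] with y hy
        unfold trunc_phi
        rw [indicator_of_mem hy]
      refine ContDiffAt.congr_of_eventuallyEq ?_ h1
      exact ((trunc_rho_contDiff k).comp hf).contDiffAt
    · have h1 : trunc_phi f k =ᶠ[𝓝 x] fun _ => (0 : ℝ) := by
        have h2 : x ∉ trunc_C f k := fun h3 => h (trunc_C_sub h0 k h3)
        filter_upwards [(trunc_C_closed hf.continuous k).isOpen_compl.mem_nhds h2] with y hy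
        exact trunc_phi_zero hy
      exact contDiffAt_const.congr_of_eventuallyEq h1
  · exact HasCompactSupport.of_support_subset_isCompact (trunc_C_compact hf.continuous k) hsupp

theorem trunc_phi_grad {f : E2 → ℝ} (hf : ContDiff ℝ ∞ f) (k : ℕ) {x : E2} (hx : x ∈ square) :
    gradient (trunc_phi f k) x = trunc_drho k (f x) • gradient f x := by
  have h1 : trunc_phi f k =ᶠ[𝓝 x] fun y => trunc_rho k (f y) := by
    filter_upwards [trunc_isOpen_square.mem_nhds hx] with y hy
    unfold trunc_phi
    rw [indicator_of_mem hy]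
  have h2 : HasFDerivAt f (fderiv ℝ f x) x := (hf.differentiable (by simp) x).hasFDerivAt
  have h3 := (trunc_rho_hasDeriv k (f x)).comp_hasFDerivAt x h2
  have h4 : fderiv ℝ (trunc_phi f k) x = trunc_drho k (f x) • fderiv ℝ f x := by
    rw [h1.fderiv_eq]
    exact h3.fderiv
  unfold gradient
  rw [h4, map_smul]

theorem trunc_memLp {F : Type*} [NormedAddCommGroup F] {g : E2 → F}
    (hg : AEStronglyMeasurable g μS) {K : ℝ} (hK : ∀ x, ‖g x‖ ≤ K) :
    MemLp g (ENNReal.ofReal p) μS :=
  MemLp.of_bound hg K (Filter.Eventually.of_forall hK)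

theorem trunc_toLp_tendsto {F : Type*} [NormedAddCommGroup F] {G : ℕ → E2 → F} {g : E2 → F}
    (w : ℕ → Lp F (ENNReal.ofReal p) μS) (v : Lp F (ENNReal.ofReal p) μS)
    (hw : ∀ k, w k =ᵐ[μS] G k) (hv : v =ᵐ[μS] g) {K : ℝ}
    (hK : ∀ k, ∀ᵐ x ∂μS, ‖G k x - g x‖ ≤ K)
    (ht : ∀ᵐ x ∂μS, Tendsto (fun k => G k x) atTop (𝓝 (g x))) :
    Tendsto w atTop (𝓝 v) := by
  have hp0 : 0 < p := p_pos
  rw [tendsto_iff_norm_sub_tendsto_zero]
  have h1 : ∀ k, ‖w k - v‖ = (∫ x, ‖(w k - v) x‖ ^ p ∂μS) ^ (1 / p) := by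
    intro k
    obtain ⟨u, hu⟩ : ∃ u, u = w k - v := ⟨_, rfl⟩
    rw [← hu]
    exact norm_of_ae_eq u u (Filter.EventuallyEq.refl _ _)
  simp only [h1]
  have h2 : Tendsto (fun k => ∫ x, ‖(w k - v) x‖ ^ p ∂μS) atTop (𝓝 (∫ _x, (0 : ℝ) ∂μS)) := by
    apply tendsto_integral_of_dominated_convergence (fun _ => K ^ p)
    · intro k
      exact ((Lp.aestronglyMeasurable (w k - v)).norm.aemeasurable.pow_const
        p).aestronglyMeasurable
    · exact integrable_const _
    · intro k
      filter_upwards [Lp.coeFn_sub (w k) v, hw k, hv, hK k] with x h3 h4 h5 h6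
      rw [h3, Pi.sub_apply, h4, h5, Real.norm_of_nonneg (by positivity)]
      exact Real.rpow_le_rpow (norm_nonneg _) h6 hp0.le
    · have h7 : ∀ᵐ x ∂μS, ∀ k, (w k - v) x = G k x - g x := by
        rw [ae_all_iff]
        intro k
        filter_upwards [Lp.coeFn_sub (w k) v, hw k, hv] with x h3 h4 h5
        rw [h3, Pi.sub_apply, h4, h5]
      filter_upwards [h7, ht] with x h3 h4
      simp only [h3]
      have h5 : Tendsto (fun k => ‖G k x - g x‖) atTop (𝓝 0) :=
        tendsto_iff_norm_sub_tendsto_zero.1 h4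
      have h6 := h5.rpow_const (p := p) (Or.inr hp0.le)
      rwa [Real.zero_rpow hp0.ne'] at h6
  rw [integral_zero] at h2
  have h3 := h2.rpow_const (p := 1 / p) (Or.inr (by positivity))
  rwa [Real.zero_rpow (by positivity)] at h3

/-- The positive part of a smooth function vanishing on the boundary of the square is in `W0 p`.
Let `ρ_k(t) = t * Real.smoothTransition (k t - 1)`: smooth, zero for `t ≤ 1/k`, `|ρ_k'| ≤ C`
uniformly (`k t ≤ 2` on the support of the derivative of the transition), `ρ_k(t) → max t 0`,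
`ρ_k'(t) → 1_{t>0}`. `φ_k = ρ_k ∘ f` on the square, `0` outside, is a test function (its support
lies in `{x ∈ closure square | f x ≥ 1/k}`, a compact subset of the square). The pairs
`(φ_k, ∇φ_k)` converge to `(f⁺, 1_{f>0}∇f)` in `PairSpace p` by dominated convergence. -/
theorem trunc_mem {f : E2 → ℝ} (hf : ContDiff ℝ ∞ f) (h0 : ∀ x ∈ frontier square, f x = 0)
    (hb : ∃ K, ∀ x, |f x| ≤ K ∧ ‖gradient f x‖ ≤ K) :
    ∃ w ∈ W0 p, w.1 =ᵐ[μS] (fun x => max (f x) 0) ∧
      w.2 =ᵐ[μS] (fun x => if 0 < f x then gradient f x else 0) := by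
  obtain ⟨K, hK⟩ := hb
  have hK0 : 0 ≤ K := (abs_nonneg _).trans (hK 0).1
  obtain ⟨C, hC0, hC⟩ := trunc_drho_bound
  have hgc : Continuous (gradient f) := by
    unfold gradient
    exact (LinearIsometryEquiv.continuous _).comp (hf.continuous_fderiv (by simp))
  have hm1 : AEStronglyMeasurable (fun x => max (f x) 0) μS :=
    (hf.continuous.max continuous_const).aestronglyMeasurable
  have hb1 : ∀ x, ‖max (f x) 0‖ ≤ K := by
    intro x
    rw [Real.norm_of_nonneg (le_max_right _ _)]
    exact max_le ((le_abs_self _).trans (hK x).1) hK0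
  have hm2 : AEStronglyMeasurable (fun x => if 0 < f x then gradient f x else 0) μS := by
    have h1 : (fun x => if 0 < f x then gradient f x else 0) =
        {x | 0 < f x}.indicator (gradient f) := by
      ext1 x
      by_cases h : 0 < f x
      · rw [indicator_of_mem (show x ∈ {x | 0 < f x} from h), if_pos h]
      · rw [indicator_of_notMem (show x ∉ {x | 0 < f x} from h), if_neg h]
    rw [h1]
    exact hgc.aestronglyMeasurable.indicator
      (isOpen_lt continuous_const hf.continuous).measurableSet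
  have hb2 : ∀ x, ‖(if 0 < f x then gradient f x else 0)‖ ≤ K := by
    intro x
    split_ifs
    · exact (hK x).2
    · simpa using hK0
  obtain ⟨w, hw⟩ : ∃ w : PairSpace p, w = ((trunc_memLp hm1 hb1).toLp _,
    (trunc_memLp hm2 hb2).toLp _) := ⟨_, rfl⟩
  have hw1 : w.1 =ᵐ[μS] (fun x => max (f x) 0) := by
    rw [hw]
    exact MemLp.coeFn_toLp (trunc_memLp hm1 hb1)
  have hw2 : w.2 =ᵐ[μS] (fun x => if 0 < f x then gradient f x else 0) := by
    rw [hw]
    exact MemLp.coeFn_toLp (trunc_memLp hm2 hb2)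
  refine ⟨w, ?_, hw1, hw2⟩
  have hT := trunc_phi_test hf h0
  have hbφ : ∀ k x, ‖trunc_phi f k x‖ ≤ K := by
    intro k x
    unfold trunc_phi
    by_cases h : x ∈ square
    · rw [indicator_of_mem h]
      exact (trunc_rho_abs k _).trans (hK x).1
    · rw [indicator_of_notMem h]
      simpa using hK0
  have hmφ : ∀ k, AEStronglyMeasurable (trunc_phi f k) μS := fun k =>
    (hT k).1.continuous.aestronglyMeasurable
  have hgφc : ∀ k, Continuous (gradient (trunc_phi f k)) := by
    intro k
    unfold gradient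
    exact (LinearIsometryEquiv.continuous _).comp ((hT k).1.continuous_fderiv (by simp))
  have hgb : ∀ k, ∀ᵐ x ∂μS, ‖gradient (trunc_phi f k) x‖ ≤ C * K := by
    intro k
    unfold μS
    rw [ae_restrict_iff' measurableSet_square]
    refine Filter.Eventually.of_forall (fun x hx => ?_)
    rw [trunc_phi_grad hf k hx, norm_smul]
    exact mul_le_mul (hC k _) (hK x).2 (norm_nonneg _) hC0
  have hgm : ∀ k, MemLp (gradient (trunc_phi f k)) (ENNReal.ofReal p) μS := fun k =>
    MemLp.of_bound (hgφc k).aestronglyMeasurable (C * K) (hgb k)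
  obtain ⟨W, hW⟩ : ∃ W : ℕ → PairSpace p, W = fun k => ((trunc_memLp (hmφ k) (hbφ k)).toLp _,
    (hgm k).toLp _) := ⟨_, rfl⟩
  have hW1 : ∀ k, (W k).1 =ᵐ[μS] trunc_phi f k := by
    intro k
    rw [hW]
    exact MemLp.coeFn_toLp (trunc_memLp (hmφ k) (hbφ k))
  have hW2 : ∀ k, (W k).2 =ᵐ[μS] gradient (trunc_phi f k) := by
    intro k
    rw [hW]
    exact MemLp.coeFn_toLp (hgm k)
  have hsq : ∀ᵐ x ∂μS, x ∈ square := by
    unfold μS
    exact ae_restrict_mem measurableSet_square
  have ht1 : Tendsto (fun k => (W k).1) atTop (𝓝 w.1) := by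
    refine trunc_toLp_tendsto _ _ hW1 hw1 (K := K + K) (fun k => ?_) ?_
    · refine Filter.Eventually.of_forall (fun x => ?_)
      exact (norm_sub_le _ _).trans (add_le_add (hbφ k x) (hb1 x))
    · filter_upwards [hsq] with x hx
      unfold trunc_phi
      simp only [indicator_of_mem hx]
      exact trunc_rho_tendsto _
  have ht2 : Tendsto (fun k => (W k).2) atTop (𝓝 w.2) := by
    refine trunc_toLp_tendsto _ _ hW2 hw2 (K := C * K + K) (fun k => ?_) ?_
    · filter_upwards [hgb k] with x hx
      exact (norm_sub_le _ _).trans (add_le_add hx (hb2 x))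
    · filter_upwards [hsq] with x hx
      simp only [trunc_phi_grad hf _ hx]
      have h1 := (trunc_drho_tendsto (f x)).smul_const (gradient f x)
      have h2 : (if 0 < f x then (1 : ℝ) else 0) • gradient f x =
          (if 0 < f x then gradient f x else 0) := by
        split_ifs <;> simp
      rwa [h2] at h1
  have ht : Tendsto W atTop (𝓝 w) := by
    have := ht1.prodMk_nhds ht2
    exact this
  unfold W0
  refine mem_closure_of_tendsto ht (Filter.Eventually.of_forall (fun k => ?_))
  exact ⟨trunc_phi f k, hT k, hW1 k, hW2 k⟩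

end Pool.Agent.PL2
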