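import Pool.Agent.PL2.Eig2
import Pool.Agent.PL2.Trunc

open MeasureTheory Set Metric Filter Topology
open scoped ENNReal ContDiff InnerProductSpace Interval

namespace Pool.Agent.PL2

open Pool.Agent.PLap94

variable {p : ℝ} [hp : Fact (1 < p)]

lemma eig2m_kk0 : kk 0 = Real.pi := by simp [kk]
lemma eig2m_kk1 : kk 1 = 2 * Real.pi := by
  unfold kk
  push_cast
  ring

lemma eig2m_sn0 (a : ℝ) : sn 0 (1 - a) = sn 0 a := by
  rw [sn, sn, eig2m_kk0, mul_sub, mul_one, Real.sin_pi_sub]

lemma eig2m_cs0 (a : ℝ) : cs 0 (1 - a) = -cs 0 a := by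
  rw [cs, cs, eig2m_kk0, mul_sub, mul_one, Real.cos_pi_sub]

lemma eig2m_sn1 (a : ℝ) : sn 1 (1 - a) = -sn 1 a := by
  rw [sn, sn, eig2m_kk1, mul_sub, mul_one, Real.sin_two_pi_sub]

lemma eig2m_cs1 (a : ℝ) : cs 1 (1 - a) = cs 1 a := by
  rw [cs, cs, eig2m_kk1, mul_sub, mul_one, Real.cos_two_pi_sub]

lemma eig2m_pt0 (x : E2) : (pt 1 1 - x) 0 = 1 - x 0 := by simp
lemma eig2m_pt1 (x : E2) : (pt 1 1 - x) 1 = 1 - x 1 := by simp

lemma eig2m_mode_symm (α β : ℝ) (x : E2) : mode α β (pt 1 1 - x) = -mode α β x := by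
  unfold mode
  rw [eig2m_pt0, eig2m_pt1, eig2m_sn0, eig2m_sn1, eig2m_sn0, eig2m_sn1]
  ring

lemma eig2m_gmode_symm (α β : ℝ) (x : E2) : gmode α β (pt 1 1 - x) = gmode α β x := by
  unfold gmode
  rw [eig2m_pt0, eig2m_pt1, eig2m_sn0, eig2m_sn1, eig2m_sn0, eig2m_sn1, eig2m_cs0, eig2m_cs1,
    eig2m_cs0, eig2m_cs1]
  congr 1
  ext i
  fin_cases i
  · simp
  · simp

lemma eig2m_mode_neg (α β : ℝ) (x : E2) : mode (-α) (-β) x = -mode α β x := by
  unfold mode
  ring

lemma eig2m_gmode_neg (α β : ℝ) (x : E2) : gmode (-α) (-β) x = -gmode α β x := by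
  unfold gmode
  ext i
  fin_cases i
  · simp
    ring
  · simp
    ring

lemma eig2m_mode_eq (α β : ℝ) : mode α β = U 2 (cm α β) := by
  funext x
  exact (U_cm le_rfl α β x).symm

lemma eig2m_gradient (α β : ℝ) (x : E2) : gradient (mode α β) x = gmode α β x := by
  rw [eig2m_mode_eq, gradient_U, gU_cm le_rfl]

lemma eig2m_isOpen_square : IsOpen square := by
  have : square = ⋂ i : Fin 2, ({x : E2 | 0 < x i} ∩ {x : E2 | x i < 1}) := by
    ext x
    simp [square]
  rw [this]
  refine isOpen_iInter_of_finite fun i => ?_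
  exact (isOpen_lt continuous_const (by fun_prop)).inter (isOpen_lt (by fun_prop) continuous_const)

lemma eig2m_frontier {x : E2} (hx : x ∈ frontier square) : ∃ i, x i = 0 ∨ x i = 1 := by
  rw [frontier, eig2m_isOpen_square.interior_eq] at hx
  obtain ⟨h1, h2⟩ := hx
  have hcl : x ∈ {x : E2 | ∀ i, 0 ≤ x i ∧ x i ≤ 1} := by
    have hc : IsClosed {x : E2 | ∀ i, 0 ≤ x i ∧ x i ≤ 1} := by
      have : {x : E2 | ∀ i, 0 ≤ x i ∧ x i ≤ 1} =
          ⋂ i : Fin 2, ({x : E2 | 0 ≤ x i} ∩ {x : E2 | x i ≤ 1}) := by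
        ext x
        simp
      rw [this]
      exact isClosed_iInter fun i => (isClosed_le continuous_const (by fun_prop)).inter
        (isClosed_le (by fun_prop) continuous_const)
    exact closure_minimal (fun y hy i => ⟨(hy i).1.le, (hy i).2.le⟩) hc h1
  by_contra hcon
  push Not at hcon
  exact h2 fun i => ⟨lt_of_le_of_ne (hcl i).1 (Ne.symm (hcon i).1),
    lt_of_le_of_ne (hcl i).2 (hcon i).2⟩

lemma eig2m_sn_zero (i : ℕ) : sn i 0 = 0 := by simp [sn]

lemma eig2m_sn_one (i : ℕ) : sn i 1 = 0 := by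
  rw [sn, mul_one, kk]
  have := Real.sin_nat_mul_pi (i + 1)
  push_cast at this
  exact this

lemma eig2m_mode_frontier (α β : ℝ) {x : E2} (hx : x ∈ frontier square) : mode α β x = 0 := by
  obtain ⟨i, hi⟩ := eig2m_frontier hx
  unfold mode
  fin_cases i <;> rcases hi with hi | hi <;> simp only [Fin.zero_eta, Fin.mk_one] at hi <;>
    rw [hi] <;> simp [eig2m_sn_zero, eig2m_sn_one]

lemma eig2m_trunc (α β : ℝ) : ∃ w ∈ W0 p, w.1 =ᵐ[μS] (fun x => max (mode α β x) 0) ∧
    w.2 =ᵐ[μS] (fun x => if 0 < mode α β x then gmode α β x else 0) := by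
  obtain ⟨_, K1, hK1⟩ := bm_mode α β
  obtain ⟨_, K2, hK2⟩ := bm_gmode α β
  have h := trunc_mem (p := p) (f := mode α β) (by rw [eig2m_mode_eq]; exact contDiff_U _ _)
    (fun x hx => eig2m_mode_frontier α β hx)
    ⟨max K1 K2, fun x => ⟨(hK1 x).trans (le_max_left _ _), by
      rw [eig2m_gradient]
      exact (hK2 x).trans (le_max_right _ _)⟩⟩
  simpa only [eig2m_gradient] using h

lemma eig2m_pos {α β : ℝ} (h : α ^ 2 + β ^ 2 = 1) : 0 < Nn p (mode α β) := by
  have hp0 : 0 < p := p_pos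
  have hnn : 0 ≤ Nn p (mode α β) :=
    integral_nonneg fun x => Real.rpow_nonneg (norm_nonneg _) _
  refine lt_of_le_of_ne hnn fun h0 => ?_
  have hi : Integrable (fun x => ‖mode α β x‖ ^ p) μS :=
    ((bm_mode α β).norm_rpow hp0.le).integrable
  have h1 := (integral_eq_zero_iff_of_nonneg
    (fun x => Real.rpow_nonneg (norm_nonneg (mode α β x)) p) hi).1 h0.symm
  have h2 : ∫ x, ‖mode α β x‖ ^ 2 ∂μS = 0 := by
    rw [← integral_zero (α := E2) (G := ℝ) (μ := μS)]
    apply integral_congr_ae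
    filter_upwards [h1] with x hx
    simp only [Pi.zero_apply] at hx
    have h3 : ‖mode α β x‖ = 0 := (Real.rpow_eq_zero (norm_nonneg _) hp0.ne').1 hx
    rw [h3]
    norm_num
  rw [integral_mode_sq h] at h2
  norm_num at h2

/-- `trunc_mem` for `mode α β` and `-mode α β = mode (-α) (-β)`, `mode (pt 1 1 - x) = -mode x`
(`integral_muS_symm`), so both halves have mass `½ Nn p mode` and energy `≤ ½ Nn p gmode`;
`eig2_of_pair`. -/
theorem eig2_le {α β : ℝ} (h : α ^ 2 + β ^ 2 = 1) :
    eigenvalue 2 p ≤ ENNReal.ofReal (Ray α β p) := by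
  have hp0 : 0 < p := p_pos
  obtain ⟨wa, ha, ha1, ha2⟩ := eig2m_trunc (p := p) α β
  obtain ⟨wb, hb, hb1, hb2⟩ := eig2m_trunc (p := p) (-α) (-β)
  have hcm : Continuous (mode α β) := continuous_mode α β
  have hcn : Continuous (mode (-α) (-β)) := continuous_mode (-α) (-β)
  -- measurability / integrability
  have hA1 : BM μS (fun x => max (mode α β x) 0) := by
    obtain ⟨_, K, hK⟩ := bm_mode α β
    refine ⟨(hcm.max continuous_const).aestronglyMeasurable, K, fun x => ?_⟩
    rw [Real.norm_of_nonneg (le_max_right _ _)]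
    exact max_le ((le_abs_self _).trans (hK x)) ((norm_nonneg _).trans (hK x))
  have hB1 : BM μS (fun x => max (mode (-α) (-β) x) 0) := by
    obtain ⟨_, K, hK⟩ := bm_mode (-α) (-β)
    refine ⟨(hcn.max continuous_const).aestronglyMeasurable, K, fun x => ?_⟩
    rw [Real.norm_of_nonneg (le_max_right _ _)]
    exact max_le ((le_abs_self _).trans (hK x)) ((norm_nonneg _).trans (hK x))
  have hG : ∀ γ δ : ℝ, BM μS (fun x => if 0 < mode γ δ x then gmode γ δ x else 0) := by
    intro γ δ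
    obtain ⟨hm, K, hK⟩ := bm_gmode γ δ
    have hset : MeasurableSet {x : E2 | 0 < mode γ δ x} :=
      (isOpen_lt continuous_const (continuous_mode γ δ)).measurableSet
    refine ⟨?_, K, fun x => ?_⟩
    · have := hm.indicator hset
      refine this.congr (Eventually.of_forall fun x => ?_)
      simp [Set.indicator]
    · by_cases h1 : 0 < mode γ δ x
      · simp only [if_pos h1]
        exact hK x
      · simp only [if_neg h1, norm_zero]
        exact (norm_nonneg _).trans (hK x)
  have iA1 : Integrable (fun x => ‖max (mode α β x) 0‖ ^ p) μS :=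
    (hA1.norm_rpow hp0.le).integrable
  have iB1 : Integrable (fun x => ‖max (mode (-α) (-β) x) 0‖ ^ p) μS :=
    (hB1.norm_rpow hp0.le).integrable
  have iA2 := ((hG α β).norm_rpow hp0.le).integrable
  have iB2 := ((hG (-α) (-β)).norm_rpow hp0.le).integrable
  have iG : Integrable (fun x => ‖gmode α β x‖ ^ p) μS :=
    ((bm_gmode α β).norm_rpow hp0.le).integrable
  -- symmetry
  have sy1 : Nn p (fun x => max (mode (-α) (-β) x) 0) = Nn p (fun x => max (mode α β x) 0) := by
    unfold Nn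
    have := integral_muS_symm (f := fun x => ‖max (mode α β x) 0‖ ^ p) iA1.aestronglyMeasurable
    rw [← this]
    apply integral_congr_ae
    filter_upwards with x
    rw [eig2m_mode_symm, eig2m_mode_neg]
  have sy2 : Nn p (fun x => if 0 < mode (-α) (-β) x then gmode (-α) (-β) x else 0) =
      Nn p (fun x => if 0 < mode α β x then gmode α β x else 0) := by
    unfold Nn
    have := integral_muS_symm
      (f := fun x => ‖(if 0 < mode α β x then gmode α β x else 0 : E2)‖ ^ p)
      iA2.aestronglyMeasurable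
    rw [← this]
    apply integral_congr_ae
    filter_upwards with x
    rw [eig2m_mode_symm, eig2m_mode_neg, eig2m_gmode_symm, eig2m_gmode_neg]
    split_ifs
    · rw [norm_neg]
    · rfl
  -- sums
  have su1 : Nn p (fun x => max (mode α β x) 0) + Nn p (fun x => max (mode (-α) (-β) x) 0) =
      Nn p (mode α β) := by
    unfold Nn
    rw [← integral_add iA1 iB1]
    apply integral_congr_ae
    filter_upwards with x
    rw [eig2m_mode_neg]
    rcases le_total 0 (mode α β x) with h1 | h1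
    · rw [max_eq_left h1, max_eq_right (by linarith : -mode α β x ≤ 0), norm_zero,
        Real.zero_rpow hp0.ne', add_zero]
    · rw [max_eq_right h1, max_eq_left (by linarith : 0 ≤ -mode α β x), norm_zero,
        Real.zero_rpow hp0.ne', zero_add, norm_neg]
  have su2 : Nn p (fun x => if 0 < mode α β x then gmode α β x else 0) +
      Nn p (fun x => if 0 < mode (-α) (-β) x then gmode (-α) (-β) x else 0) ≤
      Nn p (gmode α β) := by
    unfold Nn
    rw [← integral_add iA2 iB2]
    refine integral_mono (iA2.add iB2) iG fun x => ?_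
    simp only [eig2m_mode_neg, eig2m_gmode_neg]
    by_cases h1 : 0 < mode α β x
    · have h2 : ¬ 0 < -mode α β x := by linarith
      rw [if_pos h1, if_neg h2, norm_zero, Real.zero_rpow hp0.ne', add_zero]
    · rw [if_neg h1, norm_zero, Real.zero_rpow hp0.ne', zero_add]
      split_ifs
      · rw [norm_neg]
      · rw [norm_zero, Real.zero_rpow hp0.ne']
        exact Real.rpow_nonneg (norm_nonneg _) _
  have hpos := eig2m_pos (p := p) h
  have hma : ‖wa.1‖ ^ p = Nn p (mode α β) / 2 := by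
    rw [norm_rpow_eq_Nn wa.1 ha1]
    linarith
  have hmb : ‖wb.1‖ ^ p = Nn p (mode α β) / 2 := by
    rw [norm_rpow_eq_Nn wb.1 hb1]
    linarith
  have hea : ‖wa.2‖ ^ p ≤ Nn p (gmode α β) / 2 := by
    rw [norm_rpow_eq_Nn wa.2 ha2]
    linarith
  have heb : ‖wb.2‖ ^ p ≤ Nn p (gmode α β) / 2 := by
    rw [norm_rpow_eq_Nn wb.2 hb2]
    linarith
  have hd : ∀ᵐ x ∂μS, (wa.1 x = 0 ∧ wa.2 x = 0) ∨ (wb.1 x = 0 ∧ wb.2 x = 0) := by
    filter_upwards [ha1, ha2, hb1, hb2] with x h1 h2 h3 h4
    rw [h1, h2, h3, h4, eig2m_mode_neg, eig2m_gmode_neg]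
    by_cases h5 : 0 < mode α β x
    · right
      have h6 : ¬ 0 < -mode α β x := by linarith
      exact ⟨max_eq_right (by linarith), if_neg h6⟩
    · left
      exact ⟨max_eq_right (by linarith), if_neg h5⟩
  have := eig2_of_pair ha hb hd (by linarith) hma hmb hea heb
  rw [div_div_div_cancel_right₀ (by norm_num : (2 : ℝ) ≠ 0)] at this
  exact this

end Pool.Agent.PL2
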