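import Pool.Agent.PL2.Defs

open MeasureTheory Set Metric Filter Topology
open scoped ENNReal ContDiff InnerProductSpace Interval

namespace Pool.Agent.PL2

open Pool.Agent.PLap94

variable {p : ℝ} [hp : Fact (1 < p)]

/-- If every point of the sphere where two odd continuous functionals vanish has energy `≥ Λ`, then
`λ₃ ≥ Λ`: otherwise an admissible `A` with energy `< Λ` on `A` has the odd map `(f, g)` into
`ℝ² ∖ 0`, so genus `≤ 2`. Compare `PLap94/Lower.lean`. -/
theorem eig3_of_constraints {Λ : ℝ≥0∞} {f g : PairSpace p → ℝ} (hf : Continuous f)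
    (hg : Continuous g) (hfo : ∀ w, f (-w) = -f w) (hgo : ∀ w, g (-w) = -g w)
    (h : ∀ w ∈ sphereS p, f w = 0 → g w = 0 → Λ ≤ energy p w) : Λ ≤ eigenvalue 3 p := by
  unfold eigenvalue
  refine le_iInf₂ fun A hA => ?_
  by_contra hlt
  push Not at hlt
  have he : ∀ w ∈ A, energy p w < Λ := fun w hw => lt_of_le_of_lt (le_iSup₂_of_le w hw le_rfl) hlt
  have hmap : HasOddMap A 2 := by
    refine ⟨fun w => !₂[f w, g w], ?_, ?_, ?_⟩
    · refine Continuous.continuousOn ?_
      refine (PiLp.continuous_toLp 2 (fun _ : Fin 2 => ℝ)).comp ?_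
      refine continuous_pi fun i => ?_
      fin_cases i
      · exact hf
      · exact hg
    · intro w _
      ext i
      fin_cases i
      · simp [hfo]
      · simp [hgo]
    · intro w hw h0
      have h1 : f w = 0 := by
        have := congrArg (fun v : EuclideanSpace ℝ (Fin 2) => v 0) h0
        simpa using this
      have h2 : g w = 0 := by
        have := congrArg (fun v : EuclideanSpace ℝ (Fin 2) => v 1) h0
        simpa using this
      exact absurd (h w (hA.1 hw) h1 h2) (not_le.2 (he w hw))
  have h3 : genus A ≤ 2 := by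
    unfold genus
    exact iInf₂_le_of_le 2 ⟨by norm_num, hmap⟩ le_rfl
  have h4 := hA.2.2.2.2.trans h3
  norm_num at h4

end Pool.Agent.PL2
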