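import Pool.Agent.PL2.NumDefs

open Set Filter Topology

namespace Pool.Agent.PL2

theorem nlogA_min {f f' : ℝ → ℝ} (hf : ∀ x, 0 < x → HasDerivAt f (f' x) x) {m t : ℝ}
    (hm : 0 < m) (ht : 0 < t) (h1 : ∀ x, t < x → x < m → f' x ≤ 0)
    (h2 : ∀ x, m < x → x < t → 0 ≤ f' x) : f m ≤ f t := by
  rcases le_total t m with h | h
  · have h3 : AntitoneOn f (Icc t m) := by
      apply antitoneOn_of_deriv_nonpos (convex_Icc t m)
      · exact fun x hx => (hf x (ht.trans_le hx.1)).continuousAt.continuousWithinAt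
      · intro x hx
        rw [interior_Icc] at hx
        exact (hf x (ht.trans hx.1)).differentiableAt.differentiableWithinAt
      · intro x hx
        rw [interior_Icc] at hx
        rw [(hf x (ht.trans hx.1)).deriv]
        exact h1 x hx.1 hx.2
    exact h3 (left_mem_Icc.2 h) (right_mem_Icc.2 h) h
  · have h3 : MonotoneOn f (Icc m t) := by
      apply monotoneOn_of_deriv_nonneg (convex_Icc m t)
      · exact fun x hx => (hf x (hm.trans_le hx.1)).continuousAt.continuousWithinAt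
      · intro x hx
        rw [interior_Icc] at hx
        exact (hf x (hm.trans hx.1)).differentiableAt.differentiableWithinAt
      · intro x hx
        rw [interior_Icc] at hx
        rw [(hf x (hm.trans hx.1)).deriv]
        exact h2 x hx.1 hx.2
    exact h3 (left_mem_Icc.2 h) (right_mem_Icc.2 h) h

theorem nlogA_log {x e s : ℝ} (n : ℕ) (hx : |x| ≤ e) (he : e < 1)
    (hs : ∑ i ∈ Finset.range n, x ^ (i + 1) / (i + 1) = s) :
    -s - e ^ (n + 1) / (1 - e) ≤ Real.log (1 - x) ∧
      Real.log (1 - x) ≤ -s + e ^ (n + 1) / (1 - e) := by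
  have h := Real.abs_log_sub_add_sum_range_le (hx.trans_lt he) n
  rw [hs] at h
  have h1 : |x| ^ (n + 1) / (1 - |x|) ≤ e ^ (n + 1) / (1 - e) := by
    have h2 : |x| ^ (n + 1) ≤ e ^ (n + 1) := pow_le_pow_left₀ (abs_nonneg _) hx _
    have h3 : 0 < 1 - e := by linarith
    have h4 : 1 - e ≤ 1 - |x| := by linarith
    exact div_le_div₀ (pow_nonneg ((abs_nonneg x).trans hx) _) h2 h3 h4
  have h5 := abs_le.1 (h.trans h1)
  constructor <;> linarith [h5.1, h5.2]

theorem nlogA_p7 {a b c d e f g : ℝ} (ha : 0 ≤ a) (hb : 0 ≤ b) (hc : 0 ≤ c) (hd : 0 ≤ d)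
    (he : 0 ≤ e) (hf : 0 ≤ f) (hg : 0 ≤ g) : 0 ≤ a * b * c * d * e * f * g := by
  positivity

/-- the function `g` -/
noncomputable def nlogAG (x : ℝ) : ℝ :=
  Real.log x - ((-135405 / 261287) * x⁻¹ + (-89 / 1000) + (188908903 / 266512740) * x ^ 1 + (-5324323 / 44418790) * x ^ 2 + (568840 / 39976911) * x ^ 3 + (-1048 / 1025049) * x ^ 4 + (4416 / 111046975) * x ^ 5 + (-128 / 199884555) * x ^ 6)

/-- its derivative -/
noncomputable def nlogAG' (x : ℝ) : ℝ :=
  (256 / 66628185) * ((x - (5 / 4)) * (x - 2) * (x - (17 / 4)) * (x - (27 / 4)) * (x - 10) * (x - (51 / 4)) * (x - (59 / 4))) / x ^ 2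

theorem nlogA_deriv {x : ℝ} (hx : 0 < x) : HasDerivAt nlogAG (nlogAG' x) x := by
  have p2 : HasDerivAt (fun x : ℝ => (188908903 / 266512740) * x ^ 1) ((188908903 / 266512740) * ((1 : ℕ) * x ^ (1 - 1))) x :=
    (hasDerivAt_pow 1 x).const_mul (188908903 / 266512740)
  have p3 : HasDerivAt (fun x : ℝ => (-5324323 / 44418790) * x ^ 2) ((-5324323 / 44418790) * ((2 : ℕ) * x ^ (2 - 1))) x :=
    (hasDerivAt_pow 2 x).const_mul (-5324323 / 44418790)
  have p4 : HasDerivAt (fun x : ℝ => (568840 / 39976911) * x ^ 3) ((568840 / 39976911) * ((3 : ℕ) * x ^ (3 - 1))) x :=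
    (hasDerivAt_pow 3 x).const_mul (568840 / 39976911)
  have p5 : HasDerivAt (fun x : ℝ => (-1048 / 1025049) * x ^ 4) ((-1048 / 1025049) * ((4 : ℕ) * x ^ (4 - 1))) x :=
    (hasDerivAt_pow 4 x).const_mul (-1048 / 1025049)
  have p6 : HasDerivAt (fun x : ℝ => (4416 / 111046975) * x ^ 5) ((4416 / 111046975) * ((5 : ℕ) * x ^ (5 - 1))) x :=
    (hasDerivAt_pow 5 x).const_mul (4416 / 111046975)
  have p7 : HasDerivAt (fun x : ℝ => (-128 / 199884555) * x ^ 6) ((-128 / 199884555) * ((6 : ℕ) * x ^ (6 - 1))) x :=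
    (hasDerivAt_pow 6 x).const_mul (-128 / 199884555)
  have pi : HasDerivAt (fun x : ℝ => (-135405 / 261287) * x⁻¹) ((-135405 / 261287) * (-(x ^ 2)⁻¹)) x :=
    (hasDerivAt_inv hx.ne').const_mul (-135405 / 261287)
  refine HasDerivAt.congr_deriv (f := nlogAG) ((Real.hasDerivAt_log hx.ne').sub (((((((pi.add_const (-89 / 1000)).add p2).add p3).add p4).add p5).add p6).add p7)) ?_
  unfold nlogAG'
  have hx' := hx.ne'
  push_cast
  field_simp
  ring

theorem nlogA_v0 : 0 ≤ nlogAG (5 / 4) := by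
  have h2 := Real.log_two_gt_d9
  have h3 := Real.log_two_lt_d9
  have hl : Real.log (5 / 4) = 0 * Real.log 2 + Real.log (1 - (-1 / 4)) := by
    rw [show ((5 / 4) : ℝ) = 2 ^ 0 * (1 - (-1 / 4)) by norm_num,
      Real.log_mul (by norm_num) (by norm_num), Real.log_pow]
    norm_num
  have hb := nlogA_log (x := (-1 / 4)) (e := (1 / 4)) (s := (-857 / 3840)) 5
    (by rw [abs_le]; constructor <;> norm_num) (by norm_num)
    (by norm_num [Finset.sum_range_succ])
  obtain ⟨hb1, hb2⟩ := hb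
  have hv : (-135405 / 261287) * ((5 / 4) : ℝ)⁻¹ + (-89 / 1000) + (188908903 / 266512740) * ((5 / 4) : ℝ) ^ 1 + (-5324323 / 44418790) * ((5 / 4) : ℝ) ^ 2 + (568840 / 39976911) * ((5 / 4) : ℝ) ^ 3 + (-1048 / 1025049) * ((5 / 4) : ℝ) ^ 4 + (4416 / 111046975) * ((5 / 4) : ℝ) ^ 5 + (-128 / 199884555) * ((5 / 4) : ℝ) ^ 6 = (35270229559 / 159907644000) := by
    norm_num
  unfold nlogAG
  rw [hv, hl]
  norm_num at hb1 hb2 ⊢
  linarith

theorem nlogA_v2 : 0 ≤ nlogAG (17 / 4) := by
  have h2 := Real.log_two_gt_d9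
  have h3 := Real.log_two_lt_d9
  have hl : Real.log (17 / 4) = 2 * Real.log 2 + Real.log (1 - (-1 / 16)) := by
    rw [show ((17 / 4) : ℝ) = 2 ^ 2 * (1 - (-1 / 16)) by norm_num,
      Real.log_mul (by norm_num) (by norm_num), Real.log_pow]
    norm_num
  have hb := nlogA_log (x := (-1 / 16)) (e := (1 / 16)) (s := (-745 / 12288)) 3
    (by rw [abs_le]; constructor <;> norm_num) (by norm_num)
    (by norm_num [Finset.sum_range_succ])
  obtain ⟨hb1, hb2⟩ := hb
  have hv : (-135405 / 261287) * ((17 / 4) : ℝ)⁻¹ + (-89 / 1000) + (188908903 / 266512740) * ((17 / 4) : ℝ) ^ 1 + (-5324323 / 44418790) * ((17 / 4) : ℝ) ^ 2 + (568840 / 39976911) * ((17 / 4) : ℝ) ^ 3 + (-1048 / 1025049) * ((17 / 4) : ℝ) ^ 4 + (4416 / 111046975) * ((17 / 4) : ℝ) ^ 5 + (-128 / 199884555) * ((17 / 4) : ℝ) ^ 6 = (13606953287 / 9406332000) := by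
    norm_num
  unfold nlogAG
  rw [hv, hl]
  norm_num at hb1 hb2 ⊢
  linarith

theorem nlogA_v4 : 0 ≤ nlogAG 10 := by
  have h2 := Real.log_two_gt_d9
  have h3 := Real.log_two_lt_d9
  have hl : Real.log 10 = 3 * Real.log 2 + Real.log (1 - (-1 / 4)) := by
    rw [show (10 : ℝ) = 2 ^ 3 * (1 - (-1 / 4)) by norm_num,
      Real.log_mul (by norm_num) (by norm_num), Real.log_pow]
    norm_num
  have hb := nlogA_log (x := (-1 / 4)) (e := (1 / 4)) (s := (-383881 / 1720320)) 7
    (by rw [abs_le]; constructor <;> norm_num) (by norm_num)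
    (by norm_num [Finset.sum_range_succ])
  obtain ⟨hb1, hb2⟩ := hb
  have hv : (-135405 / 261287) * (10 : ℝ)⁻¹ + (-89 / 1000) + (188908903 / 266512740) * (10 : ℝ) ^ 1 + (-5324323 / 44418790) * (10 : ℝ) ^ 2 + (568840 / 39976911) * (10 : ℝ) ^ 3 + (-1048 / 1025049) * (10 : ℝ) ^ 4 + (4416 / 111046975) * (10 : ℝ) ^ 5 + (-128 / 199884555) * (10 : ℝ) ^ 6 = (30680214307 / 13325637000) := by
    norm_num
  unfold nlogAG
  rw [hv, hl]
  norm_num at hb1 hb2 ⊢
  linarith

theorem nlogA_v6 : 0 ≤ nlogAG (59 / 4) := by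
  have h2 := Real.log_two_gt_d9
  have h3 := Real.log_two_lt_d9
  have hl : Real.log (59 / 4) = 4 * Real.log 2 + Real.log (1 - (5 / 64)) := by
    rw [show ((59 / 4) : ℝ) = 2 ^ 4 * (1 - (5 / 64)) by norm_num,
      Real.log_mul (by norm_num) (by norm_num), Real.log_pow]
    norm_num
  have hb := nlogA_log (x := (5 / 64)) (e := (5 / 64)) (s := (63965 / 786432)) 3
    (by rw [abs_le]; constructor <;> norm_num) (by norm_num)
    (by norm_num [Finset.sum_range_succ])
  obtain ⟨hb1, hb2⟩ := hb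
  have hv : (-135405 / 261287) * ((59 / 4) : ℝ)⁻¹ + (-89 / 1000) + (188908903 / 266512740) * ((59 / 4) : ℝ) ^ 1 + (-5324323 / 44418790) * ((59 / 4) : ℝ) ^ 2 + (568840 / 39976911) * ((59 / 4) : ℝ) ^ 3 + (-1048 / 1025049) * ((59 / 4) : ℝ) ^ 4 + (4416 / 111046975) * ((59 / 4) : ℝ) ^ 5 + (-128 / 199884555) * ((59 / 4) : ℝ) ^ 6 = (430304754199 / 159907644000) := by
    norm_num
  unfold nlogAG
  rw [hv, hl]
  norm_num at hb1 hb2 ⊢
  linarith

/-- `t log t - PA t = t g(t)`, `g(t) = log t - PA t / t`, `g'(t) = κ (t-5/4)(t-2)(t-17/4)(t-27/4)(t-10)(t-51/4)(t-59/4)/t²`, `κ > 0`, so the minima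
of `g` on `(0,∞)` are at `5/4, 17/4, 10, 59/4` (values `≥ 2e-4`, numerically
0.0026, 0.00035, 0.00024, 0.00029; e.g. `Real.abs_log_sub_add_sum_range_le` and
`Real.log_two_gt_d9` for the logarithms). -/
theorem PA_le {t : ℝ} (ht : 0 ≤ t) : PA t ≤ t * Real.log t := by
  rcases ht.eq_or_lt with rfl | ht
  · unfold PA
    norm_num
  have hd : ∀ x, 0 < x → HasDerivAt nlogAG (nlogAG' x) x := fun x hx => nlogA_deriv hx
  have hG : 0 ≤ nlogAG t := by
    rcases le_total t 2 with h | h
    · refine nlogA_v0.trans (nlogA_min hd (by norm_num) ht ?_ ?_)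
      · intro x hx1 hx2
        have hx0 : 0 < x := ht.trans hx1
        have h7 : 0 ≤ ((5 / 4) - x) * (2 - x) * ((17 / 4) - x) * ((27 / 4) - x) * (10 - x) * ((51 / 4) - x) * ((59 / 4) - x) :=
          nlogA_p7 (by linarith) (by linarith) (by linarith) (by linarith) (by linarith) (by linarith) (by linarith)
        unfold nlogAG'
        apply div_nonpos_of_nonpos_of_nonneg _ (by positivity)
        have h8 : (x - (5 / 4)) * (x - 2) * (x - (17 / 4)) * (x - (27 / 4)) * (x - 10) * (x - (51 / 4)) * (x - (59 / 4)) = -(((5 / 4) - x) * (2 - x) * ((17 / 4) - x) * ((27 / 4) - x) * (10 - x) * ((51 / 4) - x) * ((59 / 4) - x)) := by ring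
        rw [h8]
        linarith
      · intro x hx1 hx2
        have hx0 : 0 < x := lt_trans (by norm_num) hx1
        have h7 : 0 ≤ (x - (5 / 4)) * (2 - x) * ((17 / 4) - x) * ((27 / 4) - x) * (10 - x) * ((51 / 4) - x) * ((59 / 4) - x) :=
          nlogA_p7 (by linarith) (by linarith) (by linarith) (by linarith) (by linarith) (by linarith) (by linarith)
        unfold nlogAG'
        apply div_nonneg _ (by positivity)
        have h8 : (x - (5 / 4)) * (x - 2) * (x - (17 / 4)) * (x - (27 / 4)) * (x - 10) * (x - (51 / 4)) * (x - (59 / 4)) = (x - (5 / 4)) * (2 - x) * ((17 / 4) - x) * ((27 / 4) - x) * (10 - x) * ((51 / 4) - x) * ((59 / 4) - x) := by ring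
        rw [h8]
        linarith
    rcases le_total t (27 / 4) with h' | h'
    · refine nlogA_v2.trans (nlogA_min hd (by norm_num) ht ?_ ?_)
      · intro x hx1 hx2
        have hx0 : 0 < x := ht.trans hx1
        have h7 : 0 ≤ (x - (5 / 4)) * (x - 2) * ((17 / 4) - x) * ((27 / 4) - x) * (10 - x) * ((51 / 4) - x) * ((59 / 4) - x) :=
          nlogA_p7 (by linarith) (by linarith) (by linarith) (by linarith) (by linarith) (by linarith) (by linarith)
        unfold nlogAG'
        apply div_nonpos_of_nonpos_of_nonneg _ (by positivity)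
        have h8 : (x - (5 / 4)) * (x - 2) * (x - (17 / 4)) * (x - (27 / 4)) * (x - 10) * (x - (51 / 4)) * (x - (59 / 4)) = -((x - (5 / 4)) * (x - 2) * ((17 / 4) - x) * ((27 / 4) - x) * (10 - x) * ((51 / 4) - x) * ((59 / 4) - x)) := by ring
        rw [h8]
        linarith
      · intro x hx1 hx2
        have hx0 : 0 < x := lt_trans (by norm_num) hx1
        have h7 : 0 ≤ (x - (5 / 4)) * (x - 2) * (x - (17 / 4)) * ((27 / 4) - x) * (10 - x) * ((51 / 4) - x) * ((59 / 4) - x) :=
          nlogA_p7 (by linarith) (by linarith) (by linarith) (by linarith) (by linarith) (by linarith) (by linarith)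
        unfold nlogAG'
        apply div_nonneg _ (by positivity)
        have h8 : (x - (5 / 4)) * (x - 2) * (x - (17 / 4)) * (x - (27 / 4)) * (x - 10) * (x - (51 / 4)) * (x - (59 / 4)) = (x - (5 / 4)) * (x - 2) * (x - (17 / 4)) * ((27 / 4) - x) * (10 - x) * ((51 / 4) - x) * ((59 / 4) - x) := by ring
        rw [h8]
        linarith
    rcases le_total t (51 / 4) with h'' | h''
    · refine nlogA_v4.trans (nlogA_min hd (by norm_num) ht ?_ ?_)
      · intro x hx1 hx2
        have hx0 : 0 < x := ht.trans hx1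
        have h7 : 0 ≤ (x - (5 / 4)) * (x - 2) * (x - (17 / 4)) * (x - (27 / 4)) * (10 - x) * ((51 / 4) - x) * ((59 / 4) - x) :=
          nlogA_p7 (by linarith) (by linarith) (by linarith) (by linarith) (by linarith) (by linarith) (by linarith)
        unfold nlogAG'
        apply div_nonpos_of_nonpos_of_nonneg _ (by positivity)
        have h8 : (x - (5 / 4)) * (x - 2) * (x - (17 / 4)) * (x - (27 / 4)) * (x - 10) * (x - (51 / 4)) * (x - (59 / 4)) = -((x - (5 / 4)) * (x - 2) * (x - (17 / 4)) * (x - (27 / 4)) * (10 - x) * ((51 / 4) - x) * ((59 / 4) - x)) := by ring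
        rw [h8]
        linarith
      · intro x hx1 hx2
        have hx0 : 0 < x := lt_trans (by norm_num) hx1
        have h7 : 0 ≤ (x - (5 / 4)) * (x - 2) * (x - (17 / 4)) * (x - (27 / 4)) * (x - 10) * ((51 / 4) - x) * ((59 / 4) - x) :=
          nlogA_p7 (by linarith) (by linarith) (by linarith) (by linarith) (by linarith) (by linarith) (by linarith)
        unfold nlogAG'
        apply div_nonneg _ (by positivity)
        have h8 : (x - (5 / 4)) * (x - 2) * (x - (17 / 4)) * (x - (27 / 4)) * (x - 10) * (x - (51 / 4)) * (x - (59 / 4)) = (x - (5 / 4)) * (x - 2) * (x - (17 / 4)) * (x - (27 / 4)) * (x - 10) * ((51 / 4) - x) * ((59 / 4) - x) := by ring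
        rw [h8]
        linarith
    · refine nlogA_v6.trans (nlogA_min hd (by norm_num) ht ?_ ?_)
      · intro x hx1 hx2
        have hx0 : 0 < x := ht.trans hx1
        have h7 : 0 ≤ (x - (5 / 4)) * (x - 2) * (x - (17 / 4)) * (x - (27 / 4)) * (x - 10) * (x - (51 / 4)) * ((59 / 4) - x) :=
          nlogA_p7 (by linarith) (by linarith) (by linarith) (by linarith) (by linarith) (by linarith) (by linarith)
        unfold nlogAG'
        apply div_nonpos_of_nonpos_of_nonneg _ (by positivity)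
        have h8 : (x - (5 / 4)) * (x - 2) * (x - (17 / 4)) * (x - (27 / 4)) * (x - 10) * (x - (51 / 4)) * (x - (59 / 4)) = -((x - (5 / 4)) * (x - 2) * (x - (17 / 4)) * (x - (27 / 4)) * (x - 10) * (x - (51 / 4)) * ((59 / 4) - x)) := by ring
        rw [h8]
        linarith
      · intro x hx1 hx2
        have hx0 : 0 < x := lt_trans (by norm_num) hx1
        have h7 : 0 ≤ (x - (5 / 4)) * (x - 2) * (x - (17 / 4)) * (x - (27 / 4)) * (x - 10) * (x - (51 / 4)) * (x - (59 / 4)) :=
          nlogA_p7 (by linarith) (by linarith) (by linarith) (by linarith) (by linarith) (by linarith) (by linarith)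
        unfold nlogAG'
        apply div_nonneg _ (by positivity)
        have h8 : (x - (5 / 4)) * (x - 2) * (x - (17 / 4)) * (x - (27 / 4)) * (x - 10) * (x - (51 / 4)) * (x - (59 / 4)) = (x - (5 / 4)) * (x - 2) * (x - (17 / 4)) * (x - (27 / 4)) * (x - 10) * (x - (51 / 4)) * (x - (59 / 4)) := by ring
        rw [h8]
        linarith
  have hfin : t * Real.log t - PA t = t * nlogAG t := by
    unfold PA nlogAG
    have ht' := ht.ne'
    field_simp
  have := mul_nonneg ht.le hG
  linarith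

end Pool.Agent.PL2
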