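import Pool.Agent.PL2.NumDefs

open Set Filter Topology

namespace Pool.Agent.PL2

theorem nlogB_min {f f' : ℝ → ℝ} (hf : ∀ x, 0 < x → HasDerivAt f (f' x) x) {m t : ℝ}
    (hm : 0 < m) (ht : 0 < t) (h1 : ∀ x, t < x → x < m → f' x ≤ 0)
    (h2 : ∀ x, m < x → x < t → 0 ≤ f' x) : f m ≤ f t := by
  rcases le_total t m with h | h
  · have h3 : AntitoneOn f (Icc t m) := by
      apply antitoneOn_of_deriv_nonpos (convex_Icc t m)
      · exact fun x hx => (hf x (ht.trans_le hx.1)).continuousAt.continuousWithinAt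
      · intro x hx
        rw [interior_Icc] at hx
        exact (hf x (ht.trans hx.1)).differentiableAt.differentiableWithinAt
      · intro x hx
        rw [interior_Icc] at hx
        rw [(hf x (ht.trans hx.1)).deriv]
        exact h1 x hx.1 hx.2
    exact h3 (left_mem_Icc.2 h) (right_mem_Icc.2 h) h
  · have h3 : MonotoneOn f (Icc m t) := by
      apply monotoneOn_of_deriv_nonneg (convex_Icc m t)
      · exact fun x hx => (hf x (hm.trans_le hx.1)).continuousAt.continuousWithinAt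
      · intro x hx
        rw [interior_Icc] at hx
        exact (hf x (hm.trans hx.1)).differentiableAt.differentiableWithinAt
      · intro x hx
        rw [interior_Icc] at hx
        rw [(hf x (hm.trans hx.1)).deriv]
        exact h2 x hx.1 hx.2
    exact h3 (left_mem_Icc.2 h) (right_mem_Icc.2 h) h

theorem nlogB_log {x e s : ℝ} (n : ℕ) (hx : |x| ≤ e) (he : e < 1)
    (hs : ∑ i ∈ Finset.range n, x ^ (i + 1) / (i + 1) = s) :
    -s - e ^ (n + 1) / (1 - e) ≤ Real.log (1 - x) ∧
      Real.log (1 - x) ≤ -s + e ^ (n + 1) / (1 - e) := by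
  have h := Real.abs_log_sub_add_sum_range_le (hx.trans_lt he) n
  rw [hs] at h
  have h1 : |x| ^ (n + 1) / (1 - |x|) ≤ e ^ (n + 1) / (1 - e) := by
    have h2 : |x| ^ (n + 1) ≤ e ^ (n + 1) := pow_le_pow_left₀ (abs_nonneg _) hx _
    have h3 : 0 < 1 - e := by linarith
    have h4 : 1 - e ≤ 1 - |x| := by linarith
    exact div_le_div₀ (pow_nonneg ((abs_nonneg x).trans hx) _) h2 h3 h4
  have h5 := abs_le.1 (h.trans h1)
  constructor <;> linarith [h5.1, h5.2]

theorem nlogB_p7 {a b c d e f g : ℝ} (ha : 0 ≤ a) (hb : 0 ≤ b) (hc : 0 ≤ c) (hd : 0 ≤ d)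
    (he : 0 ≤ e) (hf : 0 ≤ f) (hg : 0 ≤ g) : 0 ≤ a * b * c * d * e * f * g := by
  positivity

/-- the function `g` -/
noncomputable def nlogBG (x : ℝ) : ℝ :=
  ((-1999 / 2000) + (1930749 / 1426568) * x ^ 1 + (-2392469 / 6743776) * x ^ 2 + (6990937 / 111272304) * x ^ 3 + (-257041 / 37090768) * x ^ 4 + (21163 / 46363460) * x ^ 5 + (-38 / 2318173) * x ^ 6 + (4 / 16227211) * x ^ 7) - Real.log x

/-- its derivative -/
noncomputable def nlogBG' (x : ℝ) : ℝ :=
  (4 / 2318173) * ((x - 2) * (x - (13 / 4)) * (x - (11 / 2)) * (x - 8) * (x - (43 / 4)) * (x - 13) * (x - (29 / 2))) / x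

theorem nlogB_deriv {x : ℝ} (hx : 0 < x) : HasDerivAt nlogBG (nlogBG' x) x := by
  have p2 : HasDerivAt (fun x : ℝ => (1930749 / 1426568) * x ^ 1) ((1930749 / 1426568) * ((1 : ℕ) * x ^ (1 - 1))) x :=
    (hasDerivAt_pow 1 x).const_mul (1930749 / 1426568)
  have p3 : HasDerivAt (fun x : ℝ => (-2392469 / 6743776) * x ^ 2) ((-2392469 / 6743776) * ((2 : ℕ) * x ^ (2 - 1))) x :=
    (hasDerivAt_pow 2 x).const_mul (-2392469 / 6743776)
  have p4 : HasDerivAt (fun x : ℝ => (6990937 / 111272304) * x ^ 3) ((6990937 / 111272304) * ((3 : ℕ) * x ^ (3 - 1))) x :=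
    (hasDerivAt_pow 3 x).const_mul (6990937 / 111272304)
  have p5 : HasDerivAt (fun x : ℝ => (-257041 / 37090768) * x ^ 4) ((-257041 / 37090768) * ((4 : ℕ) * x ^ (4 - 1))) x :=
    (hasDerivAt_pow 4 x).const_mul (-257041 / 37090768)
  have p6 : HasDerivAt (fun x : ℝ => (21163 / 46363460) * x ^ 5) ((21163 / 46363460) * ((5 : ℕ) * x ^ (5 - 1))) x :=
    (hasDerivAt_pow 5 x).const_mul (21163 / 46363460)
  have p7 : HasDerivAt (fun x : ℝ => (-38 / 2318173) * x ^ 6) ((-38 / 2318173) * ((6 : ℕ) * x ^ (6 - 1))) x :=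
    (hasDerivAt_pow 6 x).const_mul (-38 / 2318173)
  have p8 : HasDerivAt (fun x : ℝ => (4 / 16227211) * x ^ 7) ((4 / 16227211) * ((7 : ℕ) * x ^ (7 - 1))) x :=
    (hasDerivAt_pow 7 x).const_mul (4 / 16227211)
  refine HasDerivAt.congr_deriv (f := nlogBG) ((((((((p2.const_add (-1999 / 2000)).add p3).add p4).add p5).add p6).add p7).add p8).sub (Real.hasDerivAt_log hx.ne')) ?_
  unfold nlogBG'
  have hx' := hx.ne'
  push_cast
  field_simp
  ring

theorem nlogB_v0 : 0 ≤ nlogBG 2 := by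
  have h2 := Real.log_two_gt_d9
  have h3 := Real.log_two_lt_d9
  have hl : Real.log 2 = 1 * Real.log 2 := by
    rw [show (2 : ℝ) = 2 ^ 1 by norm_num, Real.log_pow]
    norm_num
  have hv : (-1999 / 2000) + (1930749 / 1426568) * (2 : ℝ) ^ 1 + (-2392469 / 6743776) * (2 : ℝ) ^ 2 + (6990937 / 111272304) * (2 : ℝ) ^ 3 + (-257041 / 37090768) * (2 : ℝ) ^ 4 + (21163 / 46363460) * (2 : ℝ) ^ 5 + (-38 / 2318173) * (2 : ℝ) ^ 6 + (4 / 16227211) * (2 : ℝ) ^ 7 = (67531487983 / 97363266000) := by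
    norm_num
  unfold nlogBG
  rw [hv, hl]
  linarith

theorem nlogB_v2 : 0 ≤ nlogBG (11 / 2) := by
  have h2 := Real.log_two_gt_d9
  have h3 := Real.log_two_lt_d9
  have hl : Real.log (11 / 2) = 3 * Real.log 2 + Real.log (1 - (5 / 16)) := by
    rw [show ((11 / 2) : ℝ) = 2 ^ 3 * (1 - (5 / 16)) by norm_num,
      Real.log_mul (by norm_num) (by norm_num), Real.log_pow]
    norm_num
  have hb := nlogB_log (x := (5 / 16)) (e := (5 / 16)) (s := (2112112255 / 5637144576)) 7
    (by rw [abs_le]; constructor <;> norm_num) (by norm_num)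
    (by norm_num [Finset.sum_range_succ])
  obtain ⟨hb1, hb2⟩ := hb
  have hv : (-1999 / 2000) + (1930749 / 1426568) * ((11 / 2) : ℝ) ^ 1 + (-2392469 / 6743776) * ((11 / 2) : ℝ) ^ 2 + (6990937 / 111272304) * ((11 / 2) : ℝ) ^ 3 + (-257041 / 37090768) * ((11 / 2) : ℝ) ^ 4 + (21163 / 46363460) * ((11 / 2) : ℝ) ^ 5 + (-38 / 2318173) * ((11 / 2) : ℝ) ^ 6 + (4 / 16227211) * ((11 / 2) : ℝ) ^ 7 = (241481512423 / 141619296000) := by
    norm_num
  unfold nlogBG
  rw [hv, hl]
  norm_num at hb1 hb2 ⊢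
  linarith

theorem nlogB_v4 : 0 ≤ nlogBG (43 / 4) := by
  have h2 := Real.log_two_gt_d9
  have h3 := Real.log_two_lt_d9
  have hl : Real.log (43 / 4) = 4 * Real.log 2 + Real.log (1 - (21 / 64)) := by
    rw [show ((43 / 4) : ℝ) = 2 ^ 4 * (1 - (21 / 64)) by norm_num,
      Real.log_mul (by norm_num) (by norm_num), Real.log_pow]
    norm_num
  have hb := nlogB_log (x := (21 / 64)) (e := (21 / 64)) (s := (4477433757579237 / 11258999068426240)) 8
    (by rw [abs_le]; constructor <;> norm_num) (by norm_num)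
    (by norm_num [Finset.sum_range_succ])
  obtain ⟨hb1, hb2⟩ := hb
  have hv : (-1999 / 2000) + (1930749 / 1426568) * ((43 / 4) : ℝ) ^ 1 + (-2392469 / 6743776) * ((43 / 4) : ℝ) ^ 2 + (6990937 / 111272304) * ((43 / 4) : ℝ) ^ 3 + (-257041 / 37090768) * ((43 / 4) : ℝ) ^ 4 + (21163 / 46363460) * ((43 / 4) : ℝ) ^ 5 + (-38 / 2318173) * ((43 / 4) : ℝ) ^ 6 + (4 / 16227211) * ((43 / 4) : ℝ) ^ 7 = (1376901662861 / 579651072000) := by
    norm_num
  unfold nlogBG
  rw [hv, hl]
  norm_num at hb1 hb2 ⊢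
  linarith

theorem nlogB_v6 : 0 ≤ nlogBG (29 / 2) := by
  have h2 := Real.log_two_gt_d9
  have h3 := Real.log_two_lt_d9
  have hl : Real.log (29 / 2) = 4 * Real.log 2 + Real.log (1 - (3 / 32)) := by
    rw [show ((29 / 2) : ℝ) = 2 ^ 4 * (1 - (3 / 32)) by norm_num,
      Real.log_mul (by norm_num) (by norm_num), Real.log_pow]
    norm_num
  have hb := nlogB_log (x := (3 / 32)) (e := (3 / 32)) (s := (3225 / 32768)) 3
    (by rw [abs_le]; constructor <;> norm_num) (by norm_num)
    (by norm_num [Finset.sum_range_succ])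
  obtain ⟨hb1, hb2⟩ := hb
  have hv : (-1999 / 2000) + (1930749 / 1426568) * ((29 / 2) : ℝ) ^ 1 + (-2392469 / 6743776) * ((29 / 2) : ℝ) ^ 2 + (6990937 / 111272304) * ((29 / 2) : ℝ) ^ 3 + (-257041 / 37090768) * ((29 / 2) : ℝ) ^ 4 + (21163 / 46363460) * ((29 / 2) : ℝ) ^ 5 + (-38 / 2318173) * ((29 / 2) : ℝ) ^ 6 + (4 / 16227211) * ((29 / 2) : ℝ) ^ 7 = (143686934857 / 53717664000) := by
    norm_num
  unfold nlogBG
  rw [hv, hl]
  norm_num at hb1 hb2 ⊢
  linarith

/-- `PB t - t log t = t g(t)`, `g(t) = PB t / t - log t`, `g'(t) = κ (t-2)(t-13/4)(t-11/2)(t-8)(t-43/4)(t-13)(t-29/2)/t`, `κ > 0`, so the minima of `g` on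
`(0,∞)` are at `2, 11/2, 43/4, 29/2` (numerically 0.00046, 0.0004, 0.0005, 0.0007). -/
theorem le_PB {t : ℝ} (ht : 0 ≤ t) : t * Real.log t ≤ PB t := by
  rcases ht.eq_or_lt with rfl | ht
  · unfold PB
    norm_num
  have hd : ∀ x, 0 < x → HasDerivAt nlogBG (nlogBG' x) x := fun x hx => nlogB_deriv hx
  have hG : 0 ≤ nlogBG t := by
    rcases le_total t (13 / 4) with h | h
    · refine nlogB_v0.trans (nlogB_min hd (by norm_num) ht ?_ ?_)
      · intro x hx1 hx2
        have hx0 : 0 < x := ht.trans hx1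
        have h7 : 0 ≤ (2 - x) * ((13 / 4) - x) * ((11 / 2) - x) * (8 - x) * ((43 / 4) - x) * (13 - x) * ((29 / 2) - x) :=
          nlogB_p7 (by linarith) (by linarith) (by linarith) (by linarith) (by linarith) (by linarith) (by linarith)
        unfold nlogBG'
        apply div_nonpos_of_nonpos_of_nonneg _ (by positivity)
        have h8 : (x - 2) * (x - (13 / 4)) * (x - (11 / 2)) * (x - 8) * (x - (43 / 4)) * (x - 13) * (x - (29 / 2)) = -((2 - x) * ((13 / 4) - x) * ((11 / 2) - x) * (8 - x) * ((43 / 4) - x) * (13 - x) * ((29 / 2) - x)) := by ring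
        rw [h8]
        linarith
      · intro x hx1 hx2
        have hx0 : 0 < x := lt_trans (by norm_num) hx1
        have h7 : 0 ≤ (x - 2) * ((13 / 4) - x) * ((11 / 2) - x) * (8 - x) * ((43 / 4) - x) * (13 - x) * ((29 / 2) - x) :=
          nlogB_p7 (by linarith) (by linarith) (by linarith) (by linarith) (by linarith) (by linarith) (by linarith)
        unfold nlogBG'
        apply div_nonneg _ (by positivity)
        have h8 : (x - 2) * (x - (13 / 4)) * (x - (11 / 2)) * (x - 8) * (x - (43 / 4)) * (x - 13) * (x - (29 / 2)) = (x - 2) * ((13 / 4) - x) * ((11 / 2) - x) * (8 - x) * ((43 / 4) - x) * (13 - x) * ((29 / 2) - x) := by ring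
        rw [h8]
        linarith
    rcases le_total t 8 with h' | h'
    · refine nlogB_v2.trans (nlogB_min hd (by norm_num) ht ?_ ?_)
      · intro x hx1 hx2
        have hx0 : 0 < x := ht.trans hx1
        have h7 : 0 ≤ (x - 2) * (x - (13 / 4)) * ((11 / 2) - x) * (8 - x) * ((43 / 4) - x) * (13 - x) * ((29 / 2) - x) :=
          nlogB_p7 (by linarith) (by linarith) (by linarith) (by linarith) (by linarith) (by linarith) (by linarith)
        unfold nlogBG'
        apply div_nonpos_of_nonpos_of_nonneg _ (by positivity)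
        have h8 : (x - 2) * (x - (13 / 4)) * (x - (11 / 2)) * (x - 8) * (x - (43 / 4)) * (x - 13) * (x - (29 / 2)) = -((x - 2) * (x - (13 / 4)) * ((11 / 2) - x) * (8 - x) * ((43 / 4) - x) * (13 - x) * ((29 / 2) - x)) := by ring
        rw [h8]
        linarith
      · intro x hx1 hx2
        have hx0 : 0 < x := lt_trans (by norm_num) hx1
        have h7 : 0 ≤ (x - 2) * (x - (13 / 4)) * (x - (11 / 2)) * (8 - x) * ((43 / 4) - x) * (13 - x) * ((29 / 2) - x) :=
          nlogB_p7 (by linarith) (by linarith) (by linarith) (by linarith) (by linarith) (by linarith) (by linarith)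
        unfold nlogBG'
        apply div_nonneg _ (by positivity)
        have h8 : (x - 2) * (x - (13 / 4)) * (x - (11 / 2)) * (x - 8) * (x - (43 / 4)) * (x - 13) * (x - (29 / 2)) = (x - 2) * (x - (13 / 4)) * (x - (11 / 2)) * (8 - x) * ((43 / 4) - x) * (13 - x) * ((29 / 2) - x) := by ring
        rw [h8]
        linarith
    rcases le_total t 13 with h'' | h''
    · refine nlogB_v4.trans (nlogB_min hd (by norm_num) ht ?_ ?_)
      · intro x hx1 hx2
        have hx0 : 0 < x := ht.trans hx1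
        have h7 : 0 ≤ (x - 2) * (x - (13 / 4)) * (x - (11 / 2)) * (x - 8) * ((43 / 4) - x) * (13 - x) * ((29 / 2) - x) :=
          nlogB_p7 (by linarith) (by linarith) (by linarith) (by linarith) (by linarith) (by linarith) (by linarith)
        unfold nlogBG'
        apply div_nonpos_of_nonpos_of_nonneg _ (by positivity)
        have h8 : (x - 2) * (x - (13 / 4)) * (x - (11 / 2)) * (x - 8) * (x - (43 / 4)) * (x - 13) * (x - (29 / 2)) = -((x - 2) * (x - (13 / 4)) * (x - (11 / 2)) * (x - 8) * ((43 / 4) - x) * (13 - x) * ((29 / 2) - x)) := by ring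
        rw [h8]
        linarith
      · intro x hx1 hx2
        have hx0 : 0 < x := lt_trans (by norm_num) hx1
        have h7 : 0 ≤ (x - 2) * (x - (13 / 4)) * (x - (11 / 2)) * (x - 8) * (x - (43 / 4)) * (13 - x) * ((29 / 2) - x) :=
          nlogB_p7 (by linarith) (by linarith) (by linarith) (by linarith) (by linarith) (by linarith) (by linarith)
        unfold nlogBG'
        apply div_nonneg _ (by positivity)
        have h8 : (x - 2) * (x - (13 / 4)) * (x - (11 / 2)) * (x - 8) * (x - (43 / 4)) * (x - 13) * (x - (29 / 2)) = (x - 2) * (x - (13 / 4)) * (x - (11 / 2)) * (x - 8) * (x - (43 / 4)) * (13 - x) * ((29 / 2) - x) := by ring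
        rw [h8]
        linarith
    · refine nlogB_v6.trans (nlogB_min hd (by norm_num) ht ?_ ?_)
      · intro x hx1 hx2
        have hx0 : 0 < x := ht.trans hx1
        have h7 : 0 ≤ (x - 2) * (x - (13 / 4)) * (x - (11 / 2)) * (x - 8) * (x - (43 / 4)) * (x - 13) * ((29 / 2) - x) :=
          nlogB_p7 (by linarith) (by linarith) (by linarith) (by linarith) (by linarith) (by linarith) (by linarith)
        unfold nlogBG'
        apply div_nonpos_of_nonpos_of_nonneg _ (by positivity)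
        have h8 : (x - 2) * (x - (13 / 4)) * (x - (11 / 2)) * (x - 8) * (x - (43 / 4)) * (x - 13) * (x - (29 / 2)) = -((x - 2) * (x - (13 / 4)) * (x - (11 / 2)) * (x - 8) * (x - (43 / 4)) * (x - 13) * ((29 / 2) - x)) := by ring
        rw [h8]
        linarith
      · intro x hx1 hx2
        have hx0 : 0 < x := lt_trans (by norm_num) hx1
        have h7 : 0 ≤ (x - 2) * (x - (13 / 4)) * (x - (11 / 2)) * (x - 8) * (x - (43 / 4)) * (x - 13) * (x - (29 / 2)) :=
          nlogB_p7 (by linarith) (by linarith) (by linarith) (by linarith) (by linarith) (by linarith) (by linarith)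
        unfold nlogBG'
        apply div_nonneg _ (by positivity)
        have h8 : (x - 2) * (x - (13 / 4)) * (x - (11 / 2)) * (x - 8) * (x - (43 / 4)) * (x - 13) * (x - (29 / 2)) = (x - 2) * (x - (13 / 4)) * (x - (11 / 2)) * (x - 8) * (x - (43 / 4)) * (x - 13) * (x - (29 / 2)) := by ring
        rw [h8]
        linarith
  have hfin : PB t - t * Real.log t = t * nlogBG t := by
    unfold PB nlogBG
    ring
  have := mul_nonneg ht.le hG
  linarith

end Pool.Agent.PL2
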