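import Pool.Agent.PL2.NumDefs

open Set Filter Topology

namespace Pool.Agent.PL2

theorem nlogC_min {f f' : ℝ → ℝ} (hf : ∀ x, 0 < x → HasDerivAt f (f' x) x) {m t : ℝ}
    (hm : 0 < m) (ht : 0 < t) (h1 : ∀ x, t < x → x < m → f' x ≤ 0)
    (h2 : ∀ x, m < x → x < t → 0 ≤ f' x) : f m ≤ f t := by
  rcases le_total t m with h | h
  · have h3 : AntitoneOn f (Icc t m) := by
      apply antitoneOn_of_deriv_nonpos (convex_Icc t m)
      · exact fun x hx => (hf x (ht.trans_le hx.1)).continuousAt.continuousWithinAt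
      · intro x hx
        rw [interior_Icc] at hx
        exact (hf x (ht.trans hx.1)).differentiableAt.differentiableWithinAt
      · intro x hx
        rw [interior_Icc] at hx
        rw [(hf x (ht.trans hx.1)).deriv]
        exact h1 x hx.1 hx.2
    exact h3 (left_mem_Icc.2 h) (right_mem_Icc.2 h) h
  · have h3 : MonotoneOn f (Icc m t) := by
      apply monotoneOn_of_deriv_nonneg (convex_Icc m t)
      · exact fun x hx => (hf x (hm.trans_le hx.1)).continuousAt.continuousWithinAt
      · intro x hx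
        rw [interior_Icc] at hx
        exact (hf x (hm.trans hx.1)).differentiableAt.differentiableWithinAt
      · intro x hx
        rw [interior_Icc] at hx
        rw [(hf x (hm.trans hx.1)).deriv]
        exact h2 x hx.1 hx.2
    exact h3 (left_mem_Icc.2 h) (right_mem_Icc.2 h) h

theorem nlogC_log {x e s : ℝ} (n : ℕ) (hx : |x| ≤ e) (he : e < 1)
    (hs : ∑ i ∈ Finset.range n, x ^ (i + 1) / (i + 1) = s) :
    -s - e ^ (n + 1) / (1 - e) ≤ Real.log (1 - x) ∧
      Real.log (1 - x) ≤ -s + e ^ (n + 1) / (1 - e) := by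
  have h := Real.abs_log_sub_add_sum_range_le (hx.trans_lt he) n
  rw [hs] at h
  have h1 : |x| ^ (n + 1) / (1 - |x|) ≤ e ^ (n + 1) / (1 - e) := by
    have h2 : |x| ^ (n + 1) ≤ e ^ (n + 1) := pow_le_pow_left₀ (abs_nonneg _) hx _
    have h3 : 0 < 1 - e := by linarith
    have h4 : 1 - e ≤ 1 - |x| := by linarith
    exact div_le_div₀ (pow_nonneg ((abs_nonneg x).trans hx) _) h2 h3 h4
  have h5 := abs_le.1 (h.trans h1)
  constructor <;> linarith [h5.1, h5.2]

theorem nlogC_p7 {a b c d e f g : ℝ} (ha : 0 ≤ a) (hb : 0 ≤ b) (hc : 0 ≤ c) (hd : 0 ≤ d)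
    (he : 0 ≤ e) (hf : 0 ≤ f) (hg : 0 ≤ g) : 0 ≤ a * b * c * d * e * f * g := by
  positivity

/-- the function `g` -/
noncomputable def nlogCG (x : ℝ) : ℝ :=
  ((-5159 / 2000) + (588131414 / 92010765) * x ^ 1 + (-144660112 / 19517435) * x ^ 2 + (237948640 / 42938357) * x ^ 3 + (-15385280 / 6134051) * x ^ 4 + (28602880 / 42938357) * x ^ 5 + (-4096000 / 42938357) * x ^ 6 + (5120000 / 901705497) * x ^ 7) - Real.log x

/-- its derivative -/
noncomputable def nlogCG' (x : ℝ) : ℝ :=
  (5120000 / 128815071) * ((x - (7 / 20)) * (x - (7 / 10)) * (x - (29 / 20)) * (x - (41 / 20)) * (x - (11 / 4)) * (x - (67 / 20)) * (x - (15 / 4))) / x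

theorem nlogC_deriv {x : ℝ} (hx : 0 < x) : HasDerivAt nlogCG (nlogCG' x) x := by
  have p2 : HasDerivAt (fun x : ℝ => (588131414 / 92010765) * x ^ 1) ((588131414 / 92010765) * ((1 : ℕ) * x ^ (1 - 1))) x :=
    (hasDerivAt_pow 1 x).const_mul (588131414 / 92010765)
  have p3 : HasDerivAt (fun x : ℝ => (-144660112 / 19517435) * x ^ 2) ((-144660112 / 19517435) * ((2 : ℕ) * x ^ (2 - 1))) x :=
    (hasDerivAt_pow 2 x).const_mul (-144660112 / 19517435)
  have p4 : HasDerivAt (fun x : ℝ => (237948640 / 42938357) * x ^ 3) ((237948640 / 42938357) * ((3 : ℕ) * x ^ (3 - 1))) x :=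
    (hasDerivAt_pow 3 x).const_mul (237948640 / 42938357)
  have p5 : HasDerivAt (fun x : ℝ => (-15385280 / 6134051) * x ^ 4) ((-15385280 / 6134051) * ((4 : ℕ) * x ^ (4 - 1))) x :=
    (hasDerivAt_pow 4 x).const_mul (-15385280 / 6134051)
  have p6 : HasDerivAt (fun x : ℝ => (28602880 / 42938357) * x ^ 5) ((28602880 / 42938357) * ((5 : ℕ) * x ^ (5 - 1))) x :=
    (hasDerivAt_pow 5 x).const_mul (28602880 / 42938357)
  have p7 : HasDerivAt (fun x : ℝ => (-4096000 / 42938357) * x ^ 6) ((-4096000 / 42938357) * ((6 : ℕ) * x ^ (6 - 1))) x :=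
    (hasDerivAt_pow 6 x).const_mul (-4096000 / 42938357)
  have p8 : HasDerivAt (fun x : ℝ => (5120000 / 901705497) * x ^ 7) ((5120000 / 901705497) * ((7 : ℕ) * x ^ (7 - 1))) x :=
    (hasDerivAt_pow 7 x).const_mul (5120000 / 901705497)
  refine HasDerivAt.congr_deriv (f := nlogCG) ((((((((p2.const_add (-5159 / 2000)).add p3).add p4).add p5).add p6).add p7).add p8).sub (Real.hasDerivAt_log hx.ne')) ?_
  unfold nlogCG'
  have hx' := hx.ne'
  push_cast
  field_simp
  ring

theorem nlogC_v0 : 0 ≤ nlogCG (7 / 20) := by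
  have h2 := Real.log_two_gt_d9
  have h3 := Real.log_two_lt_d9
  have hl : Real.log (7 / 20) = (-1) * Real.log 2 + Real.log (1 - (3 / 10)) := by
    rw [show ((7 / 20) : ℝ) = (1 - (3 / 10)) / 2 ^ 1 by norm_num,
      Real.log_div (by norm_num) (by norm_num), Real.log_pow]
    push_cast
    ring
  have hb := nlogC_log (x := (3 / 10)) (e := (3 / 10)) (s := (142653 / 400000)) 6
    (by rw [abs_le]; constructor <;> norm_num) (by norm_num)
    (by norm_num [Finset.sum_range_succ])
  obtain ⟨hb1, hb2⟩ := hb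
  have hv : (-5159 / 2000) + (588131414 / 92010765) * ((7 / 20) : ℝ) ^ 1 + (-144660112 / 19517435) * ((7 / 20) : ℝ) ^ 2 + (237948640 / 42938357) * ((7 / 20) : ℝ) ^ 3 + (-15385280 / 6134051) * ((7 / 20) : ℝ) ^ 4 + (28602880 / 42938357) * ((7 / 20) : ℝ) ^ 5 + (-4096000 / 42938357) * ((7 / 20) : ℝ) ^ 6 + (5120000 / 901705497) * ((7 / 20) : ℝ) ^ 7 = (-834047353 / 796630000) := by
    norm_num
  unfold nlogCG
  rw [hv, hl]
  norm_num at hb1 hb2 ⊢
  linarith

theorem nlogC_v2 : 0 ≤ nlogCG (29 / 20) := by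
  have h2 := Real.log_two_gt_d9
  have h3 := Real.log_two_lt_d9
  have hl : Real.log (29 / 20) = 1 * Real.log 2 + Real.log (1 - (11 / 40)) := by
    rw [show ((29 / 20) : ℝ) = 2 ^ 1 * (1 - (11 / 40)) by norm_num,
      Real.log_mul (by norm_num) (by norm_num), Real.log_pow]
    norm_num
  have hb := nlogC_log (x := (11 / 40)) (e := (11 / 40)) (s := (7902688409 / 24576000000)) 6
    (by rw [abs_le]; constructor <;> norm_num) (by norm_num)
    (by norm_num [Finset.sum_range_succ])
  obtain ⟨hb1, hb2⟩ := hb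
  have hv : (-5159 / 2000) + (588131414 / 92010765) * ((29 / 20) : ℝ) ^ 1 + (-144660112 / 19517435) * ((29 / 20) : ℝ) ^ 2 + (237948640 / 42938357) * ((29 / 20) : ℝ) ^ 3 + (-15385280 / 6134051) * ((29 / 20) : ℝ) ^ 4 + (28602880 / 42938357) * ((29 / 20) : ℝ) ^ 5 + (-4096000 / 42938357) * ((29 / 20) : ℝ) ^ 6 + (5120000 / 901705497) * ((29 / 20) : ℝ) ^ 7 = (3506368853 / 9422210000) := by
    norm_num
  unfold nlogCG
  rw [hv, hl]
  norm_num at hb1 hb2 ⊢
  linarith

theorem nlogC_v4 : 0 ≤ nlogCG (11 / 4) := by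
  have h2 := Real.log_two_gt_d9
  have h3 := Real.log_two_lt_d9
  have hl : Real.log (11 / 4) = 2 * Real.log 2 + Real.log (1 - (5 / 16)) := by
    rw [show ((11 / 4) : ℝ) = 2 ^ 2 * (1 - (5 / 16)) by norm_num,
      Real.log_mul (by norm_num) (by norm_num), Real.log_pow]
    norm_num
  have hb := nlogC_log (x := (5 / 16)) (e := (5 / 16)) (s := (2112112255 / 5637144576)) 7
    (by rw [abs_le]; constructor <;> norm_num) (by norm_num)
    (by norm_num [Finset.sum_range_succ])
  obtain ⟨hb1, hb2⟩ := hb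
  have hv : (-5159 / 2000) + (588131414 / 92010765) * ((11 / 4) : ℝ) ^ 1 + (-144660112 / 19517435) * ((11 / 4) : ℝ) ^ 2 + (237948640 / 42938357) * ((11 / 4) : ℝ) ^ 3 + (-15385280 / 6134051) * ((11 / 4) : ℝ) ^ 4 + (28602880 / 42938357) * ((11 / 4) : ℝ) ^ 5 + (-4096000 / 42938357) * ((11 / 4) : ℝ) ^ 6 + (5120000 / 901705497) * ((11 / 4) : ℝ) ^ 7 = (55309921069 / 54648818000) := by
    norm_num
  unfold nlogCG
  rw [hv, hl]
  norm_num at hb1 hb2 ⊢
  linarith

theorem nlogC_v6 : 0 ≤ nlogCG (15 / 4) := by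
  have h2 := Real.log_two_gt_d9
  have h3 := Real.log_two_lt_d9
  have hl : Real.log (15 / 4) = 2 * Real.log 2 + Real.log (1 - (1 / 16)) := by
    rw [show ((15 / 4) : ℝ) = 2 ^ 2 * (1 - (1 / 16)) by norm_num,
      Real.log_mul (by norm_num) (by norm_num), Real.log_pow]
    norm_num
  have hb := nlogC_log (x := (1 / 16)) (e := (1 / 16)) (s := (33 / 512)) 2
    (by rw [abs_le]; constructor <;> norm_num) (by norm_num)
    (by norm_num [Finset.sum_range_succ])
  obtain ⟨hb1, hb2⟩ := hb
  have hv : (-5159 / 2000) + (588131414 / 92010765) * ((15 / 4) : ℝ) ^ 1 + (-144660112 / 19517435) * ((15 / 4) : ℝ) ^ 2 + (237948640 / 42938357) * ((15 / 4) : ℝ) ^ 3 + (-15385280 / 6134051) * ((15 / 4) : ℝ) ^ 4 + (28602880 / 42938357) * ((15 / 4) : ℝ) ^ 5 + (-4096000 / 42938357) * ((15 / 4) : ℝ) ^ 6 + (5120000 / 901705497) * ((15 / 4) : ℝ) ^ 7 = (795115434159 / 601136998000) := by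
    norm_num
  unfold nlogCG
  rw [hv, hl]
  norm_num at hb1 hb2 ⊢
  linarith

/-- `PC t - t log t = t g(t)`, `g(t) = PC t / t - log t`, `g'(t) = κ (t-7/20)(t-7/10)(t-29/20)(t-41/20)(t-11/4)(t-67/20)(t-15/4)/t`, `κ > 0`, so the minima of
`g` on `(0,∞)` are at `7/20, 29/20, 11/4, 15/4` (numerically 0.00285, 0.00058, 0.0005, 0.0009). -/
theorem le_PC {t : ℝ} (ht : 0 ≤ t) : t * Real.log t ≤ PC t := by
  rcases ht.eq_or_lt with rfl | ht
  · unfold PC
    norm_num
  have hd : ∀ x, 0 < x → HasDerivAt nlogCG (nlogCG' x) x := fun x hx => nlogC_deriv hx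
  have hG : 0 ≤ nlogCG t := by
    rcases le_total t (7 / 10) with h | h
    · refine nlogC_v0.trans (nlogC_min hd (by norm_num) ht ?_ ?_)
      · intro x hx1 hx2
        have hx0 : 0 < x := ht.trans hx1
        have h7 : 0 ≤ ((7 / 20) - x) * ((7 / 10) - x) * ((29 / 20) - x) * ((41 / 20) - x) * ((11 / 4) - x) * ((67 / 20) - x) * ((15 / 4) - x) :=
          nlogC_p7 (by linarith) (by linarith) (by linarith) (by linarith) (by linarith) (by linarith) (by linarith)
        unfold nlogCG'
        apply div_nonpos_of_nonpos_of_nonneg _ (by positivity)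
        have h8 : (x - (7 / 20)) * (x - (7 / 10)) * (x - (29 / 20)) * (x - (41 / 20)) * (x - (11 / 4)) * (x - (67 / 20)) * (x - (15 / 4)) = -(((7 / 20) - x) * ((7 / 10) - x) * ((29 / 20) - x) * ((41 / 20) - x) * ((11 / 4) - x) * ((67 / 20) - x) * ((15 / 4) - x)) := by ring
        rw [h8]
        linarith
      · intro x hx1 hx2
        have hx0 : 0 < x := lt_trans (by norm_num) hx1
        have h7 : 0 ≤ (x - (7 / 20)) * ((7 / 10) - x) * ((29 / 20) - x) * ((41 / 20) - x) * ((11 / 4) - x) * ((67 / 20) - x) * ((15 / 4) - x) :=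
          nlogC_p7 (by linarith) (by linarith) (by linarith) (by linarith) (by linarith) (by linarith) (by linarith)
        unfold nlogCG'
        apply div_nonneg _ (by positivity)
        have h8 : (x - (7 / 20)) * (x - (7 / 10)) * (x - (29 / 20)) * (x - (41 / 20)) * (x - (11 / 4)) * (x - (67 / 20)) * (x - (15 / 4)) = (x - (7 / 20)) * ((7 / 10) - x) * ((29 / 20) - x) * ((41 / 20) - x) * ((11 / 4) - x) * ((67 / 20) - x) * ((15 / 4) - x) := by ring
        rw [h8]
        linarith
    rcases le_total t (41 / 20) with h' | h'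
    · refine nlogC_v2.trans (nlogC_min hd (by norm_num) ht ?_ ?_)
      · intro x hx1 hx2
        have hx0 : 0 < x := ht.trans hx1
        have h7 : 0 ≤ (x - (7 / 20)) * (x - (7 / 10)) * ((29 / 20) - x) * ((41 / 20) - x) * ((11 / 4) - x) * ((67 / 20) - x) * ((15 / 4) - x) :=
          nlogC_p7 (by linarith) (by linarith) (by linarith) (by linarith) (by linarith) (by linarith) (by linarith)
        unfold nlogCG'
        apply div_nonpos_of_nonpos_of_nonneg _ (by positivity)
        have h8 : (x - (7 / 20)) * (x - (7 / 10)) * (x - (29 / 20)) * (x - (41 / 20)) * (x - (11 / 4)) * (x - (67 / 20)) * (x - (15 / 4)) = -((x - (7 / 20)) * (x - (7 / 10)) * ((29 / 20) - x) * ((41 / 20) - x) * ((11 / 4) - x) * ((67 / 20) - x) * ((15 / 4) - x)) := by ring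
        rw [h8]
        linarith
      · intro x hx1 hx2
        have hx0 : 0 < x := lt_trans (by norm_num) hx1
        have h7 : 0 ≤ (x - (7 / 20)) * (x - (7 / 10)) * (x - (29 / 20)) * ((41 / 20) - x) * ((11 / 4) - x) * ((67 / 20) - x) * ((15 / 4) - x) :=
          nlogC_p7 (by linarith) (by linarith) (by linarith) (by linarith) (by linarith) (by linarith) (by linarith)
        unfold nlogCG'
        apply div_nonneg _ (by positivity)
        have h8 : (x - (7 / 20)) * (x - (7 / 10)) * (x - (29 / 20)) * (x - (41 / 20)) * (x - (11 / 4)) * (x - (67 / 20)) * (x - (15 / 4)) = (x - (7 / 20)) * (x - (7 / 10)) * (x - (29 / 20)) * ((41 / 20) - x) * ((11 / 4) - x) * ((67 / 20) - x) * ((15 / 4) - x) := by ring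
        rw [h8]
        linarith
    rcases le_total t (67 / 20) with h'' | h''
    · refine nlogC_v4.trans (nlogC_min hd (by norm_num) ht ?_ ?_)
      · intro x hx1 hx2
        have hx0 : 0 < x := ht.trans hx1
        have h7 : 0 ≤ (x - (7 / 20)) * (x - (7 / 10)) * (x - (29 / 20)) * (x - (41 / 20)) * ((11 / 4) - x) * ((67 / 20) - x) * ((15 / 4) - x) :=
          nlogC_p7 (by linarith) (by linarith) (by linarith) (by linarith) (by linarith) (by linarith) (by linarith)
        unfold nlogCG'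
        apply div_nonpos_of_nonpos_of_nonneg _ (by positivity)
        have h8 : (x - (7 / 20)) * (x - (7 / 10)) * (x - (29 / 20)) * (x - (41 / 20)) * (x - (11 / 4)) * (x - (67 / 20)) * (x - (15 / 4)) = -((x - (7 / 20)) * (x - (7 / 10)) * (x - (29 / 20)) * (x - (41 / 20)) * ((11 / 4) - x) * ((67 / 20) - x) * ((15 / 4) - x)) := by ring
        rw [h8]
        linarith
      · intro x hx1 hx2
        have hx0 : 0 < x := lt_trans (by norm_num) hx1
        have h7 : 0 ≤ (x - (7 / 20)) * (x - (7 / 10)) * (x - (29 / 20)) * (x - (41 / 20)) * (x - (11 / 4)) * ((67 / 20) - x) * ((15 / 4) - x) :=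
          nlogC_p7 (by linarith) (by linarith) (by linarith) (by linarith) (by linarith) (by linarith) (by linarith)
        unfold nlogCG'
        apply div_nonneg _ (by positivity)
        have h8 : (x - (7 / 20)) * (x - (7 / 10)) * (x - (29 / 20)) * (x - (41 / 20)) * (x - (11 / 4)) * (x - (67 / 20)) * (x - (15 / 4)) = (x - (7 / 20)) * (x - (7 / 10)) * (x - (29 / 20)) * (x - (41 / 20)) * (x - (11 / 4)) * ((67 / 20) - x) * ((15 / 4) - x) := by ring
        rw [h8]
        linarith
    · refine nlogC_v6.trans (nlogC_min hd (by norm_num) ht ?_ ?_)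
      · intro x hx1 hx2
        have hx0 : 0 < x := ht.trans hx1
        have h7 : 0 ≤ (x - (7 / 20)) * (x - (7 / 10)) * (x - (29 / 20)) * (x - (41 / 20)) * (x - (11 / 4)) * (x - (67 / 20)) * ((15 / 4) - x) :=
          nlogC_p7 (by linarith) (by linarith) (by linarith) (by linarith) (by linarith) (by linarith) (by linarith)
        unfold nlogCG'
        apply div_nonpos_of_nonpos_of_nonneg _ (by positivity)
        have h8 : (x - (7 / 20)) * (x - (7 / 10)) * (x - (29 / 20)) * (x - (41 / 20)) * (x - (11 / 4)) * (x - (67 / 20)) * (x - (15 / 4)) = -((x - (7 / 20)) * (x - (7 / 10)) * (x - (29 / 20)) * (x - (41 / 20)) * (x - (11 / 4)) * (x - (67 / 20)) * ((15 / 4) - x)) := by ring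
        rw [h8]
        linarith
      · intro x hx1 hx2
        have hx0 : 0 < x := lt_trans (by norm_num) hx1
        have h7 : 0 ≤ (x - (7 / 20)) * (x - (7 / 10)) * (x - (29 / 20)) * (x - (41 / 20)) * (x - (11 / 4)) * (x - (67 / 20)) * (x - (15 / 4)) :=
          nlogC_p7 (by linarith) (by linarith) (by linarith) (by linarith) (by linarith) (by linarith) (by linarith)
        unfold nlogCG'
        apply div_nonneg _ (by positivity)
        have h8 : (x - (7 / 20)) * (x - (7 / 10)) * (x - (29 / 20)) * (x - (41 / 20)) * (x - (11 / 4)) * (x - (67 / 20)) * (x - (15 / 4)) = (x - (7 / 20)) * (x - (7 / 10)) * (x - (29 / 20)) * (x - (41 / 20)) * (x - (11 / 4)) * (x - (67 / 20)) * (x - (15 / 4)) := by ring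
        rw [h8]
        linarith
  have hfin : PC t - t * Real.log t = t * nlogCG t := by
    unfold PC nlogCG
    ring
  have := mul_nonneg ht.le hG
  linarith

end Pool.Agent.PL2
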