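import Pool.Agent.PL2.NumDefs

open Set Filter Topology

namespace Pool.Agent.PL2

theorem nlogD_min {f f' : ℝ → ℝ} (hf : ∀ x, 0 < x → HasDerivAt f (f' x) x) {m t : ℝ}
    (hm : 0 < m) (ht : 0 < t) (h1 : ∀ x, t < x → x < m → f' x ≤ 0)
    (h2 : ∀ x, m < x → x < t → 0 ≤ f' x) : f m ≤ f t := by
  rcases le_total t m with h | h
  · have h3 : AntitoneOn f (Icc t m) := by
      apply antitoneOn_of_deriv_nonpos (convex_Icc t m)
      · exact fun x hx => (hf x (ht.trans_le hx.1)).continuousAt.continuousWithinAt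
      · intro x hx
        rw [interior_Icc] at hx
        exact (hf x (ht.trans hx.1)).differentiableAt.differentiableWithinAt
      · intro x hx
        rw [interior_Icc] at hx
        rw [(hf x (ht.trans hx.1)).deriv]
        exact h1 x hx.1 hx.2
    exact h3 (left_mem_Icc.2 h) (right_mem_Icc.2 h) h
  · have h3 : MonotoneOn f (Icc m t) := by
      apply monotoneOn_of_deriv_nonneg (convex_Icc m t)
      · exact fun x hx => (hf x (hm.trans_le hx.1)).continuousAt.continuousWithinAt
      · intro x hx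
        rw [interior_Icc] at hx
        exact (hf x (hm.trans hx.1)).differentiableAt.differentiableWithinAt
      · intro x hx
        rw [interior_Icc] at hx
        rw [(hf x (hm.trans hx.1)).deriv]
        exact h2 x hx.1 hx.2
    exact h3 (left_mem_Icc.2 h) (right_mem_Icc.2 h) h

theorem nlogD_log {x e s : ℝ} (n : ℕ) (hx : |x| ≤ e) (he : e < 1)
    (hs : ∑ i ∈ Finset.range n, x ^ (i + 1) / (i + 1) = s) :
    -s - e ^ (n + 1) / (1 - e) ≤ Real.log (1 - x) ∧
      Real.log (1 - x) ≤ -s + e ^ (n + 1) / (1 - e) := by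
  have h := Real.abs_log_sub_add_sum_range_le (hx.trans_lt he) n
  rw [hs] at h
  have h1 : |x| ^ (n + 1) / (1 - |x|) ≤ e ^ (n + 1) / (1 - e) := by
    have h2 : |x| ^ (n + 1) ≤ e ^ (n + 1) := pow_le_pow_left₀ (abs_nonneg _) hx _
    have h3 : 0 < 1 - e := by linarith
    have h4 : 1 - e ≤ 1 - |x| := by linarith
    exact div_le_div₀ (pow_nonneg ((abs_nonneg x).trans hx) _) h2 h3 h4
  have h5 := abs_le.1 (h.trans h1)
  constructor <;> linarith [h5.1, h5.2]

theorem nlogD_p7 {a b c d e f g : ℝ} (ha : 0 ≤ a) (hb : 0 ≤ b) (hc : 0 ≤ c) (hd : 0 ≤ d)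
    (he : 0 ≤ e) (hf : 0 ≤ f) (hg : 0 ≤ g) : 0 ≤ a * b * c * d * e * f * g := by
  positivity

/-- the function `g` -/
noncomputable def nlogDG (x : ℝ) : ℝ :=
  Real.log x - ((-73642803 / 1127911190) * x⁻¹ + (-811 / 400) + (13223314490 / 3270942451) * x ^ 1 + (-10043616850 / 3270942451) * x ^ 2 + (14353016000 / 9812827353) * x ^ 3 + (-1300370000 / 3270942451) * x ^ 4 + (184960000 / 3270942451) * x ^ 5 + (-32000000 / 9812827353) * x ^ 6)

/-- its derivative -/
noncomputable def nlogDG' (x : ℝ) : ℝ :=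
  (64000000 / 3270942451) * ((x - (1 / 10)) * (x - (13 / 40)) * (x - (23 / 20)) * (x - (19 / 10)) * (x - (29 / 10)) * (x - (149 / 40)) * (x - (87 / 20))) / x ^ 2

theorem nlogD_deriv {x : ℝ} (hx : 0 < x) : HasDerivAt nlogDG (nlogDG' x) x := by
  have p2 : HasDerivAt (fun x : ℝ => (13223314490 / 3270942451) * x ^ 1) ((13223314490 / 3270942451) * ((1 : ℕ) * x ^ (1 - 1))) x :=
    (hasDerivAt_pow 1 x).const_mul (13223314490 / 3270942451)
  have p3 : HasDerivAt (fun x : ℝ => (-10043616850 / 3270942451) * x ^ 2) ((-10043616850 / 3270942451) * ((2 : ℕ) * x ^ (2 - 1))) x :=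
    (hasDerivAt_pow 2 x).const_mul (-10043616850 / 3270942451)
  have p4 : HasDerivAt (fun x : ℝ => (14353016000 / 9812827353) * x ^ 3) ((14353016000 / 9812827353) * ((3 : ℕ) * x ^ (3 - 1))) x :=
    (hasDerivAt_pow 3 x).const_mul (14353016000 / 9812827353)
  have p5 : HasDerivAt (fun x : ℝ => (-1300370000 / 3270942451) * x ^ 4) ((-1300370000 / 3270942451) * ((4 : ℕ) * x ^ (4 - 1))) x :=
    (hasDerivAt_pow 4 x).const_mul (-1300370000 / 3270942451)
  have p6 : HasDerivAt (fun x : ℝ => (184960000 / 3270942451) * x ^ 5) ((184960000 / 3270942451) * ((5 : ℕ) * x ^ (5 - 1))) x :=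
    (hasDerivAt_pow 5 x).const_mul (184960000 / 3270942451)
  have p7 : HasDerivAt (fun x : ℝ => (-32000000 / 9812827353) * x ^ 6) ((-32000000 / 9812827353) * ((6 : ℕ) * x ^ (6 - 1))) x :=
    (hasDerivAt_pow 6 x).const_mul (-32000000 / 9812827353)
  have pi : HasDerivAt (fun x : ℝ => (-73642803 / 1127911190) * x⁻¹) ((-73642803 / 1127911190) * (-(x ^ 2)⁻¹)) x :=
    (hasDerivAt_inv hx.ne').const_mul (-73642803 / 1127911190)
  refine HasDerivAt.congr_deriv (f := nlogDG) ((Real.hasDerivAt_log hx.ne').sub (((((((pi.add_const (-811 / 400)).add p2).add p3).add p4).add p5).add p6).add p7)) ?_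
  unfold nlogDG'
  have hx' := hx.ne'
  push_cast
  field_simp
  ring

theorem nlogD_v0 : 0 ≤ nlogDG (1 / 10) := by
  have h2 := Real.log_two_gt_d9
  have h3 := Real.log_two_lt_d9
  have hl : Real.log (1 / 10) = (-3) * Real.log 2 + Real.log (1 - (1 / 5)) := by
    rw [show ((1 / 10) : ℝ) = (1 - (1 / 5)) / 2 ^ 3 by norm_num,
      Real.log_div (by norm_num) (by norm_num), Real.log_pow]
    push_cast
    ring
  have hb := nlogD_log (x := (1 / 5)) (e := (1 / 5)) (s := (1673 / 7500)) 4
    (by rw [abs_le]; constructor <;> norm_num) (by norm_num)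
    (by norm_num [Finset.sum_range_succ])
  obtain ⟨hb1, hb2⟩ := hb
  have hv : (-73642803 / 1127911190) * ((1 / 10) : ℝ)⁻¹ + (-811 / 400) + (13223314490 / 3270942451) * ((1 / 10) : ℝ) ^ 1 + (-10043616850 / 3270942451) * ((1 / 10) : ℝ) ^ 2 + (14353016000 / 9812827353) * ((1 / 10) : ℝ) ^ 3 + (-1300370000 / 3270942451) * ((1 / 10) : ℝ) ^ 4 + (184960000 / 3270942451) * ((1 / 10) : ℝ) ^ 5 + (-32000000 / 9812827353) * ((1 / 10) : ℝ) ^ 6 = (-3016370274121 / 1308376980400) := by
    norm_num
  unfold nlogDG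
  rw [hv, hl]
  norm_num at hb1 hb2 ⊢
  linarith

theorem nlogD_v2 : 0 ≤ nlogDG (23 / 20) := by
  have h2 := Real.log_two_gt_d9
  have h3 := Real.log_two_lt_d9
  have hl : Real.log (23 / 20) = 0 * Real.log 2 + Real.log (1 - (-3 / 20)) := by
    rw [show ((23 / 20) : ℝ) = 2 ^ 0 * (1 - (-3 / 20)) by norm_num,
      Real.log_mul (by norm_num) (by norm_num), Real.log_pow]
    norm_num
  have hb := nlogD_log (x := (-3 / 20)) (e := (3 / 20)) (s := (-89439 / 640000)) 4
    (by rw [abs_le]; constructor <;> norm_num) (by norm_num)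
    (by norm_num [Finset.sum_range_succ])
  obtain ⟨hb1, hb2⟩ := hb
  have hv : (-73642803 / 1127911190) * ((23 / 20) : ℝ)⁻¹ + (-811 / 400) + (13223314490 / 3270942451) * ((23 / 20) : ℝ) ^ 1 + (-10043616850 / 3270942451) * ((23 / 20) : ℝ) ^ 2 + (14353016000 / 9812827353) * ((23 / 20) : ℝ) ^ 3 + (-1300370000 / 3270942451) * ((23 / 20) : ℝ) ^ 4 + (184960000 / 3270942451) * ((23 / 20) : ℝ) ^ 5 + (-32000000 / 9812827353) * ((23 / 20) : ℝ) ^ 6 = (11398960289 / 81773561275) := by
    norm_num
  unfold nlogDG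
  rw [hv, hl]
  norm_num at hb1 hb2 ⊢
  linarith

theorem nlogD_v4 : 0 ≤ nlogDG (29 / 10) := by
  have h2 := Real.log_two_gt_d9
  have h3 := Real.log_two_lt_d9
  have hl : Real.log (29 / 10) = 2 * Real.log 2 + Real.log (1 - (11 / 40)) := by
    rw [show ((29 / 10) : ℝ) = 2 ^ 2 * (1 - (11 / 40)) by norm_num,
      Real.log_mul (by norm_num) (by norm_num), Real.log_pow]
    norm_num
  have hb := nlogD_log (x := (11 / 40)) (e := (11 / 40)) (s := (7902688409 / 24576000000)) 6
    (by rw [abs_le]; constructor <;> norm_num) (by norm_num)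
    (by norm_num [Finset.sum_range_succ])
  obtain ⟨hb1, hb2⟩ := hb
  have hv : (-73642803 / 1127911190) * ((29 / 10) : ℝ)⁻¹ + (-811 / 400) + (13223314490 / 3270942451) * ((29 / 10) : ℝ) ^ 1 + (-10043616850 / 3270942451) * ((29 / 10) : ℝ) ^ 2 + (14353016000 / 9812827353) * ((29 / 10) : ℝ) ^ 3 + (-1300370000 / 3270942451) * ((29 / 10) : ℝ) ^ 4 + (184960000 / 3270942451) * ((29 / 10) : ℝ) ^ 5 + (-32000000 / 9812827353) * ((29 / 10) : ℝ) ^ 6 = (144020322793 / 135349342800) := by
    norm_num
  unfold nlogDG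
  rw [hv, hl]
  norm_num at hb1 hb2 ⊢
  linarith

theorem nlogD_v6 : 0 ≤ nlogDG (87 / 20) := by
  have h2 := Real.log_two_gt_d9
  have h3 := Real.log_two_lt_d9
  have hl : Real.log (87 / 20) = 2 * Real.log 2 + Real.log (1 - (-7 / 80)) := by
    rw [show ((87 / 20) : ℝ) = 2 ^ 2 * (1 - (-7 / 80)) by norm_num,
      Real.log_mul (by norm_num) (by norm_num), Real.log_pow]
    norm_num
  have hb := nlogD_log (x := (-7 / 80)) (e := (7 / 80)) (s := (-128863 / 1536000)) 3
    (by rw [abs_le]; constructor <;> norm_num) (by norm_num)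
    (by norm_num [Finset.sum_range_succ])
  obtain ⟨hb1, hb2⟩ := hb
  have hv : (-73642803 / 1127911190) * ((87 / 20) : ℝ)⁻¹ + (-811 / 400) + (13223314490 / 3270942451) * ((87 / 20) : ℝ) ^ 1 + (-10043616850 / 3270942451) * ((87 / 20) : ℝ) ^ 2 + (14353016000 / 9812827353) * ((87 / 20) : ℝ) ^ 3 + (-1300370000 / 3270942451) * ((87 / 20) : ℝ) ^ 4 + (184960000 / 3270942451) * ((87 / 20) : ℝ) ^ 5 + (-32000000 / 9812827353) * ((87 / 20) : ℝ) ^ 6 = (4144211861 / 2819777975) := by
    norm_num
  unfold nlogDG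
  rw [hv, hl]
  norm_num at hb1 hb2 ⊢
  linarith

/-- `t log t - PD t = t g(t)`, `g(t) = log t - PD t / t`, `g'(t) = κ (t-1/10)(t-13/40)(t-23/20)(t-19/10)(t-29/10)(t-149/40)(t-87/20)/t²`, `κ > 0`, so the
minima of `g` on `(0,∞)` are at `1/10, 23/20, 29/10, 87/20` (numerically 0.0028, 0.00037, 0.00065,
0.0005). -/
theorem PD_le {t : ℝ} (ht : 0 ≤ t) : PD t ≤ t * Real.log t := by
  rcases ht.eq_or_lt with rfl | ht
  · unfold PD
    norm_num
  have hd : ∀ x, 0 < x → HasDerivAt nlogDG (nlogDG' x) x := fun x hx => nlogD_deriv hx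
  have hG : 0 ≤ nlogDG t := by
    rcases le_total t (13 / 40) with h | h
    · refine nlogD_v0.trans (nlogD_min hd (by norm_num) ht ?_ ?_)
      · intro x hx1 hx2
        have hx0 : 0 < x := ht.trans hx1
        have h7 : 0 ≤ ((1 / 10) - x) * ((13 / 40) - x) * ((23 / 20) - x) * ((19 / 10) - x) * ((29 / 10) - x) * ((149 / 40) - x) * ((87 / 20) - x) :=
          nlogD_p7 (by linarith) (by linarith) (by linarith) (by linarith) (by linarith) (by linarith) (by linarith)
        unfold nlogDG'
        apply div_nonpos_of_nonpos_of_nonneg _ (by positivity)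
        have h8 : (x - (1 / 10)) * (x - (13 / 40)) * (x - (23 / 20)) * (x - (19 / 10)) * (x - (29 / 10)) * (x - (149 / 40)) * (x - (87 / 20)) = -(((1 / 10) - x) * ((13 / 40) - x) * ((23 / 20) - x) * ((19 / 10) - x) * ((29 / 10) - x) * ((149 / 40) - x) * ((87 / 20) - x)) := by ring
        rw [h8]
        linarith
      · intro x hx1 hx2
        have hx0 : 0 < x := lt_trans (by norm_num) hx1
        have h7 : 0 ≤ (x - (1 / 10)) * ((13 / 40) - x) * ((23 / 20) - x) * ((19 / 10) - x) * ((29 / 10) - x) * ((149 / 40) - x) * ((87 / 20) - x) :=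
          nlogD_p7 (by linarith) (by linarith) (by linarith) (by linarith) (by linarith) (by linarith) (by linarith)
        unfold nlogDG'
        apply div_nonneg _ (by positivity)
        have h8 : (x - (1 / 10)) * (x - (13 / 40)) * (x - (23 / 20)) * (x - (19 / 10)) * (x - (29 / 10)) * (x - (149 / 40)) * (x - (87 / 20)) = (x - (1 / 10)) * ((13 / 40) - x) * ((23 / 20) - x) * ((19 / 10) - x) * ((29 / 10) - x) * ((149 / 40) - x) * ((87 / 20) - x) := by ring
        rw [h8]
        linarith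
    rcases le_total t (19 / 10) with h' | h'
    · refine nlogD_v2.trans (nlogD_min hd (by norm_num) ht ?_ ?_)
      · intro x hx1 hx2
        have hx0 : 0 < x := ht.trans hx1
        have h7 : 0 ≤ (x - (1 / 10)) * (x - (13 / 40)) * ((23 / 20) - x) * ((19 / 10) - x) * ((29 / 10) - x) * ((149 / 40) - x) * ((87 / 20) - x) :=
          nlogD_p7 (by linarith) (by linarith) (by linarith) (by linarith) (by linarith) (by linarith) (by linarith)
        unfold nlogDG'
        apply div_nonpos_of_nonpos_of_nonneg _ (by positivity)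
        have h8 : (x - (1 / 10)) * (x - (13 / 40)) * (x - (23 / 20)) * (x - (19 / 10)) * (x - (29 / 10)) * (x - (149 / 40)) * (x - (87 / 20)) = -((x - (1 / 10)) * (x - (13 / 40)) * ((23 / 20) - x) * ((19 / 10) - x) * ((29 / 10) - x) * ((149 / 40) - x) * ((87 / 20) - x)) := by ring
        rw [h8]
        linarith
      · intro x hx1 hx2
        have hx0 : 0 < x := lt_trans (by norm_num) hx1
        have h7 : 0 ≤ (x - (1 / 10)) * (x - (13 / 40)) * (x - (23 / 20)) * ((19 / 10) - x) * ((29 / 10) - x) * ((149 / 40) - x) * ((87 / 20) - x) :=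
          nlogD_p7 (by linarith) (by linarith) (by linarith) (by linarith) (by linarith) (by linarith) (by linarith)
        unfold nlogDG'
        apply div_nonneg _ (by positivity)
        have h8 : (x - (1 / 10)) * (x - (13 / 40)) * (x - (23 / 20)) * (x - (19 / 10)) * (x - (29 / 10)) * (x - (149 / 40)) * (x - (87 / 20)) = (x - (1 / 10)) * (x - (13 / 40)) * (x - (23 / 20)) * ((19 / 10) - x) * ((29 / 10) - x) * ((149 / 40) - x) * ((87 / 20) - x) := by ring
        rw [h8]
        linarith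
    rcases le_total t (149 / 40) with h'' | h''
    · refine nlogD_v4.trans (nlogD_min hd (by norm_num) ht ?_ ?_)
      · intro x hx1 hx2
        have hx0 : 0 < x := ht.trans hx1
        have h7 : 0 ≤ (x - (1 / 10)) * (x - (13 / 40)) * (x - (23 / 20)) * (x - (19 / 10)) * ((29 / 10) - x) * ((149 / 40) - x) * ((87 / 20) - x) :=
          nlogD_p7 (by linarith) (by linarith) (by linarith) (by linarith) (by linarith) (by linarith) (by linarith)
        unfold nlogDG'
        apply div_nonpos_of_nonpos_of_nonneg _ (by positivity)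
        have h8 : (x - (1 / 10)) * (x - (13 / 40)) * (x - (23 / 20)) * (x - (19 / 10)) * (x - (29 / 10)) * (x - (149 / 40)) * (x - (87 / 20)) = -((x - (1 / 10)) * (x - (13 / 40)) * (x - (23 / 20)) * (x - (19 / 10)) * ((29 / 10) - x) * ((149 / 40) - x) * ((87 / 20) - x)) := by ring
        rw [h8]
        linarith
      · intro x hx1 hx2
        have hx0 : 0 < x := lt_trans (by norm_num) hx1
        have h7 : 0 ≤ (x - (1 / 10)) * (x - (13 / 40)) * (x - (23 / 20)) * (x - (19 / 10)) * (x - (29 / 10)) * ((149 / 40) - x) * ((87 / 20) - x) :=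
          nlogD_p7 (by linarith) (by linarith) (by linarith) (by linarith) (by linarith) (by linarith) (by linarith)
        unfold nlogDG'
        apply div_nonneg _ (by positivity)
        have h8 : (x - (1 / 10)) * (x - (13 / 40)) * (x - (23 / 20)) * (x - (19 / 10)) * (x - (29 / 10)) * (x - (149 / 40)) * (x - (87 / 20)) = (x - (1 / 10)) * (x - (13 / 40)) * (x - (23 / 20)) * (x - (19 / 10)) * (x - (29 / 10)) * ((149 / 40) - x) * ((87 / 20) - x) := by ring
        rw [h8]
        linarith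
    · refine nlogD_v6.trans (nlogD_min hd (by norm_num) ht ?_ ?_)
      · intro x hx1 hx2
        have hx0 : 0 < x := ht.trans hx1
        have h7 : 0 ≤ (x - (1 / 10)) * (x - (13 / 40)) * (x - (23 / 20)) * (x - (19 / 10)) * (x - (29 / 10)) * (x - (149 / 40)) * ((87 / 20) - x) :=
          nlogD_p7 (by linarith) (by linarith) (by linarith) (by linarith) (by linarith) (by linarith) (by linarith)
        unfold nlogDG'
        apply div_nonpos_of_nonpos_of_nonneg _ (by positivity)
        have h8 : (x - (1 / 10)) * (x - (13 / 40)) * (x - (23 / 20)) * (x - (19 / 10)) * (x - (29 / 10)) * (x - (149 / 40)) * (x - (87 / 20)) = -((x - (1 / 10)) * (x - (13 / 40)) * (x - (23 / 20)) * (x - (19 / 10)) * (x - (29 / 10)) * (x - (149 / 40)) * ((87 / 20) - x)) := by ring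
        rw [h8]
        linarith
      · intro x hx1 hx2
        have hx0 : 0 < x := lt_trans (by norm_num) hx1
        have h7 : 0 ≤ (x - (1 / 10)) * (x - (13 / 40)) * (x - (23 / 20)) * (x - (19 / 10)) * (x - (29 / 10)) * (x - (149 / 40)) * (x - (87 / 20)) :=
          nlogD_p7 (by linarith) (by linarith) (by linarith) (by linarith) (by linarith) (by linarith) (by linarith)
        unfold nlogDG'
        apply div_nonneg _ (by positivity)
        have h8 : (x - (1 / 10)) * (x - (13 / 40)) * (x - (23 / 20)) * (x - (19 / 10)) * (x - (29 / 10)) * (x - (149 / 40)) * (x - (87 / 20)) = (x - (1 / 10)) * (x - (13 / 40)) * (x - (23 / 20)) * (x - (19 / 10)) * (x - (29 / 10)) * (x - (149 / 40)) * (x - (87 / 20)) := by ring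
        rw [h8]
        linarith
  have hfin : t * Real.log t - PD t = t * nlogDG t := by
    unfold PD nlogDG
    have ht' := ht.ne'
    field_simp
  have := mul_nonneg ht.le hG
  linarith

end Pool.Agent.PL2
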