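import Pool.Agent.PL2.NumDefs
import Pool.Agent.PL2.CalcA

open MeasureTheory Set Metric Filter Topology
open scoped ENNReal ContDiff InnerProductSpace

namespace Pool.Agent.PL2

open Pool.Agent.PLap94

lemma nrep_kk0 : kk 0 = Real.pi := by simp [kk]
lemma nrep_kk1 : kk 1 = 2 * Real.pi := by
  unfold kk
  push_cast
  ring
lemma nrep_sn0 (x : ℝ) : sn 0 x = Real.sin (Real.pi * x) := by simp [sn, nrep_kk0]
lemma nrep_cs0 (x : ℝ) : cs 0 x = Real.cos (Real.pi * x) := by simp [cs, nrep_kk0]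
lemma nrep_sn1 (x : ℝ) : sn 1 x = 2 * Real.sin (Real.pi * x) * Real.cos (Real.pi * x) := by
  rw [sn, nrep_kk1, ← Real.sin_two_mul]
  congr 1
  ring
lemma nrep_cs1 (x : ℝ) : cs 1 x = 2 * Real.cos (Real.pi * x) ^ 2 - 1 := by
  rw [cs, nrep_kk1, ← Real.cos_two_mul]
  congr 1
  ring
lemma nrep_cos2 (x : ℝ) : Real.cos (2 * Real.pi * x) = 2 * Real.cos (Real.pi * x) ^ 2 - 1 := by
  rw [← Real.cos_two_mul]
  congr 1
  ring

lemma nrep_norm_sq (a b : ℝ) : ‖(!₂[a, b] : E2)‖ ^ 2 = a ^ 2 + b ^ 2 := by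
  rw [EuclideanSpace.norm_sq_eq, Fin.sum_univ_two]
  simp

theorem norm_gmode_mid (x : E2) : ‖gmode 1 0 x‖ ^ 2 = Real.pi ^ 2 / 4 * smid x := by
  unfold gmode smid
  rw [nrep_norm_sq]
  simp only [nrep_kk0, nrep_kk1, nrep_sn0, nrep_sn1, nrep_cs0, nrep_cs1, nrep_cos2]
  have h0 := Real.sin_sq_add_cos_sq (Real.pi * x 0)
  have h1 := Real.sin_sq_add_cos_sq (Real.pi * x 1)
  have s0 : Real.sin (Real.pi * x 0) ^ 2 = 1 - Real.cos (Real.pi * x 0) ^ 2 := by linarith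
  have s1 : Real.sin (Real.pi * x 1) ^ 2 = 1 - Real.cos (Real.pi * x 1) ^ 2 := by linarith
  ring_nf
  rw [s0, s1]
  ring

theorem norm_mode_mid (x : E2) : ‖mode 1 0 x‖ ^ 2 = vmid x / 4 := by
  unfold mode vmid
  rw [Real.norm_eq_abs, sq_abs]
  simp only [nrep_kk0, nrep_kk1, nrep_sn0, nrep_sn1, nrep_cs0, nrep_cs1, nrep_cos2]
  have h0 := Real.sin_sq_add_cos_sq (Real.pi * x 0)
  have h1 := Real.sin_sq_add_cos_sq (Real.pi * x 1)
  have s0 : Real.sin (Real.pi * x 0) ^ 2 = 1 - Real.cos (Real.pi * x 0) ^ 2 := by linarith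
  have s1 : Real.sin (Real.pi * x 1) ^ 2 = 1 - Real.cos (Real.pi * x 1) ^ 2 := by linarith
  ring_nf
  rw [s0, s1]
  ring

lemma nrep_inv_sq : ((√2)⁻¹ : ℝ) ^ 2 = 1 / 2 := by
  rw [inv_pow, Real.sq_sqrt (by norm_num)]
  norm_num

theorem norm_gmode_diag (x : E2) :
    ‖gmode (√2)⁻¹ (√2)⁻¹ x‖ ^ 2 = Real.pi ^ 2 / 4 * sdiag x := by
  unfold gmode sdiag
  rw [nrep_norm_sq]
  simp only [nrep_kk0, nrep_kk1, nrep_sn0, nrep_sn1, nrep_cs0, nrep_cs1, nrep_cos2]
  have h0 := Real.sin_sq_add_cos_sq (Real.pi * x 0)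
  have h1 := Real.sin_sq_add_cos_sq (Real.pi * x 1)
  have s0 : Real.sin (Real.pi * x 0) ^ 2 = 1 - Real.cos (Real.pi * x 0) ^ 2 := by linarith
  have s1 : Real.sin (Real.pi * x 1) ^ 2 = 1 - Real.cos (Real.pi * x 1) ^ 2 := by linarith
  have e := nrep_inv_sq
  generalize ((√2)⁻¹ : ℝ) = r at e
  generalize Real.cos (Real.pi * x 0) = A at *
  generalize Real.cos (Real.pi * x 1) = B at *
  generalize Real.sin (Real.pi * x 0) = SA at *
  generalize Real.sin (Real.pi * x 1) = SB at *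
  have t1 : (r * (2 * Real.pi * ((2 * A ^ 2 - 1) * SB)) + r * (Real.pi * (A * (2 * SB * B)))) ^ 2 =
      r ^ 2 * Real.pi ^ 2 * 4 * SB ^ 2 * (2 * A ^ 2 - 1 + A * B) ^ 2 := by ring
  have t2 : (r * (Real.pi * (2 * SA * A * B)) + r * (2 * Real.pi * (SA * (2 * B ^ 2 - 1)))) ^ 2 =
      r ^ 2 * Real.pi ^ 2 * 4 * SA ^ 2 * (2 * B ^ 2 - 1 + A * B) ^ 2 := by ring
  rw [t1, t2, e, s0, s1]
  ring

theorem norm_mode_diag (x : E2) : ‖mode (√2)⁻¹ (√2)⁻¹ x‖ ^ 2 = vdiag x / 4 := by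
  unfold mode vdiag
  rw [Real.norm_eq_abs, sq_abs]
  simp only [nrep_kk0, nrep_kk1, nrep_sn0, nrep_sn1, nrep_cs0, nrep_cs1, nrep_cos2]
  have h0 := Real.sin_sq_add_cos_sq (Real.pi * x 0)
  have h1 := Real.sin_sq_add_cos_sq (Real.pi * x 1)
  have s0 : Real.sin (Real.pi * x 0) ^ 2 = 1 - Real.cos (Real.pi * x 0) ^ 2 := by linarith
  have s1 : Real.sin (Real.pi * x 1) ^ 2 = 1 - Real.cos (Real.pi * x 1) ^ 2 := by linarith
  have e := nrep_inv_sq
  generalize ((√2)⁻¹ : ℝ) = r at e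
  generalize Real.cos (Real.pi * x 0) = A at *
  generalize Real.cos (Real.pi * x 1) = B at *
  generalize Real.sin (Real.pi * x 0) = SA at *
  generalize Real.sin (Real.pi * x 1) = SB at *
  have t1 : (r * (2 * SA * A * SB) + r * (SA * (2 * SB * B))) ^ 2 =
      r ^ 2 * 4 * SA ^ 2 * SB ^ 2 * (A + B) ^ 2 := by ring
  rw [t1, e, s0, s1]
  ring

lemma nrep_log {c s n : ℝ} (hc : 0 < c) (hn : 0 ≤ n) (h : n ^ 2 = c * s) :
    n ^ 2 * Real.log n = c / 2 * (s * Real.log s + Real.log c * s) := by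
  rcases hn.eq_or_lt with h0 | h0
  · have hs : s = 0 := by
      rw [← h0] at h
      have : c * s = 0 := by rw [← h]; norm_num
      rcases mul_eq_zero.1 this with h1 | h1
      · exact absurd h1 hc.ne'
      · exact h1
    rw [← h0, hs]
    simp
  · have hs : 0 < s := by
      have : 0 < c * s := by rw [← h]; positivity
      exact (pos_iff_pos_of_mul_pos this).1 hc
    have h1 : 2 * Real.log n = Real.log c + Real.log s := by
      rw [← Real.log_mul hc.ne' hs.ne', ← h, Real.log_pow]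
      push_cast
      ring
    have h2 : Real.log n = (Real.log c + Real.log s) / 2 := by linarith
    rw [h, h2]
    ring

/-- If `‖gmode‖² = π²/4 s`, `mode² = v/4`, `∫s = 5`, `∫v = 1` then
`Jv = π²/2 (∫ s log s - 5 ∫ v log v + 10 log π)`. -/
theorem Jv_eq {α β : ℝ} {s v : E2 → ℝ} (hs : Continuous s) (hv : Continuous v)
    (h1 : ∀ x, ‖gmode α β x‖ ^ 2 = Real.pi ^ 2 / 4 * s x)
    (h2 : ∀ x, ‖mode α β x‖ ^ 2 = v x / 4) (hs1 : ∫ x, s x ∂μS = 5) (hv1 : ∫ x, v x ∂μS = 1) :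
    Jv α β = Real.pi ^ 2 / 2 * (∫ x, s x * Real.log (s x) ∂μS -
      5 * ∫ x, v x * Real.log (v x) ∂μS + 10 * Real.log Real.pi) := by
  have hpi := Real.pi_pos
  have e1 : ∀ x, ‖gmode α β x‖ ^ 2 * Real.log ‖gmode α β x‖ =
      Real.pi ^ 2 / 4 / 2 * (s x * Real.log (s x) + Real.log (Real.pi ^ 2 / 4) * s x) := fun x =>
    nrep_log (by positivity) (norm_nonneg _) (h1 x)
  have e2 : ∀ x, ‖mode α β x‖ ^ 2 * Real.log ‖mode α β x‖ =
      1 / 4 / 2 * (v x * Real.log (v x) + Real.log (1 / 4) * v x) := fun x =>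
    nrep_log (by norm_num) (norm_nonneg _) (by rw [h2 x]; ring)
  have is : Integrable s μS := integrable_muS hs
  have iv : Integrable v μS := integrable_muS hv
  have isl : Integrable (fun x => s x * Real.log (s x)) μS :=
    integrable_muS (Real.continuous_mul_log.comp hs)
  have ivl : Integrable (fun x => v x * Real.log (v x)) μS :=
    integrable_muS (Real.continuous_mul_log.comp hv)
  unfold Jv L₂
  simp_rw [e1, e2]
  rw [integral_const_mul, integral_const_mul, integral_add isl (is.const_mul _),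
    integral_add ivl (iv.const_mul _), integral_const_mul, integral_const_mul, hs1, hv1]
  have l1 : Real.log (Real.pi ^ 2 / 4) = 2 * Real.log Real.pi - Real.log 4 := by
    rw [Real.log_div (by positivity) (by norm_num), Real.log_pow]
    push_cast
    ring
  have l2 : Real.log (1 / 4) = -Real.log 4 := by
    rw [one_div, Real.log_inv]
  rw [l1, l2]
  ring

end Pool.Agent.PL2
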