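import Pool.Agent.PL2.NMom
import Pool.Agent.PL2.NLogA
import Pool.Agent.PL2.NLogB
import Pool.Agent.PL2.NLogC
import Pool.Agent.PL2.NLogD
import Pool.Agent.PL2.NRep

open MeasureTheory Set Metric Filter Topology
open scoped ENNReal ContDiff InnerProductSpace

namespace Pool.Agent.PL2

open Pool.Agent.PLap94

lemma nfin_int {f : E2 → ℝ} (hf : Continuous f) (c0 c1 c2 c3 c4 c5 c6 c7 c8 : ℝ) :
    ∫ x, (c0 + c1 * f x + c2 * f x ^ 2 + c3 * f x ^ 3 + c4 * f x ^ 4 + c5 * f x ^ 5 +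
      c6 * f x ^ 6 + c7 * f x ^ 7 + c8 * f x ^ 8) ∂μS =
    c0 + c1 * ∫ x, f x ^ 1 ∂μS + c2 * ∫ x, f x ^ 2 ∂μS + c3 * ∫ x, f x ^ 3 ∂μS +
      c4 * ∫ x, f x ^ 4 ∂μS + c5 * ∫ x, f x ^ 5 ∂μS + c6 * ∫ x, f x ^ 6 ∂μS +
      c7 * ∫ x, f x ^ 7 ∂μS + c8 * ∫ x, f x ^ 8 ∂μS := by
  have hk : ∀ (c : ℝ) (k : ℕ), Integrable (fun x => c * f x ^ k) μS := fun c k =>
    (integrable_muS (hf.pow k)).const_mul c
  have h : ∫ x, (∑ k : Fin 9, (![c0, c1, c2, c3, c4, c5, c6, c7, c8] : Fin 9 → ℝ) k *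
      f x ^ (k : ℕ)) ∂μS = ∑ k : Fin 9, (![c0, c1, c2, c3, c4, c5, c6, c7, c8] : Fin 9 → ℝ) k *
      ∫ x, f x ^ (k : ℕ) ∂μS := by
    rw [integral_finset_sum _ fun k _ => hk _ _]
    simp_rw [integral_const_mul]
  have e1 : ∀ x, (∑ k : Fin 9, (![c0, c1, c2, c3, c4, c5, c6, c7, c8] : Fin 9 → ℝ) k *
      f x ^ (k : ℕ)) = c0 + c1 * f x + c2 * f x ^ 2 + c3 * f x ^ 3 + c4 * f x ^ 4 +
      c5 * f x ^ 5 + c6 * f x ^ 6 + c7 * f x ^ 7 + c8 * f x ^ 8 := by
    intro x
    simp [Fin.sum_univ_succ]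
    ring
  simp_rw [e1] at h
  rw [h]
  simp [Fin.sum_univ_succ]
  ring

lemma nfin_cont_smid : Continuous smid := by
  unfold smid
  fun_prop

lemma nfin_cont_vmid : Continuous vmid := by
  unfold vmid
  fun_prop

lemma nfin_cont_sdiag : Continuous sdiag := by
  unfold sdiag
  fun_prop

lemma nfin_cont_vdiag : Continuous vdiag := by
  unfold vdiag
  fun_prop

lemma nfin_nonneg {c : ℝ} (hc : 0 < c) {s n : ℝ} (h : n ^ 2 = c * s) : 0 ≤ s := by
  have : 0 ≤ c * s := by rw [← h]; positivity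
  exact nonneg_of_mul_nonneg_right this hc

lemma nfin_smid : (9.44298 : ℝ) ≤ ∫ x, smid x * Real.log (smid x) ∂μS := by
  obtain ⟨m1, m2, m3, m4, m5, m6, m7⟩ := mom_smid
  have h := nfin_int nfin_cont_smid (-135405 / 261287) (-89 / 1000) (188908903 / 266512740)
    (-5324323 / 44418790) (568840 / 39976911) (-1048 / 1025049) (4416 / 111046975)
    (-128 / 199884555) 0
  rw [m1, m2, m3, m4, m5, m6, m7] at h
  have h2 : ∫ x, ((-135405 / 261287) + (-89 / 1000) * smid x + (188908903 / 266512740) * smid x ^ 2 +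
      (-5324323 / 44418790) * smid x ^ 3 + (568840 / 39976911) * smid x ^ 4 +
      (-1048 / 1025049) * smid x ^ 5 + (4416 / 111046975) * smid x ^ 6 +
      (-128 / 199884555) * smid x ^ 7 + 0 * smid x ^ 8) ∂μS ≤
      ∫ x, smid x * Real.log (smid x) ∂μS := by
    refine integral_mono (integrable_muS ?_) (integrable_muS
      (Real.continuous_mul_log.comp nfin_cont_smid)) fun x => ?_
    · have := nfin_cont_smid
      fun_prop
    · have h0 : 0 ≤ smid x := nfin_nonneg (by positivity) (norm_gmode_mid x)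
      have h3 := PA_le h0
      unfold PA at h3
      simp only
      linarith
  rw [h] at h2
  refine le_trans ?_ h2
  norm_num

lemma nfin_sdiag : ∫ x, sdiag x * Real.log (sdiag x) ∂μS ≤ (9.76508 : ℝ) := by
  obtain ⟨m1, m2, m3, m4, m5, m6, m7, m8⟩ := mom_sdiag
  have h := nfin_int nfin_cont_sdiag 0 (-1999 / 2000) (1930749 / 1426568) (-2392469 / 6743776)
    (6990937 / 111272304) (-257041 / 37090768) (21163 / 46363460) (-38 / 2318173)
    (4 / 16227211)
  rw [m1, m2, m3, m4, m5, m6, m7, m8] at h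
  have h2 : ∫ x, sdiag x * Real.log (sdiag x) ∂μS ≤
      ∫ x, (0 + (-1999 / 2000) * sdiag x + (1930749 / 1426568) * sdiag x ^ 2 +
      (-2392469 / 6743776) * sdiag x ^ 3 + (6990937 / 111272304) * sdiag x ^ 4 +
      (-257041 / 37090768) * sdiag x ^ 5 + (21163 / 46363460) * sdiag x ^ 6 +
      (-38 / 2318173) * sdiag x ^ 7 + (4 / 16227211) * sdiag x ^ 8) ∂μS := by
    refine integral_mono (integrable_muS (Real.continuous_mul_log.comp nfin_cont_sdiag))
      (integrable_muS ?_) fun x => ?_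
    · have := nfin_cont_sdiag
      fun_prop
    · have h0 : 0 ≤ sdiag x := nfin_nonneg (by positivity) (norm_gmode_diag x)
      have h3 := le_PB h0
      unfold PB at h3
      simp only
      linarith
  rw [h] at h2
  refine le_trans h2 ?_
  norm_num

lemma nfin_vmid : ∫ x, vmid x * Real.log (vmid x) ∂μS ≤ (0.625795 : ℝ) := by
  obtain ⟨m1, m2, m3, m4, m5, m6, m7, m8⟩ := mom_vmid
  have h := nfin_int nfin_cont_vmid 0 (-5159 / 2000) (588131414 / 92010765)
    (-144660112 / 19517435) (237948640 / 42938357) (-15385280 / 6134051)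
    (28602880 / 42938357) (-4096000 / 42938357) (5120000 / 901705497)
  rw [m1, m2, m3, m4, m5, m6, m7, m8] at h
  have h2 : ∫ x, vmid x * Real.log (vmid x) ∂μS ≤
      ∫ x, (0 + (-5159 / 2000) * vmid x + (588131414 / 92010765) * vmid x ^ 2 +
      (-144660112 / 19517435) * vmid x ^ 3 + (237948640 / 42938357) * vmid x ^ 4 +
      (-15385280 / 6134051) * vmid x ^ 5 + (28602880 / 42938357) * vmid x ^ 6 +
      (-4096000 / 42938357) * vmid x ^ 7 + (5120000 / 901705497) * vmid x ^ 8) ∂μS := by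
    refine integral_mono (integrable_muS (Real.continuous_mul_log.comp nfin_cont_vmid))
      (integrable_muS ?_) fun x => ?_
    · have := nfin_cont_vmid
      fun_prop
    · have h0 : 0 ≤ vmid x := by
        have := norm_mode_mid x
        have h4 : 0 ≤ vmid x / 4 := by rw [← this]; positivity
        linarith
      have h3 := le_PC h0
      unfold PC at h3
      simp only
      linarith
  rw [h] at h2
  refine le_trans h2 ?_
  norm_num

lemma nfin_vdiag : (0.732895 : ℝ) ≤ ∫ x, vdiag x * Real.log (vdiag x) ∂μS := by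
  obtain ⟨m1, m2, m3, m4, m5, m6, m7⟩ := mom_vdiag
  have h := nfin_int nfin_cont_vdiag (-73642803 / 1127911190) (-811 / 400)
    (13223314490 / 3270942451) (-10043616850 / 3270942451) (14353016000 / 9812827353)
    (-1300370000 / 3270942451) (184960000 / 3270942451) (-32000000 / 9812827353) 0
  rw [m1, m2, m3, m4, m5, m6, m7] at h
  have h2 : ∫ x, ((-73642803 / 1127911190) + (-811 / 400) * vdiag x +
      (13223314490 / 3270942451) * vdiag x ^ 2 + (-10043616850 / 3270942451) * vdiag x ^ 3 +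
      (14353016000 / 9812827353) * vdiag x ^ 4 + (-1300370000 / 3270942451) * vdiag x ^ 5 +
      (184960000 / 3270942451) * vdiag x ^ 6 + (-32000000 / 9812827353) * vdiag x ^ 7 +
      0 * vdiag x ^ 8) ∂μS ≤ ∫ x, vdiag x * Real.log (vdiag x) ∂μS := by
    refine integral_mono (integrable_muS ?_) (integrable_muS
      (Real.continuous_mul_log.comp nfin_cont_vdiag)) fun x => ?_
    · have := nfin_cont_vdiag
      fun_prop
    · have h0 : 0 ≤ vdiag x := by
        have := norm_mode_diag x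
        have h4 : 0 ≤ vdiag x / 4 := by rw [← this]; positivity
        linarith
      have h3 := PD_le h0
      unfold PD at h3
      simp only
      linarith
  rw [h] at h2
  refine le_trans ?_ h2
  norm_num

/-- `Jv 1 0 - Jv (1/√2) (1/√2) ≥ π²/2 · 0.2134`. -/
theorem Jv_gap : 1.05 ≤ Jv 1 0 - Jv (√2)⁻¹ (√2)⁻¹ := by
  have a1 : ∫ x, smid x ∂μS = 5 := by
    have := mom_smid.1
    simpa using this
  have a2 : ∫ x, vmid x ∂μS = 1 := by
    have := mom_vmid.1
    simpa using this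
  have a3 : ∫ x, sdiag x ∂μS = 5 := by
    have := mom_sdiag.1
    simpa using this
  have a4 : ∫ x, vdiag x ∂μS = 1 := by
    have := mom_vdiag.1
    simpa using this
  rw [Jv_eq nfin_cont_smid nfin_cont_vmid norm_gmode_mid norm_mode_mid a1 a2,
    Jv_eq nfin_cont_sdiag nfin_cont_vdiag norm_gmode_diag norm_mode_diag a3 a4]
  have b1 := nfin_smid
  have b2 := nfin_sdiag
  have b3 := nfin_vmid
  have b4 := nfin_vdiag
  have hpi : (9.869 : ℝ) ≤ Real.pi ^ 2 := by
    have := Real.pi_gt_d4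
    norm_num at this ⊢
    nlinarith
  set I1 := ∫ x, smid x * Real.log (smid x) ∂μS
  set I2 := ∫ x, sdiag x * Real.log (sdiag x) ∂μS
  set I3 := ∫ x, vmid x * Real.log (vmid x) ∂μS
  set I4 := ∫ x, vdiag x * Real.log (vdiag x) ∂μS
  have e : Real.pi ^ 2 / 2 * (I1 - 5 * I3 + 10 * Real.log Real.pi) -
      Real.pi ^ 2 / 2 * (I2 - 5 * I4 + 10 * Real.log Real.pi) =
      Real.pi ^ 2 / 2 * (I1 - I2 - 5 * (I3 - I4)) := by ring
  rw [e]
  have h1 : (0.2134 : ℝ) - 0.0002 ≤ I1 - I2 - 5 * (I3 - I4) := by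
    norm_num at b1 b2 b3 b4 ⊢
    linarith
  have h2 : (9.869 / 2 : ℝ) * (0.2134 - 0.0002) ≤
      Real.pi ^ 2 / 2 * (I1 - I2 - 5 * (I3 - I4)) := by
    apply mul_le_mul (by linarith) h1 (by norm_num) (by positivity)
  refine le_trans ?_ h2
  norm_num

end Pool.Agent.PL2
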