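import Pool.Agent.PL2.Trig
import Pool.Agent.PL2.DualW
import Pool.Agent.PL2.Genus
import Pool.Agent.PL2.Eig2m
import Pool.Agent.PL2.NFin
import Pool.Agent.PLap94.Final

open MeasureTheory Set Metric Filter Topology
open scoped ENNReal ContDiff InnerProductSpace Interval

namespace Pool.Agent.PL2

open Pool.Agent.PLap94

lemma L₂_pos : 0 < L₂ := by
  unfold L₂
  positivity

lemma sq_half : ((√2)⁻¹ : ℝ) ^ 2 + ((√2)⁻¹ : ℝ) ^ 2 = 1 := by
  rw [inv_pow, Real.sq_sqrt (by norm_num)]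
  norm_num

lemma one_zero_sq : (1 : ℝ) ^ 2 + (0 : ℝ) ^ 2 = 1 := by norm_num

lemma Nn_two_mode {α β : ℝ} (h : α ^ 2 + β ^ 2 = 1) : Nn 2 (mode α β) = 1 / 4 := by
  rw [← integral_mode_sq h]
  unfold Nn
  simp only [Real.rpow_two]

lemma Nn_two_gmode {α β : ℝ} (h : α ^ 2 + β ^ 2 = 1) : Nn 2 (gmode α β) = L₂ / 4 := by
  rw [← integral_gmode_sq h]
  unfold Nn
  simp only [Real.rpow_two]

lemma Ray_two {α β : ℝ} (h : α ^ 2 + β ^ 2 = 1) : Ray α β 2 = L₂ := by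
  unfold Ray
  rw [Nn_two_mode h, Nn_two_gmode h]
  ring

theorem hasDerivAt_Ray {α β : ℝ} (h : α ^ 2 + β ^ 2 = 1) :
    HasDerivAt (Ray α β) (Jv α β) 2 := by
  have h1 := hasDerivAt_integral_norm_rpow (μ := μS) (bm_gmode α β)
  have h2 := hasDerivAt_integral_norm_rpow (μ := μS) (bm_mode α β)
  have h3 : (∫ x, ‖mode α β x‖ ^ (2 : ℝ) ∂μS) ≠ 0 := by
    have := Nn_two_mode h
    unfold Nn at this
    rw [this]
    norm_num
  have h4 := h1.div h2 h3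
  have e1 : (∫ x, ‖mode α β x‖ ^ (2 : ℝ) ∂μS) = 1 / 4 := Nn_two_mode h
  have e2 : (∫ x, ‖gmode α β x‖ ^ (2 : ℝ) ∂μS) = L₂ / 4 := Nn_two_gmode h
  refine (h4.congr_deriv ?_)
  rw [e1, e2]
  unfold Jv
  ring

/-- `λ₃(p) ≥ Λ`, primal version. -/
theorem eig3_primal {p : ℝ} [hp : Fact (1 < p)] {α β : ℝ} (h : α ^ 2 + β ^ 2 = 1) {Λ : ℝ}
    (hΛ : ∀ (N : ℕ) (c : ℕ → ℕ → ℝ), 2 ≤ N → Constr α β c →
      Λ * Nn p (U N c) ≤ Nn p (gU N c)) : ENNReal.ofReal Λ ≤ eigenvalue 3 p := by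
  have hp0 : 0 < p := p_pos
  have he : BM μS e₁ := by
    have := bm_U 1 (fun _ _ => 1)
    refine ⟨this.1.congr ?_, ?_⟩
    · filter_upwards with x
      simp [U, dsum, e₁]
    · obtain ⟨K, hK⟩ := this.2
      refine ⟨K, fun x => ?_⟩
      have := hK x
      simpa [U, dsum, e₁] using this
  refine eig3_of_constraints (f := fun w : PairSpace p => ∫ x, w.1 x * e₁ x ∂μS)
    (g := fun w : PairSpace p => ∫ x, w.1 x * mode (-β) α x ∂μS) (continuous_lin he)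
    (continuous_lin (bm_mode _ _)) (fun w => lin_neg _ w) (fun w => lin_neg _ w) ?_
  intro w hw h1 h2
  have h3 := primal_W0 h hΛ hw.1 h1 h2
  have h4 : ‖w.1‖ ^ p = 1 := by
    have := hw.2
    rw [lint_eq] at this
    exact ENNReal.ofReal_eq_one.1 this
  rw [h4, mul_one] at h3
  unfold energy
  rw [lint_eq]
  exact ENNReal.ofReal_le_ofReal h3

/-- `λ₃(p) ≥ Λ^(p-1)`, dual version. -/
theorem eig3_dual {p q : ℝ} [hp : Fact (1 < p)] (hpq : p.HolderConjugate q) (hp2 : p ≤ 2)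
    {α β : ℝ} (h : α ^ 2 + β ^ 2 = 1) {Λ : ℝ} (hΛ0 : 0 < Λ)
    (hΛ : ∀ (N : ℕ) (c : ℕ → ℕ → ℝ), 2 ≤ N → Constr α β c →
      Λ * Nn q (gU N (lapInv c)) ≤ Nn q (U N c)) :
    ENNReal.ofReal (Λ ^ (p - 1)) ≤ eigenvalue 3 p := by
  have hp0 : 0 < p := p_pos
  have he : BM μS e₁ := by
    have := bm_U 1 (fun _ _ => 1)
    refine ⟨this.1.congr ?_, ?_⟩
    · filter_upwards with x
      simp [U, dsum, e₁]
    · obtain ⟨K, hK⟩ := this.2
      refine ⟨K, fun x => ?_⟩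
      have := hK x
      simpa [U, dsum, e₁] using this
  refine eig3_of_constraints
    (f := fun w : PairSpace p => ∫ x, |w.1 x| ^ (p - 2) * w.1 x * e₁ x ∂μS)
    (g := fun w : PairSpace p => ∫ x, |w.1 x| ^ (p - 2) * w.1 x * mode (-β) α x ∂μS)
    (continuous_nonlin hp2 he) (continuous_nonlin hp2 (bm_mode _ _)) (fun w => nonlin_neg _ w)
    (fun w => nonlin_neg _ w) ?_
  intro w hw h1 h2
  have h3 := dual_W0 h hpq hp2 hΛ0 hΛ hw.1 h1 h2
  have h4 : ‖w.1‖ ^ p = 1 := by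
    have := hw.2
    rw [lint_eq] at this
    exact ENNReal.ofReal_eq_one.1 this
  rw [h4, mul_one] at h3
  unfold energy
  rw [lint_eq]
  exact ENNReal.ofReal_le_ofReal h3

/-- If `F` has derivative `D > c` at `2` and `F 2 = 0` then `F p ≥ c (p-2)` for `p > 2` close to
`2`. -/
lemma right_of_deriv {F : ℝ → ℝ} {D c : ℝ} (hF : HasDerivAt F D 2) (h0 : F 2 = 0) (hc : c < D) :
    ∃ δ > 0, ∀ p, 2 < p → p < 2 + δ → c * (p - 2) ≤ F p := by
  have h1 := hF.isLittleO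
  have h2 := h1.def (c := D - c) (by linarith)
  obtain ⟨δ, hδ, hd⟩ := Metric.eventually_nhds_iff.1 h2
  refine ⟨δ, hδ, fun p hp1 hp2 => ?_⟩
  have h3 := hd (y := p) (by rw [Real.dist_eq, abs_of_pos (by linarith)]; linarith)
  rw [h0, sub_zero, Real.norm_eq_abs, Real.norm_eq_abs, abs_of_pos (by linarith : 0 < p - 2),
    smul_eq_mul] at h3
  have h4 := (abs_le.1 h3).1
  nlinarith

lemma left_of_deriv {F : ℝ → ℝ} {D c : ℝ} (hF : HasDerivAt F D 2) (h0 : F 2 = 0) (hc : D < -c) :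
    ∃ δ > 0, ∀ p, p < 2 → 2 - δ < p → c * (2 - p) ≤ F p := by
  have h1 := hF.isLittleO
  have h2 := h1.def (c := -c - D) (by linarith)
  obtain ⟨δ, hδ, hd⟩ := Metric.eventually_nhds_iff.1 h2
  refine ⟨δ, hδ, fun p hp1 hp2 => ?_⟩
  have h3 := hd (y := p) (by rw [Real.dist_eq, abs_of_neg (by linarith)]; linarith)
  rw [h0, sub_zero, Real.norm_eq_abs, Real.norm_eq_abs, abs_of_neg (by linarith : p - 2 < 0),
    smul_eq_mul] at h3
  have h4 := (abs_le.1 h3).1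
  nlinarith

/-- the case `p > 2` -/
theorem main_right : ∃ δ > 0, ∀ (p : ℝ) (_ : Fact (1 < p)), 2 < p → p < 2 + δ →
    eigenvalue 2 p + ENNReal.ofReal (p - 2) ≤ eigenvalue 3 p := by
  obtain ⟨δ₁, hδ₁, h1⟩ := primal_trig one_zero_sq (η := 0.02) (by norm_num)
  have hF : HasDerivAt (fun p => Ray 1 0 p - Ray (√2)⁻¹ (√2)⁻¹ p)
      (Jv 1 0 - Jv (√2)⁻¹ (√2)⁻¹) 2 :=
    (hasDerivAt_Ray one_zero_sq).sub (hasDerivAt_Ray sq_half)
  obtain ⟨δ₂, hδ₂, h2⟩ := right_of_deriv hF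
    (by rw [Ray_two one_zero_sq, Ray_two sq_half, sub_self]) (c := 1.02)
    (lt_of_lt_of_le (by norm_num) Jv_gap)
  refine ⟨min δ₁ δ₂, lt_min hδ₁ hδ₂, fun p hp hp1 hp2 => ?_⟩
  have hp3 : p < 2 + δ₁ := by
    have := min_le_left δ₁ δ₂
    linarith
  have hp4 : p < 2 + δ₂ := by
    have := min_le_right δ₁ δ₂
    linarith
  have h3 := eig3_primal one_zero_sq (h1 p hp1 hp3)
  have h4 := eig2_le (p := p) sq_half
  have h5 := h2 p hp1 hp4
  have hR : 0 ≤ Ray (√2)⁻¹ (√2)⁻¹ p := by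
    unfold Ray Nn
    apply div_nonneg <;> exact integral_nonneg fun x => Real.rpow_nonneg (norm_nonneg _) _
  calc eigenvalue 2 p + ENNReal.ofReal (p - 2)
      ≤ ENNReal.ofReal (Ray (√2)⁻¹ (√2)⁻¹ p) + ENNReal.ofReal (p - 2) := by gcongr
    _ = ENNReal.ofReal (Ray (√2)⁻¹ (√2)⁻¹ p + (p - 2)) := by
        rw [ENNReal.ofReal_add hR (by linarith)]
    _ ≤ ENNReal.ofReal (Ray 1 0 p - 0.02 * (p - 2)) := by
        apply ENNReal.ofReal_le_ofReal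
        norm_num at h5 ⊢
        linarith
    _ ≤ eigenvalue 3 p := h3

/-- the lower bound for `λ₃(p)` from the dual problem, as a function of `p` -/
noncomputable def Tf (p : ℝ) : ℝ :=
  (L₂ ^ (p / (p - 1)) / Ray (√2)⁻¹ (√2)⁻¹ (p / (p - 1)) - 0.02 * (p / (p - 1) - 2)) ^ (p - 1)

lemma hasDerivAt_Tf : HasDerivAt Tf (Jv (√2)⁻¹ (√2)⁻¹ + 0.02) 2 := by
  have hL := L₂_pos
  set J := Jv (√2)⁻¹ (√2)⁻¹ with hJ
  have hq : HasDerivAt (fun p : ℝ => p / (p - 1)) (-1) 2 := by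
    have h1 : HasDerivAt (fun p : ℝ => p) 1 2 := hasDerivAt_id 2
    have h2 : HasDerivAt (fun p : ℝ => p - 1) 1 2 := h1.sub_const 1
    have h3 := h1.div h2 (by norm_num)
    refine h3.congr_deriv ?_
    norm_num
  have hq2 : (2 : ℝ) / (2 - 1) = 2 := by norm_num
  have hR : HasDerivAt (Ray (√2)⁻¹ (√2)⁻¹) J ((2 : ℝ) / (2 - 1)) := by
    rw [hq2]
    exact hasDerivAt_Ray sq_half
  have hR2 := hR.comp (2 : ℝ) hq
  have hLq : HasDerivAt (fun p : ℝ => L₂ ^ (p / (p - 1))) (-1 * Real.log L₂ * L₂ ^ 2) 2 := by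
    have h1 := hq.const_rpow (a := L₂) hL
    refine h1.congr_deriv ?_
    rw [hq2, Real.rpow_two]
    ring
  have hR3 : Ray (√2)⁻¹ (√2)⁻¹ ((2 : ℝ) / (2 - 1)) = L₂ := by
    rw [hq2]
    exact Ray_two sq_half
  have hbase : HasDerivAt (fun p : ℝ => L₂ ^ (p / (p - 1)) /
      Ray (√2)⁻¹ (√2)⁻¹ (p / (p - 1)) - 0.02 * (p / (p - 1) - 2))
      (-(L₂ * Real.log L₂) + J + 0.02) 2 := by
    have h1 := hLq.div hR2 (by
      simp only [Function.comp]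
      rw [hR3]
      exact hL.ne')
    have h2 := (hq.sub_const 2).const_mul 0.02
    have h3 := h1.sub h2
    refine h3.congr_deriv ?_
    simp only [Function.comp]
    rw [hR3, hq2, Real.rpow_two]
    field_simp
    ring
  have hval : L₂ ^ ((2 : ℝ) / (2 - 1)) / Ray (√2)⁻¹ (√2)⁻¹ ((2 : ℝ) / (2 - 1)) -
      0.02 * ((2 : ℝ) / (2 - 1) - 2) = L₂ := by
    rw [hR3, hq2, Real.rpow_two]
    field_simp
    ring
  have hexp : HasDerivAt (fun p : ℝ => p - 1) 1 2 := (hasDerivAt_id 2).sub_const 1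
  have h := hbase.rpow hexp (by
    rw [hval]
    exact hL)
  refine h.congr_deriv ?_
  rw [hval]
  norm_num
  ring

lemma Tf_two : Tf 2 = L₂ := by
  have hL := L₂_pos
  unfold Tf
  have hq2 : (2 : ℝ) / (2 - 1) = 2 := by norm_num
  rw [hq2, Ray_two sq_half, Real.rpow_two, show (2 : ℝ) - 1 = 1 by norm_num, Real.rpow_one]
  field_simp
  ring

/-- the case `p < 2` -/
theorem main_left : ∃ δ > 0, ∀ (p : ℝ) (_ : Fact (1 < p)), p < 2 → 2 - δ < p →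
    eigenvalue 2 p + ENNReal.ofReal (2 - p) ≤ eigenvalue 3 p := by
  obtain ⟨δ₁, hδ₁, h1⟩ := dual_trig sq_half (η := 0.02) (by norm_num)
  have hF : HasDerivAt (fun p => Tf p - Ray 1 0 p)
      (Jv (√2)⁻¹ (√2)⁻¹ + 0.02 - Jv 1 0) 2 :=
    hasDerivAt_Tf.sub (hasDerivAt_Ray one_zero_sq)
  obtain ⟨δ₂, hδ₂, h2⟩ := left_of_deriv hF
    (by rw [Tf_two, Ray_two one_zero_sq, sub_self]) (c := 1.02)
    (by have := Jv_gap; norm_num at this ⊢; linarith)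
  -- positivity of the base of `Tf`
  have hbase : ∀ᶠ p : ℝ in 𝓝 2, 0 < L₂ ^ (p / (p - 1)) /
      Ray (√2)⁻¹ (√2)⁻¹ (p / (p - 1)) - 0.02 * (p / (p - 1) - 2) := by
    have hL := L₂_pos
    have hq2 : (2 : ℝ) / (2 - 1) = 2 := by norm_num
    have hq : ContinuousAt (fun p : ℝ => p / (p - 1)) 2 :=
      continuousAt_id.div (continuousAt_id.sub continuousAt_const) (by norm_num)
    have hRc : ContinuousAt (Ray (√2)⁻¹ (√2)⁻¹) ((2 : ℝ) / (2 - 1)) := by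
      rw [hq2]
      exact (hasDerivAt_Ray sq_half).continuousAt
    have hR2 : ContinuousAt (fun p : ℝ => Ray (√2)⁻¹ (√2)⁻¹ (p / (p - 1))) 2 :=
      ContinuousAt.comp (f := fun p : ℝ => p / (p - 1)) hRc hq
    have hLq : ContinuousAt (fun p : ℝ => L₂ ^ (p / (p - 1))) 2 :=
      ContinuousAt.rpow continuousAt_const hq (Or.inl hL.ne')
    have hR3 : Ray (√2)⁻¹ (√2)⁻¹ ((2 : ℝ) / (2 - 1)) = L₂ := by
      rw [hq2]
      exact Ray_two sq_half
    have hc : ContinuousAt (fun p : ℝ => L₂ ^ (p / (p - 1)) /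
        Ray (√2)⁻¹ (√2)⁻¹ (p / (p - 1)) - 0.02 * (p / (p - 1) - 2)) 2 := by
      refine (hLq.div hR2 ?_).sub ((hq.sub continuousAt_const).const_mul _)
      rw [hR3]
      exact hL.ne'
    refine hc.eventually_mem (Ioi_mem_nhds ?_) |>.mono fun p hp => hp
    show 0 < L₂ ^ ((2 : ℝ) / (2 - 1)) / Ray (√2)⁻¹ (√2)⁻¹ ((2 : ℝ) / (2 - 1)) -
      0.02 * ((2 : ℝ) / (2 - 1) - 2)
    rw [hR3, hq2, Real.rpow_two]
    have : L₂ ^ 2 / L₂ - 0.02 * (2 - 2) = L₂ := by field_simp; ring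
    rw [this]
    exact hL
  obtain ⟨δ₃, hδ₃, h3⟩ := Metric.eventually_nhds_iff.1 hbase
  refine ⟨min (min δ₂ δ₃) (min (δ₁ / 4) (1 / 2)), by positivity, fun p hp hp1 hp2 => ?_⟩
  have a1 := min_le_left (min δ₂ δ₃) (min (δ₁ / 4) (1 / 2))
  have a2 := min_le_right (min δ₂ δ₃) (min (δ₁ / 4) (1 / 2))
  have a3 := min_le_left δ₂ δ₃
  have a4 := min_le_right δ₂ δ₃
  have a5 := min_le_left (δ₁ / 4) (1 / 2 : ℝ)
  have a6 := min_le_right (δ₁ / 4) (1 / 2 : ℝ)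
  have hp1' : 1 < p := hp.out
  have hpq : p.HolderConjugate (p / (p - 1)) := Real.HolderConjugate.conjExponent hp1'
  have hq2 : 2 < p / (p - 1) := by
    rw [lt_div_iff₀ (by linarith)]
    linarith
  have hq3 : p / (p - 1) < 2 + δ₁ := by
    rw [div_lt_iff₀ (by linarith)]
    nlinarith
  have hbp : 0 < L₂ ^ (p / (p - 1)) /
      Ray (√2)⁻¹ (√2)⁻¹ (p / (p - 1)) - 0.02 * (p / (p - 1) - 2) := by
    apply h3
    rw [Real.dist_eq, abs_of_neg (by linarith)]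
    linarith
  have h4 := eig3_dual hpq hp1.le sq_half hbp (h1 _ hq2 hq3)
  have h5 := eig2_le (p := p) one_zero_sq
  have h6 := h2 p hp1 (by linarith)
  have hR : 0 ≤ Ray 1 0 p := by
    unfold Ray Nn
    apply div_nonneg <;> exact integral_nonneg fun x => Real.rpow_nonneg (norm_nonneg _) _
  calc eigenvalue 2 p + ENNReal.ofReal (2 - p)
      ≤ ENNReal.ofReal (Ray 1 0 p) + ENNReal.ofReal (2 - p) := by gcongr
    _ = ENNReal.ofReal (Ray 1 0 p + (2 - p)) := by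
        rw [ENNReal.ofReal_add hR (by linarith)]
    _ ≤ ENNReal.ofReal (Tf p) := by
        apply ENNReal.ofReal_le_ofReal
        norm_num at h6 ⊢
        linarith
    _ ≤ eigenvalue 3 p := h4

theorem eig2_ne_top (p : ℝ) [Fact (1 < p)] : eigenvalue 2 p ≠ ⊤ :=
  ne_top_of_le_ne_top ENNReal.ofReal_ne_top (eig2_le one_zero_sq)

/-- **Main theorem.** -/
theorem main : ∃ δ : ℝ, 0 < δ ∧ ∀ (p : ℝ) [Fact (1 < p)], p ≠ 2 → |p - 2| < δ →
    eigenvalue 2 p + ENNReal.ofReal |p - 2| ≤ eigenvalue 3 p ∧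
      eigenvalue 2 p < eigenvalue 3 p := by
  obtain ⟨δ₁, hδ₁, h1⟩ := main_right
  obtain ⟨δ₂, hδ₂, h2⟩ := main_left
  refine ⟨min δ₁ δ₂, lt_min hδ₁ hδ₂, fun p hp hne hlt => ?_⟩
  have key : eigenvalue 2 p + ENNReal.ofReal |p - 2| ≤ eigenvalue 3 p := by
    rcases lt_or_gt_of_ne hne with h | h
    · rw [abs_of_neg (by linarith)] at hlt ⊢
      have := h2 p hp h (by have := min_le_right δ₁ δ₂; linarith)
      rwa [show -(p - 2) = 2 - p by ring]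
    · rw [abs_of_pos (by linarith)] at hlt ⊢
      exact h1 p hp h (by have := min_le_left δ₁ δ₂; linarith)
  refine ⟨key, lt_of_lt_of_le ?_ key⟩
  exact ENNReal.lt_add_right (eig2_ne_top p) (by
    rw [Ne, ENNReal.ofReal_eq_zero, not_le, abs_pos]
    exact sub_ne_zero.2 hne)

end Pool.Agent.PL2
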