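import Pool.Agent.PL2.BMl

open MeasureTheory Set Metric Filter Topology
open scoped ENNReal ContDiff InnerProductSpace Interval

namespace Pool.Agent.PL2

open Pool.Agent.PLap94

/-- Continuous functions are integrable on the (bounded) square. -/
theorem integrable_muS {F : Type*} [NormedAddCommGroup F] {f : E2 → F} (hf : Continuous f) :
    Integrable f μS := by
  have h1 : IntegrableOn f (closedBall (0 : E2) 2) volume :=
    hf.continuousOn.integrableOn_compact (isCompact_closedBall _ _)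
  refine h1.mono_set ?_
  intro x hx
  rw [mem_closedBall_zero_iff]
  have h2 : ‖x‖ ^ 2 = (x 0) ^ 2 + (x 1) ^ 2 := by
    rw [EuclideanSpace.norm_sq_eq, Fin.sum_univ_two]
    simp
  have h3 := hx 0
  have h4 := hx 1
  have h5 : ‖x‖ ^ 2 ≤ 2 ^ 2 := by
    rw [h2]; nlinarith
  exact (pow_le_pow_iff_left₀ (norm_nonneg _) (by norm_num) two_ne_zero).1 h5

/-- the coordinates as a measurable equivalence -/
noncomputable def fubE : E2 ≃ᵐ ℝ × ℝ :=
  (MeasurableEquiv.toLp 2 (Fin 2 → ℝ)).symm.trans MeasurableEquiv.finTwoArrow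

theorem fubE_apply (x : E2) : fubE x = (x 0, x 1) := rfl

theorem fubE_pres : MeasurePreserving fubE (volume : Measure E2) (volume : Measure (ℝ × ℝ)) :=
  (EuclideanSpace.volume_preserving_symm_measurableEquiv_toLp (Fin 2)).trans
    (volume_preserving_finTwoArrow ℝ)

theorem fub_pt_eta (x : E2) : pt (x 0) (x 1) = x := by
  ext i
  fin_cases i <;> simp

theorem fub_square : square = fubE ⁻¹' (Ioo (0 : ℝ) 1 ×ˢ Ioo (0 : ℝ) 1) := by
  ext x
  rw [mem_preimage, fubE_apply, mem_prod]
  constructor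
  · intro h
    exact ⟨h 0, h 1⟩
  · rintro ⟨h0, h1⟩ i
    fin_cases i
    · exact h0
    · exact h1

theorem fub_continuous_pt : Continuous fun z : ℝ × ℝ => pt z.1 z.2 := by
  unfold pt
  apply (PiLp.continuous_toLp 2 (fun _ : Fin 2 => ℝ)).comp
  refine continuous_pi ?_
  intro i
  fin_cases i
  · exact continuous_fst
  · exact continuous_snd

theorem fub_integral (f : E2 → ℝ) :
    ∫ x, f x ∂μS = ∫ z in Ioo (0 : ℝ) 1 ×ˢ Ioo (0 : ℝ) 1, f (pt z.1 z.2) := by
  have h := fubE_pres.setIntegral_preimage_emb fubE.measurableEmbedding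
    (fun z : ℝ × ℝ => f (pt z.1 z.2)) (Ioo (0 : ℝ) 1 ×ˢ Ioo (0 : ℝ) 1)
  rw [← h, ← fub_square]
  unfold μS
  congr 1
  ext x
  rw [fubE_apply, fub_pt_eta]

theorem fub_integrableOn {f : E2 → ℝ} (hf : Continuous f) :
    IntegrableOn (fun z : ℝ × ℝ => f (pt z.1 z.2)) (Ioo (0 : ℝ) 1 ×ˢ Ioo (0 : ℝ) 1) volume := by
  have h : IntegrableOn (fun z : ℝ × ℝ => f (pt z.1 z.2)) (Icc (0 : ℝ) 1 ×ˢ Icc (0 : ℝ) 1) volume :=
    (hf.comp fub_continuous_pt).continuousOn.integrableOn_compact (isCompact_Icc.prod isCompact_Icc)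
  exact h.mono_set (prod_mono Ioo_subset_Icc_self Ioo_subset_Icc_self)

theorem fub_ioo (f : ℝ → ℝ) : ∫ a in Ioo (0 : ℝ) 1, f a = ∫ a in (0 : ℝ)..1, f a := by
  rw [intervalIntegral.integral_of_le zero_le_one, integral_Ioc_eq_integral_Ioo]

/-- Fubini on the square (`EuclideanSpace.volume_preserving_...`, `MeasurableEquiv.finTwoArrow`,
`square_eq`). `pt a b` is the point `(a, b)`. -/
theorem integral_muS {f : E2 → ℝ} (hf : Continuous f) :
    ∫ x, f x ∂μS = ∫ a in (0 : ℝ)..1, ∫ b in (0 : ℝ)..1, f (pt a b) := by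
  rw [fub_integral, Measure.volume_eq_prod, setIntegral_prod _ (fub_integrableOn hf), fub_ioo]
  simp only [fub_ioo]

theorem integral_muS_swap {f : E2 → ℝ} (hf : Continuous f) :
    ∫ x, f x ∂μS = ∫ b in (0 : ℝ)..1, ∫ a in (0 : ℝ)..1, f (pt a b) := by
  have h := fub_integrableOn hf
  rw [fub_integral, Measure.volume_eq_prod, setIntegral_prod _ (fub_integrableOn hf)]
  unfold IntegrableOn at h
  rw [Measure.volume_eq_prod, ← Measure.prod_restrict] at h
  rw [integral_integral_swap (f := fun a b => f (pt a b)) h, fub_ioo]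
  simp only [fub_ioo]

theorem integral_muS_mul {f g : ℝ → ℝ} (hf : Continuous f) (hg : Continuous g) :
    ∫ x, f (x 0) * g (x 1) ∂μS = (∫ a in (0 : ℝ)..1, f a) * ∫ b in (0 : ℝ)..1, g b := by
  have h0 : Continuous fun x : E2 => x 0 := by fun_prop
  have h1 : Continuous fun x : E2 => x 1 := by fun_prop
  rw [integral_muS (f := fun x => f (x 0) * g (x 1)) ((hf.comp h0).mul (hg.comp h1))]
  simp only [pt_zero, pt_one, intervalIntegral.integral_const_mul,
    intervalIntegral.integral_mul_const]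

/-- Central symmetry `x ↦ (1,1) - x` preserves `μS`. -/
theorem integral_muS_symm {f : E2 → ℝ} (hf : AEStronglyMeasurable f μS) :
    ∫ x, f (pt 1 1 - x) ∂μS = ∫ x, f x ∂μS := by
  have hm : MeasurePreserving (fun x : E2 => pt 1 1 - x) volume volume :=
    Measure.measurePreserving_sub_left volume (pt 1 1)
  have hpre : (fun x : E2 => pt 1 1 - x) ⁻¹' square = square := by
    ext x
    rw [mem_preimage]
    constructor
    · intro h i
      have := h i
      fin_cases i <;> simp at this ⊢ <;> constructor <;> linarith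
    · intro h i
      have := h i
      fin_cases i <;> simp at this ⊢ <;> constructor <;> linarith
  have h := hm.setIntegral_preimage_emb (Homeomorph.subLeft (pt 1 1)).measurableEmbedding f square
  rw [hpre] at h
  exact h

end Pool.Agent.PL2
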