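import Pool.Agent.PL2.Fub

open MeasureTheory Set Metric Filter Topology
open scoped ENNReal ContDiff InnerProductSpace Interval

namespace Pool.Agent.PL2

open Pool.Agent.PLap94

/-- value at a point `≤` mean + total variation -/
theorem lady_one {g g' : ℝ → ℝ} (hd : ∀ s, HasDerivAt g (g' s) s) (hg' : Continuous g') {a : ℝ}
    (ha : a ∈ Icc (0 : ℝ) 1) : g a ≤ ∫ s in (0 : ℝ)..1, (g s + |g' s|) := by
  have hg : Continuous g := continuous_iff_continuousAt.2 fun s => (hd s).continuousAt
  have h1 : ∀ s ∈ Icc (0 : ℝ) 1, g a ≤ g s + ∫ s in (0 : ℝ)..1, |g' s| := by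
    intro s hs
    have e : ∫ x in s..a, g' x = g a - g s :=
      intervalIntegral.integral_eq_sub_of_hasDerivAt (fun x _ => hd x) (hg'.intervalIntegrable _ _)
    have e2 : ‖∫ x in s..a, g' x‖ ≤ ∫ x in Ι s a, ‖g' x‖ :=
      intervalIntegral.norm_integral_le_integral_norm_uIoc
    have e3 : ∫ x in Ι s a, ‖g' x‖ ≤ ∫ x in Ioc (0 : ℝ) 1, ‖g' x‖ := by
      apply setIntegral_mono_set
      · exact (hg'.norm.intervalIntegrable 0 1).1
      · exact Eventually.of_forall fun x => norm_nonneg _
      · have hsub : Ι s a ⊆ Ioc (0 : ℝ) 1 := by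
          intro x hx
          rw [uIoc, mem_Ioc] at hx
          exact ⟨lt_of_le_of_lt (le_min hs.1 ha.1) hx.1, hx.2.trans (max_le hs.2 ha.2)⟩
        exact Eventually.of_forall hsub
    have e4 : ∫ x in Ioc (0 : ℝ) 1, ‖g' x‖ = ∫ s in (0 : ℝ)..1, |g' s| := by
      rw [intervalIntegral.integral_of_le zero_le_one]
      rfl
    rw [e, Real.norm_eq_abs] at e2
    have := le_abs_self (g a - g s)
    linarith
  have h2 : ∫ s in (0 : ℝ)..1, g a ≤ ∫ s in (0 : ℝ)..1, (g s + ∫ s in (0 : ℝ)..1, |g' s|) := by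
    apply intervalIntegral.integral_mono_on zero_le_one
    · exact continuous_const.intervalIntegrable _ _
    · exact (hg.add continuous_const).intervalIntegrable _ _
    · exact h1
  rw [intervalIntegral.integral_add (hg.intervalIntegrable _ _)
    (continuous_const.intervalIntegrable _ _)] at h2
  rw [intervalIntegral.integral_add (hg.intervalIntegrable _ _) (hg'.abs.intervalIntegrable _ _)]
  simpa using h2

theorem lady_two {g g' : ℝ → ℝ} (hd : ∀ s, HasDerivAt g (g' s) s) (hg' : Continuous g') {a : ℝ}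
    (ha : a ∈ Icc (0 : ℝ) 1) : g a ^ 2 ≤ ∫ s in (0 : ℝ)..1, (2 * g s ^ 2 + g' s ^ 2) := by
  have hg : Continuous g := continuous_iff_continuousAt.2 fun s => (hd s).continuousAt
  have h := lady_one (g := fun s => g s ^ 2) (g' := fun s => 2 * g s * g' s)
    (fun s => by simpa using (hd s).fun_pow 2) (by fun_prop) ha
  refine h.trans ?_
  apply intervalIntegral.integral_mono_on zero_le_one
  · exact (by fun_prop : Continuous fun s => g s ^ 2 + |2 * g s * g' s|).intervalIntegrable _ _
  · exact (by fun_prop : Continuous fun s => 2 * g s ^ 2 + g' s ^ 2).intervalIntegrable _ _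
  · intro s _
    have : |2 * g s * g' s| ≤ g s ^ 2 + g' s ^ 2 := by
      rw [abs_le]
      constructor
      · nlinarith [sq_nonneg (g s + g' s)]
      · nlinarith [sq_nonneg (g s - g' s)]
    linarith

/-- Ladyzhenskaya's inequality without boundary condition. For fixed `b`,
`f(a,b)² ≤ ∫₀¹ (f² + 2|f f_x|)(s,b) ds ≤ ∫₀¹ (2f² + f_x²)(s,b) ds` (value at the point `≤` mean
`+` total variation of `f²`), the same in the other variable; multiply and integrate. -/
theorem lady {f fx fy : E2 → ℝ} (hf : Continuous f) (hfx : Continuous fx) (hfy : Continuous fy)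
    (hx : ∀ a b : ℝ, HasDerivAt (fun t => f (pt t b)) (fx (pt a b)) a)
    (hy : ∀ a b : ℝ, HasDerivAt (fun t => f (pt a t)) (fy (pt a b)) b) :
    ∫ x, f x ^ 4 ∂μS ≤ (∫ x, (2 * f x ^ 2 + fx x ^ 2) ∂μS) *
      ∫ x, (2 * f x ^ 2 + fy x ^ 2) ∂μS := by
  have hpt := fub_continuous_pt
  have hpt' : Continuous fun z : ℝ × ℝ => pt z.2 z.1 := hpt.comp continuous_swap
  have cA : Continuous fun x => 2 * f x ^ 2 + fx x ^ 2 := by fun_prop
  have cB : Continuous fun x => 2 * f x ^ 2 + fy x ^ 2 := by fun_prop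
  have c4 : Continuous fun x => f x ^ 4 := by fun_prop
  set A : ℝ → ℝ := fun b => ∫ s in (0 : ℝ)..1, (2 * f (pt s b) ^ 2 + fx (pt s b) ^ 2) with hA
  set B : ℝ → ℝ := fun a => ∫ t in (0 : ℝ)..1, (2 * f (pt a t) ^ 2 + fy (pt a t) ^ 2) with hB
  have hAc : Continuous A :=
    intervalIntegral.continuous_parametric_intervalIntegral_of_continuous'
      (f := fun b s => 2 * f (pt s b) ^ 2 + fx (pt s b) ^ 2) (cA.comp hpt') 0 1
  have hBc : Continuous B :=
    intervalIntegral.continuous_parametric_intervalIntegral_of_continuous'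
      (f := fun a t => 2 * f (pt a t) ^ 2 + fy (pt a t) ^ 2) (cB.comp hpt) 0 1
  have h4c : Continuous fun a => ∫ b in (0 : ℝ)..1, f (pt a b) ^ 4 :=
    intervalIntegral.continuous_parametric_intervalIntegral_of_continuous'
      (f := fun a b => f (pt a b) ^ 4) (c4.comp hpt) 0 1
  have s1 : ∀ b : ℝ, Continuous fun s : ℝ => pt s b := fun b =>
    hpt.comp (by fun_prop : Continuous fun s : ℝ => (s, b))
  have s2 : ∀ a : ℝ, Continuous fun t : ℝ => pt a t := fun a =>
    hpt.comp (by fun_prop : Continuous fun t : ℝ => (a, t))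
  have kA : ∀ a ∈ Icc (0 : ℝ) 1, ∀ b, f (pt a b) ^ 2 ≤ A b := fun a ha b =>
    lady_two (g := fun s => f (pt s b)) (g' := fun s => fx (pt s b)) (fun s => hx s b)
      (hfx.comp (s1 b)) ha
  have kB : ∀ a, ∀ b ∈ Icc (0 : ℝ) 1, f (pt a b) ^ 2 ≤ B a := fun a b hb =>
    lady_two (g := fun t => f (pt a t)) (g' := fun t => fy (pt a t)) (fun t => hy a t)
      (hfy.comp (s2 a)) hb
  rw [integral_muS c4, integral_muS_swap cA, integral_muS cB]
  calc ∫ a in (0 : ℝ)..1, ∫ b in (0 : ℝ)..1, f (pt a b) ^ 4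
      ≤ ∫ a in (0 : ℝ)..1, ∫ b in (0 : ℝ)..1, A b * B a := by
        apply intervalIntegral.integral_mono_on zero_le_one
        · exact h4c.intervalIntegrable _ _
        · simp only [intervalIntegral.integral_mul_const]
          exact (continuous_const.mul hBc).intervalIntegrable _ _
        · intro a ha
          apply intervalIntegral.integral_mono_on zero_le_one
          · exact (c4.comp (s2 a)).intervalIntegrable _ _
          · exact (hAc.mul continuous_const).intervalIntegrable _ _
          · intro b hb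
            have e1 := kA a ha b
            have e2 := kB a b hb
            have e3 : 0 ≤ f (pt a b) ^ 2 := sq_nonneg _
            calc f (pt a b) ^ 4 = f (pt a b) ^ 2 * f (pt a b) ^ 2 := by ring
              _ ≤ A b * B a := mul_le_mul e1 e2 e3 (e3.trans e1)
    _ = (∫ b in (0 : ℝ)..1, A b) * ∫ a in (0 : ℝ)..1, B a := by
        simp only [intervalIntegral.integral_mul_const, intervalIntegral.integral_const_mul]

end Pool.Agent.PL2
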