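import Pool.Agent.PL2.Calc
import Pool.Agent.PL2.Lady

open MeasureTheory Set Metric Filter Topology
open scoped ENNReal ContDiff InnerProductSpace Interval

namespace Pool.Agent.PL2

open Pool.Agent.PLap94

/-! Everything follows from `integral_dsum_mul`: with `c : ℕ → ℕ → ℝ`,
`∫ (U N c)² = ¼ ∑ c²`, `∫ ‖gU N c‖² = ¼ ∑ (k_i²+k_j²) c²`, and
`k_i² + k_j² ≥ 8π²` off the three lowest modes, `≥ 2π²` always. -/

/-- double sum -/
noncomputable def gapS (N : ℕ) (a : ℕ → ℕ → ℝ) : ℝ :=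
  ∑ i ∈ Finset.range N, ∑ j ∈ Finset.range N, a i j

theorem gapS_le {N : ℕ} {a b : ℕ → ℕ → ℝ} (h : ∀ i j, a i j ≤ b i j) : gapS N a ≤ gapS N b :=
  Finset.sum_le_sum fun i _ => Finset.sum_le_sum fun j _ => h i j

theorem gapS_mul (N : ℕ) (t : ℝ) (a : ℕ → ℕ → ℝ) : gapS N (fun i j => t * a i j) = t * gapS N a := by
  unfold gapS
  rw [Finset.mul_sum]
  refine Finset.sum_congr rfl fun i _ => ?_
  rw [Finset.mul_sum]

theorem gapS_nonneg {N : ℕ} {a : ℕ → ℕ → ℝ} (h : ∀ i j, 0 ≤ a i j) : 0 ≤ gapS N a :=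
  Finset.sum_nonneg fun i _ => Finset.sum_nonneg fun j _ => h i j

theorem gap_sq {f g : ℕ → ℝ → ℝ} (hf : Orth f) (hg : Orth g) (N : ℕ) (c : ℕ → ℕ → ℝ) :
    ∫ x, dsum f g N c x ^ 2 ∂μS = gapS N (fun i j => c i j ^ 2) / 4 := by
  have h1 : ∀ x, dsum f g N c x ^ 2 = dsum f g N c x * dsum f g N c x := fun x => sq _
  simp_rw [h1]
  rw [integral_dsum_mul hf hg]
  unfold gapS
  congr 1
  refine Finset.sum_congr rfl fun i _ => Finset.sum_congr rfl fun j _ => ?_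
  ring

theorem gap_U_sq (N : ℕ) (c : ℕ → ℕ → ℝ) :
    ∫ x, ‖U N c x‖ ^ 2 ∂μS = gapS N (fun i j => c i j ^ 2) / 4 := by
  have h1 : ∀ x, ‖U N c x‖ ^ 2 = dsum sn sn N c x ^ 2 := fun x => by
    rw [Real.norm_eq_abs, sq_abs]; rfl
  simp_rw [h1]
  exact gap_sq orth_sn orth_sn N c

theorem gap_gU_sq (N : ℕ) (c : ℕ → ℕ → ℝ) :
    ∫ x, ‖gU N c x‖ ^ 2 ∂μS = gapS N (fun i j => (kk i ^ 2 + kk j ^ 2) * c i j ^ 2) / 4 := by
  have h1 : ∀ x, ‖gU N c x‖ ^ 2 = ⟪gU N c x, gU N c x⟫_ℝ := fun x =>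
    (real_inner_self_eq_norm_sq _).symm
  simp_rw [h1]
  rw [calc_integral_inner]
  unfold gapS
  congr 1
  refine Finset.sum_congr rfl fun i _ => Finset.sum_congr rfl fun j _ => ?_
  ring

theorem gap_kk_pos (i : ℕ) : 0 < kk i := by
  unfold kk
  have := Real.pi_pos
  positivity

theorem gap_kk_sq (i : ℕ) : Real.pi ^ 2 ≤ kk i ^ 2 := by
  have hpi := Real.pi_pos
  have h : Real.pi ≤ kk i := by
    unfold kk
    have : (0 : ℝ) ≤ i := Nat.cast_nonneg i
    nlinarith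
  exact pow_le_pow_left₀ hpi.le h 2

theorem gap_high (i j : ℕ) (h : ¬ ((i = 0 ∧ j = 0) ∨ (i = 1 ∧ j = 0) ∨ (i = 0 ∧ j = 1))) :
    8 * Real.pi ^ 2 ≤ kk i ^ 2 + kk j ^ 2 := by
  have hpi : 0 < Real.pi ^ 2 := by have := Real.pi_pos; positivity
  have h1 : 8 ≤ (i + 1) ^ 2 + (j + 1) ^ 2 := by
    rcases Nat.lt_or_ge i 2 with hi | hi
    · interval_cases i
      · have : 2 ≤ j := by omega
        nlinarith
      · have : 1 ≤ j := by omega
        nlinarith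
    · rcases Nat.lt_or_ge j 2 with hj | hj
      · interval_cases j
        · nlinarith
        · nlinarith
      · nlinarith
  have h2 : (8 : ℝ) ≤ ((i : ℝ) + 1) ^ 2 + ((j : ℝ) + 1) ^ 2 := by exact_mod_cast h1
  have h3 : kk i ^ 2 + kk j ^ 2 = (((i : ℝ) + 1) ^ 2 + ((j : ℝ) + 1) ^ 2) * Real.pi ^ 2 := by
    unfold kk; ring
  rw [h3]
  exact mul_le_mul_of_nonneg_right h2 hpi.le

theorem gap_primal (N : ℕ) (c : ℕ → ℕ → ℝ) :
    8 / 5 * L₂ * ∫ x, ‖U N (high c) x‖ ^ 2 ∂μS ≤ ∫ x, ‖gU N (high c) x‖ ^ 2 ∂μS := by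
  rw [gap_U_sq, gap_gU_sq]
  have h1 : 8 / 5 * L₂ = 8 * Real.pi ^ 2 := by unfold L₂; ring
  rw [h1, ← mul_div_assoc, ← gapS_mul]
  have h2 : gapS N (fun i j => 8 * Real.pi ^ 2 * high c i j ^ 2) ≤
      gapS N (fun i j => (kk i ^ 2 + kk j ^ 2) * high c i j ^ 2) := by
    refine gapS_le fun i j => ?_
    by_cases h : (i = 0 ∧ j = 0) ∨ (i = 1 ∧ j = 0) ∨ (i = 0 ∧ j = 1)
    · have h3 : high c i j = 0 := by unfold high; rw [if_pos h]
      rw [h3]; simp
    · exact mul_le_mul_of_nonneg_right (gap_high i j h) (sq_nonneg _)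
  linarith

theorem gap_pi : (1 + 1 / Real.pi ^ 2) ^ 2 ≤ 2 := by
  have h1 : (9 : ℝ) ≤ Real.pi ^ 2 := by nlinarith [Real.pi_gt_three]
  have h2 : 1 / Real.pi ^ 2 ≤ 1 / 9 := one_div_le_one_div_of_le (by norm_num) h1
  have h3 : 0 ≤ 1 / Real.pi ^ 2 := by positivity
  nlinarith

theorem gap_lady {f fx fy : E2 → ℝ} (hf : Continuous f) (hfx : Continuous fx) (hfy : Continuous fy)
    (hx : ∀ a b : ℝ, HasDerivAt (fun t => f (pt t b)) (fx (pt a b)) a)
    (hy : ∀ a b : ℝ, HasDerivAt (fun t => f (pt a t)) (fy (pt a b)) b) {A : ℝ}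
    (h0 : ∫ x, f x ^ 2 ∂μS ≤ A / (2 * Real.pi ^ 2)) (h1 : ∫ x, fx x ^ 2 ∂μS ≤ A)
    (h2 : ∫ x, fy x ^ 2 ∂μS ≤ A) : ∫ x, f x ^ 4 ∂μS ≤ 2 * A ^ 2 := by
  have hpi : 0 < Real.pi ^ 2 := by have := Real.pi_pos; positivity
  have i0 : Integrable (fun x => 2 * f x ^ 2) μS := integrable_muS (continuous_const.mul (hf.pow 2))
  have i1 : Integrable (fun x => fx x ^ 2) μS := integrable_muS (hfx.pow 2)
  have i2 : Integrable (fun x => fy x ^ 2) μS := integrable_muS (hfy.pow 2)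
  have e1 : ∫ x, (2 * f x ^ 2 + fx x ^ 2) ∂μS = 2 * ∫ x, f x ^ 2 ∂μS + ∫ x, fx x ^ 2 ∂μS := by
    rw [integral_add i0 i1, integral_const_mul]
  have e2 : ∫ x, (2 * f x ^ 2 + fy x ^ 2) ∂μS = 2 * ∫ x, f x ^ 2 ∂μS + ∫ x, fy x ^ 2 ∂μS := by
    rw [integral_add i0 i2, integral_const_mul]
  have h3 := lady hf hfx hfy hx hy
  rw [e1, e2] at h3
  have n0 : 0 ≤ ∫ x, f x ^ 2 ∂μS := integral_nonneg fun x => sq_nonneg _
  have n1 : 0 ≤ ∫ x, fx x ^ 2 ∂μS := integral_nonneg fun x => sq_nonneg _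
  have n2 : 0 ≤ ∫ x, fy x ^ 2 ∂μS := integral_nonneg fun x => sq_nonneg _
  have h4 : 2 * (A / (2 * Real.pi ^ 2)) = A * (1 / Real.pi ^ 2) := by field_simp
  have b1 : 2 * ∫ x, f x ^ 2 ∂μS + ∫ x, fx x ^ 2 ∂μS ≤ A * (1 + 1 / Real.pi ^ 2) := by
    have : A * (1 + 1 / Real.pi ^ 2) = 2 * (A / (2 * Real.pi ^ 2)) + A := by rw [h4]; ring
    rw [this]
    linarith
  have b2 : 2 * ∫ x, f x ^ 2 ∂μS + ∫ x, fy x ^ 2 ∂μS ≤ A * (1 + 1 / Real.pi ^ 2) := by
    have : A * (1 + 1 / Real.pi ^ 2) = 2 * (A / (2 * Real.pi ^ 2)) + A := by rw [h4]; ring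
    rw [this]
    linarith
  have p2 : 0 ≤ 2 * ∫ x, f x ^ 2 ∂μS + ∫ x, fy x ^ 2 ∂μS := by positivity
  calc ∫ x, f x ^ 4 ∂μS ≤ _ := h3
    _ ≤ (A * (1 + 1 / Real.pi ^ 2)) * (A * (1 + 1 / Real.pi ^ 2)) :=
        mul_le_mul b1 b2 p2 (le_trans (by positivity) b1)
    _ = (1 + 1 / Real.pi ^ 2) ^ 2 * A ^ 2 := by ring
    _ ≤ 2 * A ^ 2 := mul_le_mul_of_nonneg_right gap_pi (sq_nonneg _)

/-- `lady` for `f = U N c`; `∫ U² ≤ ∫|∇U|²/(2π²)`, so the constant `(1+1/π²)² ≤ 2` works. -/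
theorem L4_primal (N : ℕ) (c : ℕ → ℕ → ℝ) :
    ∫ x, ‖U N c x‖ ^ 4 ∂μS ≤ 2 * (∫ x, ‖gU N c x‖ ^ 2 ∂μS) ^ 2 := by
  have hpi : 0 < Real.pi ^ 2 := by have := Real.pi_pos; positivity
  have h4 : ∀ x, ‖U N c x‖ ^ 4 = U N c x ^ 4 := fun x => by
    rw [Real.norm_eq_abs]
    exact (even_two_mul 2).pow_abs _
  simp_rw [h4]
  refine gap_lady (continuous_dsum orth_sn.cont orth_sn.cont N c)
    (continuous_dsum orth_cs.cont orth_sn.cont N (fun i j => kk i * c i j))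
    (continuous_dsum orth_sn.cont orth_cs.cont N (fun i j => kk j * c i j))
    (hasDerivAt_dsum_fst (r := kk) hasDerivAt_sn N c) (hasDerivAt_dsum_snd (r := kk) hasDerivAt_sn N c)
    ?_ ?_ ?_
  · rw [gap_sq orth_sn orth_sn N c, gap_gU_sq, le_div_iff₀ (by positivity)]
    have h2 : gapS N (fun i j => 2 * Real.pi ^ 2 * c i j ^ 2) ≤
        gapS N (fun i j => (kk i ^ 2 + kk j ^ 2) * c i j ^ 2) := by
      refine gapS_le fun i j => mul_le_mul_of_nonneg_right ?_ (sq_nonneg _)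
      linarith [gap_kk_sq i, gap_kk_sq j]
    rw [gapS_mul] at h2
    linarith
  · rw [gap_sq orth_cs orth_sn, gap_gU_sq]
    have h2 : gapS N (fun i j => (kk i * c i j) ^ 2) ≤
        gapS N (fun i j => (kk i ^ 2 + kk j ^ 2) * c i j ^ 2) := by
      refine gapS_le fun i j => ?_
      rw [mul_pow]
      exact mul_le_mul_of_nonneg_right (by linarith [sq_nonneg (kk j)]) (sq_nonneg _)
    linarith
  · rw [gap_sq orth_sn orth_cs, gap_gU_sq]
    have h2 : gapS N (fun i j => (kk j * c i j) ^ 2) ≤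
        gapS N (fun i j => (kk i ^ 2 + kk j ^ 2) * c i j ^ 2) := by
      refine gapS_le fun i j => ?_
      rw [mul_pow]
      exact mul_le_mul_of_nonneg_right (by linarith [sq_nonneg (kk i)]) (sq_nonneg _)
    linarith

theorem gap_D_pos (i j : ℕ) : 0 < kk i ^ 2 + kk j ^ 2 := by
  have := gap_kk_pos i
  have := gap_kk_pos j
  positivity

theorem gap_dual (N : ℕ) (c : ℕ → ℕ → ℝ) :
    8 / 5 * L₂ * ∫ x, ‖gU N (lapInv (high c)) x‖ ^ 2 ∂μS ≤
      ∫ x, ‖U N (high c) x‖ ^ 2 ∂μS := by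
  rw [gap_U_sq, gap_gU_sq]
  have h1 : 8 / 5 * L₂ = 8 * Real.pi ^ 2 := by unfold L₂; ring
  rw [h1, ← mul_div_assoc, ← gapS_mul]
  have h2 : gapS N (fun i j => 8 * Real.pi ^ 2 * ((kk i ^ 2 + kk j ^ 2) * lapInv (high c) i j ^ 2)) ≤
      gapS N (fun i j => high c i j ^ 2) := by
    refine gapS_le fun i j => ?_
    have hD := gap_D_pos i j
    by_cases h : (i = 0 ∧ j = 0) ∨ (i = 1 ∧ j = 0) ∨ (i = 0 ∧ j = 1)
    · have h3 : high c i j = 0 := by unfold high; rw [if_pos h]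
      unfold lapInv
      rw [h3]; simp
    · have h4 : 8 * Real.pi ^ 2 * ((kk i ^ 2 + kk j ^ 2) * lapInv (high c) i j ^ 2) =
          (8 * Real.pi ^ 2 / (kk i ^ 2 + kk j ^ 2)) * high c i j ^ 2 := by
        unfold lapInv
        field_simp
      rw [h4]
      have h5 : 8 * Real.pi ^ 2 / (kk i ^ 2 + kk j ^ 2) ≤ 1 := by
        rw [div_le_one hD]
        exact gap_high i j h
      calc _ ≤ 1 * high c i j ^ 2 := mul_le_mul_of_nonneg_right h5 (sq_nonneg _)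
        _ = _ := one_mul _
  linarith

theorem gap_lap_one {a b t : ℝ} (ha : 0 < a) (hb : 0 < b) (hpa : Real.pi ^ 2 ≤ a) (hpb : Real.pi ^ 2 ≤ b) :
    a * (t / (a + b)) ^ 2 ≤ t ^ 2 / (2 * Real.pi ^ 2) := by
  have hpi : 0 < Real.pi ^ 2 := by have := Real.pi_pos; positivity
  have h1 : a * (t / (a + b)) ^ 2 = (a / (a + b)) * (t ^ 2 / (a + b)) := by field_simp
  rw [h1]
  have h2 : a / (a + b) ≤ 1 := by rw [div_le_one (by positivity)]; linarith
  have h3 : t ^ 2 / (a + b) ≤ t ^ 2 / (2 * Real.pi ^ 2) :=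
    div_le_div_of_nonneg_left (sq_nonneg _) (by positivity) (by linarith)
  calc (a / (a + b)) * (t ^ 2 / (a + b)) ≤ 1 * (t ^ 2 / (a + b)) :=
        mul_le_mul_of_nonneg_right h2 (by positivity)
    _ = t ^ 2 / (a + b) := one_mul _
    _ ≤ _ := h3

theorem gap_lap_two {a b t : ℝ} (ha : 0 < a) (hb : 0 < b) :
    a * b * (t / (a + b)) ^ 2 ≤ t ^ 2 ∧ a * a * (t / (a + b)) ^ 2 ≤ t ^ 2 := by
  constructor
  · have h1 : a * b * (t / (a + b)) ^ 2 = (a * b / (a + b) ^ 2) * t ^ 2 := by field_simp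
    rw [h1]
    have h2 : a * b / (a + b) ^ 2 ≤ 1 := by rw [div_le_one (by positivity)]; nlinarith
    calc _ ≤ 1 * t ^ 2 := mul_le_mul_of_nonneg_right h2 (sq_nonneg _)
      _ = _ := one_mul _
  · have h1 : a * a * (t / (a + b)) ^ 2 = (a * a / (a + b) ^ 2) * t ^ 2 := by field_simp
    rw [h1]
    have h2 : a * a / (a + b) ^ 2 ≤ 1 := by rw [div_le_one (by positivity)]; nlinarith
    calc _ ≤ 1 * t ^ 2 := mul_le_mul_of_nonneg_right h2 (sq_nonneg _)
      _ = _ := one_mul _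

theorem gapS_div (N : ℕ) (t : ℝ) (a : ℕ → ℕ → ℝ) : gapS N (fun i j => a i j / t) = gapS N a / t := by
  unfold gapS
  rw [Finset.sum_div]
  refine Finset.sum_congr rfl fun i _ => ?_
  rw [Finset.sum_div]

/-- With `φ = U N (lapInv c)`: `‖∇φ‖⁴ ≤ 2(φ_x⁴ + φ_y⁴)`, `lady` for `φ_x` and `φ_y`;
`∫ φ_xx², ∫ φ_xy², ∫ φ_yy² ≤ ∫ (U N c)²` and `∫ |∇φ|² ≤ ∫ (U N c)²/(2π²)`; the constant
`4 (1+1/π²)² ≤ 8` works. -/
theorem L4_dual (N : ℕ) (c : ℕ → ℕ → ℝ) :
    ∫ x, ‖gU N (lapInv c) x‖ ^ 4 ∂μS ≤ 8 * (∫ x, ‖U N c x‖ ^ 2 ∂μS) ^ 2 := by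
  have hpi : 0 < Real.pi ^ 2 := by have := Real.pi_pos; positivity
  set l := lapInv c with hl
  set S := ∫ x, ‖U N c x‖ ^ 2 ∂μS with hS
  have hS' : S = gapS N (fun i j => c i j ^ 2) / 4 := gap_U_sq N c
  set φx := dsum cs sn N (fun i j => kk i * l i j) with hφx
  set φy := dsum sn cs N (fun i j => kk j * l i j) with hφy
  have cx : Continuous φx := continuous_dsum orth_cs.cont orth_sn.cont _ _
  have cy : Continuous φy := continuous_dsum orth_sn.cont orth_cs.cont _ _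
  have hp : ∀ i, 0 < kk i ^ 2 := fun i => by have := gap_kk_pos i; positivity
  have hder : ∀ (i : ℕ) (x : ℝ), HasDerivAt (cs i) ((fun i => -kk i) i * sn i x) x := by
    intro i x
    have h := hasDerivAt_cs i x
    have h2 : -(kk i * sn i x) = (fun i => -kk i) i * sn i x := by simp
    rw [h2] at h
    exact h
  have kx : ∫ x, φx x ^ 4 ∂μS ≤ 2 * S ^ 2 := by
    refine gap_lady cx (continuous_dsum orth_sn.cont orth_sn.cont N
        (fun i j => (fun i => -kk i) i * (kk i * l i j)))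
      (continuous_dsum orth_cs.cont orth_cs.cont N (fun i j => kk j * (kk i * l i j)))
      (hasDerivAt_dsum_fst (r := fun i => -kk i) hder N _)
      (hasDerivAt_dsum_snd (r := kk) hasDerivAt_sn N _) ?_ ?_ ?_
    · rw [hφx, gap_sq orth_cs orth_sn, hS']
      have h2 : gapS N (fun i j => (kk i * l i j) ^ 2) ≤
          gapS N (fun i j => c i j ^ 2 / (2 * Real.pi ^ 2)) := by
        refine gapS_le fun i j => ?_
        have := gap_lap_one (t := c i j) (hp i) (hp j) (gap_kk_sq i) (gap_kk_sq j)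
        rw [mul_pow]
        exact this
      rw [gapS_div] at h2
      have h3 : gapS N (fun i j => c i j ^ 2) / 4 / (2 * Real.pi ^ 2) =
        gapS N (fun i j => c i j ^ 2) / (2 * Real.pi ^ 2) / 4 := by ring
      rw [h3]
      linarith
    · rw [gap_sq orth_sn orth_sn, hS']
      have h2 : gapS N (fun i j => ((fun i => -kk i) i * (kk i * l i j)) ^ 2) ≤
          gapS N (fun i j => c i j ^ 2) := by
        refine gapS_le fun i j => ?_
        have := (gap_lap_two (t := c i j) (hp i) (hp j)).2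
        refine le_trans (le_of_eq ?_) this
        simp only [hl, lapInv]
        ring
      linarith
    · rw [gap_sq orth_cs orth_cs, hS']
      have h2 : gapS N (fun i j => (kk j * (kk i * l i j)) ^ 2) ≤
          gapS N (fun i j => c i j ^ 2) := by
        refine gapS_le fun i j => ?_
        have := (gap_lap_two (t := c i j) (hp i) (hp j)).1
        refine le_trans (le_of_eq ?_) this
        simp only [hl, lapInv]
        ring
      linarith
  have ky : ∫ x, φy x ^ 4 ∂μS ≤ 2 * S ^ 2 := by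
    refine gap_lady cy (continuous_dsum orth_cs.cont orth_cs.cont N
        (fun i j => kk i * (kk j * l i j)))
      (continuous_dsum orth_sn.cont orth_sn.cont N (fun i j => (fun j => -kk j) j * (kk j * l i j)))
      (hasDerivAt_dsum_fst (r := kk) hasDerivAt_sn N _)
      (hasDerivAt_dsum_snd (r := fun i => -kk i) hder N _) ?_ ?_ ?_
    · rw [hφy, gap_sq orth_sn orth_cs, hS']
      have h2 : gapS N (fun i j => (kk j * l i j) ^ 2) ≤
          gapS N (fun i j => c i j ^ 2 / (2 * Real.pi ^ 2)) := by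
        refine gapS_le fun i j => ?_
        have := gap_lap_one (t := c i j) (hp j) (hp i) (gap_kk_sq j) (gap_kk_sq i)
        rw [mul_pow]
        refine le_trans (le_of_eq ?_) this
        simp only [hl, lapInv]
        rw [add_comm (kk j ^ 2)]
      rw [gapS_div] at h2
      have h3 : gapS N (fun i j => c i j ^ 2) / 4 / (2 * Real.pi ^ 2) =
        gapS N (fun i j => c i j ^ 2) / (2 * Real.pi ^ 2) / 4 := by ring
      rw [h3]
      linarith
    · rw [gap_sq orth_cs orth_cs, hS']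
      have h2 : gapS N (fun i j => (kk i * (kk j * l i j)) ^ 2) ≤
          gapS N (fun i j => c i j ^ 2) := by
        refine gapS_le fun i j => ?_
        have := (gap_lap_two (t := c i j) (hp i) (hp j)).1
        refine le_trans (le_of_eq ?_) this
        simp only [hl, lapInv]
        ring
      linarith
    · rw [gap_sq orth_sn orth_sn, hS']
      have h2 : gapS N (fun i j => ((fun j => -kk j) j * (kk j * l i j)) ^ 2) ≤
          gapS N (fun i j => c i j ^ 2) := by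
        refine gapS_le fun i j => ?_
        have := (gap_lap_two (t := c i j) (hp j) (hp i)).2
        refine le_trans (le_of_eq ?_) this
        simp only [hl, lapInv]
        rw [add_comm (kk j ^ 2)]
        ring
      linarith
  have h4 : ∀ x, ‖gU N l x‖ ^ 4 ≤ 2 * φx x ^ 4 + 2 * φy x ^ 4 := by
    intro x
    have h5 : ‖gU N l x‖ ^ 2 = φx x * φx x + φy x * φy x := by
      rw [← real_inner_self_eq_norm_sq, calc_inner_gU]
    have h6 : ‖gU N l x‖ ^ 4 = (‖gU N l x‖ ^ 2) ^ 2 := by ring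
    rw [h6, h5]
    nlinarith [sq_nonneg (φx x ^ 2 - φy x ^ 2)]
  have i1 : Integrable (fun x => 2 * φx x ^ 4) μS := integrable_muS (continuous_const.mul (cx.pow 4))
  have i2 : Integrable (fun x => 2 * φy x ^ 4) μS := integrable_muS (continuous_const.mul (cy.pow 4))
  have i3 : Integrable (fun x => ‖gU N l x‖ ^ 4) μS := integrable_muS ((continuous_gU N l).norm.pow 4)
  calc ∫ x, ‖gU N l x‖ ^ 4 ∂μS ≤ ∫ x, (2 * φx x ^ 4 + 2 * φy x ^ 4) ∂μS :=
        integral_mono i3 (i1.add i2) h4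
    _ = 2 * ∫ x, φx x ^ 4 ∂μS + 2 * ∫ x, φy x ^ 4 ∂μS := by
        rw [integral_add i1 i2, integral_const_mul, integral_const_mul]
    _ ≤ 8 * S ^ 2 := by linarith

end Pool.Agent.PL2
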