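import Pool.Agent.PL2.A1
import Pool.Agent.PL2.A2
import Pool.Agent.PL2.BMl

open MeasureTheory Set Metric Filter Topology
open scoped ENNReal ContDiff InnerProductSpace

namespace Pool.Agent.PL2

open Pool.Agent.PLap94

variable {X F G : Type*} [MeasurableSpace X] {μ : Measure X} [NormedAddCommGroup F]
  [InnerProductSpace ℝ F] [NormedAddCommGroup G] [InnerProductSpace ℝ G]

/-- the cross term with the factor `t` -/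
theorem lowint_cross [IsProbabilityMeasure μ] {X₀ X₁ : X → F} (h0 : BM μ X₀) (h1 : BM μ X₁)
    {M : ℝ} (hM : ∀ x, ‖X₀ x‖ ≤ M) (ho : ∫ x, ⟪X₀ x, X₁ x⟫_ℝ ∂μ = 0) {a : ℝ} (ha : 0 ≤ a)
    (haa : ∫ x, ‖X₁ x‖ ^ 2 ∂μ = a ^ 2) {p : ℝ} (h2 : 2 ≤ p) (hp : p ≤ 3) {t : ℝ}
    (ht : |t| ≤ 1) :
    |∫ x, p * ‖t • X₀ x‖ ^ (p - 2) * ⟪t • X₀ x, X₁ x⟫_ℝ ∂μ| ≤
      3 * (p - 2) * (1 + M ^ 2) * a := by
  have e1 : ∀ x, p * ‖t • X₀ x‖ ^ (p - 2) * ⟪t • X₀ x, X₁ x⟫_ℝ =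
      (p * |t| ^ (p - 2) * t) * (‖X₀ x‖ ^ (p - 2) * ⟪X₀ x, X₁ x⟫_ℝ) := by
    intro x
    rw [norm_smul, Real.norm_eq_abs, Real.mul_rpow (abs_nonneg _) (norm_nonneg _),
      real_inner_smul_left]
    ring
  simp_rw [e1]
  rw [integral_const_mul, abs_mul]
  have hc := cross_term h0 h1 hM ho ha haa h2 hp
  have h3 : |p * |t| ^ (p - 2) * t| ≤ 3 := by
    rw [abs_mul, abs_mul, abs_of_nonneg (by linarith : 0 ≤ p),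
      abs_of_nonneg (Real.rpow_nonneg (abs_nonneg t) _)]
    have h4 : |t| ^ (p - 2) ≤ 1 := Real.rpow_le_one (abs_nonneg _) ht (by linarith)
    have h5 : 0 ≤ |t| ^ (p - 2) := Real.rpow_nonneg (abs_nonneg t) _
    calc p * |t| ^ (p - 2) * |t| ≤ 3 * 1 * 1 := by
          apply mul_le_mul _ ht (abs_nonneg _) (by norm_num)
          exact mul_le_mul hp h4 h5 (by norm_num)
      _ = 3 := by norm_num
  have h6 : 0 ≤ (p - 2) * (1 + M ^ 2) * a := by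
    have : 0 ≤ p - 2 := by linarith
    positivity
  calc |p * |t| ^ (p - 2) * t| * |∫ x, ‖X₀ x‖ ^ (p - 2) * ⟪X₀ x, X₁ x⟫_ℝ ∂μ|
      ≤ 3 * ((p - 2) * (1 + M ^ 2) * a) := mul_le_mul h3 hc (abs_nonneg _) (by norm_num)
    _ = _ := by ring

theorem lowint_main_term {X₀ : X → F} {p : ℝ} {t : ℝ} :
    ∫ x, ‖t • X₀ x‖ ^ p ∂μ = |t| ^ p * ∫ x, ‖X₀ x‖ ^ p ∂μ := by
  rw [← integral_const_mul]
  apply integral_congr_ae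
  filter_upwards with x
  rw [norm_smul, Real.norm_eq_abs, Real.mul_rpow (abs_nonneg _) (norm_nonneg _)]

/-- Integrate `lindq` (with `a = t•X₀`, `b = X₁`), `‖t•X₀‖^(p-2) = |t|^(p-2)‖X₀‖^(p-2)`,
`cross_term`, `|t|^(p-1) ≤ 1`, `p ≤ 3`, `jensen_pow`. -/
theorem low_int [IsProbabilityMeasure μ] {X₀ X₁ : X → F} (h0 : BM μ X₀) (h1 : BM μ X₁)
    {M : ℝ} (hM : ∀ x, ‖X₀ x‖ ≤ M) (ho : ∫ x, ⟪X₀ x, X₁ x⟫_ℝ ∂μ = 0) {a : ℝ} (ha : 0 ≤ a)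
    (haa : ∫ x, ‖X₁ x‖ ^ 2 ∂μ = a ^ 2) {p : ℝ} (h2 : 2 ≤ p) (hp : p ≤ 2.02) {t : ℝ}
    (ht : |t| ≤ 1) :
    |t| ^ p * (∫ x, ‖X₀ x‖ ^ p ∂μ) - 3 * (p - 2) * (1 + M ^ 2) * a + 0.9 * a ^ p ≤
      ∫ x, ‖t • X₀ x + X₁ x‖ ^ p ∂μ := by
  have hp3 : p ≤ 3 := by norm_num at hp ⊢; linarith
  have i1 : Integrable (fun x => ‖t • X₀ x‖ ^ p) μ :=
    ((h0.smul t).norm_rpow (by linarith)).integrable
  have i2 : Integrable (fun x => p * ‖t • X₀ x‖ ^ (p - 2) * ⟪t • X₀ x, X₁ x⟫_ℝ) μ := by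
    have := (((h0.smul t).norm_rpow (p := p - 2) (by linarith)).mul
      ((h0.smul t).inner h1)).integrable.const_mul p
    refine this.congr (Eventually.of_forall fun x => ?_)
    simp only
    ring
  have i3 : Integrable (fun x => 0.9 * ‖X₁ x‖ ^ p) μ :=
    (h1.norm_rpow (by linarith)).integrable.const_mul _
  have i4 : Integrable (fun x => ‖t • X₀ x + X₁ x‖ ^ p) μ :=
    (((h0.smul t).add h1).norm_rpow (by linarith)).integrable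
  have key : ∫ x, (‖t • X₀ x‖ ^ p + p * ‖t • X₀ x‖ ^ (p - 2) * ⟪t • X₀ x, X₁ x⟫_ℝ +
      0.9 * ‖X₁ x‖ ^ p) ∂μ ≤ ∫ x, ‖t • X₀ x + X₁ x‖ ^ p ∂μ :=
    integral_mono ((i1.add i2).add i3) i4 fun x => lindq h2 hp _ _
  have i12 : Integrable (fun x => ‖t • X₀ x‖ ^ p +
      p * ‖t • X₀ x‖ ^ (p - 2) * ⟪t • X₀ x, X₁ x⟫_ℝ) μ := i1.add i2
  rw [integral_add i12 i3, integral_add i1 i2, integral_const_mul, lowint_main_term] at key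
  have hc := (abs_le.1 (lowint_cross h0 h1 hM ho ha haa h2 hp3 ht)).1
  have hj := jensen_pow h1 ha haa h2
  norm_num at key ⊢
  linarith

/-- Integrate `upq` (with `a = t•Y₀`, `b = Y₁`): `p(p-1)/2 ≤ 1+2(p-2)`,
`(‖tY₀‖+‖Y₁‖)^(p-2) ≤ 1+(p-2)(M+‖Y₁‖)` (Bernoulli), `‖Y₁‖³ ≤ (‖Y₁‖²+‖Y₁‖⁴)/2`, `cross_term`. -/
theorem up_int [IsProbabilityMeasure μ] {Y₀ Y₁ : X → F} (h0 : BM μ Y₀) (h1 : BM μ Y₁)
    {M : ℝ} (hM : ∀ x, ‖Y₀ x‖ ≤ M) (ho : ∫ x, ⟪Y₀ x, Y₁ x⟫_ℝ ∂μ = 0) {b : ℝ} (hb : 0 ≤ b)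
    (hbb : ∫ x, ‖Y₁ x‖ ^ 2 ∂μ = b ^ 2) {p : ℝ} (h2 : 2 ≤ p) (hp : p ≤ 3) {t : ℝ}
    (ht : |t| ≤ 1) :
    ∫ x, ‖t • Y₀ x + Y₁ x‖ ^ p ∂μ ≤ |t| ^ p * (∫ x, ‖Y₀ x‖ ^ p ∂μ) +
      3 * (p - 2) * (1 + M ^ 2) * b + (1 + 2 * (p - 2)) * (b ^ 2 * (1 + (p - 2) * M) +
        (p - 2) * ((b ^ 2 + ∫ x, ‖Y₁ x‖ ^ 4 ∂μ) / 2)) := by
  have he : 0 ≤ p - 2 := by linarith
  have i1 : Integrable (fun x => ‖t • Y₀ x‖ ^ p) μ :=
    ((h0.smul t).norm_rpow (by linarith)).integrable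
  have i2 : Integrable (fun x => p * ‖t • Y₀ x‖ ^ (p - 2) * ⟪t • Y₀ x, Y₁ x⟫_ℝ) μ := by
    have := (((h0.smul t).norm_rpow (p := p - 2) (by linarith)).mul
      ((h0.smul t).inner h1)).integrable.const_mul p
    refine this.congr (Eventually.of_forall fun x => ?_)
    simp only
    ring
  have i3 : Integrable (fun x => ‖Y₁ x‖ ^ 2) μ := (h1.norm_pow 2).integrable
  have i5 : Integrable (fun x => ‖Y₁ x‖ ^ 4) μ := (h1.norm_pow 4).integrable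
  have i4 : Integrable (fun x => ‖t • Y₀ x + Y₁ x‖ ^ p) μ :=
    (((h0.smul t).add h1).norm_rpow (by linarith)).integrable
  have i6 : Integrable (fun x => (1 + 2 * (p - 2)) * (‖Y₁ x‖ ^ 2 * (1 + (p - 2) * M) +
      (p - 2) * ((‖Y₁ x‖ ^ 2 + ‖Y₁ x‖ ^ 4) / 2))) μ :=
    ((i3.mul_const _).add (((i3.add i5).div_const 2).const_mul _)).const_mul _
  have i12 : Integrable (fun x => ‖t • Y₀ x‖ ^ p +
      p * ‖t • Y₀ x‖ ^ (p - 2) * ⟪t • Y₀ x, Y₁ x⟫_ℝ) μ := i1.add i2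
  have key : ∫ x, ‖t • Y₀ x + Y₁ x‖ ^ p ∂μ ≤ ∫ x, (‖t • Y₀ x‖ ^ p +
      p * ‖t • Y₀ x‖ ^ (p - 2) * ⟪t • Y₀ x, Y₁ x⟫_ℝ +
      (1 + 2 * (p - 2)) * (‖Y₁ x‖ ^ 2 * (1 + (p - 2) * M) +
      (p - 2) * ((‖Y₁ x‖ ^ 2 + ‖Y₁ x‖ ^ 4) / 2))) ∂μ := by
    refine integral_mono i4 (i12.add i6) fun x => ?_
    have hu := upq h2 hp (t • Y₀ x) (Y₁ x)
    have hn0 : ‖t • Y₀ x‖ ≤ M := by
      rw [norm_smul, Real.norm_eq_abs]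
      calc |t| * ‖Y₀ x‖ ≤ 1 * ‖Y₀ x‖ := mul_le_mul_of_nonneg_right ht (norm_nonneg _)
        _ ≤ M := by rw [one_mul]; exact hM x
    have hn1 : 0 ≤ ‖Y₁ x‖ := norm_nonneg _
    have hn2 : 0 ≤ ‖t • Y₀ x‖ := norm_nonneg _
    have hB : (‖t • Y₀ x‖ + ‖Y₁ x‖) ^ (p - 2) ≤ 1 + (p - 2) * (M + ‖Y₁ x‖) := by
      have := rpow_one_add_le_one_add_mul_self (s := ‖t • Y₀ x‖ + ‖Y₁ x‖ - 1)
        (by linarith) he (by linarith : p - 2 ≤ 1)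
      rw [add_sub_cancel] at this
      refine this.trans ?_
      have : (p - 2) * (‖t • Y₀ x‖ + ‖Y₁ x‖ - 1) ≤ (p - 2) * (M + ‖Y₁ x‖) :=
        mul_le_mul_of_nonneg_left (by linarith) he
      linarith
    have hpp : p * (p - 1) / 2 ≤ 1 + 2 * (p - 2) := by nlinarith
    have hM0 : 0 ≤ M := hn2.trans hn0
    have h7 : p * (p - 1) / 2 * (‖t • Y₀ x‖ + ‖Y₁ x‖) ^ (p - 2) * ‖Y₁ x‖ ^ 2 ≤
        (1 + 2 * (p - 2)) * (‖Y₁ x‖ ^ 2 * (1 + (p - 2) * M) +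
        (p - 2) * ((‖Y₁ x‖ ^ 2 + ‖Y₁ x‖ ^ 4) / 2)) := by
      calc p * (p - 1) / 2 * (‖t • Y₀ x‖ + ‖Y₁ x‖) ^ (p - 2) * ‖Y₁ x‖ ^ 2
          ≤ (1 + 2 * (p - 2)) * (1 + (p - 2) * (M + ‖Y₁ x‖)) * ‖Y₁ x‖ ^ 2 := by
            apply mul_le_mul_of_nonneg_right _ (sq_nonneg _)
            exact mul_le_mul hpp hB (Real.rpow_nonneg (by linarith) _) (by linarith)
        _ = (1 + 2 * (p - 2)) * (‖Y₁ x‖ ^ 2 * (1 + (p - 2) * M) +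
            (p - 2) * ‖Y₁ x‖ ^ 3) := by ring
        _ ≤ _ := by
            apply mul_le_mul_of_nonneg_left _ (by linarith)
            have h8 : ‖Y₁ x‖ ^ 3 ≤ (‖Y₁ x‖ ^ 2 + ‖Y₁ x‖ ^ 4) / 2 := by
              nlinarith [sq_nonneg (‖Y₁ x‖ - 1), sq_nonneg (‖Y₁ x‖),
                mul_nonneg (sq_nonneg (‖Y₁ x‖)) (sq_nonneg (‖Y₁ x‖ - 1))]
            have := mul_le_mul_of_nonneg_left h8 he
            linarith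
    simp only
    linarith
  have i7 : Integrable (fun x => ‖Y₁ x‖ ^ 2 * (1 + (p - 2) * M)) μ := i3.mul_const _
  have i8 : Integrable (fun x => (p - 2) * ((‖Y₁ x‖ ^ 2 + ‖Y₁ x‖ ^ 4) / 2)) μ :=
    ((i3.add i5).div_const 2).const_mul _
  rw [integral_add i12 i6, integral_add i1 i2, lowint_main_term, integral_const_mul,
    integral_add i7 i8, integral_mul_const, hbb, integral_const_mul, integral_div,
    integral_add i3 i5, hbb] at key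
  have hc := (abs_le.1 (lowint_cross h0 h1 hM ho hb hbb h2 hp ht)).2
  linarith

end Pool.Agent.PL2
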