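import Pool.Agent.PL2.NumDefs
import Pool.Agent.PL2.Fub

open MeasureTheory Set Metric Filter Topology
open scoped ENNReal ContDiff InnerProductSpace

namespace Pool.Agent.PL2

open Pool.Agent.PLap94

/-! Moments. `∫₀¹ cos(mπx)^n dx = 0` (`n` odd), `= C(n, n/2)/2^n` (`n` even), `m = 1, 2`.
Suggested: bivariate integer polynomials as `List (List ℤ)` with `add`, `mul`, an evaluation map
(`eval (mul P Q) = eval P * eval Q`), a moment functional `∫ eval P (cos mπx₀) (cos mπx₁) = mom P`,
and `decide +kernel` / `rfl` for the final numbers (the degree in each variable is at most 32). -/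

/-! ### Polynomials in one variable -/

/-- evaluation -/
def nmEv1 : List ℤ → ℝ → ℝ
  | [], _ => 0
  | c :: p, v => (c : ℝ) + v * nmEv1 p v

/-- addition -/
def nmAdd1 : List ℤ → List ℤ → List ℤ
  | [], q => q
  | p, [] => p
  | a :: p, b :: q => (a + b) :: nmAdd1 p q

/-- scalar multiplication -/
def nmSmul1 (c : ℤ) : List ℤ → List ℤ
  | [] => []
  | a :: p => c * a :: nmSmul1 c p

/-- multiplication -/
def nmMul1 : List ℤ → List ℤ → List ℤ
  | [], _ => []
  | a :: p, q => nmAdd1 (nmSmul1 a q) (0 :: nmMul1 p q)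

theorem nmEv1_add (p q : List ℤ) (v : ℝ) : nmEv1 (nmAdd1 p q) v = nmEv1 p v + nmEv1 q v := by
  induction p generalizing q with
  | nil => simp [nmAdd1, nmEv1]
  | cons a p ih =>
    cases q with
    | nil => simp [nmAdd1, nmEv1]
    | cons b q =>
      simp only [nmAdd1, nmEv1, ih]
      push_cast
      ring

theorem nmEv1_smul (c : ℤ) (p : List ℤ) (v : ℝ) : nmEv1 (nmSmul1 c p) v = c * nmEv1 p v := by
  induction p with
  | nil => simp [nmSmul1, nmEv1]
  | cons a p ih =>
    simp only [nmSmul1, nmEv1, ih]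
    push_cast
    ring

theorem nmEv1_mul (p q : List ℤ) (v : ℝ) : nmEv1 (nmMul1 p q) v = nmEv1 p v * nmEv1 q v := by
  induction p with
  | nil => simp [nmMul1, nmEv1]
  | cons a p ih =>
    simp only [nmMul1, nmEv1_add, nmEv1_smul, nmEv1, ih]
    push_cast
    ring

/-! ### Polynomials in two variables -/

/-- evaluation -/
def nmEv2 : List (List ℤ) → ℝ → ℝ → ℝ
  | [], _, _ => 0
  | p :: P, u, v => nmEv1 p v + u * nmEv2 P u v

/-- addition -/
def nmAdd2 : List (List ℤ) → List (List ℤ) → List (List ℤ)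
  | [], Q => Q
  | P, [] => P
  | p :: P, q :: Q => nmAdd1 p q :: nmAdd2 P Q

/-- multiplication by a polynomial in the second variable -/
def nmSmul2 (p : List ℤ) : List (List ℤ) → List (List ℤ)
  | [] => []
  | q :: Q => nmMul1 p q :: nmSmul2 p Q

/-- multiplication -/
def nmMul2 : List (List ℤ) → List (List ℤ) → List (List ℤ)
  | [], _ => []
  | p :: P, Q => nmAdd2 (nmSmul2 p Q) ([] :: nmMul2 P Q)

/-- powers -/
def nmPow (P : List (List ℤ)) : ℕ → List (List ℤ)
  | 0 => [[1]]
  | n + 1 => nmMul2 P (nmPow P n)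

theorem nmEv2_add (P Q : List (List ℤ)) (u v : ℝ) :
    nmEv2 (nmAdd2 P Q) u v = nmEv2 P u v + nmEv2 Q u v := by
  induction P generalizing Q with
  | nil => simp [nmAdd2, nmEv2]
  | cons a P ih =>
    cases Q with
    | nil => simp [nmAdd2, nmEv2]
    | cons b Q =>
      simp only [nmAdd2, nmEv2, ih, nmEv1_add]
      ring

theorem nmEv2_smul (p : List ℤ) (Q : List (List ℤ)) (u v : ℝ) :
    nmEv2 (nmSmul2 p Q) u v = nmEv1 p v * nmEv2 Q u v := by
  induction Q with
  | nil => simp [nmSmul2, nmEv2]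
  | cons q Q ih =>
    simp only [nmSmul2, nmEv2, ih, nmEv1_mul]
    ring

theorem nmEv2_mul (P Q : List (List ℤ)) (u v : ℝ) :
    nmEv2 (nmMul2 P Q) u v = nmEv2 P u v * nmEv2 Q u v := by
  induction P with
  | nil => simp [nmMul2, nmEv2]
  | cons p P ih =>
    simp only [nmMul2, nmEv2_add, nmEv2_smul, nmEv2, nmEv1, ih]
    ring

theorem nmEv2_pow (P : List (List ℤ)) (n : ℕ) (u v : ℝ) :
    nmEv2 (nmPow P n) u v = nmEv2 P u v ^ n := by
  induction n with
  | zero => simp [nmPow, nmEv2, nmEv1]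
  | succ n ih =>
    rw [nmPow, nmEv2_mul, ih]
    ring

theorem nmEv1_continuous (p : List ℤ) : Continuous (nmEv1 p) := by
  induction p with
  | nil => exact continuous_const
  | cons a p ih => exact continuous_const.add (continuous_id.mul ih)

theorem nmEv2_continuous (P : List (List ℤ)) : Continuous fun w : ℝ × ℝ => nmEv2 P w.1 w.2 := by
  induction P with
  | nil => exact continuous_const
  | cons a p ih =>
    exact ((nmEv1_continuous a).comp continuous_snd).add (continuous_fst.mul ih)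

/-! ### Moments of the cosine -/

/-- the moments -/
noncomputable def nmJ (c : ℝ) (n : ℕ) : ℝ := ∫ a in (0 : ℝ)..1, Real.cos (c * a) ^ n

theorem nmJ_zero (c : ℝ) : nmJ c 0 = 1 := by
  simp [nmJ]

theorem nmJ_one {c : ℝ} (hc : 0 < c) (hs : Real.sin c = 0) : nmJ c 1 = 0 := by
  unfold nmJ
  have h := intervalIntegral.integral_comp_mul_left (a := 0) (b := 1) (fun a => Real.cos a ^ 1)
    hc.ne'
  rw [h]
  simp [hs]

theorem nmJ_succ {c : ℝ} (hc : 0 < c) (hs : Real.sin c = 0) (n : ℕ) :
    nmJ c (n + 2) = (n + 1) / (n + 2) * nmJ c n := by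
  unfold nmJ
  have h := intervalIntegral.integral_comp_mul_left (a := 0) (b := 1)
    (fun a => Real.cos a ^ (n + 2)) hc.ne'
  have h' := intervalIntegral.integral_comp_mul_left (a := 0) (b := 1)
    (fun a => Real.cos a ^ n) hc.ne'
  rw [h, h', integral_cos_pow]
  simp only [mul_one, mul_zero, Real.sin_zero, hs, smul_eq_mul]
  ring

/-- `2^32` times the moments -/
def nmW : List ℤ := [4294967296, 0, 2147483648, 0, 1610612736, 0, 1342177280, 0, 1174405120, 0,
  1056964608, 0, 968884224, 0, 899678208, 0, 843448320, 0, 796590080, 0, 756760576, 0, 722362368,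
  0, 692263936, 0, 665638400, 0, 641865600, 0, 620470080, 0, 601080390]

theorem nmW_rec : ∀ i < 31, ((i + 2 : ℕ) : ℤ) * nmW.getD (i + 2) 0 = ((i + 1 : ℕ) : ℤ) * nmW.getD i 0 := by
  decide +kernel

theorem nmJ_eq {c : ℝ} (hc : 0 < c) (hs : Real.sin c = 0) (n : ℕ) (hn : n < 33) :
    nmJ c n * 2 ^ 32 = (nmW.getD n 0 : ℤ) := by
  induction n using Nat.strong_induction_on with
  | _ n ih =>
    match n with
    | 0 =>
      rw [nmJ_zero]
      norm_num [nmW]
    | 1 =>
      rw [nmJ_one hc hs]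
      norm_num [nmW]
    | n + 2 =>
      rw [nmJ_succ hc hs]
      have h1 := ih n (by omega) (by omega)
      have h2 := nmW_rec n (by omega)
      have h3 : (((n + 2 : ℕ) : ℤ) : ℝ) * (nmW.getD (n + 2) 0 : ℤ) =
          (((n + 1 : ℕ) : ℤ) : ℝ) * (nmW.getD n 0 : ℤ) := by
        exact_mod_cast h2
      push_cast at h3
      have h4 : ((n : ℝ) + 2) ≠ 0 := by positivity
      rw [mul_assoc, h1]
      field_simp
      linarith

/-- dot product -/
def nmDot : List ℤ → List ℤ → ℤ
  | c :: p, w :: W => c * w + nmDot p W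
  | _, _ => 0

theorem nmInt1 {c : ℝ} {W : List ℤ} {n : ℕ}
    (hW : ∀ i, i < W.length → nmJ c (n + i) * 2 ^ 32 = (W.getD i 0 : ℤ)) (p : List ℤ)
    (hp : p.length ≤ W.length) :
    ∫ a in (0 : ℝ)..1, Real.cos (c * a) ^ n * nmEv1 p (Real.cos (c * a)) =
      (nmDot p W : ℝ) / 2 ^ 32 := by
  induction p generalizing W n with
  | nil =>
    cases W <;> simp [nmEv1, nmDot]
  | cons a p ih =>
    cases W with
    | nil => simp at hp
    | cons w W =>
      have h0 := hW 0 (by simp)
      simp only [List.getD_cons_zero, add_zero] at h0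
      have h1 := ih (W := W) (n := n + 1) (by
        intro i hi
        have := hW (i + 1) (by simpa using hi)
        simpa [add_assoc, add_comm 1 i] using this) (by simpa using hp)
      have hc1 : Continuous fun x : ℝ => Real.cos (c * x) ^ n * (a : ℝ) := by fun_prop
      have hc2 : Continuous fun x : ℝ => Real.cos (c * x) ^ (n + 1) *
          nmEv1 p (Real.cos (c * x)) := by
        have := nmEv1_continuous p
        fun_prop
      have h2 : (fun x : ℝ => Real.cos (c * x) ^ n * nmEv1 (a :: p) (Real.cos (c * x))) =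
          fun x => Real.cos (c * x) ^ n * (a : ℝ) + Real.cos (c * x) ^ (n + 1) *
            nmEv1 p (Real.cos (c * x)) := by
        funext x
        simp only [nmEv1]
        ring
      rw [h2, intervalIntegral.integral_add (hc1.intervalIntegrable _ _)
        (hc2.intervalIntegrable _ _), h1, intervalIntegral.integral_mul_const]
      simp only [nmDot]
      unfold nmJ at h0
      push_cast
      rw [← h0]
      field_simp

/-- row moments -/
def nmRow (W : List ℤ) : List (List ℤ) → List ℤ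
  | [] => []
  | p :: P => nmDot p W :: nmRow W P

theorem nmRow_length (W : List ℤ) (P : List (List ℤ)) : (nmRow W P).length = P.length := by
  induction P with
  | nil => rfl
  | cons p P ih => simp [nmRow, ih]

theorem nmInt2 {c : ℝ} (hW : ∀ i, i < nmW.length → nmJ c i * 2 ^ 32 = (nmW.getD i 0 : ℤ))
    {W : List ℤ} {n : ℕ}
    (hW' : ∀ i, i < W.length → nmJ c (n + i) * 2 ^ 32 = (W.getD i 0 : ℤ)) (P : List (List ℤ))
    (hP : P.length ≤ W.length) (hP' : ∀ p ∈ P, p.length ≤ nmW.length) :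
    ∫ x, Real.cos (c * x 0) ^ n * nmEv2 P (Real.cos (c * x 0)) (Real.cos (c * x 1)) ∂μS =
      (nmDot (nmRow nmW P) W : ℝ) / 2 ^ 64 := by
  induction P generalizing W n with
  | nil =>
    cases W <;> simp [nmEv2, nmDot, nmRow]
  | cons p P ih =>
    cases W with
    | nil => simp at hP
    | cons w W =>
      have h0 := hW' 0 (by simp)
      simp only [List.getD_cons_zero, add_zero] at h0
      have h1 := ih (W := W) (n := n + 1) (by
        intro i hi
        have := hW' (i + 1) (by simpa using hi)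
        simpa [add_assoc, add_comm 1 i] using this) (by simpa using hP)
        (fun q hq => hP' q (List.mem_cons_of_mem _ hq))
      have hp1 := nmInt1 (c := c) (W := nmW) (n := 0) (by simpa using hW) p
        (hP' p List.mem_cons_self)
      simp only [pow_zero, one_mul] at hp1
      have hx0 : Continuous fun x : E2 => x 0 := by fun_prop
      have hx1 : Continuous fun x : E2 => x 1 := by fun_prop
      have hc1 : Continuous fun x : E2 => Real.cos (c * x 0) ^ n * nmEv1 p (Real.cos (c * x 1)) := by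
        have := nmEv1_continuous p
        fun_prop
      have hc2 : Continuous fun x : E2 => Real.cos (c * x 0) ^ (n + 1) *
          nmEv2 P (Real.cos (c * x 0)) (Real.cos (c * x 1)) := by
        have h := (nmEv2_continuous P).comp
          (g := fun w : ℝ × ℝ => nmEv2 P w.1 w.2)
          (f := fun x : E2 => (Real.cos (c * x 0), Real.cos (c * x 1))) (by fun_prop)
        have h' : Continuous fun x : E2 => Real.cos (c * x 0) ^ (n + 1) := by fun_prop
        exact h'.mul h
      have h2 : (fun x : E2 => Real.cos (c * x 0) ^ n *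
          nmEv2 (p :: P) (Real.cos (c * x 0)) (Real.cos (c * x 1))) =
          fun x => Real.cos (c * x 0) ^ n * nmEv1 p (Real.cos (c * x 1)) +
            Real.cos (c * x 0) ^ (n + 1) * nmEv2 P (Real.cos (c * x 0)) (Real.cos (c * x 1)) := by
        funext x
        simp only [nmEv2]
        ring
      rw [h2, integral_add (integrable_muS hc1) (integrable_muS hc2), h1]
      have h3 := integral_muS_mul (f := fun a => Real.cos (c * a) ^ n)
        (g := fun b => nmEv1 p (Real.cos (c * b))) (by fun_prop) (by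
          have := nmEv1_continuous p
          fun_prop)
      rw [h3, hp1]
      simp only [nmDot, nmRow]
      unfold nmJ at h0
      push_cast
      rw [← h0]
      field_simp

/-- check of a moment -/
def nmChk (P : List (List ℤ)) (a b : ℤ) : Bool :=
  decide (P.length ≤ 33) && P.all (fun p => decide (p.length ≤ 33)) &&
    decide (nmDot (nmRow nmW P) nmW * b = a * 2 ^ 64)

theorem nmMain {c : ℝ} (hc : 0 < c) (hs : Real.sin c = 0) {f : E2 → ℝ} {P : List (List ℤ)}
    (hf : ∀ x, f x = nmEv2 P (Real.cos (c * x 0)) (Real.cos (c * x 1))) (n : ℕ) (a b : ℤ)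
    (hb : b ≠ 0) (h : nmChk (nmPow P n) a b = true) : ∫ x, f x ^ n ∂μS = a / b := by
  unfold nmChk at h
  rw [Bool.and_eq_true, Bool.and_eq_true, decide_eq_true_iff, decide_eq_true_iff,
    List.all_eq_true] at h
  obtain ⟨⟨h1, h2⟩, h3⟩ := h
  have hW : ∀ i, i < nmW.length → nmJ c i * 2 ^ 32 = (nmW.getD i 0 : ℤ) :=
    fun i hi => nmJ_eq hc hs i hi
  have h4 := nmInt2 (c := c) hW (W := nmW) (n := 0) (by simpa using hW) (nmPow P n) h1
    (fun p hp => by
      have h := h2 p hp
      rw [decide_eq_true_iff] at h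
      exact h)
  simp only [pow_zero, one_mul, nmEv2_pow, ← hf] at h4
  rw [h4]
  have h5 : (nmDot (nmRow nmW (nmPow P n)) nmW : ℝ) * b = a * 2 ^ 64 := by exact_mod_cast h3
  have hb' : (b : ℝ) ≠ 0 := by exact_mod_cast hb
  field_simp
  linarith

def nmSmid : List (List ℤ) := [[2, 2], [], [6, -10]]
def nmVmid : List (List ℤ) := [[2, -2], [], [-2, 2]]
def nmSdiag : List (List ℤ) := [[16, 0, -40, 0, 32], [0, -32, 0, 48], [-40, 0, 80, 0, -40],
  [0, 48, 0, -64], [32, 0, -40]]
def nmVdiag : List (List ℤ) := [[0, 0, 8, 0, -8], [0, 16, 0, -16], [8, 0, -16, 0, 8],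
  [0, -16, 0, 16], [-8, 0, 8]]

theorem nmSmid_eq (x : E2) : smid x =
    nmEv2 nmSmid (Real.cos (2 * Real.pi * x 0)) (Real.cos (2 * Real.pi * x 1)) := by
  simp only [smid, nmSmid, nmEv2, nmEv1]
  push_cast
  ring

theorem nmVmid_eq (x : E2) : vmid x =
    nmEv2 nmVmid (Real.cos (2 * Real.pi * x 0)) (Real.cos (2 * Real.pi * x 1)) := by
  simp only [vmid, nmVmid, nmEv2, nmEv1]
  push_cast
  ring

theorem nmSdiag_eq (x : E2) : sdiag x =
    nmEv2 nmSdiag (Real.cos (Real.pi * x 0)) (Real.cos (Real.pi * x 1)) := by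
  simp only [sdiag, nmSdiag, nmEv2, nmEv1]
  push_cast
  ring

theorem nmVdiag_eq (x : E2) : vdiag x =
    nmEv2 nmVdiag (Real.cos (Real.pi * x 0)) (Real.cos (Real.pi * x 1)) := by
  simp only [vdiag, nmVdiag, nmEv2, nmEv1]
  push_cast
  ring

theorem nmTwoPi : 0 < 2 * Real.pi := Real.two_pi_pos

theorem mom_smid : (∫ x, smid x ^ 1 ∂μS = 5) ∧ (∫ x, smid x ^ 2 ∂μS = 161 / 4) ∧
    (∫ x, smid x ^ 3 ∂μS = 1685 / 4) ∧ (∫ x, smid x ^ 4 ∂μS = 322489 / 64) ∧
    (∫ x, smid x ^ 5 ∂μS = 4139125 / 64) ∧ (∫ x, smid x ^ 6 ∂μS = 221572025 / 256) ∧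
    (∫ x, smid x ^ 7 ∂μS = 3048815125 / 256) := by
  have h := fun n a b hb hh => nmMain nmTwoPi Real.sin_two_pi nmSmid_eq n a b hb hh
  refine ⟨?_, ?_, ?_, ?_, ?_, ?_, ?_⟩
  · simpa using h 1 5 1 (by norm_num) (by decide +kernel)
  · simpa using h 2 161 4 (by norm_num) (by decide +kernel)
  · simpa using h 3 1685 4 (by norm_num) (by decide +kernel)
  · simpa using h 4 322489 64 (by norm_num) (by decide +kernel)
  · simpa using h 5 4139125 64 (by norm_num) (by decide +kernel)
  · simpa using h 6 221572025 256 (by norm_num) (by decide +kernel)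
  · simpa using h 7 3048815125 256 (by norm_num) (by decide +kernel)

theorem mom_sdiag : (∫ x, sdiag x ^ 1 ∂μS = 5) ∧ (∫ x, sdiag x ^ 2 ∂μS = 325 / 8) ∧
    (∫ x, sdiag x ^ 3 ∂μS = 12811 / 32) ∧ (∫ x, sdiag x ^ 4 ∂μS = 2256165 / 512) ∧
    (∫ x, sdiag x ^ 5 ∂μS = 26643475 / 512) ∧ (∫ x, sdiag x ^ 6 ∂μS = 10568515175 / 16384) ∧
    (∫ x, sdiag x ^ 7 ∂μS = 271528796425 / 32768) ∧
    (∫ x, sdiag x ^ 8 ∂μS = 229499160258197 / 2097152) := by
  have h := fun n a b hb hh => nmMain Real.pi_pos Real.sin_pi nmSdiag_eq n a b hb hh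
  refine ⟨?_, ?_, ?_, ?_, ?_, ?_, ?_, ?_⟩
  · simpa using h 1 5 1 (by norm_num) (by decide +kernel)
  · simpa using h 2 325 8 (by norm_num) (by decide +kernel)
  · simpa using h 3 12811 32 (by norm_num) (by decide +kernel)
  · simpa using h 4 2256165 512 (by norm_num) (by decide +kernel)
  · simpa using h 5 26643475 512 (by norm_num) (by decide +kernel)
  · simpa using h 6 10568515175 16384 (by norm_num) (by decide +kernel)
  · simpa using h 7 271528796425 32768 (by norm_num) (by decide +kernel)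
  · simpa using h 8 229499160258197 2097152 (by norm_num) (by decide +kernel)

theorem mom_vmid : (∫ x, vmid x ^ 1 ∂μS = 1) ∧ (∫ x, vmid x ^ 2 ∂μS = 9 / 4) ∧
    (∫ x, vmid x ^ 3 ∂μS = 25 / 4) ∧ (∫ x, vmid x ^ 4 ∂μS = 1225 / 64) ∧
    (∫ x, vmid x ^ 5 ∂μS = 3969 / 64) ∧ (∫ x, vmid x ^ 6 ∂μS = 53361 / 256) ∧
    (∫ x, vmid x ^ 7 ∂μS = 184041 / 256) ∧ (∫ x, vmid x ^ 8 ∂μS = 41409225 / 16384) := by
  have h := fun n a b hb hh => nmMain nmTwoPi Real.sin_two_pi nmVmid_eq n a b hb hh
  refine ⟨?_, ?_, ?_, ?_, ?_, ?_, ?_, ?_⟩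
  · simpa using h 1 1 1 (by norm_num) (by decide +kernel)
  · simpa using h 2 9 4 (by norm_num) (by decide +kernel)
  · simpa using h 3 25 4 (by norm_num) (by decide +kernel)
  · simpa using h 4 1225 64 (by norm_num) (by decide +kernel)
  · simpa using h 5 3969 64 (by norm_num) (by decide +kernel)
  · simpa using h 6 53361 256 (by norm_num) (by decide +kernel)
  · simpa using h 7 184041 256 (by norm_num) (by decide +kernel)
  · simpa using h 8 41409225 16384 (by norm_num) (by decide +kernel)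

theorem mom_vdiag : (∫ x, vdiag x ^ 1 ∂μS = 1) ∧ (∫ x, vdiag x ^ 2 ∂μS = 21 / 8) ∧
    (∫ x, vdiag x ^ 3 ∂μS = 275 / 32) ∧ (∫ x, vdiag x ^ 4 ∂μS = 15925 / 512) ∧
    (∫ x, vdiag x ^ 5 ∂μS = 61047 / 512) ∧ (∫ x, vdiag x ^ 6 ∂μS = 7772919 / 16384) ∧
    (∫ x, vdiag x ^ 7 ∂μS = 63494145 / 32768) := by
  have h := fun n a b hb hh => nmMain Real.pi_pos Real.sin_pi nmVdiag_eq n a b hb hh
  refine ⟨?_, ?_, ?_, ?_, ?_, ?_, ?_⟩
  · simpa using h 1 1 1 (by norm_num) (by decide +kernel)
  · simpa using h 2 21 8 (by norm_num) (by decide +kernel)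
  · simpa using h 3 275 32 (by norm_num) (by decide +kernel)
  · simpa using h 4 15925 512 (by norm_num) (by decide +kernel)
  · simpa using h 5 61047 512 (by norm_num) (by decide +kernel)
  · simpa using h 6 7772919 16384 (by norm_num) (by decide +kernel)
  · simpa using h 7 63494145 32768 (by norm_num) (by decide +kernel)

end Pool.Agent.PL2
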