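import Pool.Agent.PL2.Defs

open MeasureTheory Set Metric Filter Topology
open scoped ENNReal ContDiff InnerProductSpace

namespace Pool.Agent.PL2

open Pool.Agent.PLap94

/-- `4/π² ‖∇ mode 1 0‖²` -/
noncomputable def smid (x : E2) : ℝ :=
  8 * Real.cos (2 * Real.pi * x 0) ^ 2 * (1 - Real.cos (2 * Real.pi * x 1)) +
    2 * (1 - Real.cos (2 * Real.pi * x 0) ^ 2) * (1 + Real.cos (2 * Real.pi * x 1))

/-- `4 (mode 1 0)²` -/
noncomputable def vmid (x : E2) : ℝ :=
  2 * (1 - Real.cos (2 * Real.pi * x 0) ^ 2) * (1 - Real.cos (2 * Real.pi * x 1))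

/-- `4/π² ‖∇ mode (1/√2) (1/√2)‖²` -/
noncomputable def sdiag (x : E2) : ℝ :=
  8 * ((1 - Real.cos (Real.pi * x 1) ^ 2) *
      (2 * Real.cos (Real.pi * x 0) ^ 2 - 1 +
        Real.cos (Real.pi * x 0) * Real.cos (Real.pi * x 1)) ^ 2 +
    (1 - Real.cos (Real.pi * x 0) ^ 2) *
      (2 * Real.cos (Real.pi * x 1) ^ 2 - 1 +
        Real.cos (Real.pi * x 0) * Real.cos (Real.pi * x 1)) ^ 2)

/-- `4 (mode (1/√2) (1/√2))²` -/
noncomputable def vdiag (x : E2) : ℝ :=
  8 * (1 - Real.cos (Real.pi * x 0) ^ 2) * (1 - Real.cos (Real.pi * x 1) ^ 2) *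
    (Real.cos (Real.pi * x 0) + Real.cos (Real.pi * x 1)) ^ 2

/-- lower bound of `t log t` used for `smid` -/
noncomputable def PA (t : ℝ) : ℝ :=
  (-135405 / 261287) + (-89 / 1000) * t + (188908903 / 266512740) * t ^ 2
    + (-5324323 / 44418790) * t ^ 3 + (568840 / 39976911) * t ^ 4 + (-1048 / 1025049) * t ^ 5
    + (4416 / 111046975) * t ^ 6 + (-128 / 199884555) * t ^ 7

/-- upper bound of `t log t` used for `sdiag` -/
noncomputable def PB (t : ℝ) : ℝ :=
  (-1999 / 2000) * t + (1930749 / 1426568) * t ^ 2 + (-2392469 / 6743776) * t ^ 3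
    + (6990937 / 111272304) * t ^ 4 + (-257041 / 37090768) * t ^ 5 + (21163 / 46363460) * t ^ 6
    + (-38 / 2318173) * t ^ 7 + (4 / 16227211) * t ^ 8

/-- upper bound of `t log t` used for `vmid` -/
noncomputable def PC (t : ℝ) : ℝ :=
  (-5159 / 2000) * t + (588131414 / 92010765) * t ^ 2 + (-144660112 / 19517435) * t ^ 3
    + (237948640 / 42938357) * t ^ 4 + (-15385280 / 6134051) * t ^ 5
    + (28602880 / 42938357) * t ^ 6 + (-4096000 / 42938357) * t ^ 7
    + (5120000 / 901705497) * t ^ 8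

/-- lower bound of `t log t` used for `vdiag` -/
noncomputable def PD (t : ℝ) : ℝ :=
  (-73642803 / 1127911190) + (-811 / 400) * t + (13223314490 / 3270942451) * t ^ 2
    + (-10043616850 / 3270942451) * t ^ 3 + (14353016000 / 9812827353) * t ^ 4
    + (-1300370000 / 3270942451) * t ^ 5 + (184960000 / 3270942451) * t ^ 6
    + (-32000000 / 9812827353) * t ^ 7

end Pool.Agent.PL2
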