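import Pool.Agent.PL2.Fub

open MeasureTheory Set Metric Filter Topology
open scoped ENNReal ContDiff InnerProductSpace Interval

namespace Pool.Agent.PL2

open Pool.Agent.PLap94

/-- continuous systems with `∫₀¹ f_i f_j = δ_{ij}/2` -/
structure Orth (f : ℕ → ℝ → ℝ) : Prop where
  cont : ∀ i, Continuous (f i)
  orth : ∀ i j, ∫ t in (0 : ℝ)..1, f i t * f j t = if i = j then 1 / 2 else 0

theorem orth_cos_int (m : ℤ) :
    ∫ t in (0 : ℝ)..1, Real.cos ((m : ℝ) * Real.pi * t) = if m = 0 then 1 else 0 := by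
  split_ifs with h
  · simp [h]
  · have hm : (m : ℝ) * Real.pi ≠ 0 := mul_ne_zero (by exact_mod_cast h) Real.pi_ne_zero
    rw [intervalIntegral.integral_comp_mul_left (fun t => Real.cos t) hm, integral_cos]
    simp [Real.sin_int_mul_pi]

theorem orth_cont_cos (m : ℤ) : Continuous fun t : ℝ => Real.cos ((m : ℝ) * Real.pi * t) := by
  fun_prop

theorem orth_sn : Orth sn := by
  refine ⟨fun i => ?_, fun i j => ?_⟩
  · unfold sn; fun_prop
  · have h1 : ∀ t, sn i t * sn j t = 1 / 2 * Real.cos ((((i : ℤ) - j : ℤ) : ℝ) * Real.pi * t) -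
        1 / 2 * Real.cos ((((i : ℤ) + j + 2 : ℤ) : ℝ) * Real.pi * t) := by
      intro t
      have e1 : (((i : ℤ) - j : ℤ) : ℝ) * Real.pi * t = kk i * t - kk j * t := by
        unfold kk; push_cast; ring
      have e2 : (((i : ℤ) + j + 2 : ℤ) : ℝ) * Real.pi * t = kk i * t + kk j * t := by
        unfold kk; push_cast; ring
      rw [e1, e2, Real.cos_sub, Real.cos_add]
      unfold sn
      ring
    simp_rw [h1]
    have c1 : Continuous fun t : ℝ => 1 / 2 * Real.cos ((((i : ℤ) - j : ℤ) : ℝ) * Real.pi * t) :=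
      continuous_const.mul (orth_cont_cos _)
    have c2 : Continuous fun t : ℝ => 1 / 2 * Real.cos ((((i : ℤ) + j + 2 : ℤ) : ℝ) * Real.pi * t) :=
      continuous_const.mul (orth_cont_cos _)
    rw [intervalIntegral.integral_sub (c1.intervalIntegrable _ _) (c2.intervalIntegrable _ _),
      intervalIntegral.integral_const_mul, intervalIntegral.integral_const_mul,
      orth_cos_int, orth_cos_int]
    have h2 : ((i : ℤ) + j + 2) ≠ 0 := by positivity
    rw [if_neg h2]
    by_cases hij : i = j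
    · simp [hij]
    · have h3 : ((i : ℤ) - j) ≠ 0 := by omega
      rw [if_neg h3, if_neg hij]
      ring

theorem orth_cs : Orth cs := by
  refine ⟨fun i => ?_, fun i j => ?_⟩
  · unfold cs; fun_prop
  · have h1 : ∀ t, cs i t * cs j t = 1 / 2 * Real.cos ((((i : ℤ) - j : ℤ) : ℝ) * Real.pi * t) +
        1 / 2 * Real.cos ((((i : ℤ) + j + 2 : ℤ) : ℝ) * Real.pi * t) := by
      intro t
      have e1 : (((i : ℤ) - j : ℤ) : ℝ) * Real.pi * t = kk i * t - kk j * t := by
        unfold kk; push_cast; ring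
      have e2 : (((i : ℤ) + j + 2 : ℤ) : ℝ) * Real.pi * t = kk i * t + kk j * t := by
        unfold kk; push_cast; ring
      rw [e1, e2, Real.cos_sub, Real.cos_add]
      unfold cs
      ring
    simp_rw [h1]
    have c1 : Continuous fun t : ℝ => 1 / 2 * Real.cos ((((i : ℤ) - j : ℤ) : ℝ) * Real.pi * t) :=
      continuous_const.mul (orth_cont_cos _)
    have c2 : Continuous fun t : ℝ => 1 / 2 * Real.cos ((((i : ℤ) + j + 2 : ℤ) : ℝ) * Real.pi * t) :=
      continuous_const.mul (orth_cont_cos _)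
    rw [intervalIntegral.integral_add (c1.intervalIntegrable _ _) (c2.intervalIntegrable _ _),
      intervalIntegral.integral_const_mul, intervalIntegral.integral_const_mul,
      orth_cos_int, orth_cos_int]
    have h2 : ((i : ℤ) + j + 2) ≠ 0 := by positivity
    rw [if_neg h2]
    by_cases hij : i = j
    · simp [hij]
    · have h3 : ((i : ℤ) - j) ≠ 0 := by omega
      rw [if_neg h3, if_neg hij]
      ring

theorem orth_cont_coord (i : Fin 2) : Continuous fun x : E2 => x i :=
  (EuclideanSpace.proj i : E2 →L[ℝ] ℝ).continuous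

theorem continuous_dsum {f g : ℕ → ℝ → ℝ} (hf : ∀ i, Continuous (f i))
    (hg : ∀ i, Continuous (g i)) (N : ℕ) (c : ℕ → ℕ → ℝ) : Continuous (dsum f g N c) := by
  unfold dsum
  refine continuous_finsetSum _ fun i _ => continuous_finsetSum _ fun j _ => ?_
  exact continuous_const.mul (((hf i).comp (orth_cont_coord 0)).mul ((hg j).comp (orth_cont_coord 1)))

theorem integral_dsum_mul {f g : ℕ → ℝ → ℝ} (hf : Orth f) (hg : Orth g) (N : ℕ)
    (c d : ℕ → ℕ → ℝ) : ∫ x, dsum f g N c x * dsum f g N d x ∂μS =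
      (∑ i ∈ Finset.range N, ∑ j ∈ Finset.range N, c i j * d i j) / 4 := by
  set s := Finset.range N ×ˢ Finset.range N with hs
  have h0 : ∀ (c : ℕ → ℕ → ℝ) (x : E2), dsum f g N c x =
      ∑ p ∈ s, c p.1 p.2 * (f p.1 (x 0) * g p.2 (x 1)) := by
    intro c x
    rw [hs, Finset.sum_product]
    rfl
  have h1 : ∀ x : E2, dsum f g N c x * dsum f g N d x =
      ∑ p ∈ s, ∑ q ∈ s, (c p.1 p.2 * d q.1 q.2) *
        ((f p.1 (x 0) * f q.1 (x 0)) * (g p.2 (x 1) * g q.2 (x 1))) := by
    intro x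
    rw [h0, h0, Finset.sum_mul_sum]
    refine Finset.sum_congr rfl fun p _ => Finset.sum_congr rfl fun q _ => ?_
    ring
  have hcont : ∀ p q : ℕ × ℕ, Continuous fun x : E2 => (c p.1 p.2 * d q.1 q.2) *
        ((f p.1 (x 0) * f q.1 (x 0)) * (g p.2 (x 1) * g q.2 (x 1))) := by
    intro p q
    have a1 := (hf.cont p.1).comp (orth_cont_coord 0)
    have a2 := (hf.cont q.1).comp (orth_cont_coord 0)
    have a3 := (hg.cont p.2).comp (orth_cont_coord 1)
    have a4 := (hg.cont q.2).comp (orth_cont_coord 1)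
    exact continuous_const.mul ((a1.mul a2).mul (a3.mul a4))
  have h2 : ∀ p q : ℕ × ℕ, ∫ x, (c p.1 p.2 * d q.1 q.2) *
        ((f p.1 (x 0) * f q.1 (x 0)) * (g p.2 (x 1) * g q.2 (x 1))) ∂μS =
        if p = q then c p.1 p.2 * d q.1 q.2 / 4 else 0 := by
    intro p q
    have h3 : ∫ x : E2, ((f p.1 (x 0) * f q.1 (x 0)) * (g p.2 (x 1) * g q.2 (x 1))) ∂μS =
        (∫ a in (0 : ℝ)..1, f p.1 a * f q.1 a) * ∫ b in (0 : ℝ)..1, g p.2 b * g q.2 b :=
      integral_muS_mul (f := fun t => f p.1 t * f q.1 t) (g := fun t => g p.2 t * g q.2 t)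
        ((hf.cont p.1).mul (hf.cont q.1)) ((hg.cont p.2).mul (hg.cont q.2))
    rw [integral_const_mul, h3, hf.orth, hg.orth]
    by_cases h : p = q
    · rw [if_pos h, h, if_pos rfl, if_pos rfl]; ring
    · rw [if_neg h]
      by_cases ha : p.1 = q.1
      · have hb : ¬ p.2 = q.2 := fun hb => h (Prod.ext ha hb)
        rw [if_neg hb]; ring
      · rw [if_neg ha]; ring
  simp_rw [h1]
  rw [integral_finsetSum _ fun p _ => integrable_finsetSum _ fun q _ => integrable_muS (hcont p q)]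
  have h3 : ∀ p ∈ s, ∫ x, ∑ q ∈ s, (c p.1 p.2 * d q.1 q.2) *
        ((f p.1 (x 0) * f q.1 (x 0)) * (g p.2 (x 1) * g q.2 (x 1))) ∂μS = c p.1 p.2 * d p.1 p.2 / 4 := by
    intro p hp
    rw [integral_finsetSum _ fun q _ => integrable_muS (hcont p q)]
    simp_rw [h2]
    rw [Finset.sum_ite_eq, if_pos hp]
  rw [Finset.sum_congr rfl h3, hs, Finset.sum_product, Finset.sum_div]
  refine Finset.sum_congr rfl fun i _ => ?_
  rw [Finset.sum_div]

end Pool.Agent.PL2
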