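import Pool.Agent.PL2.Calc
import Pool.Agent.PL2.Dens0

open MeasureTheory Set Metric Filter Topology
open scoped ENNReal ContDiff InnerProductSpace Interval

namespace Pool.Agent.PL2

open Pool.Agent.PLap94

/-- Projection of the coefficients on the constraint space. -/
noncomputable def proj (α β : ℝ) (c : ℕ → ℕ → ℝ) : ℕ → ℕ → ℝ := fun i j =>
  if i = 0 ∧ j = 0 then 0 else if i = 1 ∧ j = 0 then α * (α * c 1 0 + β * c 0 1)
    else if i = 0 ∧ j = 1 then β * (α * c 1 0 + β * c 0 1) else c i j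

theorem constr_proj (α β : ℝ) (c : ℕ → ℕ → ℝ) : Constr α β (proj α β c) := by
  unfold Constr proj
  constructor
  · simp
  · simp
    ring

/-- the coefficient array of `e₁` -/
noncomputable def proj_ce : ℕ → ℕ → ℝ := fun i j => if i = 0 ∧ j = 0 then 1 else 0

theorem proj_dsum_ce (f g : ℕ → ℝ → ℝ) (r : ℕ → ℕ → ℝ) {N : ℕ} (hN : 1 ≤ N) (x : E2) :
    dsum f g N (fun i j => r i j * proj_ce i j) x = r 0 0 * (f 0 (x 0) * g 0 (x 1)) := by
  unfold dsum
  rw [Finset.sum_eq_single 0]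
  · rw [Finset.sum_eq_single 0]
    · simp [proj_ce]
    · intro j _ hj
      simp [proj_ce, hj]
    · intro h
      exact absurd (Finset.mem_range.2 (by omega)) h
  · intro i _ hi
    apply Finset.sum_eq_zero
    intro j _
    simp [proj_ce, hi]
  · intro h
    exact absurd (Finset.mem_range.2 (by omega)) h

theorem proj_U_ce {N : ℕ} (hN : 2 ≤ N) (x : E2) : U N proj_ce x = e₁ x := by
  have h := proj_dsum_ce sn sn (fun _ _ => 1) (by omega : 1 ≤ N) x
  simp only [one_mul] at h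
  unfold U e₁
  exact h

theorem proj_gU_ce {N : ℕ} (hN : 2 ≤ N) (x : E2) :
    gU N proj_ce x = !₂[kk 0 * (cs 0 (x 0) * sn 0 (x 1)), kk 0 * (sn 0 (x 0) * cs 0 (x 1))] := by
  unfold gU
  rw [proj_dsum_ce cs sn (fun i _ => kk i) (by omega : 1 ≤ N) x,
    proj_dsum_ce sn cs (fun _ j => kk j) (by omega : 1 ≤ N) x]

/-- decomposition of the coefficients -/
theorem proj_decomp {α β : ℝ} (h : α ^ 2 + β ^ 2 = 1) (c : ℕ → ℕ → ℝ) :
    c = fun i j => c 0 0 * proj_ce i j + ((-β * c 1 0 + α * c 0 1) * cm (-β) α i j +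
      proj α β c i j) := by
  funext i j
  unfold proj_ce cm proj
  by_cases h00 : i = 0 ∧ j = 0
  · obtain ⟨rfl, rfl⟩ := h00
    simp
  · by_cases h10 : i = 1 ∧ j = 0
    · obtain ⟨rfl, rfl⟩ := h10
      simp
      have : β ^ 2 = 1 - α ^ 2 := by linarith
      linear_combination (c 1 0) * (-h)
    · by_cases h01 : i = 0 ∧ j = 1
      · obtain ⟨rfl, rfl⟩ := h01
        simp
        linear_combination (c 0 1) * (-h)
      · simp [h00, h10, h01]

/-- `U N (proj c) = U N c - c₀₀ e₁ - (-β c₁₀ + α c₀₁) mode (-β) α` -/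
theorem U_proj {α β : ℝ} (h : α ^ 2 + β ^ 2 = 1) {N : ℕ} (hN : 2 ≤ N) (c : ℕ → ℕ → ℝ) (x : E2) :
    U N (proj α β c) x = U N c x - c 0 0 * e₁ x -
      (-β * c 1 0 + α * c 0 1) * mode (-β) α x := by
  have h1 : U N c x = c 0 0 * e₁ x + ((-β * c 1 0 + α * c 0 1) * mode (-β) α x +
      U N (proj α β c) x) := by
    conv_lhs => rw [proj_decomp h c]
    rw [U_add_smul N (c 0 0) proj_ce, U_add_smul N (-β * c 1 0 + α * c 0 1) (cm (-β) α),
      proj_U_ce hN, U_cm hN]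
  linarith

theorem proj_gU {α β : ℝ} (h : α ^ 2 + β ^ 2 = 1) {N : ℕ} (hN : 2 ≤ N) (c : ℕ → ℕ → ℝ) (x : E2) :
    gU N c x = c 0 0 • gU N proj_ce x + ((-β * c 1 0 + α * c 0 1) • gmode (-β) α x +
      gU N (proj α β c) x) := by
  conv_lhs => rw [proj_decomp h c]
  rw [gU_add_smul N (c 0 0) proj_ce, gU_add_smul N (-β * c 1 0 + α * c 0 1) (cm (-β) α),
    gU_cm hN]

theorem proj_norm_le (a b : ℝ) : ‖(!₂[a, b] : E2)‖ ≤ |a| + |b| := by
  rw [EuclideanSpace.norm_eq]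
  simp only [Fin.sum_univ_two, Real.norm_eq_abs, sq_abs]
  apply Real.sqrt_le_iff.2
  constructor
  · positivity
  · show a ^ 2 + b ^ 2 ≤ _
    have h1 := sq_abs a
    have h2 := sq_abs b
    have h3 := mul_nonneg (abs_nonneg a) (abs_nonneg b)
    nlinarith

theorem proj_sn_le (i : ℕ) (x : ℝ) : |sn i x| ≤ 1 := Real.abs_sin_le_one _

theorem proj_cs_le (i : ℕ) (x : ℝ) : |cs i x| ≤ 1 := Real.abs_cos_le_one _

theorem proj_kk0 : kk 0 = Real.pi := by unfold kk; push_cast; ring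

theorem proj_kk1 : kk 1 = 2 * Real.pi := by unfold kk; push_cast; ring

theorem proj_mul_le {a b : ℝ} (ha : |a| ≤ 1) (hb : |b| ≤ 1) : |a * b| ≤ 1 := by
  rw [abs_mul]
  exact mul_le_one₀ ha (abs_nonneg _) hb

theorem proj_coef {α β : ℝ} (h : α ^ 2 + β ^ 2 = 1) : |α| ≤ 1 ∧ |β| ≤ 1 := by
  constructor
  · exact abs_le_one_iff_mul_self_le_one.2 (by nlinarith [sq_nonneg β])
  · exact abs_le_one_iff_mul_self_le_one.2 (by nlinarith [sq_nonneg α])

theorem proj_mode_le {α β : ℝ} (h : α ^ 2 + β ^ 2 = 1) (x : E2) : |mode (-β) α x| ≤ 2 := by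
  obtain ⟨ha, hb⟩ := proj_coef h
  unfold mode
  have h1 := proj_mul_le (proj_sn_le 1 (x 0)) (proj_sn_le 0 (x 1))
  have h2 := proj_mul_le (proj_sn_le 0 (x 0)) (proj_sn_le 1 (x 1))
  have h3 : |-β| ≤ 1 := by rw [abs_neg]; exact hb
  have h4 := proj_mul_le h3 h1
  have h5 := proj_mul_le ha h2
  exact (abs_add_le _ _).trans (by linarith)

theorem proj_e₁_le (x : E2) : |e₁ x| ≤ 1 := proj_mul_le (proj_sn_le 0 (x 0)) (proj_sn_le 0 (x 1))

theorem proj_gmode_le {α β : ℝ} (h : α ^ 2 + β ^ 2 = 1) (x : E2) : ‖gmode (-β) α x‖ ≤ 30 := by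
  obtain ⟨ha, hb⟩ := proj_coef h
  have hb' : |-β| ≤ 1 := by rw [abs_neg]; exact hb
  have hpi := Real.pi_lt_four
  have hpi0 := Real.pi_pos
  unfold gmode
  refine (proj_norm_le _ _).trans ?_
  have key : ∀ (a u v k : ℝ), |a| ≤ 1 → |u| ≤ 1 → |v| ≤ 1 → 0 ≤ k → |a * (k * (u * v))| ≤ k := by
    intro a u v k h1 h2 h3 hk
    have h4 := proj_mul_le h2 h3
    have h5 : a * (k * (u * v)) = k * (a * (u * v)) := by ring
    rw [h5, abs_mul, abs_of_nonneg hk]
    have h6 := proj_mul_le h1 h4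
    calc k * |a * (u * v)| ≤ k * 1 := mul_le_mul_of_nonneg_left h6 hk
      _ = k := mul_one k
  have hk0 : 0 ≤ kk 0 := by rw [proj_kk0]; exact hpi0.le
  have hk1 : 0 ≤ kk 1 := by rw [proj_kk1]; linarith
  have e1 := key (-β) _ _ (kk 1) hb' (proj_cs_le 1 (x 0)) (proj_sn_le 0 (x 1)) hk1
  have e2 := key α _ _ (kk 0) ha (proj_cs_le 0 (x 0)) (proj_sn_le 1 (x 1)) hk0
  have e3 := key (-β) _ _ (kk 0) hb' (proj_sn_le 1 (x 0)) (proj_cs_le 0 (x 1)) hk0
  have e4 := key α _ _ (kk 1) ha (proj_sn_le 0 (x 0)) (proj_cs_le 1 (x 1)) hk1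
  rw [proj_kk1] at e1 e4
  rw [proj_kk0] at e2 e3
  rw [proj_kk0, proj_kk1]
  have f1 := abs_add_le (-β * (2 * Real.pi * (cs 1 (x 0) * sn 0 (x 1))))
    (α * (Real.pi * (cs 0 (x 0) * sn 1 (x 1))))
  have f2 := abs_add_le (-β * (Real.pi * (sn 1 (x 0) * cs 0 (x 1))))
    (α * (2 * Real.pi * (sn 0 (x 0) * cs 1 (x 1))))
  linarith

theorem proj_ge₁_le {N : ℕ} (hN : 2 ≤ N) (x : E2) : ‖gU N proj_ce x‖ ≤ 30 := by
  rw [proj_gU_ce hN]
  have hpi := Real.pi_lt_four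
  have hpi0 := Real.pi_pos
  refine (proj_norm_le _ _).trans ?_
  have h1 := proj_mul_le (proj_cs_le 0 (x 0)) (proj_sn_le 0 (x 1))
  have h2 := proj_mul_le (proj_sn_le 0 (x 0)) (proj_cs_le 0 (x 1))
  rw [proj_kk0, abs_mul Real.pi, abs_mul Real.pi, abs_of_pos hpi0]
  nlinarith

theorem norm_gU_sub_proj_le {α β : ℝ} (h : α ^ 2 + β ^ 2 = 1) {N : ℕ} (hN : 2 ≤ N)
    (c : ℕ → ℕ → ℝ) (x : E2) :
    ‖gU N c x - gU N (proj α β c) x‖ ≤ 30 * (|c 0 0| + |-β * c 1 0 + α * c 0 1|) := by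
  have h1 : gU N c x - gU N (proj α β c) x = c 0 0 • gU N proj_ce x +
      (-β * c 1 0 + α * c 0 1) • gmode (-β) α x := by
    rw [proj_gU h hN c x]
    abel
  rw [h1]
  refine (norm_add_le _ _).trans ?_
  rw [norm_smul, norm_smul, Real.norm_eq_abs, Real.norm_eq_abs]
  have h2 := mul_le_mul_of_nonneg_left (proj_ge₁_le hN x) (abs_nonneg (c 0 0))
  have h3 := mul_le_mul_of_nonneg_left (proj_gmode_le h x) (abs_nonneg (-β * c 1 0 + α * c 0 1))
  linarith

/-- the projection of a function on the constraint space -/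
noncomputable def prF (α β : ℝ) (g : E2 → ℝ) (x : E2) : ℝ :=
  g x - 4 * (∫ y, g y * e₁ y ∂μS) * e₁ x - 4 * (∫ y, g y * mode (-β) α y ∂μS) * mode (-β) α x

theorem proj_continuous_e₁ : Continuous e₁ := by
  unfold e₁ sn kk
  fun_prop

/-- `dens0` with tolerance `δ/20`, then project; `c₀₀ = 4∫U e₁`, `-βc₁₀+αc₀₁ = 4∫U mode(-β)α`. -/
theorem dens0_proj {α β : ℝ} (h : α ^ 2 + β ^ 2 = 1) {g : E2 → ℝ} (hg : Continuous g)
    (hgc : HasCompactSupport g) (hgs : tsupport g ⊆ square) {δ : ℝ} (hδ : 0 < δ) :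
    ∃ (N : ℕ) (c : ℕ → ℕ → ℝ), 2 ≤ N ∧ Constr α β c ∧
      ∀ x ∈ square, |prF α β g x - U N c x| ≤ δ := by
  obtain ⟨N, c, hN, hc⟩ := dens0 hg hgc hgs (show 0 < δ / 40 by positivity)
  refine ⟨N, proj α β c, hN, constr_proj α β c, ?_⟩
  have hUc : Continuous (U N c) := (contDiff_U N c).continuous
  have hae : ∀ᵐ x ∂μS, x ∈ square := ae_restrict_mem measurableSet_square
  -- integrals against a bounded continuous function
  have key : ∀ (w : E2 → ℝ) (K : ℝ), Continuous w → (∀ x, |w x| ≤ K) →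
      |4 * (∫ y, g y * w y ∂μS) - 4 * (∫ y, U N c y * w y ∂μS)| ≤ 4 * (δ / 40 * K) := by
    intro w K hw hK
    have h1 : 4 * (∫ y, g y * w y ∂μS) - 4 * (∫ y, U N c y * w y ∂μS) =
        4 * ∫ y, (g y - U N c y) * w y ∂μS := by
      have h0 := integral_sub (integrable_muS (hg.mul hw)) (integrable_muS (hUc.mul hw))
      simp only [Pi.mul_apply] at h0
      rw [← mul_sub, ← h0]
      congr 1
      apply integral_congr_ae
      filter_upwards with y
      ring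
    rw [h1, abs_mul, abs_of_pos (by norm_num : (0 : ℝ) < 4)]
    apply mul_le_mul_of_nonneg_left _ (by norm_num)
    have h2 := norm_integral_le_of_norm_le_const (μ := μS) (f := fun y => (g y - U N c y) * w y)
      (C := δ / 40 * K) (by
        filter_upwards [hae] with y hy
        rw [norm_mul, Real.norm_eq_abs, Real.norm_eq_abs]
        exact mul_le_mul (hc y hy) (hK y) (abs_nonneg _) (by positivity))
    simpa using h2
  have k1 := key e₁ 1 proj_continuous_e₁ proj_e₁_le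
  have k2 := key (mode (-β) α) 2 (continuous_mode _ _) (proj_mode_le h)
  have i1 := integral_U_mul_e₁ hN c
  have i2 := integral_U_mul_mode hN (-β) α c
  rw [i1] at k1
  rw [i2] at k2
  intro x hx
  have hx1 := hc x hx
  rw [U_proj h hN c x]
  unfold prF
  set I1 := ∫ y, g y * e₁ y ∂μS with hI1
  set I2 := ∫ y, g y * mode (-β) α y ∂μS with hI2
  have e : g x - 4 * I1 * e₁ x - 4 * I2 * mode (-β) α x -
      (U N c x - c 0 0 * e₁ x - (-β * c 1 0 + α * c 0 1) * mode (-β) α x) =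
      (g x - U N c x) - (4 * I1 - 4 * (c 0 0 / 4)) * e₁ x -
        (4 * I2 - 4 * ((-β * c 1 0 + α * c 0 1) / 4)) * mode (-β) α x := by ring
  rw [e]
  have f1 : |(4 * I1 - 4 * (c 0 0 / 4)) * e₁ x| ≤ 4 * (δ / 40 * 1) * 1 := by
    rw [abs_mul]
    exact mul_le_mul k1 (proj_e₁_le x) (abs_nonneg _) (by positivity)
  have f2 : |(4 * I2 - 4 * ((-β * c 1 0 + α * c 0 1) / 4)) * mode (-β) α x| ≤
      4 * (δ / 40 * 2) * 2 := by
    rw [abs_mul]
    exact mul_le_mul k2 (proj_mode_le h x) (abs_nonneg _) (by positivity)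
  have g1 := abs_sub ((g x - U N c x) - (4 * I1 - 4 * (c 0 0 / 4)) * e₁ x)
    ((4 * I2 - 4 * ((-β * c 1 0 + α * c 0 1) / 4)) * mode (-β) α x)
  have g2 := abs_sub (g x - U N c x) ((4 * I1 - 4 * (c 0 0 / 4)) * e₁ x)
  linarith

end Pool.Agent.PL2
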