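import Pool.Agent.PL2.Gap
import Pool.Agent.PL2.Abs

open MeasureTheory Set Metric Filter Topology
open scoped ENNReal ContDiff InnerProductSpace Interval

namespace Pool.Agent.PL2

open Pool.Agent.PLap94

theorem trig_L₂_pos : 0 < L₂ := by
  unfold L₂
  have := Real.pi_pos
  positivity

theorem trig_inner_real (a b : ℝ) : ⟪a, b⟫_ℝ = a * b := by simp [mul_comm]

/-- `abstract_lower` with `X₀ = gmode`, `Y₀ = mode`, `X₁ = gU N (high c)`,
`Y₁ = U N (high c)`, `lam = L₂`, `C = 2`. -/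
theorem primal_trig {α β : ℝ} (h : α ^ 2 + β ^ 2 = 1) {η : ℝ} (hη : 0 < η) :
    ∃ δ > 0, ∀ p, 2 < p → p < 2 + δ → ∀ (N : ℕ) (c : ℕ → ℕ → ℝ), 2 ≤ N → Constr α β c →
      (Ray α β p - η * (p - 2)) * Nn p (U N c) ≤ Nn p (gU N c) := by
  obtain ⟨δ, hδ, H⟩ := abstract_lower (μ := μS) (bm_gmode α β) (bm_mode α β) (lam := L₂) (C := 2)
    trig_L₂_pos (by norm_num) hη (by rw [integral_mode_sq h]; norm_num)
    (by rw [integral_mode_sq h, integral_gmode_sq h]; ring)
  refine ⟨δ, hδ, fun p hp1 hp2 N c hN hc => ?_⟩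
  set t := α * c 1 0 + β * c 0 1 with ht
  have hU : ∀ x, U N c x = t • mode α β x + U N (high c) x := by
    intro x
    have h1 : c = fun i j => t * cm α β i j + high c i j := by
      funext i j
      exact constr_decomp h hc i j
    have h2 : U N c x = U N (fun i j => t * cm α β i j + high c i j) x := by rw [← h1]
    rw [h2, U_add_smul, U_cm hN, smul_eq_mul]
  have hgU : ∀ x, gU N c x = t • gmode α β x + gU N (high c) x := by
    intro x
    have h1 : c = fun i j => t * cm α β i j + high c i j := by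
      funext i j
      exact constr_decomp h hc i j
    have h2 : gU N c x = gU N (fun i j => t * cm α β i j + high c i j) x := by rw [← h1]
    rw [h2, gU_add_smul, gU_cm hN]
  have h3 := H p hp1 hp2 (gU N (high c)) (U N (high c)) t (bm_gU _ _) (bm_U _ _)
    (integral_inner_gmode_high hN α β c)
    (by
      simp_rw [trig_inner_real]
      exact integral_mode_mul_high hN α β c)
    (gap_primal N c) (L4_primal N (high c))
  unfold Ray Nn
  simp_rw [hU, hgU]
  exact h3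

theorem trig_lapInv_high (c : ℕ → ℕ → ℝ) : lapInv (high c) = high (lapInv c) := by
  funext i j
  unfold lapInv high
  split_ifs <;> simp

/-- `abstract_lower` with `X₀ = mode`, `Y₀ = L₂⁻¹ • gmode`, `X₁ = U N (high c)`,
`Y₁ = gU N (lapInv (high c))`, `lam = L₂`, `C = 8`. -/
theorem dual_trig {α β : ℝ} (h : α ^ 2 + β ^ 2 = 1) {η : ℝ} (hη : 0 < η) :
    ∃ δ > 0, ∀ q, 2 < q → q < 2 + δ → ∀ (N : ℕ) (c : ℕ → ℕ → ℝ), 2 ≤ N → Constr α β c →
      (L₂ ^ q / Ray α β q - η * (q - 2)) * Nn q (gU N (lapInv c)) ≤ Nn q (U N c) := by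
  have hL := trig_L₂_pos
  have hbm : BM μS (fun x => L₂⁻¹ • gmode α β x) := by
    obtain ⟨h1, K, hK⟩ := bm_gmode α β
    refine ⟨h1.const_smul (L₂⁻¹ : ℝ), L₂⁻¹ * K, fun x => ?_⟩
    rw [norm_smul, Real.norm_eq_abs, abs_of_pos (inv_pos.2 hL)]
    exact mul_le_mul_of_nonneg_left (hK x) (inv_pos.2 hL).le
  have hY : ∫ x, ‖L₂⁻¹ • gmode α β x‖ ^ 2 ∂μS = L₂⁻¹ / 4 := by
    have h1 : ∀ x, ‖L₂⁻¹ • gmode α β x‖ ^ 2 = L₂⁻¹ ^ 2 * ‖gmode α β x‖ ^ 2 := by
      intro x
      rw [norm_smul, mul_pow, Real.norm_eq_abs, sq_abs]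
    simp_rw [h1]
    rw [integral_const_mul, integral_gmode_sq h]
    field_simp
  obtain ⟨δ, hδ, H⟩ := abstract_lower (μ := μS) (bm_mode α β) hbm (lam := L₂) (C := 8)
    hL (by norm_num) hη (by rw [hY]; positivity)
    (by rw [integral_mode_sq h, hY]; field_simp)
  refine ⟨δ, hδ, fun q hq1 hq2 N c hN hc => ?_⟩
  set t := α * c 1 0 + β * c 0 1 with ht
  have hdec : c = fun i j => t * cm α β i j + high c i j := by
    funext i j
    exact constr_decomp h hc i j
  have hU : ∀ x, U N c x = t • mode α β x + U N (high c) x := by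
    intro x
    have h2 : U N c x = U N (fun i j => t * cm α β i j + high c i j) x := by rw [← hdec]
    rw [h2, U_add_smul, U_cm hN, smul_eq_mul]
  have hgU : ∀ x, gU N (lapInv c) x =
      t • (L₂⁻¹ • gmode α β x) + gU N (lapInv (high c)) x := by
    intro x
    have h1 : lapInv c = fun i j => (t * L₂⁻¹) * cm α β i j + lapInv (high c) i j := by
      funext i j
      have h2 := constr_decomp h hc i j
      have h3 := lapInv_cm α β i j
      unfold lapInv at h3 ⊢
      calc c i j / (kk i ^ 2 + kk j ^ 2) =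
          (t * cm α β i j + high c i j) / (kk i ^ 2 + kk j ^ 2) := by rw [h2]
        _ = t * (cm α β i j / (kk i ^ 2 + kk j ^ 2)) + high c i j / (kk i ^ 2 + kk j ^ 2) := by
          rw [add_div, mul_div_assoc]
        _ = _ := by rw [h3]; ring
    have h2 : gU N (lapInv c) x =
        gU N (fun i j => (t * L₂⁻¹) * cm α β i j + lapInv (high c) i j) x := by rw [← h1]
    rw [h2, gU_add_smul, gU_cm hN, mul_smul]
  have h3 := H q hq1 hq2 (U N (high c)) (gU N (lapInv (high c))) t (bm_U _ _) (bm_gU _ _)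
    (by
      simp_rw [trig_inner_real]
      exact integral_mode_mul_high hN α β c)
    (by
      rw [trig_lapInv_high]
      have h4 : ∀ x, ⟪L₂⁻¹ • gmode α β x, gU N (high (lapInv c)) x⟫_ℝ =
          L₂⁻¹ * ⟪gmode α β x, gU N (high (lapInv c)) x⟫_ℝ := fun x => real_inner_smul_left _ _ _
      simp_rw [h4]
      rw [integral_const_mul, integral_inner_gmode_high hN, mul_zero])
    (gap_dual N c) (L4_dual N (high c))
  have h5 : ∫ x, ‖L₂⁻¹ • gmode α β x‖ ^ q ∂μS = (L₂ ^ q)⁻¹ * ∫ x, ‖gmode α β x‖ ^ q ∂μS := by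
    have h6 : ∀ x, ‖L₂⁻¹ • gmode α β x‖ ^ q = (L₂ ^ q)⁻¹ * ‖gmode α β x‖ ^ q := by
      intro x
      rw [norm_smul, Real.norm_eq_abs, abs_of_pos (inv_pos.2 hL),
        Real.mul_rpow (inv_pos.2 hL).le (norm_nonneg _), Real.inv_rpow hL.le]
    simp_rw [h6]
    rw [integral_const_mul]
  rw [h5] at h3
  have h7 : L₂ ^ q / Ray α β q = (∫ x, ‖mode α β x‖ ^ q ∂μS) /
      ((L₂ ^ q)⁻¹ * ∫ x, ‖gmode α β x‖ ^ q ∂μS) := by
    unfold Ray Nn
    rw [div_div_eq_mul_div, div_mul_eq_div_div, div_inv_eq_mul, mul_comm (L₂ ^ q)]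
  rw [h7]
  unfold Nn
  simp_rw [hU, hgU]
  exact h3

end Pool.Agent.PL2
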